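import Pool.Agent.Lib.MP_629a14_nt.Kp.PfRL

/-! The pairs of small arcs which meet two centred arcs and have a large sum. -/

set_option autoImplicit false

namespace Pool.Agent.Lib.MP_629a14_nt.Kp.R

open Finset Filter Topology Pool.Agent.Lib.MP_629a14_nt Pool.Agent.Lib.MP_629a14_nt.Rob

/-- The trapezoid is the sum of the convolution of two intervals of the line and its translate. -/
theorem trap_line {a b z : ℝ} (ha : 0 ≤ a) (ha1 : a ≤ 1) (hb : 0 ≤ b) (hb1 : b ≤ 1)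
    (hz : 0 ≤ z) (hz1 : z ≤ 1 / 2) : trap a b z =
      max 0 (min (min a b) ((a + b) / 2 - z)) + max 0 (min (min a b) ((a + b) / 2 - (1 - z))) := by
  unfold trap
  simp only [min_def, max_def]
  split_ifs <;> linarith

/-- The convolution of two intervals of the line. -/
noncomputable def tl (a b z : ℝ) : ℝ := max 0 (min (min a b) ((a + b) / 2 - z))

theorem tl_nonneg (a b z : ℝ) : 0 ≤ tl a b z := le_max_left _ _

theorem tl_anti (a b : ℝ) : Antitone (tl a b) := by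
  intro x y hxy
  unfold tl
  exact max_le_max le_rfl (min_le_min le_rfl (by linarith))

theorem tl_cont (a b : ℝ) : Continuous (tl a b) := by
  unfold tl
  fun_prop

theorem tl_le_one {a b : ℝ} (ha1 : a ≤ 1) (z : ℝ) : tl a b z ≤ 1 := by
  unfold tl
  exact max_le zero_le_one ((min_le_left _ _).trans ((min_le_left _ _).trans ha1))

theorem int_tl {a b x : ℝ} (ha : 0 ≤ a) (ha1 : a ≤ 1) (hb : 0 ≤ b) (hb1 : b ≤ 1)
    (hx : 0 ≤ x) (hx1 : x ≤ 1 / 2) :
    ∫ z in x..(1 - x), tl a b z = ∫ z in x..(1 / 2), trap a b z := by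
  have hi : ∀ p q : ℝ, IntervalIntegrable (tl a b) MeasureTheory.volume p q :=
    fun p q => (tl_cont a b).intervalIntegrable p q
  have hi2 : ∀ p q : ℝ, IntervalIntegrable (fun z => tl a b (1 - z)) MeasureTheory.volume p q :=
    fun p q => ((tl_cont a b).comp (by fun_prop : Continuous fun z : ℝ => 1 - z)).intervalIntegrable
      p q
  rw [← intervalIntegral.integral_add_adjacent_intervals (hi x (1 / 2)) (hi (1 / 2) (1 - x))]
  have h1 : ∫ z in (1 / 2 : ℝ)..(1 - x), tl a b z = ∫ z in x..(1 / 2), tl a b (1 - z) := by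
    rw [intervalIntegral.integral_comp_sub_left (tl a b) 1]
    norm_num
  rw [h1, ← intervalIntegral.integral_add (hi _ _) (hi2 _ _)]
  refine intervalIntegral.integral_congr fun z hz => ?_
  rw [Set.uIcc_of_le hx1] at hz
  show tl a b z + tl a b (1 - z) = trap a b z
  rw [trap_line ha ha1 hb hb1 (hx.trans hz.1) hz.2]
  rfl

open Classical in
/-- The pairs of arcs of the grid. -/
noncomputable def prs2 (J : ℕ) (a b x : ℝ) : Finset (ℕ × ℕ) :=
  (range J ×ˢ range J).filter (fun h => ∃ s s' : ℝ, (h.1 : ℝ) / J ≤ s ∧ s < ((h.1 : ℝ) + 1) / J ∧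
    (h.2 : ℝ) / J ≤ s' ∧ s' < ((h.2 : ℝ) + 1) / J ∧ |s - round s| < a / 2 ∧
    |s' - round s'| < b / 2 ∧ x ≤ |s + s' - round (s + s')|)

theorem card_slice (p q : ℝ) :
    ((Finset.Icc (⌊p⌋ + 1) (⌈q⌉ - 1)).card : ℝ) ≤ max 0 (q - p + 1) := by
  rw [Int.card_Icc]
  have h1 : (((⌈q⌉ - 1 + 1 - (⌊p⌋ + 1)).toNat : ℤ) : ℝ) =
      max (((⌈q⌉ - 1 + 1 - (⌊p⌋ + 1) : ℤ)) : ℝ) 0 := by
    rw [Int.toNat_eq_max]
    push_cast
    rfl
  have h2 : (((⌈q⌉ - 1 + 1 - (⌊p⌋ + 1)).toNat : ℕ) : ℝ) =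
      (((⌈q⌉ - 1 + 1 - (⌊p⌋ + 1)).toNat : ℤ) : ℝ) := by norm_cast
  rw [h2, h1, max_comm]
  apply max_le_max le_rfl
  push_cast
  have h3 := Int.ceil_lt_add_one q
  have h4 := Int.sub_one_lt_floor p
  linarith

/-- The cells of the plane. -/
noncomputable def Tp (J : ℕ) (a b x : ℝ) : Finset (ℤ × ℤ) :=
  (Finset.Icc ⌈(J : ℝ) * x⌉₊ (⌊(J : ℝ) * (1 - x)⌋₊ + 2)).biUnion fun k =>
    (Finset.Icc (⌊max (-(J * (a / 2)) - 1) ((k : ℝ) - 2 - J * (b / 2))⌋ + 1)
      (⌈min (J * (a / 2)) ((k : ℝ) - 2 + J * (b / 2) + 1)⌉ - 1)).image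
      fun i : ℤ => (i, (k : ℤ) - 2 - i)

theorem mem_Tp {J : ℕ} {a b x : ℝ} (hx : 0 ≤ x) (hx1 : x ≤ 1 / 2) {i j : ℤ}
    (h1 : -(J * (a / 2)) - 1 < (i : ℝ)) (h2 : (i : ℝ) < J * (a / 2))
    (h3 : -(J * (b / 2)) - 1 < (j : ℝ)) (h4 : (j : ℝ) < J * (b / 2))
    (h5 : (J : ℝ) * x - 2 ≤ i + j) (h6 : (i : ℝ) + j ≤ J * (1 - x)) : (i, j) ∈ Tp J a b x := by
  have hJ : (0 : ℝ) ≤ J := Nat.cast_nonneg _
  have h7 : 0 ≤ i + j + 2 := by
    have h50 : 0 ≤ (J : ℝ) * x := mul_nonneg hJ hx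
    have h51 : (-2 : ℝ) ≤ (i : ℝ) + j := by linarith
    have : (-2 : ℤ) ≤ i + j := by exact_mod_cast h51
    omega
  obtain ⟨k, hk⟩ := Int.eq_ofNat_of_zero_le h7
  have hk' : (k : ℝ) = i + j + 2 := by
    have : ((k : ℤ) : ℝ) = ((i + j + 2 : ℤ) : ℝ) := by rw [hk]
    push_cast at this
    exact this
  unfold Tp
  rw [Finset.mem_biUnion]
  refine ⟨k, ?_, ?_⟩
  · rw [Finset.mem_Icc]
    constructor
    · rw [Nat.ceil_le]
      linarith
    · have h8 : ((k : ℤ) - 2) ≤ (⌊(J : ℝ) * (1 - x)⌋₊ : ℤ) := by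
        rw [Int.natCast_floor_eq_floor (mul_nonneg hJ (by linarith)), Int.le_floor]
        push_cast
        linarith
      omega
  · rw [Finset.mem_image]
    refine ⟨i, ?_, ?_⟩
    · rw [Finset.mem_Icc]
      constructor
      · have : ⌊max (-(J * (a / 2)) - 1) ((k : ℝ) - 2 - J * (b / 2))⌋ < i := by
          rw [Int.floor_lt]
          exact max_lt h1 (by linarith)
        omega
      · have : i < ⌈min ((J : ℝ) * (a / 2)) ((k : ℝ) - 2 + J * (b / 2) + 1)⌉ := by
          rw [Int.lt_ceil]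
          exact lt_min h2 (by linarith)
        omega
    · ext
      · rfl
      · show (k : ℤ) - 2 - i = j
        have : (k : ℤ) = i + j + 2 := hk.symm
        omega

theorem card_Tp {J : ℕ} (hJ : 1 ≤ J) {a b x : ℝ} (ha : 0 ≤ a) (ha1 : a ≤ 1) (hb : 0 ≤ b)
    (hb1 : b ≤ 1) (hx : 0 ≤ x) (hx1 : x ≤ 1 / 2) :
    ((Tp J a b x).card : ℝ) ≤ J ^ 2 * (∫ z in x..(1 / 2), trap a b z) + 50 * J := by
  have hJr : (1 : ℝ) ≤ J := by exact_mod_cast hJ
  have hJ0 : (J : ℝ) ≠ 0 := by positivity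
  set k₀ := ⌈(J : ℝ) * x⌉₊ with hk0
  set k₁ := ⌊(J : ℝ) * (1 - x)⌋₊ + 2 with hk1
  have hk0' : (J : ℝ) * x ≤ k₀ := Nat.le_ceil _
  have hk1' : (k₁ : ℝ) ≤ J * (1 - x) + 2 := by
    rw [hk1]
    push_cast
    have := Nat.floor_le (a := (J : ℝ) * (1 - x)) (mul_nonneg (by linarith) (by linarith))
    linarith
  -- one fibre
  have hfib : ∀ k ∈ Finset.Icc k₀ k₁,
      (((Finset.Icc (⌊max (-(J * (a / 2)) - 1) ((k : ℝ) - 2 - J * (b / 2))⌋ + 1)
      (⌈min (J * (a / 2)) ((k : ℝ) - 2 + J * (b / 2) + 1)⌉ - 1)).image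
      fun i : ℤ => (i, (k : ℤ) - 2 - i)).card : ℝ) ≤ J * tl a b (((k + 1 : ℕ) : ℝ) / J - 3 / J) + 2 := by
    intro k _
    have h1 := card_slice (max (-(J * (a / 2)) - 1) ((k : ℝ) - 2 - J * (b / 2)))
      (min (J * (a / 2)) ((k : ℝ) - 2 + J * (b / 2) + 1))
    refine le_trans (by exact_mod_cast Finset.card_image_le) (h1.trans ?_)
    have hk : (0 : ℝ) ≤ k := Nat.cast_nonneg _
    set p := max (-(J * (a / 2)) - 1) ((k : ℝ) - 2 - J * (b / 2)) with hp
    set q := min (J * (a / 2)) ((k : ℝ) - 2 + J * (b / 2) + 1) with hq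
    have hp1 : -(J * (a / 2)) - 1 ≤ p := le_max_left _ _
    have hp2 : (k : ℝ) - 2 - J * (b / 2) ≤ p := le_max_right _ _
    have hq1 : q ≤ J * (a / 2) := min_le_left _ _
    have hq2 : q ≤ (k : ℝ) - 2 + J * (b / 2) + 1 := min_le_right _ _
    have e : ((k + 1 : ℕ) : ℝ) / J - 3 / J = ((k : ℝ) - 2) / J := by
      push_cast
      ring
    rw [e]
    have ht := tl_nonneg a b (((k : ℝ) - 2) / J)
    refine max_le (by positivity) ?_
    have h2 : (q - p - 1) / J ≤ min (min a b) ((a + b) / 2 - ((k : ℝ) - 2) / J) := by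
      refine le_min (le_min ?_ ?_) ?_
      · rw [div_le_iff₀ (by linarith)]
        nlinarith
      · rw [div_le_iff₀ (by linarith)]
        nlinarith
      · rw [le_sub_iff_add_le, ← add_div, div_le_iff₀ (by linarith)]
        nlinarith
    have h3 : (q - p - 1) / J ≤ tl a b (((k : ℝ) - 2) / J) := h2.trans (le_max_right _ _)
    rw [div_le_iff₀ (by linarith)] at h3
    nlinarith
  have h1 : ((Tp J a b x).card : ℝ) ≤
      ∑ k ∈ Finset.Icc k₀ k₁, (J * tl a b (((k + 1 : ℕ) : ℝ) / J - 3 / J) + 2) := by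
    have h2 : (Tp J a b x).card ≤ ∑ k ∈ Finset.Icc k₀ k₁,
        ((Finset.Icc (⌊max (-(J * (a / 2)) - 1) ((k : ℝ) - 2 - J * (b / 2))⌋ + 1)
        (⌈min (J * (a / 2)) ((k : ℝ) - 2 + J * (b / 2) + 1)⌉ - 1)).image
        fun i : ℤ => (i, (k : ℤ) - 2 - i)).card := Finset.card_biUnion_le
    refine (Nat.cast_le.2 h2).trans ?_
    rw [Nat.cast_sum]
    exact Finset.sum_le_sum fun k hk => hfib k hk
  have hint0 : 0 ≤ ∫ z in x..(1 / 2), trap a b z :=
    intervalIntegral.integral_nonneg hx1 fun z hz => trap_nonneg ha hb z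
  rcases lt_or_ge k₁ k₀ with hlt | hle
  · rw [Finset.Icc_eq_empty (by omega), Finset.sum_empty] at h1
    exact h1.trans (by positivity)
  have hcard : ((Finset.Icc k₀ k₁).card : ℝ) ≤ 4 * J := by
    rw [Nat.card_Icc, Nat.cast_sub (by omega)]
    push_cast
    nlinarith
  have hI : Finset.Icc k₀ k₁ = Finset.Ico k₀ (k₁ + 1) := by
    ext k
    simp only [Finset.mem_Icc, Finset.mem_Ico]
    omega
  have h3 : ∑ k ∈ Finset.Icc k₀ k₁, tl a b (((k + 1 : ℕ) : ℝ) / J - 3 / J) ≤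
      ∫ y in (k₀ : ℝ)..((k₁ + 1 : ℕ) : ℝ), tl a b (y / J - 3 / J) := by
    rw [hI]
    refine AntitoneOn.sum_le_integral_Ico (f := fun y : ℝ => tl a b (y / J - 3 / J)) (by omega) ?_
    intro y _ y' _ hyy
    exact tl_anti a b (by gcongr)
  have h4 : ∫ y in (k₀ : ℝ)..((k₁ + 1 : ℕ) : ℝ), tl a b (y / J - 3 / J) ≤
      J * (∫ z in x..(1 / 2), trap a b z) + 3 := by
    rw [intervalIntegral.integral_comp_div_sub (f := tl a b) hJ0, smul_eq_mul]
    have h5 : ∫ z in ((k₀ : ℝ) / J - 3 / J)..(((k₁ + 1 : ℕ) : ℝ) / J - 3 / J), tl a b z ≤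
        ∫ z in (x - 3 / J)..(1 - x), tl a b z := by
      refine intervalIntegral.integral_mono_interval ?_ ?_ ?_
        (Eventually.of_forall fun z => tl_nonneg a b z) ((tl_cont a b).intervalIntegrable _ _)
      · have : x ≤ (k₀ : ℝ) / J := by
          rw [le_div_iff₀ (by linarith)]
          linarith
        linarith
      · have h6 : (k₀ : ℝ) ≤ ((k₁ + 1 : ℕ) : ℝ) := by exact_mod_cast (by omega : k₀ ≤ k₁ + 1)
        have : (k₀ : ℝ) / J ≤ ((k₁ + 1 : ℕ) : ℝ) / J := by gcongr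
        linarith
      · rw [← sub_div, div_le_iff₀ (by linarith)]
        push_cast
        linarith
    have h6 : ∫ z in (x - 3 / J)..(1 - x), tl a b z ≤ 3 / J + ∫ z in x..(1 / 2), trap a b z := by
      rw [← int_tl ha ha1 hb hb1 hx hx1,
        ← intervalIntegral.integral_add_adjacent_intervals
          ((tl_cont a b).intervalIntegrable (x - 3 / J) x) ((tl_cont a b).intervalIntegrable x (1 - x))]
      gcongr
      have h7 : ∫ z in (x - 3 / J)..x, tl a b z ≤ ∫ _z in (x - 3 / J)..x, (1 : ℝ) := by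
        refine intervalIntegral.integral_mono_on ?_ ((tl_cont a b).intervalIntegrable _ _)
          intervalIntegrable_const fun z _ => tl_le_one ha1 z
        have : (0 : ℝ) ≤ 3 / J := by positivity
        linarith
      refine h7.trans (le_of_eq ?_)
      rw [intervalIntegral.integral_const, smul_eq_mul]
      ring
    calc (J : ℝ) * ∫ z in ((k₀ : ℝ) / J - 3 / J)..(((k₁ + 1 : ℕ) : ℝ) / J - 3 / J), tl a b z
        ≤ J * (3 / J + ∫ z in x..(1 / 2), trap a b z) := by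
          gcongr
          exact h5.trans h6
      _ = J * (∫ z in x..(1 / 2), trap a b z) + 3 := by
          field_simp
          ring
  calc ((Tp J a b x).card : ℝ)
      ≤ ∑ k ∈ Finset.Icc k₀ k₁, (J * tl a b (((k + 1 : ℕ) : ℝ) / J - 3 / J) + 2) := h1
    _ = J * ∑ k ∈ Finset.Icc k₀ k₁, tl a b (((k + 1 : ℕ) : ℝ) / J - 3 / J) +
        (Finset.Icc k₀ k₁).card * 2 := by
        rw [Finset.sum_add_distrib, Finset.mul_sum, Finset.sum_const, nsmul_eq_mul]
    _ ≤ J * (J * (∫ z in x..(1 / 2), trap a b z) + 3) + 4 * J * 2 := by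
        gcongr
        exact h3.trans h4
    _ ≤ J ^ 2 * (∫ z in x..(1 / 2), trap a b z) + 50 * J := by nlinarith

/-- Lift `s`, `s'` to `(-1/2, 1/2)`: then `x ≤ |s + s'| ≤ 1 - x`. For `m = h + h'` the number of pairs
is at most `J t (|m| / J) + 3`, where `t z = max 0 (min (min a b) ((a + b) / 2 - z))`. -/
theorem card_prs2 {J : ℕ} (hJ : 1 ≤ J) {a b x : ℝ} (ha : 0 ≤ a) (ha1 : a ≤ 1) (hb : 0 ≤ b)
    (hb1 : b ≤ 1) (hx : 0 ≤ x) (hx1 : x ≤ 1 / 2) :
    ((prs2 J a b x).card : ℝ) ≤ J ^ 2 * (2 * ∫ z in x..(1 / 2), trap a b z) + 100 * J := by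
  classical
  have hJr : (1 : ℝ) ≤ J := by exact_mod_cast hJ
  have hJ0 : (0 : ℝ) < J := by linarith
  have hsub : prs2 J a b x ⊆
      (Tp J a b x).image (fun ij => ((ij.1 % (J : ℤ)).toNat, (ij.2 % (J : ℤ)).toNat)) ∪
      (Tp J a b x).image (fun ij => (((-1 - ij.1) % (J : ℤ)).toNat,
        ((-1 - ij.2) % (J : ℤ)).toNat)) := by
    intro h hh
    unfold prs2 at hh
    rw [Finset.mem_filter, Finset.mem_product, Finset.mem_range, Finset.mem_range] at hh
    obtain ⟨⟨hl1, hl2⟩, s, s', h1, h2, h3, h4, h5, h6, h7⟩ := hh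
    rw [div_le_iff₀ hJ0] at h1 h3
    rw [lt_div_iff₀ hJ0] at h2 h4
    rw [abs_lt] at h5 h6
    set i : ℤ := h.1 - J * round s with hi
    set j : ℤ := h.2 - J * round s' with hj
    have hir : (i : ℝ) = h.1 - J * round s := by rw [hi]; push_cast; ring
    have hjr : (j : ℝ) = h.2 - J * round s' := by rw [hj]; push_cast; ring
    have hmi : (i % (J : ℤ)).toNat = h.1 := by
      rw [hi, Int.sub_mul_emod_self_left, Int.emod_eq_of_lt (by positivity) (by exact_mod_cast hl1)]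
      simp
    have hmj : (j % (J : ℤ)).toNat = h.2 := by
      rw [hj, Int.sub_mul_emod_self_left, Int.emod_eq_of_lt (by positivity) (by exact_mod_cast hl2)]
      simp
    set u := s - round s with hu
    set v := s' - round s' with hv
    -- the nearest integer
    have hn : ∀ k : ℤ, x ≤ |u + v - k| := by
      intro k
      refine h7.trans ?_
      have := round_le (s + s') (k + round s + round s')
      refine this.trans (le_of_eq ?_)
      congr 1
      push_cast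
      ring
    have hn0 := hn 0
    have hn1 := hn 1
    have hn2 := hn (-1)
    push_cast at hn0 hn1 hn2
    rw [sub_zero] at hn0
    have hiu : (i : ℝ) ≤ J * u ∧ J * u < i + 1 := by
      rw [hir, hu]
      constructor <;> nlinarith
    have hjv : (j : ℝ) ≤ J * v ∧ J * v < j + 1 := by
      rw [hjr, hv]
      constructor <;> nlinarith
    have hc1 : -(J * (a / 2)) - 1 < (i : ℝ) := by nlinarith [hiu.2]
    have hc2 : (i : ℝ) < J * (a / 2) := by nlinarith [hiu.1]
    have hc3 : -(J * (b / 2)) - 1 < (j : ℝ) := by nlinarith [hjv.2]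
    have hc4 : (j : ℝ) < J * (b / 2) := by nlinarith [hjv.1]
    rw [Finset.mem_union]
    rcases le_or_gt 0 (u + v) with h0 | h0
    · left
      rw [Finset.mem_image]
      refine ⟨(i, j), mem_Tp hx hx1 hc1 hc2 hc3 hc4 ?_ ?_, ?_⟩
      · rw [abs_of_nonneg h0] at hn0
        nlinarith [hiu.2, hjv.2]
      · rw [abs_of_nonpos (by linarith)] at hn1
        nlinarith [hiu.1, hjv.1]
      · simp only
        rw [hmi, hmj]
    · right
      rw [Finset.mem_image]
      refine ⟨(-1 - i, -1 - j), mem_Tp hx hx1 ?_ ?_ ?_ ?_ ?_ ?_, ?_⟩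
      · push_cast; linarith
      · push_cast; linarith
      · push_cast; linarith
      · push_cast; linarith
      · rw [abs_of_neg h0] at hn0
        push_cast
        nlinarith [hiu.1, hjv.1]
      · rw [abs_of_nonneg (by linarith)] at hn2
        push_cast
        nlinarith [hiu.2, hjv.2]
      · simp only
        have e1 : -1 - (-1 - i) = i := by ring
        have e2 : -1 - (-1 - j) = j := by ring
        rw [e1, e2, hmi, hmj]
  have h1 : ((prs2 J a b x).card : ℝ) ≤ (Tp J a b x).card + (Tp J a b x).card := by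
    have h2 := (Finset.card_le_card hsub).trans (Finset.card_union_le _ _)
    have h3 := h2.trans (add_le_add Finset.card_image_le Finset.card_image_le)
    exact_mod_cast h3
  have h2 := card_Tp hJ ha ha1 hb hb1 hx hx1
  linarith

end Pool.Agent.Lib.MP_629a14_nt.Kp.R
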