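import Pool.Agent.Lib.MP_629a14_nt.Kp.Ext

/-! Uniform approximation of the convex functions with a Lipschitz constant on an interval by
combinations of truncations. -/

set_option autoImplicit false

namespace Pool.Agent.Lib.MP_629a14_nt.Kp.R

open Finset Filter Topology

/-- Compare `itp_spec`. -/
theorem itp_spec' {φ : ℝ → ℝ} {h C ε : ℝ} (hφ : ConvexOn ℝ (Set.Icc 0 C) φ) (hh : 0 < h)
    (hε : 0 ≤ ε)
    (hu : ∀ x y : ℝ, 0 ≤ x → x ≤ C → 0 ≤ y → y ≤ C → |x - y| ≤ h → |φ x - φ y| ≤ ε) (K : ℕ)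
    (hK : (K : ℝ) * h ≤ C) (x : ℝ) (hx : 0 ≤ x) :
    (x ≤ K * h → φ x ≤ itp φ h K x ∧ itp φ h K x ≤ φ x + ε) ∧
      (K * h ≤ x → itp φ h K x = φ (K * h)) := by
  induction K with
  | zero =>
    constructor
    · intro h1
      have : x = 0 := le_antisymm (by simpa using h1) hx
      subst this
      simp [itp, hε]
    · intro _
      simp [itp]
  | succ K ih =>
    have hK' : (K : ℝ) * h ≤ C := by
      push_cast at hK
      nlinarith
    obtain ⟨ih1, ih2⟩ := ih hK'
    have hstep : itp φ h (K + 1) x = itp φ h K x +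
        slp φ h K * (min x ((K + 1 : ℕ) * h) - min x (K * h)) := by
      unfold itp
      rw [sum_range_succ]
      ring
    have hKh : (0 : ℝ) ≤ K * h := by positivity
    have hK1 : ((K + 1 : ℕ) : ℝ) * h = K * h + h := by push_cast; ring
    have hslp : slp φ h K * h = φ ((K + 1 : ℕ) * h) - φ (K * h) := by
      unfold slp
      field_simp
    rw [hstep]
    rcases le_total x (K * h) with hx1 | hx1
    · have e : min x ((K + 1 : ℕ) * h) - min x (K * h) = 0 := by
        rw [min_eq_left hx1, min_eq_left (by rw [hK1]; linarith), sub_self]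
      rw [e, mul_zero, add_zero]
      refine ⟨fun _ => ih1 hx1, fun h2 => ?_⟩
      rw [hK1] at h2
      linarith
    · rw [ih2 hx1, min_eq_right hx1]
      rcases le_total x ((K + 1 : ℕ) * h) with hx2 | hx2
      · rw [min_eq_left hx2]
        have hx2' := hx2
        rw [hK1] at hx2'
        -- the weight
        set w : ℝ := (x - K * h) / h with hw
        have hw0 : 0 ≤ w := div_nonneg (by linarith) hh.le
        have hw1 : w ≤ 1 := by
          rw [hw, div_le_one hh]
          linarith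
        have hval : φ (K * h) + slp φ h K * (x - K * h) =
            (1 - w) * φ (K * h) + w * φ ((K + 1 : ℕ) * h) := by
          have : x - K * h = w * h := by rw [hw]; field_simp
          rw [this]
          have : slp φ h K * (w * h) = w * (slp φ h K * h) := by ring
          rw [this, hslp]
          ring
        have hxw : x = (1 - w) * (K * h) + w * ((K + 1 : ℕ) * h) := by
          rw [hK1]
          have : w * h = x - K * h := by rw [hw]; field_simp
          linear_combination -this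
        refine ⟨fun _ => ?_, fun h2 => ?_⟩
        · rw [hval]
          constructor
          · have := hφ.2 (show (K : ℝ) * h ∈ Set.Icc 0 C from ⟨hKh, hK'⟩)
              (show ((K + 1 : ℕ) : ℝ) * h ∈ Set.Icc 0 C from ⟨by positivity, hK⟩)
              (sub_nonneg.2 hw1) hw0 (by ring)
            simp only [smul_eq_mul] at this
            rw [← hxw] at this
            exact this
          · have h3 : |φ (K * h) - φ x| ≤ ε := by
              refine hu _ _ hKh hK' hx (by linarith) ?_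
              rw [abs_le]
              constructor <;> linarith
            have h4 : |φ ((K + 1 : ℕ) * h) - φ x| ≤ ε := by
              refine hu _ _ (by positivity) hK hx (by linarith) ?_
              rw [abs_le, hK1]
              constructor <;> linarith
            have h5 := (abs_le.1 h3).2
            have h6 := (abs_le.1 h4).2
            nlinarith
        · have h3 : x = (K + 1 : ℕ) * h := le_antisymm hx2 h2
          rw [← h3]
          have h4 : x - K * h = h := by rw [h3, hK1]; ring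
          rw [h4, hslp, ← h3]
          ring
      · rw [min_eq_right hx2]
        refine ⟨fun h2 => ?_, fun _ => ?_⟩
        · have h3 : x = (K + 1 : ℕ) * h := le_antisymm h2 hx2
          have h4 : ((K + 1 : ℕ) : ℝ) * h - K * h = h := by rw [hK1]; ring
          rw [h4, hslp, h3]
          constructor <;> linarith
        · have h4 : ((K + 1 : ℕ) : ℝ) * h - K * h = h := by rw [hK1]; ring
          rw [h4, hslp]
          ring

theorem slp_mono' {φ : ℝ → ℝ} {h C : ℝ} (hφ : ConvexOn ℝ (Set.Icc 0 C) φ) (hh : 0 < h) (k : ℕ)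
    (hk : ((k + 1 + 1 : ℕ) : ℝ) * h ≤ C) : slp φ h k ≤ slp φ h (k + 1) := by
  unfold slp
  refine div_le_div_of_nonneg_right ?_ hh.le
  have hk' : (k : ℝ) * h ≤ C := by
    push_cast at hk
    nlinarith
  have h1 := hφ.2 (show (k : ℝ) * h ∈ Set.Icc 0 C from ⟨by positivity, hk'⟩)
    (show ((k + 1 + 1 : ℕ) : ℝ) * h ∈ Set.Icc 0 C from ⟨by positivity, hk⟩)
    (by norm_num : (0 : ℝ) ≤ 1 / 2) (by norm_num : (0 : ℝ) ≤ 1 / 2) (by norm_num)
  simp only [smul_eq_mul] at h1
  have h2 : 1 / 2 * ((k : ℝ) * h) + 1 / 2 * (((k + 1 + 1 : ℕ) : ℝ) * h) = ((k + 1 : ℕ) : ℝ) * h := by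
    push_cast
    ring
  rw [h2] at h1
  linarith

/-- The approximation; the thresholds `t` do not depend on the function. -/
theorem approx_unif {C : ℝ} (hC : 0 < C) {ε : ℝ} (hε : 0 < ε) : ∃ (n : ℕ) (t : ℕ → ℝ),
    (∀ k, 0 ≤ t k) ∧ ∀ (φ : ℝ → ℝ) (Λ : ℝ), ConvexOn ℝ (Set.Icc 0 C) φ →
      (∀ x ∈ Set.Icc 0 C, ∀ y ∈ Set.Icc 0 C, |φ x - φ y| ≤ Λ * |x - y|) →
      ∃ (σ : ℝ) (c : ℕ → ℝ), |σ| ≤ Λ ∧ (∀ k < n, 0 ≤ c k) ∧ ∑ k ∈ range n, c k ≤ 2 * Λ ∧
        ∀ x, 0 ≤ x → x ≤ C → φ x ≤ φ 0 + σ * x - ∑ k ∈ range n, c k * min x (t k) ∧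
          φ 0 + σ * x - ∑ k ∈ range n, c k * min x (t k) ≤ φ x + Λ * ε := by
  obtain ⟨n, hn⟩ := exists_nat_gt (C / ε)
  obtain ⟨h, hh⟩ : ∃ h : ℝ, h = C / (n + 1 : ℕ) := ⟨_, rfl⟩
  have hn0 : (0 : ℝ) < (n + 1 : ℕ) := by positivity
  have hh0 : 0 < h := by rw [hh]; positivity
  have hnh : ((n + 1 : ℕ) : ℝ) * h = C := by rw [hh]; field_simp
  have hhε : h ≤ ε := by
    rw [hh, div_le_iff₀ hn0]
    rw [div_lt_iff₀ hε] at hn
    push_cast
    nlinarith
  refine ⟨n, fun k => (k + 1 : ℕ) * h, fun k => by positivity, fun φ Λ hφ hL => ?_⟩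
  have hΛ : 0 ≤ Λ := by
    have h1 := hL 0 ⟨le_rfl, hC.le⟩ C ⟨hC.le, le_rfl⟩
    rw [zero_sub, abs_neg, abs_of_pos hC] at h1
    have h2 := (abs_nonneg _).trans h1
    by_contra h3
    push Not at h3
    nlinarith
  have hgrid : ∀ k : ℕ, k ≤ n + 1 → (k : ℝ) * h ∈ Set.Icc 0 C := by
    intro k hk
    refine ⟨by positivity, ?_⟩
    rw [← hnh]
    exact mul_le_mul_of_nonneg_right (by exact_mod_cast hk) hh0.le
  have hslp : ∀ k : ℕ, k ≤ n → |slp φ h k| ≤ Λ := by
    intro k hk
    unfold slp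
    rw [abs_div, abs_of_pos hh0, div_le_iff₀ hh0]
    refine (hL _ (hgrid (k + 1) (by omega)) _ (hgrid k (by omega))).trans (le_of_eq ?_)
    congr 1
    have : ((k + 1 : ℕ) : ℝ) * h - k * h = h := by push_cast; ring
    rw [this, abs_of_pos hh0]
  refine ⟨slp φ h n, fun k => slp φ h (k + 1) - slp φ h k, hslp n le_rfl, fun k hk => ?_, ?_,
    fun x hx hxC => ?_⟩
  · exact sub_nonneg.2 (slp_mono' hφ hh0 k (hgrid (k + 1 + 1) (by omega)).2)
  · rw [sum_range_sub (fun k => slp φ h k)]
    have h1 := (abs_le.1 (hslp n le_rfl)).2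
    have h2 := (abs_le.1 (hslp 0 (by omega))).1
    linarith
  · have h1 := (itp_spec' hφ hh0 (ε := Λ * ε) (by positivity) (fun x y hx0 hxC hy0 hyC hxy => by
      refine (hL x ⟨hx0, hxC⟩ y ⟨hy0, hyC⟩).trans ?_
      exact mul_le_mul_of_nonneg_left (hxy.trans hhε) hΛ) (n + 1) hnh.le x hx).1
      (by rw [hnh]; exact hxC)
    rw [itp_abel φ n x hx, hnh, min_eq_left hxC] at h1
    exact h1

end Pool.Agent.Lib.MP_629a14_nt.Kp.R
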