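import Pool.Agent.Lib.MP_629a14_nt.Kr.Cell
import Pool.Agent.Lib.MP_629a14_nt.Kp.PfMean
import Pool.Agent.Lib.MP_629a14_nt.Kp.PfRL

/-! Basic facts on `prs` and `Av`. -/

set_option autoImplicit false

namespace Pool.Agent.Lib.MP_629a14_nt.Kp.R

open Finset Filter Topology Pool.Agent.Lib.MP_629a14_nt Pool.Agent.Lib.MP_629a14_nt.Rob

theorem dns_mem (A : Set ℕ) (W K N k r : ℕ) : 0 ≤ dns A W K N k r ∧ dns A W K N k r ≤ 1 := by
  unfold dns
  refine ⟨div_nonneg (Nat.cast_nonneg _) (Nat.cast_nonneg _),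
    div_le_one_of_le₀ ?_ (Nat.cast_nonneg _)⟩
  have h : cellc A W K N k r ≤ cellc Set.univ W K N k r := by
    unfold cellc
    refine card_le_card fun p hp => ?_
    simp only [mem_filter] at hp ⊢
    exact ⟨hp.1, hp.2.1, Set.mem_univ _, hp.2.2.2⟩
  exact_mod_cast h

theorem trap_mem {a b x : ℝ} (ha : 0 ≤ a) (ha1 : a ≤ 1) (hb : 0 ≤ b) (hb1 : b ≤ 1) :
    0 ≤ trap a b x ∧ trap a b x ≤ 1 :=
  ⟨trap_nonneg ha hb x, (trap_hi a b x).trans ((min_le_left a b).trans ha1)⟩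

private theorem avb_mod {W c c' r : ℕ} (h : c ≡ c' [MOD W]) (hr : r < W) :
    (c + W - r) % W = (c' + W - r) % W := by
  have e1 : c + W - r = c + (W - r) := by omega
  have e2 : c' + W - r = c' + (W - r) := by omega
  rw [e1, e2]
  exact Nat.ModEq.add_right (W - r) h

/-- `prs` depends only on the class. -/
theorem prs_mod {W c c' : ℕ} (h : c ≡ c' [MOD W]) (al be : ℕ → ℝ) (G : ℕ → ℝ → ℝ → ℝ) :
    prs W c al be G = prs W c' al be G := by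
  have e : adm W c = adm W c' := by
    unfold adm
    refine filter_congr fun r hr => ?_
    have h1 := avb_mod h (mem_range.1 hr)
    have h2 : (c + W - r).Coprime W ↔ (c' + W - r).Coprime W := by
      unfold Nat.Coprime
      rw [Nat.gcd_comm, Nat.gcd_rec, h1, ← Nat.gcd_rec, Nat.gcd_comm]
    rw [h2]
  unfold prs
  rw [e]
  congr 1
  refine sum_congr rfl fun r hr => ?_
  have hr' : r < W := by
    unfold adm at hr
    exact mem_range.1 (mem_filter.1 hr).1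
  rw [avb_mod h hr']

section

variable {W c : ℕ} {al be : ℕ → ℝ}

theorem prs_unit (hal : ∀ r, 0 ≤ al r ∧ al r ≤ 1) (hbe : ∀ r, 0 ≤ be r ∧ be r ≤ 1)
    {G : ℕ → ℝ → ℝ → ℝ}
    (hG : ∀ (r : ℕ) (u v : ℝ), 0 ≤ u → u ≤ 1 → 0 ≤ v → v ≤ 1 →
      0 ≤ G r u v ∧ G r u v ≤ 1) : 0 ≤ prs W c al be G ∧ prs W c al be G ≤ 1 := by
  have h1 : ∀ r, 0 ≤ G r (al r) (be ((c + W - r) % W)) ∧ G r (al r) (be ((c + W - r) % W)) ≤ 1 :=
    fun r => hG r _ _ (hal _).1 (hal _).2 (hbe _).1 (hbe _).2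
  unfold prs
  refine ⟨div_nonneg (sum_nonneg fun r _ => (h1 r).1) (Nat.cast_nonneg _),
    div_le_one_of_le₀ ?_ (Nat.cast_nonneg _)⟩
  calc ∑ r ∈ adm W c, G r (al r) (be ((c + W - r) % W)) ≤ ∑ _r ∈ adm W c, (1 : ℝ) :=
        sum_le_sum fun r _ => (h1 r).2
    _ = (adm W c).card := by rw [sum_const, nsmul_eq_mul, mul_one]

end

section

variable {W K N n : ℕ} {a b : ℕ → ℕ → ℝ}

/-- `Av` as a weighted sum. -/
theorem Av_eq (G : ℕ → ℕ → ℕ → ℝ → ℝ → ℝ) : Av W K N a b G n =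
    ∑ j ∈ Ico 1 n ×ˢ adm W n, 1 / ((n : ℝ) * (adm W n).card) *
      G (cell K N j.1) (cell K N (n - j.1)) j.2 (a (cell K N j.1) j.2)
        (b (cell K N (n - j.1)) ((n + W - j.2) % W)) := by
  rw [sum_product]
  unfold Av prs
  rw [sum_div]
  refine sum_congr rfl fun y _ => ?_
  rw [sum_div, sum_div]
  refine sum_congr rfl fun r _ => ?_
  rw [div_div, mul_comm ((adm W n).card : ℝ) (n : ℝ), one_div, div_eq_inv_mul]

theorem Av_weight : ∑ j ∈ Ico 1 n ×ˢ adm W n, 1 / ((n : ℝ) * (adm W n).card) ≤ 1 := by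
  rw [sum_const, card_product, Nat.card_Ico, nsmul_eq_mul, mul_one_div]
  refine div_le_one_of_le₀ ?_ (by positivity)
  push_cast
  have h : (((n - 1 : ℕ) : ℕ) : ℝ) ≤ (n : ℝ) := by exact_mod_cast Nat.sub_le n 1
  exact mul_le_mul_of_nonneg_right h (Nat.cast_nonneg _)

private theorem avb_w : 0 ≤ 1 / ((n : ℝ) * (adm W n).card) := by positivity

theorem Av_unit (ha : ∀ k r, 0 ≤ a k r ∧ a k r ≤ 1) (hb : ∀ k r, 0 ≤ b k r ∧ b k r ≤ 1)
    {G : ℕ → ℕ → ℕ → ℝ → ℝ → ℝ}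
    (hG : ∀ (k k' r : ℕ) (u v : ℝ), 0 ≤ u → u ≤ 1 → 0 ≤ v → v ≤ 1 →
      0 ≤ G k k' r u v ∧ G k k' r u v ≤ 1) : 0 ≤ Av W K N a b G n ∧ Av W K N a b G n ≤ 1 := by
  rw [Av_eq]
  have h1 : ∀ j : ℕ × ℕ, 0 ≤ G (cell K N j.1) (cell K N (n - j.1)) j.2 (a (cell K N j.1) j.2)
        (b (cell K N (n - j.1)) ((n + W - j.2) % W)) ∧
      G (cell K N j.1) (cell K N (n - j.1)) j.2 (a (cell K N j.1) j.2)
        (b (cell K N (n - j.1)) ((n + W - j.2) % W)) ≤ 1 := fun j =>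
    hG _ _ _ _ _ (ha _ _).1 (ha _ _).2 (hb _ _).1 (hb _ _).2
  refine ⟨sum_nonneg fun j _ => mul_nonneg avb_w (h1 j).1, le_trans (sum_le_sum fun j _ => ?_)
    (Av_weight (W := W) (n := n))⟩
  exact mul_le_of_le_one_right avb_w (h1 j).2

theorem Av_mono (ha : ∀ k r, 0 ≤ a k r ∧ a k r ≤ 1) (hb : ∀ k r, 0 ≤ b k r ∧ b k r ≤ 1)
    {G G' : ℕ → ℕ → ℕ → ℝ → ℝ → ℝ}
    (hG : ∀ (k k' r : ℕ) (u v : ℝ), 0 ≤ u → u ≤ 1 → 0 ≤ v → v ≤ 1 →
      G k k' r u v ≤ G' k k' r u v) : Av W K N a b G n ≤ Av W K N a b G' n := by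
  rw [Av_eq, Av_eq]
  refine sum_le_sum fun j _ => mul_le_mul_of_nonneg_left ?_ avb_w
  exact hG _ _ _ _ _ (ha _ _).1 (ha _ _).2 (hb _ _).1 (hb _ _).2

/-- The integral over `x` and `Av` can be exchanged. -/
theorem Av_int {l m : ℝ} (F : ℝ → ℝ → ℝ → ℝ) (hF : ∀ u v, Continuous (F u v)) :
    ∫ x in l..m, Av W K N a b (fun _ _ _ u v => F u v x) n =
      Av W K N a b (fun _ _ _ u v => ∫ x in l..m, F u v x) n := by
  simp only [Av_eq]
  rw [intervalIntegral.integral_finsetSum]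
  · refine sum_congr rfl fun j _ => ?_
    rw [intervalIntegral.integral_const_mul]
  · intro j _
    exact ((continuous_const.mul (hF _ _))).intervalIntegrable _ _

end

end Pool.Agent.Lib.MP_629a14_nt.Kp.R
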