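import Pool.Agent.Lib.MP_629a14_nt.Kr.Defs2
import Pool.Agent.Lib.MP_629a14_nt.Kp.PfTrunc

/-! Truncated sums of the local model over the numbers of one residue class in a block, for a
profile depending on the blocks. -/

set_option autoImplicit false

namespace Pool.Agent.Lib.MP_629a14_nt.Kp.R

open Finset Filter Topology Pool.Agent.Lib.MP_629a14_nt Pool.Agent.Lib.MP_629a14_nt.Rob

theorem locG_loc {V R Q N : ℕ} [NeZero R] [NeZero Q] {T : Finset ℕ} {κ : ℕ → ℝ} {τ : ℕ → ℤ}
    {A : Set ℕ} {k ε : ℝ} {f : ℕ → ℝ} (h : LocG V R Q N T κ τ A k ε f) (α : ℝ) :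
    Loc V R Q 0 α ε f := by
  refine ⟨h.nonneg, h.le, h.supp, h.per, fun x₀ b h1 h2 _ => ?_⟩
  exfalso
  have hR0 : (0 : ℝ) < R := by exact_mod_cast Nat.pos_of_ne_zero (NeZero.ne R)
  have hQ0 : (0 : ℝ) < Q := by exact_mod_cast Nat.pos_of_ne_zero (NeZero.ne Q)
  have h3 : (0 : ℝ) < R * Q := by positivity
  have h4 : (0 : ℝ) ≤ x₀ := Nat.cast_nonneg _
  simp only [Nat.cast_zero, mul_zero] at h2
  linarith

/-- `TT` is Lipschitz in the first variable. -/
theorem TT_lip {a a' b t : ℝ} (ha : 0 ≤ a) (ha1 : a ≤ 1) (ha' : 0 ≤ a') (ha1' : a' ≤ 1)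
    (hb : 0 ≤ b) (hb1 : b ≤ 1) (ht : 0 ≤ t) : |TT a b t - TT a' b t| ≤ |a - a'| := by
  have key : ∀ x y : ℝ, 0 ≤ x → x ≤ y → y ≤ 1 →
      0 ≤ TT y b t - TT x b t ∧ TT y b t - TT x b t ≤ y - x := by
    intro x y hx hxy hy
    set s : ℝ := min t b with hs
    have hs0 : 0 ≤ s := le_min ht hb
    have hsb : s ≤ b := min_le_right _ _
    have hm : ∀ z : ℝ, min t (min z b) = min s z := by
      intro z
      rw [hs, min_comm z b, min_assoc]
    have h1 : ∀ z : ℝ, z ≤ s → TT z b t = z * b := by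
      intro z hz
      unfold TT
      rw [hm, min_eq_right hz, add_sub_cancel_left, min_eq_right hb1]
    have h2 : ∀ z : ℝ, s ≤ z → TT z b t = s * min 1 (z + b - s) := by
      intro z hz
      unfold TT
      rw [hm, min_eq_left hz]
    rcases le_total y s with hy' | hy'
    · rw [h1 y hy', h1 x (hxy.trans hy')]
      constructor <;> nlinarith
    rcases le_total x s with hx' | hx'
    · rw [h2 y hy', h1 x hx']
      have e1 : b ≤ min 1 (y + b - s) := le_min hb1 (by linarith)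
      have e2 : min 1 (y + b - s) ≤ y + b - s := min_le_right _ _
      have e3 : s * min 1 (y + b - s) ≤ s * (y + b - s) := mul_le_mul_of_nonneg_left e2 hs0
      have e4 : s * b ≤ s * min 1 (y + b - s) := mul_le_mul_of_nonneg_left e1 hs0
      have e5 : x * b ≤ s * b := mul_le_mul_of_nonneg_right hx' hb
      have e6 : (s - x) * b ≤ (s - x) * 1 := mul_le_mul_of_nonneg_left hb1 (by linarith)
      have e7 : s * (y - s) ≤ 1 * (y - s) := mul_le_mul_of_nonneg_right (by linarith) (by linarith)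
      constructor <;> linarith
    · rw [h2 y hy', h2 x hx']
      have e1 : min 1 (x + b - s) ≤ min 1 (y + b - s) := min_le_min_left _ (by linarith)
      have e2 : min 1 (y + b - s) ≤ min 1 (x + b - s) + (y - x) := by
        rcases le_total 1 (x + b - s) with h | h
        · rw [min_eq_left h, min_eq_left (by linarith)]; linarith
        · rw [min_eq_right h]
          have := min_le_right 1 (y + b - s)
          linarith
      have e3 := mul_le_mul_of_nonneg_left e1 hs0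
      have e4 := mul_le_mul_of_nonneg_left e2 hs0
      have e5 : s * (y - x) ≤ 1 * (y - x) := mul_le_mul_of_nonneg_right (by linarith) (by linarith)
      constructor <;> linarith
  rcases le_total a' a with h | h
  · have := key a' a ha' h ha1
    rw [abs_of_nonneg this.1, abs_of_nonneg (by linarith)]
    exact this.2
  · have := key a a' ha h ha1'
    rw [abs_sub_comm, abs_sub_comm a a', abs_of_nonneg this.1, abs_of_nonneg (by linarith)]
    exact this.2

theorem TT_symm (a b t : ℝ) : TT a b t = TT b a t := by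
  unfold TT
  rw [min_comm a b, add_comm a b]

section

variable (R Q : ℕ) [NeZero R] [NeZero Q]

/-- One pair of blocks and one class `κ`. By `pf_coset` for the clipped block means
`min (bm R Q f i b) 1`, then `TT_lip` and `prs_lift`. -/
theorem rb_one {W v c : ℕ} {ε : ℝ} {f g : ℕ → ℝ} (hW1 : 1 ≤ W)
    (hW2 : 2 ∣ W) (hc2 : 2 ∣ c) (hv : 2 ≤ v) (hvW : W ≤ v) (hvε : 1 / ε ≤ v)
    (hR : primorial v ∣ R) (hWR : W ∣ R) (hQ : ∀ p : ℕ, p.Prime → p ∣ Q → v < p)
    (hε : 0 < ε) (hf : Loc (primorial v) R Q 0 0 ε f) (hg : Loc (primorial v) R Q 0 0 ε g)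
    (u u' : ℕ → ℕ → ℝ) (hu : ∀ i r, 0 ≤ u i r ∧ u i r ≤ 1) (hu' : ∀ i r, 0 ≤ u' i r ∧ u' i r ≤ 1)
    (T : ℕ → ℝ) (hT : ∀ r, 0 ≤ T r) (i j : ℕ) {κ : ZMod R} (hκ : κ.val ≡ c [MOD W]) :
    (Q : ℝ) * (prs W c (u i) (u' j) (fun r a b => TT a b (T r)) - 7 * ε -
        dd W (primorial v) R Q f u i κ - dd W (primorial v) R Q g u' j κ) ≤
      ∑ k ∈ univ.filter (fun y : ZMod (R * Q) => red R Q y = κ),
        min (cvb R Q f g i j k / ((Uk (primorial v) R κ).card * Q))
          (prs W c (u i) (u' j) (fun r _ _ => T r)) := by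
  classical
  have hQ0 : (0 : ℝ) < Q := by exact_mod_cast Nat.pos_of_ne_zero (NeZero.ne Q)
  have hR0 : (0 : ℝ) < R := by exact_mod_cast Nat.pos_of_ne_zero (NeZero.ne R)
  have hv0 : (0 : ℝ) < v := by
    have : (2 : ℝ) ≤ v := by exact_mod_cast hv
    linarith
  have hQv : (Q : ℝ) / v ≤ ε * Q := by
    rw [div_le_iff₀ hv0]
    rw [div_le_iff₀ hε] at hvε
    nlinarith
  have hU : 0 < (Uk (primorial v) R κ).card := by
    have hcs := cnt_sig v R κ.val hv hR (((hκ.of_dvd hW2).dvd_iff dvd_rfl).2 hc2)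
    rw [cnt_eq, ZMod.natCast_zmod_val] at hcs
    have h3 : 0 < ((Uk (primorial v) R κ).card : ℝ) * En.kap v ^ 2 := by
      rw [hcs]
      exact mul_pos hR0 (sig_pos' _ _)
    have h4 := pos_of_mul_pos_left h3 (sq_nonneg _)
    exact_mod_cast h4
  have hU' : (0 : ℝ) < (Uk (primorial v) R κ).card := by exact_mod_cast hU
  -- the block means
  have hbm : ∀ {h : ℕ → ℝ}, Loc (primorial v) R Q 0 0 ε h → ∀ (l : ℕ) (b : ZMod R),
      (∑ y ∈ univ.filter (fun y : ZMod (R * Q) => red R Q y = b), h (l * (R * Q) + y.val)) =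
        bm R Q h l b.val * Q ∧ 0 ≤ bm R Q h l b.val ∧ bm R Q h l b.val ≤ 1 + ε := by
    intro h hh l b
    have e1 : (∑ y ∈ univ.filter (fun y : ZMod (R * Q) => red R Q y = b),
        h (l * (R * Q) + y.val)) = bm R Q h l b.val * Q := by
      rw [sum_class R Q h l b, bm, div_mul_cancel₀ _ hQ0.ne']
    have e2 : 0 ≤ bm R Q h l b.val := div_nonneg (sum_nonneg fun x _ => hh.nonneg x) hQ0.le
    have e3 : (∑ y ∈ univ.filter (fun y : ZMod (R * Q) => red R Q y = b),
        h (l * (R * Q) + y.val)) ≤ (1 + ε) * Q := by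
      have e4 : ((univ.filter (fun y : ZMod (R * Q) => red R Q y = b)).card : ℝ) = Q := by
        exact_mod_cast card_fibre R Q b
      calc (∑ y ∈ univ.filter (fun y : ZMod (R * Q) => red R Q y = b), h (l * (R * Q) + y.val))
          ≤ ∑ y ∈ univ.filter (fun y : ZMod (R * Q) => red R Q y = b), (1 + ε) :=
            sum_le_sum fun y _ => hh.le _
        _ = (1 + ε) * Q := by rw [sum_const, nsmul_eq_mul, e4]; ring
    refine ⟨e1, e2, ?_⟩
    rw [e1] at e3
    exact le_of_mul_le_mul_right e3 hQ0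
  have hclip : ∀ {h : ℕ → ℝ}, Loc (primorial v) R Q 0 0 ε h → ∀ (l : ℕ) (b : ZMod R),
      |∑ y ∈ univ.filter (fun y : ZMod (R * Q) => red R Q y = b), h (l * (R * Q) + y.val) -
        min (bm R Q h l b.val) 1 * Q| ≤ ε * Q := by
    intro h hh l b
    obtain ⟨e1, e2, e3⟩ := hbm hh l b
    rw [e1, ← sub_mul, abs_mul, abs_of_pos hQ0]
    refine mul_le_mul_of_nonneg_right ?_ hQ0.le
    rcases le_total (bm R Q h l b.val) 1 with h4 | h4
    · rw [min_eq_left h4, sub_self, abs_zero]; exact hε.le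
    · rw [min_eq_right h4, abs_of_nonneg (by linarith)]; linarith
  have hcl01 : ∀ {h : ℕ → ℝ}, Loc (primorial v) R Q 0 0 ε h → ∀ (l : ℕ) (b : ZMod R),
      0 ≤ min (bm R Q h l b.val) 1 ∧ min (bm R Q h l b.val) 1 ≤ 1 := by
    intro h hh l b
    exact ⟨le_min (hbm hh l b).2.1 zero_le_one, min_le_right _ _⟩
  have hmin : ∀ x y : ℝ, y ≤ 1 → |min x 1 - y| ≤ |x - y| := by
    intro x y hy
    rcases le_total x 1 with h | h
    · rw [min_eq_left h]
    · rw [min_eq_right h, abs_of_nonneg (by linarith), abs_of_nonneg (by linarith)]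
      linarith
  have e1 := prs_lift hW1 hWR hR hvW hκ hU (u i) (u' j) (fun r _ _ => T r)
  have e2 := prs_lift hW1 hWR hR hvW hκ hU (u i) (u' j) (fun r a b => TT a b (T r))
  set t : ℝ := prs W c (u i) (u' j) (fun r _ _ => T r) with ht
  have h3 := pf_coset (red R Q) (red_surj R Q) (K := (Q : ℝ) / v) (by positivity)
    (fun S hS => ker_sub R Q (by omega) hQ S hS) (Q := (Q : ℝ))
    (by rw [card_ker]) (fun y => f (i * (R * Q) + y.val))
    (fun y => g (j * (R * Q) + y.val)) (Uc (primorial v) R) (ε := ε) (t := t) hε.le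
    (fun b => min (bm R Q f i b.val) 1) (fun b => min (bm R Q g j b.val) 1)
    (fun b => T (b.val % W))
    (fun _ => hf.nonneg _) (fun _ => hf.le _)
    (fun _ => hg.nonneg _) (fun _ => hg.le _)
    (fun y hy => hf.supp _ fun h => hy (by
      unfold Uc
      rw [mem_filter]
      exact ⟨mem_univ _, (cop_iff R Q hR i y).1 h⟩))
    (fun y hy => hg.supp _ fun h => hy (by
      unfold Uc
      rw [mem_filter]
      exact ⟨mem_univ _, (cop_iff R Q hR j y).1 h⟩))
    (fun b _ => hclip hf i b) (fun b _ => hclip hg j b)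
    (fun b _ => hcl01 hf i b) (fun b _ => hcl01 hg j b) κ
    (fun b _ _ => hT _)
    (by
      have h5 : (∑ b ∈ Uk (primorial v) R κ, T (b.val % W)) /
          (Uk (primorial v) R κ).card ≤ t := by
        rw [e1]
      rw [div_le_iff₀ hU'] at h5
      rw [mul_comm]
      exact h5) hU
  -- compare with the profile
  have hinv : ∑ b ∈ Uk (primorial v) R κ,
      |bm R Q g j (κ - b).val - u' j ((κ - b).val % W)| =
      ∑ b ∈ Uk (primorial v) R κ, |bm R Q g j b.val - u' j (b.val % W)| := by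
    refine sum_nbij' (fun b => κ - b) (fun b => κ - b) ?_ ?_ ?_ ?_ ?_
    · intro b hb
      unfold Uk at hb ⊢
      rw [mem_filter] at hb ⊢
      exact ⟨hb.2, by rw [sub_sub_cancel]; exact hb.1⟩
    · intro b hb
      unfold Uk at hb ⊢
      rw [mem_filter] at hb ⊢
      exact ⟨hb.2, by rw [sub_sub_cancel]; exact hb.1⟩
    · intro b _
      exact sub_sub_cancel _ _
    · intro b _
      exact sub_sub_cancel _ _
    · intro b _
      rfl
  have hsum : ∑ b ∈ Uk (primorial v) R κ,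
      (TT (u i (b.val % W)) (u' j ((κ - b).val % W)) (T (b.val % W)) -
        |bm R Q f i b.val - u i (b.val % W)| -
        |bm R Q g j (κ - b).val - u' j ((κ - b).val % W)|) ≤
      ∑ b ∈ Uk (primorial v) R κ,
        TT (min (bm R Q f i b.val) 1) (min (bm R Q g j (κ - b).val) 1) (T (b.val % W)) := by
    refine sum_le_sum fun b _ => ?_
    have k1 := TT_lip (hu i (b.val % W)).1 (hu i (b.val % W)).2 (hcl01 hf i b).1 (hcl01 hf i b).2
      (hu' j ((κ - b).val % W)).1 (hu' j ((κ - b).val % W)).2 (hT (b.val % W))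
    have k2 := TT_lip (hu' j ((κ - b).val % W)).1 (hu' j ((κ - b).val % W)).2
      (hcl01 hg j (κ - b)).1 (hcl01 hg j (κ - b)).2 (hcl01 hf i b).1 (hcl01 hf i b).2
      (hT (b.val % W))
    rw [TT_symm (u' j ((κ - b).val % W)), TT_symm (min (bm R Q g j (κ - b).val) 1)] at k2
    have k3 := hmin (bm R Q f i b.val) (u i (b.val % W)) (hu i (b.val % W)).2
    have k4 := hmin (bm R Q g j (κ - b).val) (u' j ((κ - b).val % W)) (hu' j ((κ - b).val % W)).2
    rw [abs_sub_comm (u i (b.val % W))] at k1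
    rw [abs_sub_comm (u' j ((κ - b).val % W))] at k2
    have k5 := (abs_le.1 (k1.trans k3)).2
    have k6 := (abs_le.1 (k2.trans k4)).2
    linarith
  rw [sum_sub_distrib, sum_sub_distrib, hinv] at hsum
  have hdiv := div_le_div_of_nonneg_right hsum hU'.le
  rw [sub_div, sub_div, e2] at hdiv
  have h4 : (Q : ℝ) * (prs W c (u i) (u' j) (fun r a b => TT a b (T r)) - 7 * ε -
        dd W (primorial v) R Q f u i κ - dd W (primorial v) R Q g u' j κ) ≤
      (Q : ℝ) * ((∑ b ∈ Uk (primorial v) R κ,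
        TT (min (bm R Q f i b.val) 1) (min (bm R Q g j (κ - b).val) 1) (T (b.val % W))) /
        (Uk (primorial v) R κ).card - 6 * ε) - (Q : ℝ) / v := by
    have h5 : prs W c (u i) (u' j) (fun r a b => TT a b (T r)) -
        dd W (primorial v) R Q f u i κ - dd W (primorial v) R Q g u' j κ ≤
        (∑ b ∈ Uk (primorial v) R κ,
        TT (min (bm R Q f i b.val) 1) (min (bm R Q g j (κ - b).val) 1) (T (b.val % W))) /
        (Uk (primorial v) R κ).card := hdiv
    have h6 := mul_le_mul_of_nonneg_left h5 hQ0.le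
    linarith
  exact h4.trans h3

/-- The truncated sum over the class `c` modulo `W` in the block `m`. -/
theorem rb_block {W v c : ℕ} {ε t : ℝ} {f g : ℕ → ℝ} (hW1 : 1 ≤ W)
    (hW2 : 2 ∣ W) (hc2 : 2 ∣ c) (hv : 2 ≤ v) (hvW : W ≤ v) (hvε : 1 / ε ≤ v)
    (hR : primorial v ∣ R) (hWR : W ∣ R) (hQ : ∀ p : ℕ, p.Prime → p ∣ Q → v < p)
    (hε : 0 < ε) (hε1 : ε ≤ 1) (hf : Loc (primorial v) R Q 0 0 ε f)
    (hg : Loc (primorial v) R Q 0 0 ε g)
    (u u' : ℕ → ℕ → ℝ) (hu : ∀ i r, 0 ≤ u i r ∧ u i r ≤ 1) (hu' : ∀ i r, 0 ≤ u' i r ∧ u' i r ≤ 1)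
    (T : ℕ → ℕ → ℝ) (hT : ∀ i r, 0 ≤ T i r) {m i₀ i₁ : ℕ} (hi : i₀ ≤ i₁) (hi1 : i₁ ≤ m)
    (hm : 1 ≤ m) (ht : 1 / ((m : ℝ) + 1) * ∑ i ∈ Ico i₀ i₁,
      prs W c (u i) (u' (m - i)) (fun r _ _ => T i r) ≤ t) :
    ∑ κ ∈ Ec R W c, (Q : ℝ) * (1 / ((m : ℝ) + 1) * ∑ i ∈ Ico i₀ i₁,
        (prs W c (u i) (u' (m - i)) (fun r a b => TT a b (T i r)) - 7 * ε -
          dd W (primorial v) R Q f u i κ - dd W (primorial v) R Q g u' (m - i) κ) - 2 * ε) ≤
      ∑ n ∈ (Ico (m * (R * Q)) (m * (R * Q) + R * Q)).filter (fun n => n ≡ c [MOD W]),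
        min (model v f g n) t := by
  classical
  have hQ0 : (0 : ℝ) < Q := by exact_mod_cast Nat.pos_of_ne_zero (NeZero.ne Q)
  have hWs : ∀ m : ℕ, W ∣ m * (R * Q) := fun m => (hWR.mul_right Q).mul_left m
  have hblock : ∑ n ∈ (Ico (m * (R * Q)) (m * (R * Q) + R * Q)).filter (fun n => n ≡ c [MOD W]),
        min (model v f g n) t =
      ∑ k ∈ univ.filter (fun y : ZMod (R * Q) => y.val ≡ c [MOD W]),
        min (model v f g (m * (R * Q) + k.val)) t := by
    rw [sum_filter, sum_filter,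
      sum_block R Q (fun n => if n ≡ c [MOD W] then min (model v f g n) t else 0)]
    refine sum_congr rfl fun y _ => ?_
    have h0 : m * (R * Q) + y.val ≡ y.val [MOD W] := by
      obtain ⟨d, hd⟩ := hWs m
      rw [hd]
      simp [Nat.ModEq]
    have : m * (R * Q) + y.val ≡ c [MOD W] ↔ y.val ≡ c [MOD W] :=
      ⟨fun h => h0.symm.trans h, fun h => h0.trans h⟩
    by_cases h : y.val ≡ c [MOD W]
    · rw [if_pos h, if_pos (this.2 h)]
    · rw [if_neg h, if_neg fun h' => h (this.1 h')]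
  rw [hblock, sum_mod R Q c hWR]
  refine sum_le_sum fun κ hκ => ?_
  have hκ' := (mem_Ec R).1 hκ
  have hterm : ∀ k ∈ univ.filter (fun y : ZMod (R * Q) => red R Q y = κ),
      ∑ i ∈ Ico i₀ i₁, 1 / ((m : ℝ) + 1) * min (cvb R Q f g i (m - i) k /
        ((Uk (primorial v) R κ).card * Q))
          (prs W c (u i) (u' (m - i)) (fun r _ _ => T i r)) - 2 * ε ≤
      min (model v f g (m * (R * Q) + k.val)) t := by
    intro k hk
    have hkκ := (mem_filter.1 hk).2
    have hkc : k.val ≡ c [MOD W] := (mod_red R Q c hWR k).2 (by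
      rw [hkκ]
      exact hκ')
    have h2k : 2 ∣ k.val := ((hkc.of_dvd hW2).dvd_iff dvd_rfl).2 hc2
    have h3 := model_ge R Q hv hR hε.le hε1 hf hg hi hi1 hm (ZMod.val_lt k)
      (Nat.dvd_add (hW2.trans (hWs m)) h2k)
    rw [ZMod.natCast_zmod_val, hkκ] at h3
    have h4 := min_avg' (Ico i₀ i₁) (fun _ => 1 / ((m : ℝ) + 1))
      (fun i => cvb R Q f g i (m - i) k / ((Uk (primorial v) R κ).card * Q))
      (fun i => prs W c (u i) (u' (m - i)) (fun r _ _ => T i r)) t
      (fun i _ => by positivity) (by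
        rw [← mul_sum]
        exact ht)
    have h5 := h4.trans (min_le_left _ _)
    have h6 := h4.trans (min_le_right _ _)
    refine le_min ?_ ?_
    · linarith
    · linarith
  refine le_trans ?_ (sum_le_sum hterm)
  have h8 : ∀ A : ZMod (R * Q) → ℝ,
      ∑ k ∈ univ.filter (fun y : ZMod (R * Q) => red R Q y = κ), (A k - 2 * ε) =
        ∑ k ∈ univ.filter (fun y : ZMod (R * Q) => red R Q y = κ), A k - Q * (2 * ε) := by
    intro A
    rw [sum_sub_distrib, sum_const, card_fibre, nsmul_eq_mul]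
  rw [h8, sum_comm, mul_sub]
  have h7 : (Q : ℝ) * (1 / ((m : ℝ) + 1) * ∑ i ∈ Ico i₀ i₁,
        (prs W c (u i) (u' (m - i)) (fun r a b => TT a b (T i r)) - 7 * ε -
          dd W (primorial v) R Q f u i κ - dd W (primorial v) R Q g u' (m - i) κ)) ≤
      ∑ i ∈ Ico i₀ i₁, ∑ k ∈ univ.filter (fun y : ZMod (R * Q) => red R Q y = κ),
        1 / ((m : ℝ) + 1) * min (cvb R Q f g i (m - i) k /
          ((Uk (primorial v) R κ).card * Q))
            (prs W c (u i) (u' (m - i)) (fun r _ _ => T i r)) := by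
    rw [mul_left_comm, mul_sum, mul_sum]
    refine sum_le_sum fun i hi' => ?_
    rw [← mul_sum]
    exact mul_le_mul_of_nonneg_left (rb_one R Q hW1 hW2 hc2 hv hvW hvε hR hWR hQ hε hf hg
      u u' hu hu' (T i) (hT i) i (m - i) hκ') (by positivity)
  linarith

end

end Pool.Agent.Lib.MP_629a14_nt.Kp.R
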