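import Pool.Agent.Lib.MP_629a14_nt.Kr.Defs2

/-! Basic facts on the cells. -/

set_option autoImplicit false

namespace Pool.Agent.Lib.MP_629a14_nt.Kp.R

open Finset Filter Topology Pool.Agent.Lib.MP_629a14_nt Pool.Agent.Lib.MP_629a14_nt.Rob

theorem cell_mono {K N x y : ℕ} (h : x ≤ y) : cell K N x ≤ cell K N y := by
  unfold cell
  exact Nat.div_le_div_right (Nat.mul_le_mul_right K h)

theorem cell_lt {K N x : ℕ} (hK : 1 ≤ K) (h : x ≤ N) : cell K N x < K := by
  unfold cell
  rw [Nat.div_lt_iff_lt_mul (by omega)]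
  have : x * K < (N + 1) * K := Nat.mul_lt_mul_of_pos_right (by omega) hK
  rw [mul_comm K]
  exact this

theorem cell_nest {K K₂ N x : ℕ} (hK₂ : 1 ≤ K₂) : cell (K * K₂) N x / K₂ = cell K N x := by
  unfold cell
  rw [← mul_assoc, Nat.div_div_eq_div_mul, Nat.mul_comm (N + 1) K₂, Nat.mul_comm (x * K) K₂,
    Nat.mul_div_mul_left _ _ hK₂]

/-- A bounded monotone function changes rarely. -/
theorem bad_card (g : ℕ → ℕ) (hg : Monotone g) (q a b K : ℕ) (hK : ∀ i, i < b + q → g i ≤ K) :
    ((Ico a b).filter (fun i => g i ≠ g (i + q))).card ≤ q * K := by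
  rcases lt_or_ge b a with hab | hab
  · rw [Ico_eq_empty (by omega)]
    simp
  have key : ∀ m, ((Ico a (a + m)).filter (fun i => g i ≠ g (i + q))).card +
      ∑ j ∈ range q, g (a + j) ≤ ∑ j ∈ range q, g (a + m + j) := by
    intro m
    induction m with
    | zero => simp
    | succ m ih =>
      have e1 : Ico a (a + (m + 1)) = insert (a + m) (Ico a (a + m)) := by
        ext x
        simp only [mem_Ico, mem_insert]
        omega
      have e2 : ∑ j ∈ range q, g (a + (m + 1) + j) + g (a + m) =
          ∑ j ∈ range q, g (a + m + j) + g (a + m + q) := by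
        rw [← sum_range_succ (fun j => g (a + m + j)) q,
          sum_range_succ' (fun j => g (a + m + j)) q, add_zero]
        congr 1
        refine sum_congr rfl fun j _ => ?_
        congr 1
        ring
      have h3 : g (a + m) ≤ g (a + m + q) := hg (by omega)
      rw [e1, filter_insert]
      split_ifs with h
      · have h4 := card_insert_le (a + m) ((Ico a (a + m)).filter (fun i => g i ≠ g (i + q)))
        have h5 : g (a + m) < g (a + m + q) := lt_of_le_of_ne h3 h
        omega
      · omega
  have h1 := key (b - a)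
  rw [Nat.add_sub_cancel' hab] at h1
  have h2 : ∑ j ∈ range q, g (b + j) ≤ ∑ _j ∈ range q, K :=
    sum_le_sum fun j hj => hK _ (by rw [mem_range] at hj; omega)
  rw [sum_const, card_range, smul_eq_mul] at h2
  omega

end Pool.Agent.Lib.MP_629a14_nt.Kp.R
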