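import Pool.Agent.Lib.MP_629a14_nt.Kr.Err
import Pool.Agent.Lib.MP_629a14_nt.Kp.BlockSum

/-! The block means of the local model are close to the densities. -/

set_option autoImplicit false

namespace Pool.Agent.Lib.MP_629a14_nt.Kp.R

open Finset Filter Topology Pool.Agent.Lib.MP_629a14_nt Pool.Agent.Lib.MP_629a14_nt.Rob

private theorem close_dns (A : Set ℕ) (W K N k r : ℕ) :
    0 ≤ dns A W K N k r ∧ dns A W K N k r ≤ 1 := by
  classical
  unfold dns
  refine ⟨by positivity, ?_⟩
  have h : (cellc A W K N k r : ℝ) ≤ cellc Set.univ W K N k r := by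
    unfold cellc
    refine Nat.cast_le.2 (card_le_card ?_)
    intro p hp
    simp only [mem_filter, Set.mem_univ, true_and] at hp ⊢
    exact ⟨hp.1, hp.2.1, hp.2.2.2⟩
  exact div_le_one_of_le₀ h (Nat.cast_nonneg _)

/-- From the estimate `X` for the blocks shifted by `τ t`. -/
theorem close_sum {A : Set ℕ} {W K v R Q N i₀ i₁ : ℕ} {ε X : ℝ} {T : Finset ℕ} {κ : ℕ → ℝ}
    {τ : ℕ → ℤ} {f : ℕ → ℝ} (hRV : primorial v ∣ R) (hR : 1 ≤ R) (hQ1 : 1 ≤ Q) (hN : 1 ≤ N)
    (hε : 0 < ε) (hκ : ∀ t ∈ T, 0 ≤ κ t) (hκ1 : ∑ t ∈ T, κ t ≤ 1) (hκ2 : 1 - ε ≤ ∑ t ∈ T, κ t)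
    (hf : LocG (primorial v) R Q N T κ τ A (En.kap v) ε f)
    (h0 : ε * N ≤ (i₀ : ℝ) * (R * Q)) (h1 : (i₁ : ℝ) * (R * Q) ≤ (1 - ε) * N)
    (hX0 : 0 ≤ X)
    (hX : ∀ t ∈ T, ∑ i ∈ Ico i₀ i₁, ∑ b ∈ (range R).filter (fun b => b.Coprime (primorial v)),
      |Real.log N * (cntI A R (((i * (R * Q) : ℕ) : ℤ) + τ t)
          (((i * (R * Q) : ℕ) : ℤ) + τ t + R * Q) ((b : ℤ) + τ t) : ℝ) -
        dns A W K N (cell K N (i * (R * Q))) (b % W) * (En.kap v * Q)| ≤ X * N) :
    ∑ i ∈ Ico i₀ i₁, ∑ b ∈ (range R).filter (fun b => b.Coprime (primorial v)),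
      |bm R Q f i b - dns A W K N (cell K N (i * (R * Q))) (b % W)| ≤
      (2 * ε + X) * N / (En.kap v * Q) := by
  have hk : 0 < En.kap v := kap_pos' v
  have hQ : (0 : ℝ) < Q := by exact_mod_cast hQ1
  have hRr : (0 : ℝ) < R := by exact_mod_cast hR
  have hNr : (0 : ℝ) < N := by exact_mod_cast hN
  have hkQ : 0 < En.kap v * Q := mul_pos hk hQ
  have : NeZero R := ⟨by omega⟩
  -- the error of one shift
  set e : ℕ → ℕ → ℕ → ℝ := fun t i b =>
    |Real.log N * (cntI A R (((i * (R * Q) : ℕ) : ℤ) + τ t)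
          (((i * (R * Q) : ℕ) : ℤ) + τ t + R * Q) ((b : ℤ) + τ t) : ℝ) -
        dns A W K N (cell K N (i * (R * Q))) (b % W) * (En.kap v * Q)| with he
  have key : ∀ i ∈ Ico i₀ i₁, ∀ b ∈ (range R).filter (fun b => b.Coprime (primorial v)),
      |bm R Q f i b - dns A W K N (cell K N (i * (R * Q))) (b % W)| ≤
        2 * ε + (∑ t ∈ T, κ t * e t i b) / (En.kap v * Q) := by
    intro i hi b hb
    rw [mem_Ico] at hi
    rw [mem_filter] at hb
    have hx0 : ε * N ≤ ((i * (R * Q) : ℕ) : ℝ) := by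
      push_cast
      refine h0.trans ?_
      have : (i₀ : ℝ) ≤ i := by exact_mod_cast hi.1
      exact mul_le_mul_of_nonneg_right this (by positivity)
    have hx1 : ((i * (R * Q) : ℕ) : ℝ) + R * Q ≤ (1 - ε) * N := by
      push_cast
      refine le_trans ?_ h1
      have : (i : ℝ) + 1 ≤ i₁ := by exact_mod_cast hi.2
      have h2 := mul_le_mul_of_nonneg_right this (show (0 : ℝ) ≤ (R : ℝ) * Q by positivity)
      linarith
    have hm := hf.mean (i * (R * Q)) b hx0 hx1 hb.2
    obtain ⟨hd0, hd1⟩ := close_dns A W K N (cell K N (i * (R * Q))) (b % W)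
    set d := dns A W K N (cell K N (i * (R * Q))) (b % W) with hd
    set S := ∑ x ∈ (Ico (i * (R * Q)) (i * (R * Q) + R * Q)).filter (fun x => x ≡ b [MOD R]), f x
      with hS
    set c : ℕ → ℝ := fun t => (cntI A R (((i * (R * Q) : ℕ) : ℤ) + τ t)
          (((i * (R * Q) : ℕ) : ℤ) + τ t + R * Q) ((b : ℤ) + τ t) : ℝ) with hc
    have hm' : |S - Real.log N / En.kap v * ∑ t ∈ T, κ t * c t| ≤ ε * Q := hm
    have he' : ∀ t, e t i b = |Real.log N * c t - d * (En.kap v * Q)| := fun t => rfl
    have hbm : bm R Q f i b = S / Q := rfl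
    have hsum : |∑ t ∈ T, κ t * (Real.log N * c t - d * (En.kap v * Q))| ≤
        ∑ t ∈ T, κ t * e t i b := by
      refine (abs_sum_le_sum_abs _ _).trans (sum_le_sum fun t ht => ?_)
      rw [abs_mul, abs_of_nonneg (hκ t ht), he' t]
    have hexp : ∑ t ∈ T, κ t * (Real.log N * c t - d * (En.kap v * Q)) =
        Real.log N * ∑ t ∈ T, κ t * c t - d * (En.kap v * Q) * ∑ t ∈ T, κ t := by
      rw [mul_sum, mul_sum, ← sum_sub_distrib]
      exact sum_congr rfl fun t _ => by ring
    set P := ∑ t ∈ T, κ t * c t with hP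
    set s := ∑ t ∈ T, κ t with hs
    set E := ∑ t ∈ T, κ t * e t i b with hE
    have hdecomp : bm R Q f i b - d = (S - Real.log N / En.kap v * P) / Q +
        (Real.log N * P - d * (En.kap v * Q) * s) / (En.kap v * Q) - d * (1 - s) := by
      rw [hbm]
      field_simp
      ring
    rw [hexp] at hsum
    have t1 : |(S - Real.log N / En.kap v * P) / Q| ≤ ε := by
      rw [abs_div, abs_of_pos hQ, div_le_iff₀ hQ]
      exact hm'
    have t2 : |(Real.log N * P - d * (En.kap v * Q) * s) / (En.kap v * Q)| ≤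
        E / (En.kap v * Q) := by
      rw [abs_div, abs_of_pos hkQ]
      exact div_le_div_of_nonneg_right hsum hkQ.le
    have t3 : |d * (1 - s)| ≤ ε := by
      rw [abs_of_nonneg (mul_nonneg hd0 (by linarith))]
      nlinarith
    rw [hdecomp]
    have := abs_sub ((S - Real.log N / En.kap v * P) / Q +
        (Real.log N * P - d * (En.kap v * Q) * s) / (En.kap v * Q)) (d * (1 - s))
    have h5 := abs_add_le ((S - Real.log N / En.kap v * P) / Q)
        ((Real.log N * P - d * (En.kap v * Q) * s) / (En.kap v * Q))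
    linarith
  have hcard : (((range R).filter (fun b => b.Coprime (primorial v))).card : ℝ) * En.kap v = R := by
    have h2 := uc_card (R := R) hRV
    have h3 := uc_sum (R := R) (primorial v) (fun _ => (1 : ℝ))
    simp only [sum_const, nsmul_eq_mul, mul_one] at h3
    rw [← h3]
    exact h2
  calc ∑ i ∈ Ico i₀ i₁, ∑ b ∈ (range R).filter (fun b => b.Coprime (primorial v)),
      |bm R Q f i b - dns A W K N (cell K N (i * (R * Q))) (b % W)|
      ≤ ∑ i ∈ Ico i₀ i₁, ∑ b ∈ (range R).filter (fun b => b.Coprime (primorial v)),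
        (2 * ε + (∑ t ∈ T, κ t * e t i b) / (En.kap v * Q)) :=
        sum_le_sum fun i hi => sum_le_sum fun b hb => key i hi b hb
    _ = ((Ico i₀ i₁).card : ℝ) * (((range R).filter (fun b => b.Coprime (primorial v))).card : ℝ) *
          (2 * ε) + (∑ t ∈ T, κ t * ∑ i ∈ Ico i₀ i₁,
            ∑ b ∈ (range R).filter (fun b => b.Coprime (primorial v)), e t i b) /
            (En.kap v * Q) := by
        simp only [sum_add_distrib, sum_const, nsmul_eq_mul]
        congr 1
        · ring
        · simp only [← sum_div]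
          congr 1
          have h6 : ∀ i ∈ Ico i₀ i₁, ∑ b ∈ (range R).filter (fun b => b.Coprime (primorial v)),
              ∑ t ∈ T, κ t * e t i b = ∑ t ∈ T, κ t *
                ∑ b ∈ (range R).filter (fun b => b.Coprime (primorial v)), e t i b := by
            intro i _
            rw [sum_comm]
            exact sum_congr rfl fun t _ => by rw [mul_sum]
          rw [sum_congr rfl h6, sum_comm]
          exact sum_congr rfl fun t _ => by rw [mul_sum]
    _ ≤ (N : ℝ) * (2 * ε) / (En.kap v * Q) + X * N / (En.kap v * Q) := by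
        refine add_le_add ?_ (div_le_div_of_nonneg_right ?_ hkQ.le)
        · rw [le_div_iff₀ hkQ]
          have h7 : ((Ico i₀ i₁).card : ℝ) ≤ i₁ := by
            rw [Nat.card_Ico]
            exact_mod_cast Nat.sub_le _ _
          have h8 : ((Ico i₀ i₁).card : ℝ) * (((range R).filter
              (fun b => b.Coprime (primorial v))).card : ℝ) * (2 * ε) * (En.kap v * Q) =
              ((Ico i₀ i₁).card : ℝ) * ((((range R).filter
              (fun b => b.Coprime (primorial v))).card : ℝ) * En.kap v * Q) * (2 * ε) := by ring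
          rw [h8, hcard]
          have h9 : ((Ico i₀ i₁).card : ℝ) * ((R : ℝ) * Q) ≤ N := by
            have h10 := mul_le_mul_of_nonneg_right h7 (show (0 : ℝ) ≤ (R : ℝ) * Q by positivity)
            nlinarith
          exact mul_le_mul_of_nonneg_right h9 (by positivity)
        · have h11 : ∑ t ∈ T, κ t * ∑ i ∈ Ico i₀ i₁,
              ∑ b ∈ (range R).filter (fun b => b.Coprime (primorial v)), e t i b ≤
              ∑ t ∈ T, κ t * (X * N) :=
            sum_le_sum fun t ht => mul_le_mul_of_nonneg_left (hX t ht) (hκ t ht)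
          rw [← sum_mul] at h11
          refine h11.trans ?_
          have h12 : 0 ≤ X * N := by positivity
          nlinarith
    _ = (2 * ε + X) * N / (En.kap v * Q) := by ring

end Pool.Agent.Lib.MP_629a14_nt.Kp.R
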