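import Pool.Agent.Lib.MP_629a14_nt.Kr.AvB

/-! The mean over the pairs of blocks is close to `Av`. -/

set_option autoImplicit false

namespace Pool.Agent.Lib.MP_629a14_nt.Kp.R

open Finset Filter Topology Pool.Agent.Lib.MP_629a14_nt Pool.Agent.Lib.MP_629a14_nt.Rob

private theorem Cmp_blocks (f : ℕ → ℝ) (M m : ℕ) :
    ∑ y ∈ range (m * M), f y = ∑ i ∈ range m, ∑ j ∈ range M, f (i * M + j) := by
  induction m with
  | zero => simp
  | succ m ih => rw [Nat.succ_mul, Finset.sum_range_add, Finset.sum_range_succ, ih]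

private theorem Cmp_ind (s t : Finset ℕ) :
    ∑ i ∈ s, (if i ∈ t then (1 : ℝ) else 0) ≤ t.card := by
  rw [Finset.sum_ite_mem, Finset.sum_const, nsmul_eq_mul, mul_one]
  exact_mod_cast Finset.card_le_card Finset.inter_subset_right

/-- Let `y` be in the block `i`. If the cell `K N` does not change on the block `i`, and not on
`((m - i - 1) M, (m - i + 1) M)`, the term of `y` in `Av` is the term of `i`. At most `3 K + 1` of
the `i < m` are exceptional. -/
theorem bl_cmp {W K N M m i₀ n : ℕ} {a b : ℕ → ℕ → ℝ} (hK : 1 ≤ K) (hM : 1 ≤ M)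
    (ha : ∀ k r, 0 ≤ a k r ∧ a k r ≤ 1) (hb : ∀ k r, 0 ≤ b k r ∧ b k r ≤ 1)
    {G : ℕ → ℕ → ℕ → ℝ → ℝ → ℝ}
    (hG : ∀ (k k' r : ℕ) (u v : ℝ), 0 ≤ u → u ≤ 1 → 0 ≤ v → v ≤ 1 →
      0 ≤ G k k' r u v ∧ G k k' r u v ≤ 1)
    (hm : 1 ≤ m) (hi₀ : 1 ≤ i₀) (hi : 2 * i₀ ≤ m) (hn1 : m * M ≤ n) (hn2 : n < (m + 1) * M)
    (hnN : n ≤ N) :
    |Av W K N a b G n - 1 / ((m : ℝ) + 1) * ∑ i ∈ Ico i₀ (m - i₀ + 1),
      prs W n (a (cell K N (i * M))) (b (cell K N ((m - i) * M)))
        (G (cell K N (i * M)) (cell K N ((m - i) * M)))| ≤ (2 * i₀ + 3 * K + 6) / m := by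
  classical
  set f : ℕ → ℝ := fun y => prs W n (a (cell K N y)) (b (cell K N (n - y)))
    (G (cell K N y) (cell K N (n - y))) with hfdef
  set g : ℕ → ℝ := fun i => prs W n (a (cell K N (i * M))) (b (cell K N ((m - i) * M)))
        (G (cell K N (i * M)) (cell K N ((m - i) * M))) with hgdef
  have hf01 : ∀ y, 0 ≤ f y ∧ f y ≤ 1 := fun y => prs_unit (ha _) (hb _) (hG _ _)
  have hg01 : ∀ i, 0 ≤ g i ∧ g i ≤ 1 := fun y => prs_unit (ha _) (hb _) (hG _ _)
  have hAv : Av W K N a b G n = (∑ y ∈ Ico 1 n, f y) / n := rfl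
  have hmM : 1 ≤ m * M := Nat.mul_pos hm hM
  set bad1 : Finset ℕ := (Ico 0 m).filter (fun i => cell K N (i * M) ≠ cell K N ((i + 1) * M))
    with hbad1
  set bad2 : Finset ℕ := (Ico 0 (m - 1)).filter
    (fun i => cell K N (i * M) ≠ cell K N ((i + 2) * M)) with hbad2
  have hmono : Monotone (fun i => cell K N (i * M)) := fun i j hij =>
    cell_mono (Nat.mul_le_mul_right M hij)
  have hcellK : ∀ i, i < m + 1 → cell K N (i * M) ≤ K := by
    intro i hi'
    refine (cell_lt hK ?_).le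
    exact (Nat.mul_le_mul_right M (by omega : i ≤ m)).trans (hn1.trans hnN)
  have hb1 : bad1.card ≤ 1 * K := bad_card _ hmono 1 0 m K fun i hi' => hcellK i hi'
  have hb2 : bad2.card ≤ 2 * K := bad_card _ hmono 2 0 (m - 1) K fun i hi' => hcellK i (by omega)
  have hgood : ∀ i ∈ Ico i₀ (m - i₀ + 1), i ∉ bad1 → (m - 1 - i) ∉ bad2 →
      ∑ j ∈ range M, f (i * M + j) = M * g i := by
    intro i hi1 h1 h2
    rw [Finset.mem_Ico] at hi1
    have hc1 : cell K N (i * M) = cell K N ((i + 1) * M) := by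
      by_contra hne
      exact h1 (Finset.mem_filter.2 ⟨Finset.mem_Ico.2 ⟨Nat.zero_le _, by omega⟩, hne⟩)
    have hc2 : cell K N ((m - 1 - i) * M) = cell K N ((m - 1 - i + 2) * M) := by
      by_contra hne
      exact h2 (Finset.mem_filter.2 ⟨Finset.mem_Ico.2 ⟨Nat.zero_le _, by omega⟩, hne⟩)
    have : ∀ j ∈ range M, f (i * M + j) = g i := by
      intro j hj
      rw [Finset.mem_range] at hj
      have e1 : cell K N (i * M + j) = cell K N (i * M) := by
        apply le_antisymm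
        · rw [hc1]
          apply cell_mono
          rw [Nat.succ_mul]
          omega
        · exact cell_mono (Nat.le_add_right _ _)
      have hsplit : m * M = (m - 1 - i) * M + (i + 1) * M := by
        rw [← Nat.add_mul]
        congr 1
        omega
      have hsplit2 : (m + 1) * M = (m - 1 - i + 2) * M + i * M := by
        rw [← Nat.add_mul]
        congr 1
        omega
      have hs3 : (i + 1) * M = i * M + M := Nat.succ_mul _ _
      have e2 : cell K N (n - (i * M + j)) = cell K N ((m - i) * M) := by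
        apply le_antisymm
        · calc cell K N (n - (i * M + j)) ≤ cell K N ((m - 1 - i + 2) * M) :=
                cell_mono (by omega)
            _ = cell K N ((m - 1 - i) * M) := hc2.symm
            _ ≤ cell K N ((m - i) * M) := cell_mono (Nat.mul_le_mul_right M (by omega))
        · calc cell K N ((m - i) * M) ≤ cell K N ((m - 1 - i + 2) * M) :=
                cell_mono (Nat.mul_le_mul_right M (by omega))
            _ = cell K N ((m - 1 - i) * M) := hc2.symm
            _ ≤ cell K N (n - (i * M + j)) := cell_mono (by omega)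
      simp only [hfdef, hgdef, e1, e2]
    rw [Finset.sum_congr rfl this, Finset.sum_const, Finset.card_range, nsmul_eq_mul]
  -- the blocks
  have hblk01 : ∀ i, 0 ≤ ∑ j ∈ range M, f (i * M + j) ∧ ∑ j ∈ range M, f (i * M + j) ≤ M := by
    intro i
    refine ⟨Finset.sum_nonneg fun j _ => (hf01 _).1, ?_⟩
    calc ∑ j ∈ range M, f (i * M + j) ≤ ∑ _j ∈ range M, (1 : ℝ) :=
          Finset.sum_le_sum fun j _ => (hf01 _).2
      _ = M := by simp
  have hM0 : (0 : ℝ) < M := by exact_mod_cast hM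
  have hterm : ∀ i ∈ range m, |∑ j ∈ range M, f (i * M + j) -
      (if i ∈ Ico i₀ (m - i₀ + 1) then (M : ℝ) * g i else 0)| ≤
      M * ((if i ∈ range i₀ then (1 : ℝ) else 0) + (if i ∈ Ico (m - i₀ + 1) m then (1 : ℝ) else 0)
        + (if i ∈ bad1 then (1 : ℝ) else 0) + (if m - 1 - i ∈ bad2 then (1 : ℝ) else 0)) := by
    intro i him
    rw [Finset.mem_range] at him
    have n1 : (0 : ℝ) ≤ (if i ∈ range i₀ then (1 : ℝ) else 0) := by split_ifs <;> norm_num
    have n2 : (0 : ℝ) ≤ (if i ∈ Ico (m - i₀ + 1) m then (1 : ℝ) else 0) := by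
      split_ifs <;> norm_num
    have n3 : (0 : ℝ) ≤ (if i ∈ bad1 then (1 : ℝ) else 0) := by split_ifs <;> norm_num
    have n4 : (0 : ℝ) ≤ (if m - 1 - i ∈ bad2 then (1 : ℝ) else 0) := by split_ifs <;> norm_num
    have hbase : ∀ c : ℝ, 1 ≤ c → |∑ j ∈ range M, f (i * M + j) -
      (if i ∈ Ico i₀ (m - i₀ + 1) then (M : ℝ) * g i else 0)| ≤ M * c := by
      intro c hc
      have q1 := (hblk01 i).1
      have q2 := (hblk01 i).2
      have q3 : 0 ≤ (if i ∈ Ico i₀ (m - i₀ + 1) then (M : ℝ) * g i else 0) ∧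
          (if i ∈ Ico i₀ (m - i₀ + 1) then (M : ℝ) * g i else 0) ≤ M := by
        split_ifs
        · exact ⟨mul_nonneg hM0.le (hg01 i).1, by nlinarith [(hg01 i).2]⟩
        · exact ⟨le_rfl, hM0.le⟩
      have q4 : (M : ℝ) ≤ M * c := by nlinarith
      rw [abs_le]
      constructor <;> linarith [q3.1, q3.2]
    by_cases c1 : i ∈ range i₀
    · apply hbase
      rw [if_pos c1]
      linarith
    by_cases c2 : i ∈ Ico (m - i₀ + 1) m
    · apply hbase
      rw [if_pos c2]
      linarith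
    by_cases c3 : i ∈ bad1
    · apply hbase
      rw [if_pos c3]
      linarith
    by_cases c4 : m - 1 - i ∈ bad2
    · apply hbase
      rw [if_pos c4]
      linarith
    have hmem : i ∈ Ico i₀ (m - i₀ + 1) := by
      rw [Finset.mem_range] at c1
      rw [Finset.mem_Ico] at c2 ⊢
      omega
    rw [if_pos hmem, hgood i hmem c3 c4, sub_self, abs_zero]
    positivity
  have hsum : |∑ y ∈ range (m * M), f y - M * ∑ i ∈ Ico i₀ (m - i₀ + 1), g i| ≤
      M * (2 * i₀ - 1 + 3 * K) := by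
    have e1 : M * ∑ i ∈ Ico i₀ (m - i₀ + 1), g i =
        ∑ i ∈ range m, (if i ∈ Ico i₀ (m - i₀ + 1) then (M : ℝ) * g i else 0) := by
      rw [Finset.sum_ite_mem, Finset.mul_sum]
      refine Finset.sum_congr ?_ fun _ _ => rfl
      ext i
      simp only [Finset.mem_Ico, Finset.mem_inter, Finset.mem_range]
      omega
    rw [e1, Cmp_blocks, ← Finset.sum_sub_distrib]
    refine (Finset.abs_sum_le_sum_abs _ _).trans ((Finset.sum_le_sum hterm).trans ?_)
    rw [← Finset.mul_sum]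
    apply mul_le_mul_of_nonneg_left _ hM0.le
    rw [Finset.sum_add_distrib, Finset.sum_add_distrib, Finset.sum_add_distrib]
    have s1 := Cmp_ind (range m) (range i₀)
    have s2 := Cmp_ind (range m) (Ico (m - i₀ + 1) m)
    have s3 := Cmp_ind (range m) bad1
    have s4 : ∑ i ∈ range m, (if m - 1 - i ∈ bad2 then (1 : ℝ) else 0) ≤ bad2.card := by
      rw [Finset.sum_range_reflect (fun i => if i ∈ bad2 then (1 : ℝ) else 0) m]
      exact Cmp_ind (range m) bad2
    rw [Finset.card_range] at s1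
    rw [Nat.card_Ico] at s2
    have s2' : ((m - (m - i₀ + 1) : ℕ) : ℝ) = i₀ - 1 := by
      have : m - (m - i₀ + 1) = i₀ - 1 := by omega
      rw [this, Nat.cast_sub hi₀, Nat.cast_one]
    rw [s2'] at s2
    have s3' : (bad1.card : ℝ) ≤ K := by
      have := hb1
      rw [one_mul] at this
      exact_mod_cast this
    have s4' : (bad2.card : ℝ) ≤ 2 * K := by exact_mod_cast hb2
    linarith
  -- passage from `range (m * M)` to `Ico 1 n`
  have htot : ∑ y ∈ Ico 1 n, f y = ∑ y ∈ range (m * M), f y + ∑ y ∈ Ico (m * M) n, f y - f 0 := by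
    have e1 : ∑ y ∈ range n, f y = ∑ y ∈ range (m * M), f y + ∑ y ∈ Ico (m * M) n, f y :=
      (Finset.sum_range_add_sum_Ico f hn1).symm
    have e2 : ∑ y ∈ range n, f y = ∑ y ∈ range 1, f y + ∑ y ∈ Ico 1 n, f y :=
      (Finset.sum_range_add_sum_Ico f (hmM.trans hn1)).symm
    rw [Finset.sum_range_one] at e2
    linarith
  have htail : 0 ≤ ∑ y ∈ Ico (m * M) n, f y ∧ ∑ y ∈ Ico (m * M) n, f y ≤ M := by
    refine ⟨Finset.sum_nonneg fun j _ => (hf01 _).1, ?_⟩
    calc ∑ y ∈ Ico (m * M) n, f y ≤ ∑ _y ∈ Ico (m * M) n, (1 : ℝ) :=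
          Finset.sum_le_sum fun j _ => (hf01 _).2
      _ = ((n - m * M : ℕ) : ℝ) := by simp
      _ ≤ M := by
        have : n - m * M ≤ M := by
          rw [Nat.succ_mul] at hn2
          omega
        exact_mod_cast this
  set T : ℝ := ∑ i ∈ Ico i₀ (m - i₀ + 1), g i with hT
  have hT0 : 0 ≤ T := Finset.sum_nonneg fun i _ => (hg01 i).1
  have hTm : T ≤ m := by
    calc T ≤ ∑ _i ∈ Ico i₀ (m - i₀ + 1), (1 : ℝ) := Finset.sum_le_sum fun i _ => (hg01 i).2
      _ = ((m - i₀ + 1 - i₀ : ℕ) : ℝ) := by simp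
      _ ≤ m := by
        have : m - i₀ + 1 - i₀ ≤ m := by omega
        exact_mod_cast this
  have hm0 : (0 : ℝ) < m := by exact_mod_cast hm
  have hn0 : (0 : ℝ) < n := by
    have : 0 < n := lt_of_lt_of_le hmM hn1
    exact_mod_cast this
  have hnr1 : (m : ℝ) * M ≤ n := by exact_mod_cast hn1
  have hnr2 : (n : ℝ) ≤ (m + 1) * M := by exact_mod_cast hn2.le
  have hM1 : (1 : ℝ) ≤ M := by exact_mod_cast hM
  rw [hAv]
  have hA : |∑ y ∈ Ico 1 n, f y - M * T| ≤ M * (2 * i₀ + 1 + 3 * K) := by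
    rw [htot, abs_le]
    rw [abs_le] at hsum
    have hf0 := hf01 0
    constructor
    · nlinarith [hsum.1, htail.1, hf0.2]
    · nlinarith [hsum.2, htail.2, hf0.1]
  have hdec : (∑ y ∈ Ico 1 n, f y) / n - 1 / ((m : ℝ) + 1) * T =
      (∑ y ∈ Ico 1 n, f y - M * T) / n + T * ((m + 1) * M - n) / (n * (m + 1)) := by
    have : (m : ℝ) + 1 ≠ 0 := by positivity
    field_simp
    ring
  rw [hdec]
  have hx : |(∑ y ∈ Ico 1 n, f y - M * T) / n| ≤ (2 * i₀ + 1 + 3 * K) / m := by
    rw [abs_div, abs_of_pos hn0, div_le_div_iff₀ hn0 hm0]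
    have hc : (0 : ℝ) ≤ 2 * i₀ + 1 + 3 * K := by positivity
    calc |∑ y ∈ Ico 1 n, f y - M * T| * m ≤ M * (2 * i₀ + 1 + 3 * K) * m :=
          mul_le_mul_of_nonneg_right hA hm0.le
      _ = (2 * i₀ + 1 + 3 * K) * (m * M) := by ring
      _ ≤ (2 * i₀ + 1 + 3 * K) * n := mul_le_mul_of_nonneg_left hnr1 hc
  have hy : |T * ((m + 1) * M - n) / (n * (m + 1))| ≤ 1 / m := by
    have h0 : 0 ≤ T * ((m + 1) * M - n) := mul_nonneg hT0 (by linarith)
    rw [abs_of_nonneg (by positivity), div_le_div_iff₀ (by positivity) hm0]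
    have h1 : (m + 1) * (M : ℝ) - n ≤ M := by nlinarith
    calc T * ((m + 1) * M - n) * m ≤ m * M * m := by
          apply mul_le_mul_of_nonneg_right _ hm0.le
          exact mul_le_mul hTm h1 (by linarith) hm0.le
      _ ≤ 1 * (n * (m + 1)) := by nlinarith [mul_le_mul_of_nonneg_right hnr1 hm0.le]
  refine (abs_add_le _ _).trans ((add_le_add hx hy).trans ?_)
  rw [← add_div]
  apply div_le_div_of_nonneg_right _ hm0.le
  linarith

end Pool.Agent.Lib.MP_629a14_nt.Kp.R
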