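import Pool.Agent.Lib.MP_629a14_nt.Kr.AvB

/-! `Av` and `RT` vary slowly on the residue classes. -/

set_option autoImplicit false

namespace Pool.Agent.Lib.MP_629a14_nt.Kp.R

open Finset Filter Topology Pool.Agent.Lib.MP_629a14_nt Pool.Agent.Lib.MP_629a14_nt.Rob

private theorem cont_bad {K N n n' : ℕ} (hK : 1 ≤ K) (h2 : n ≤ n') (h3 : n' ≤ N) :
    ((Ico 1 n).filter (fun y => cell K N (n - y) ≠ cell K N (n' - y))).card ≤ (n' - n) * K := by
  have h := bad_card (cell K N) (fun x y h => cell_mono h) (n' - n) 1 n K (fun i hi =>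
    (cell_lt hK (by omega)).le)
  refine le_trans ?_ h
  refine card_le_card_of_injOn (fun y => n - y) ?_ ?_
  · intro y hy
    simp only [coe_filter, mem_Ico, Set.mem_setOf_eq] at hy ⊢
    refine ⟨by omega, ?_⟩
    have e : n - y + (n' - n) = n' - y := by omega
    rw [e]
    exact hy.2
  · intro y hy z hz h
    simp only [coe_filter, mem_Ico, Set.mem_setOf_eq] at hy hz h
    omega

/-- Compare the sums over `y`: the cell of `n - y` differs from the cell of `n' - y` for at most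
`K (n' - n)` numbers `y < n` (telescope). -/
theorem av_cont {W K N n n' : ℕ} {a b : ℕ → ℕ → ℝ} (hK : 1 ≤ K)
    (ha : ∀ k r, 0 ≤ a k r ∧ a k r ≤ 1) (hb : ∀ k r, 0 ≤ b k r ∧ b k r ≤ 1)
    {G : ℕ → ℕ → ℕ → ℝ → ℝ → ℝ}
    (hG : ∀ (k k' r : ℕ) (u v : ℝ), 0 ≤ u → u ≤ 1 → 0 ≤ v → v ≤ 1 →
      0 ≤ G k k' r u v ∧ G k k' r u v ≤ 1)
    (h1 : 1 ≤ n) (h2 : n ≤ n') (h3 : n' ≤ N) (hmod : n ≡ n' [MOD W]) :
    |Av W K N a b G n - Av W K N a b G n'| ≤ (K + 2) * ((n' : ℝ) - n) / n := by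
  set g : ℕ → ℝ := fun y => prs W n' (a (cell K N y)) (b (cell K N (n - y)))
    (G (cell K N y) (cell K N (n - y))) with hg
  set g' : ℕ → ℝ := fun y => prs W n' (a (cell K N y)) (b (cell K N (n' - y)))
    (G (cell K N y) (cell K N (n' - y))) with hg'
  have eA : Av W K N a b G n = (∑ y ∈ Ico 1 n, g y) / n := by
    unfold Av
    congr 1
    exact sum_congr rfl fun y _ => prs_mod hmod _ _ _
  have eA' : Av W K N a b G n' = (∑ y ∈ Ico 1 n', g' y) / n' := rfl
  have hg1 : ∀ y, 0 ≤ g y ∧ g y ≤ 1 := fun y =>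
    prs_unit (fun r => ha _ r) (fun r => hb _ r) (fun r u v => hG _ _ r u v)
  have hg2 : ∀ y, 0 ≤ g' y ∧ g' y ≤ 1 := fun y =>
    prs_unit (fun r => ha _ r) (fun r => hb _ r) (fun r u v => hG _ _ r u v)
  have hd : ∀ y, |g y - g' y| ≤ if cell K N (n - y) ≠ cell K N (n' - y) then 1 else 0 := by
    intro y
    split_ifs with h
    · obtain ⟨p1, p2⟩ := hg1 y
      obtain ⟨q1, q2⟩ := hg2 y
      rw [abs_le]
      constructor <;> linarith
    · have h' : cell K N (n - y) = cell K N (n' - y) := not_not.1 h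
      have : g y = g' y := by
        simp only [hg, hg', h']
      rw [this, sub_self, abs_zero]
  have hn : (0 : ℝ) < n := by exact_mod_cast h1
  have hn' : (0 : ℝ) < n' := by exact_mod_cast (lt_of_lt_of_le h1 h2)
  have hq : (((n' - n : ℕ) : ℕ) : ℝ) = (n' : ℝ) - n := by
    rw [Nat.cast_sub h2]
  have hq0 : (0 : ℝ) ≤ (n' : ℝ) - n := by
    rw [← hq]
    exact Nat.cast_nonneg _
  -- the sums
  have hS : |∑ y ∈ Ico 1 n, g y - ∑ y ∈ Ico 1 n, g' y| ≤ ((n' : ℝ) - n) * K := by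
    rw [← sum_sub_distrib]
    refine (abs_sum_le_sum_abs _ _).trans ((sum_le_sum fun y _ => hd y).trans ?_)
    rw [sum_ite, sum_const_zero, add_zero, sum_const, nsmul_eq_mul, mul_one, ← hq]
    exact_mod_cast cont_bad hK h2 h3
  have hsplit : ∑ y ∈ Ico 1 n', g' y = ∑ y ∈ Ico 1 n, g' y + ∑ y ∈ Ico n n', g' y :=
    (sum_Ico_consecutive _ h1 h2).symm
  have hT0 : 0 ≤ ∑ y ∈ Ico n n', g' y := sum_nonneg fun y _ => (hg2 y).1
  have hT1 : ∑ y ∈ Ico n n', g' y ≤ (n' : ℝ) - n := by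
    refine (sum_le_sum fun y _ => (hg2 y).2).trans ?_
    rw [sum_const, nsmul_eq_mul, mul_one, Nat.card_Ico, hq]
  set S := ∑ y ∈ Ico 1 n, g y with hSd
  set S' := ∑ y ∈ Ico 1 n', g' y with hSd'
  have hS'0 : 0 ≤ S' := sum_nonneg fun y _ => (hg2 y).1
  have hS'1 : S' ≤ n' := by
    refine (sum_le_sum fun y _ => (hg2 y).2).trans ?_
    rw [sum_const, nsmul_eq_mul, mul_one, Nat.card_Ico]
    exact_mod_cast Nat.sub_le _ _
  have hSS : |S - S'| ≤ (K + 1) * ((n' : ℝ) - n) := by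
    rw [hsplit]
    rw [abs_le] at hS ⊢
    constructor <;> nlinarith [hS.1, hS.2]
  rw [eA, eA']
  have e : S / n - S' / n' = (S - S') / n + S' * ((n' : ℝ) - n) / (n' * n) := by
    field_simp
    ring
  have hb1 : |(S - S') / n| ≤ (K + 1) * ((n' : ℝ) - n) / n := by
    rw [abs_div, abs_of_pos hn]
    exact div_le_div_of_nonneg_right hSS hn.le
  have hb2 : |S' * ((n' : ℝ) - n) / (n' * n)| ≤ ((n' : ℝ) - n) / n := by
    rw [abs_of_nonneg (by positivity), div_le_div_iff₀ (by positivity) hn]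
    have := mul_le_mul_of_nonneg_right hS'1 (mul_nonneg hq0 hn.le)
    nlinarith
  rw [e]
  calc |(S - S') / n + S' * ((n' : ℝ) - n) / (n' * n)|
      ≤ |(S - S') / n| + |S' * ((n' : ℝ) - n) / (n' * n)| := abs_add_le _ _
    _ ≤ (K + 1) * ((n' : ℝ) - n) / n + ((n' : ℝ) - n) / n := add_le_add hb1 hb2
    _ = (K + 2) * ((n' : ℝ) - n) / n := by ring

private theorem cont_av_x {W K N n : ℕ} {a b : ℕ → ℕ → ℝ} :
    Continuous (fun x => Av W K N a b (fun _ _ _ u v => trap u v x) n) := by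
  simp only [Av_eq]
  exact continuous_finsetSum _ fun j _ => continuous_const.mul (trap_cont _ _)

theorem rt_cont {W K N n n' : ℕ} {a b : ℕ → ℕ → ℝ} (hK : 1 ≤ K)
    (ha : ∀ k r, 0 ≤ a k r ∧ a k r ≤ 1) (hb : ∀ k r, 0 ≤ b k r ∧ b k r ≤ 1)
    (h1 : 1 ≤ n) (h2 : n ≤ n') (h3 : n' ≤ N) (hmod : n ≡ n' [MOD W]) (t : ℝ) :
    |RT W K N a b t n - RT W K N a b t n'| ≤ (K + 2) * ((n' : ℝ) - n) / n := by
  have hi : ∀ m : ℕ, IntervalIntegrable
      (fun x => min (Av W K N a b (fun _ _ _ u v => trap u v x) m) t)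
      MeasureTheory.volume 0 (1 / 2) := fun m =>
    (cont_av_x.min continuous_const).intervalIntegrable _ _
  have e : RT W K N a b t n - RT W K N a b t n' = 2 * ∫ x in (0 : ℝ)..(1 / 2),
      (min (Av W K N a b (fun _ _ _ u v => trap u v x) n) t -
        min (Av W K N a b (fun _ _ _ u v => trap u v x) n') t) := by
    rw [intervalIntegral.integral_sub (hi n) (hi n')]
    unfold RT lw
    ring
  have hb' : ∀ x ∈ Set.uIoc (0 : ℝ) (1 / 2),
      ‖min (Av W K N a b (fun _ _ _ u v => trap u v x) n) t -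
        min (Av W K N a b (fun _ _ _ u v => trap u v x) n') t‖ ≤
        (K + 2) * ((n' : ℝ) - n) / n := by
    intro x _
    rw [Real.norm_eq_abs]
    refine le_trans ?_ (av_cont hK ha hb (G := fun _ _ _ u v => trap u v x)
      (fun k k' r u v hu hu' hv hv' => trap_mem hu hu' hv hv') h1 h2 h3 hmod)
    exact abs_inf_sub_inf_le_abs _ _ _
  have h := intervalIntegral.norm_integral_le_of_norm_le_const hb'
  rw [Real.norm_eq_abs] at h
  have h12 : |(1 : ℝ) / 2 - 0| = 1 / 2 := by norm_num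
  rw [h12] at h
  rw [e, abs_mul, abs_of_pos (two_pos : (0 : ℝ) < 2)]
  linarith

end Pool.Agent.Lib.MP_629a14_nt.Kp.R
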