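import Pool.Agent.Lib.MP_629a14_nt.Kp.GDefs
import Pool.Agent.Lib.MP_629a14_nt.Kp.PfExt

/-! Definitions for the rearrangement inequality for arbitrary sets of primes. -/

set_option autoImplicit false

namespace Pool.Agent.Lib.MP_629a14_nt.Kp.R

open Finset Filter Topology Pool.Agent.Lib.MP_629a14_nt Pool.Agent.Lib.MP_629a14_nt.Rob

/-- The index of the cell of `x`, where `[0, N]` is cut into `K` cells of equal length. -/
def cell (K N x : ℕ) : ℕ := x * K / (N + 1)

open Classical in
/-- The number of the primes `p ≤ N` of `A` in the cell `k` with `p ≡ r` modulo `W`. -/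
noncomputable def cellc (A : Set ℕ) (W K N k r : ℕ) : ℕ :=
  ((Icc 1 N).filter (fun p => p.Prime ∧ p ∈ A ∧ cell K N p = k ∧ p % W = r)).card

/-- The relative density of `A` in the primes of the cell `k` with `p ≡ r` modulo `W`. -/
noncomputable def dns (A : Set ℕ) (W K N k r : ℕ) : ℝ :=
  (cellc A W K N k r : ℝ) / cellc Set.univ W K N k r

/-- The relative density of `A` in the cell and the class of `p`. -/
noncomputable def dnp (A : Set ℕ) (W K N p : ℕ) : ℝ := dns A W K N (cell K N p) (p % W)

/-- The integers `p` coprime to `W` with `√2 p` at distance less than half of `a` from the integers,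
where `a` depends on the cell of `p` and on `p mod W`. -/
def starN (W K N : ℕ) (a : ℕ → ℕ → ℝ) : Set ℕ :=
  {p : ℕ | p.Coprime W ∧
    |Real.sqrt 2 * p - round (Real.sqrt 2 * p)| < a (cell K N p) (p % W) / 2}

/-- The densities of `A` on the cells and classes are close to those on finer cells and classes. -/
def Flat (W K W' K' N : ℕ) (A : Set ℕ) (δ : ℝ) : Prop :=
  Real.log N * ∑ p ∈ (Icc 1 N).filter Nat.Prime, |dnp A W' K' N p - dnp A W K N p| ≤ δ * N

/-- The mean over the representations `n = y + z` of the values of `G` at the densities. -/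
noncomputable def Av (W K N : ℕ) (a b : ℕ → ℕ → ℝ) (G : ℕ → ℕ → ℕ → ℝ → ℝ → ℝ) (n : ℕ) : ℝ :=
  (∑ y ∈ Ico 1 n, prs W n (a (cell K N y)) (b (cell K N (n - y)))
    (G (cell K N y) (cell K N (n - y)))) / n

/-- The mean of the truncated local law. -/
noncomputable def RT (W K N : ℕ) (a b : ℕ → ℕ → ℝ) (t : ℝ) (n : ℕ) : ℝ :=
  lw (fun x => Av W K N a b (fun _ _ _ u v => trap u v x) n) (fun y => min y t)

end Pool.Agent.Lib.MP_629a14_nt.Kp.R
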