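import Pool.Agent.Lib.MP_629a14_nt.Kr.Defs
import Pool.Agent.Lib.MP_629a14_nt.Kp.PfBlock

/-! More definitions for the rearrangement inequality for arbitrary sets of primes. -/

set_option autoImplicit false

namespace Pool.Agent.Lib.MP_629a14_nt.Kp.R

open Finset Filter Topology Pool.Agent.Lib.MP_629a14_nt Pool.Agent.Lib.MP_629a14_nt.Rob

/-- The mean of `f` over the class `b` modulo `R` in the block `i`. -/
noncomputable def bm (R Q : ℕ) (f : ℕ → ℝ) (i b : ℕ) : ℝ :=
  (∑ x ∈ (Ico (i * (R * Q)) (i * (R * Q) + R * Q)).filter (fun x => x ≡ b [MOD R]), f x) / Q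

/-- The mean distance between the block means of `f` and the profile `u`. -/
noncomputable def dd (W V R Q : ℕ) [NeZero R] (f : ℕ → ℝ) (u : ℕ → ℕ → ℝ) (i : ℕ) (κ : ZMod R) : ℝ :=
  (∑ b ∈ Uk V R κ, |bm R Q f i b.val - u i (b.val % W)|) / (Uk V R κ).card

/-- The primes in `[x, y)` in the class `b` modulo `R`. -/
def pI (N R : ℕ) (x y b : ℤ) : Finset ℕ :=
  (Icc 1 N).filter (fun p => p.Prime ∧ x ≤ (p : ℤ) ∧ (p : ℤ) < y ∧ (p : ℤ) ≡ b [ZMOD R])

/-- The number of primes in a cell. -/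
def ncell (K N k : ℕ) : ℕ := ((Icc 1 N).filter (fun p => p.Prime ∧ cell K N p = k)).card

/-- Every cell contains a prime of every reduced class. -/
def Full (W K N : ℕ) : Prop := ∀ k r : ℕ, k < K → r < W → r.Coprime W →
  0 < cellc Set.univ W K N k r

end Pool.Agent.Lib.MP_629a14_nt.Kp.R
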