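import Pool.Agent.Lib.MP_629a14_nt.Kr.Cell
import Pool.Agent.Lib.MP_629a14_nt.Kp.PfDens
import Pool.Agent.Lib.MP_629a14_nt.Kp.PfMean

/-! The prime number theorem in the cells and classes. -/

set_option autoImplicit false

namespace Pool.Agent.Lib.MP_629a14_nt.Kp.R

open Finset Filter Topology Pool.Agent.Lib.MP_629a14_nt Pool.Agent.Lib.MP_629a14_nt.Rob

open Pool.Agent.Lib.MP_629a14_nt.Ml

theorem pnt_class (R : ℕ) (hR : 1 ≤ R) (ρ : ℝ) (hρ : 0 < ρ) : ∃ N₀ : ℕ, ∀ N : ℕ, N₀ ≤ N →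
    ∀ b : ℕ, b.Coprime R → ∀ x : ℕ, x ≤ N →
      |Real.log N * (cntA Set.univ R b x : ℝ) - x / R.totient| ≤ ρ * N := by
  obtain ⟨N₀, h⟩ := prof_unif (pf_univ 1) R hR (one_dvd R) ρ hρ
  refine ⟨N₀, fun N hN b hb x hx => ?_⟩
  have := h N hN b hb x hx
  rwa [one_mul] at this

private theorem pnt_cell_iff {K N k p : ℕ} (hK : 1 ≤ K) (hp : 1 ≤ p) :
    cell K N p = k ↔ (k * (N + 1) - 1) / K < p ∧ p ≤ ((k + 1) * (N + 1) - 1) / K := by
  unfold cell
  have h1 : k ≤ p * K / (N + 1) ↔ k * (N + 1) ≤ p * K :=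
    Nat.le_div_iff_mul_le (by omega)
  have h2 : p * K / (N + 1) < k + 1 ↔ p * K < (k + 1) * (N + 1) :=
    Nat.div_lt_iff_lt_mul (by omega)
  have h3 : (k * (N + 1) - 1) / K < p ↔ k * (N + 1) - 1 < p * K :=
    Nat.div_lt_iff_lt_mul (by omega)
  have h4 : p ≤ ((k + 1) * (N + 1) - 1) / K ↔ p * K ≤ (k + 1) * (N + 1) - 1 :=
    Nat.le_div_iff_mul_le (by omega)
  have h5 : 1 ≤ p * K := Nat.mul_pos hp hK
  have h6 : 1 ≤ (k + 1) * (N + 1) := Nat.mul_pos (by omega) (by omega)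
  rw [h3, h4]
  constructor
  · intro h
    have h7 := h1.1 (by omega)
    have h8 := h2.1 (by omega)
    omega
  · rintro ⟨h7, h8⟩
    have h9 := h1.2 (by omega)
    have h10 := h2.2 (by omega)
    omega

private theorem pnt_cell_cnt (P : ℕ → Prop) [DecidablePred P] {K N k : ℕ} (hK : 1 ≤ K) :
    ((Icc 1 N).filter (fun p => P p ∧ cell K N p = k)).card +
      ((Icc 1 (min ((k * (N + 1) - 1) / K) N)).filter P).card =
      ((Icc 1 (min (((k + 1) * (N + 1) - 1) / K) N)).filter P).card := by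
  have hle : (k * (N + 1) - 1) / K ≤ ((k + 1) * (N + 1) - 1) / K := by
    apply Nat.div_le_div_right
    have : k * (N + 1) ≤ (k + 1) * (N + 1) := Nat.mul_le_mul_right _ (by omega)
    omega
  rw [← card_union_of_disjoint]
  · congr 1
    ext p
    simp only [mem_union, mem_filter, mem_Icc, le_min_iff]
    constructor
    · rintro (⟨⟨h1, h2⟩, h3, h4⟩ | ⟨⟨h1, h2, h3⟩, h4⟩)
      · rw [pnt_cell_iff hK h1] at h4
        exact ⟨⟨h1, h4.2, h2⟩, h3⟩
      · exact ⟨⟨h1, by omega, h3⟩, h4⟩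
    · rintro ⟨⟨h1, h2, h3⟩, h4⟩
      rcases le_or_gt p ((k * (N + 1) - 1) / K) with h5 | h5
      · exact Or.inr ⟨⟨h1, h5, h3⟩, h4⟩
      · exact Or.inl ⟨⟨h1, h3⟩, h4, (pnt_cell_iff hK h1).2 ⟨h5, h2⟩⟩
  · rw [disjoint_left]
    intro p hp hp'
    simp only [mem_filter, mem_Icc, le_min_iff] at hp hp'
    have := (pnt_cell_iff hK hp.1.1).1 hp.2.2
    omega

/-- Apply `pnt_class` with `R = 1`: the cell `k` is the interval `k (N + 1) ≤ p K < (k + 1) (N + 1)`. -/
theorem pnt_cell (K : ℕ) (hK : 1 ≤ K) (ρ : ℝ) (hρ : 0 < ρ) : ∃ N₀ : ℕ, ∀ N : ℕ, N₀ ≤ N →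
    ∀ k : ℕ, Real.log N * (ncell K N k : ℝ) ≤ N / K + ρ * N := by
  classical
  obtain ⟨N₁, hN₁⟩ := pnt_class 1 le_rfl (ρ / 4) (by positivity)
  obtain ⟨N₂, hN₂⟩ := exists_nat_ge (4 / ρ)
  refine ⟨max N₁ N₂, fun N hN k => ?_⟩
  have hN1 : N₁ ≤ N := (le_max_left _ _).trans hN
  have hN2 : 4 / ρ ≤ N := hN₂.trans (by exact_mod_cast (le_max_right _ _).trans hN)
  have hKr : (1 : ℝ) ≤ K := by exact_mod_cast hK
  have hN4 : 4 ≤ ρ * N := by
    rw [div_le_iff₀ hρ] at hN2
    linarith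
  set lo := (k * (N + 1) - 1) / K with hlo
  set hi := ((k + 1) * (N + 1) - 1) / K with hhi
  have hc := pnt_cell_cnt (fun p : ℕ => p.Prime ∧ p ∈ (Set.univ : Set ℕ) ∧ p ≡ 0 [MOD 1])
    (K := K) (N := N) (k := k) hK
  have e0 : ((Icc 1 N).filter (fun p : ℕ => (p.Prime ∧ p ∈ (Set.univ : Set ℕ) ∧ p ≡ 0 [MOD 1]) ∧
      cell K N p = k)).card = ncell K N k := by
    unfold ncell
    congr 1
    ext p
    simp only [mem_filter, Set.mem_univ, Nat.modEq_one, and_true]
  have e1 : ∀ x : ℕ, ((Icc 1 x).filter (fun p : ℕ => p.Prime ∧ p ∈ (Set.univ : Set ℕ) ∧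
      p ≡ 0 [MOD 1])).card = cntA Set.univ 1 0 x := by
    intro x
    unfold cntA
    congr 1
    ext p
    simp only [mem_filter]
  rw [e0, e1, e1] at hc
  have hcr : (ncell K N k : ℝ) = cntA Set.univ 1 0 (min hi N) - cntA Set.univ 1 0 (min lo N) := by
    rw [eq_sub_iff_add_eq]
    exact_mod_cast hc
  have g1 := abs_le.1 (hN₁ N hN1 0 (by simp) (min hi N) (min_le_right _ _))
  have g2 := abs_le.1 (hN₁ N hN1 0 (by simp) (min lo N) (min_le_right _ _))
  simp only [Nat.totient_one, Nat.cast_one, div_one] at g1 g2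
  have hdiff : ((min hi N : ℕ) : ℝ) - (min lo N : ℕ) ≤ N / K + 2 := by
    rcases le_or_gt N lo with h1 | h1
    · rw [min_eq_right h1]
      have : ((min hi N : ℕ) : ℝ) ≤ N := by exact_mod_cast min_le_right _ _
      have : (0 : ℝ) ≤ N / K := by positivity
      linarith
    · rw [min_eq_left h1.le]
      have h2 : ((min hi N : ℕ) : ℝ) ≤ hi := by exact_mod_cast min_le_left _ _
      have h3 : hi * K ≤ (k + 1) * (N + 1) := by
        have := Nat.div_mul_le_self ((k + 1) * (N + 1) - 1) K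
        rw [← hhi] at this
        omega
      have h4 : k * (N + 1) ≤ (lo + 1) * K := by
        have h8 := Nat.div_add_mod (k * (N + 1) - 1) K
        have h9 := Nat.mod_lt (k * (N + 1) - 1) (show 0 < K by omega)
        rw [← hlo] at h8
        rw [add_mul, one_mul, mul_comm lo K]
        omega
      have h3r : (hi : ℝ) * K ≤ (k + 1) * (N + 1) := by exact_mod_cast h3
      have h4r : (k : ℝ) * (N + 1) ≤ (lo + 1) * K := by exact_mod_cast h4
      have h5 : ((hi : ℝ) - lo - 1) * K ≤ N + 1 := by nlinarith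
      have h6 : (hi : ℝ) - lo - 1 ≤ (N + 1) / K := by
        rw [le_div_iff₀ (by linarith)]
        exact h5
      have h7 : ((N : ℝ) + 1) / K ≤ N / K + 1 := by
        rw [add_div]
        have : (1 : ℝ) / K ≤ 1 := by
          rw [div_le_one (by linarith)]
          exact hKr
        linarith
      linarith
  rw [hcr, mul_sub]
  linarith

/-- Apply `pnt_class` with `R = W` and a small `ρ`. -/
theorem full_ev (W K : ℕ) (hW : 1 ≤ W) (hK : 1 ≤ K) : ∃ N₀ : ℕ, ∀ N : ℕ, N₀ ≤ N → Full W K N := by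
  classical
  have hWr : (1 : ℝ) ≤ W := by exact_mod_cast hW
  have hKr : (1 : ℝ) ≤ K := by exact_mod_cast hK
  obtain ⟨N₁, hN₁⟩ := pnt_class W hW (1 / (8 * K * W)) (by positivity)
  refine ⟨max N₁ (2 * K), fun N hN k r hk hr hrW => ?_⟩
  have hN1 : N₁ ≤ N := (le_max_left _ _).trans hN
  have hN2 : 2 * K ≤ N := (le_max_right _ _).trans hN
  have hN2r : (2 : ℝ) * K ≤ N := by exact_mod_cast hN2
  set lo := (k * (N + 1) - 1) / K with hlo
  set hi := ((k + 1) * (N + 1) - 1) / K with hhi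
  have hc := pnt_cell_cnt (fun p : ℕ => p.Prime ∧ p ∈ (Set.univ : Set ℕ) ∧ p ≡ r [MOD W])
    (K := K) (N := N) (k := k) hK
  have e0 : ((Icc 1 N).filter (fun p : ℕ => (p.Prime ∧ p ∈ (Set.univ : Set ℕ) ∧ p ≡ r [MOD W]) ∧
      cell K N p = k)).card = cellc Set.univ W K N k r := by
    unfold cellc
    congr 1
    ext p
    simp only [mem_filter, Nat.ModEq, Nat.mod_eq_of_lt hr]
    tauto
  have e1 : ∀ x : ℕ, ((Icc 1 x).filter (fun p : ℕ => p.Prime ∧ p ∈ (Set.univ : Set ℕ) ∧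
      p ≡ r [MOD W])).card = cntA Set.univ W r x := by
    intro x
    unfold cntA
    congr 1
    ext p
    simp only [mem_filter]
  rw [e0, e1, e1] at hc
  have hcr : (cellc Set.univ W K N k r : ℝ) =
      cntA Set.univ W r (min hi N) - cntA Set.univ W r (min lo N) := by
    rw [eq_sub_iff_add_eq]
    exact_mod_cast hc
  have g1 := abs_le.1 (hN₁ N hN1 r hrW (min hi N) (min_le_right _ _))
  have g2 := abs_le.1 (hN₁ N hN1 r hrW (min lo N) (min_le_right _ _))
  have hhiN : hi ≤ N := by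
    have h1 : (k + 1) * (N + 1) ≤ K * (N + 1) := Nat.mul_le_mul_right _ (by omega)
    have h2 : hi < N + 1 := by
      rw [hhi, Nat.div_lt_iff_lt_mul (by omega)]
      have : 1 ≤ (k + 1) * (N + 1) := Nat.mul_pos (by omega) (by omega)
      rw [mul_comm (N + 1) K]
      omega
    omega
  have hlohi : lo ≤ hi := by
    rw [hlo, hhi]
    apply Nat.div_le_div_right
    have : k * (N + 1) ≤ (k + 1) * (N + 1) := Nat.mul_le_mul_right _ (by omega)
    omega
  rw [min_eq_left hhiN] at hcr g1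
  rw [min_eq_left (hlohi.trans hhiN)] at hcr g2
  have hdiff : (N : ℝ) / K - 1 ≤ (hi : ℝ) - lo := by
    have h3 : lo * K ≤ k * (N + 1) := by
      have := Nat.div_mul_le_self (k * (N + 1) - 1) K
      rw [← hlo] at this
      omega
    have h4 : (k + 1) * (N + 1) ≤ (hi + 1) * K := by
      have h8 := Nat.div_add_mod ((k + 1) * (N + 1) - 1) K
      have h9 := Nat.mod_lt ((k + 1) * (N + 1) - 1) (show 0 < K by omega)
      rw [← hhi] at h8
      rw [add_mul hi 1 K, one_mul, mul_comm hi K]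
      omega
    have h3r : (lo : ℝ) * K ≤ k * (N + 1) := by exact_mod_cast h3
    have h4r : ((k : ℝ) + 1) * (N + 1) ≤ (hi + 1) * K := by exact_mod_cast h4
    have h5 : (N : ℝ) + 1 ≤ ((hi : ℝ) - lo + 1) * K := by nlinarith
    have h6 : ((N : ℝ) + 1) / K ≤ (hi : ℝ) - lo + 1 := by
      rw [div_le_iff₀ (by linarith)]
      exact h5
    have h7 : (N : ℝ) / K ≤ (N + 1) / K :=
      div_le_div_of_nonneg_right (by linarith) (by linarith)
    linarith
  have hφ : (0 : ℝ) < W.totient := by exact_mod_cast Nat.totient_pos.2 (by omega)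
  have hφW : (W.totient : ℝ) ≤ W := by exact_mod_cast Nat.totient_le W
  by_contra hcon
  have hzero : cellc Set.univ W K N k r = 0 := by omega
  rw [hzero] at hcr
  have h1 : ((hi : ℝ) - lo) / W.totient ≤ 2 * (1 / (8 * K * W) * N) := by
    have : (cntA Set.univ W r hi : ℝ) = cntA Set.univ W r lo := by
      have : ((0 : ℕ) : ℝ) = 0 := Nat.cast_zero
      linarith
    rw [this] at g1
    rw [sub_div]
    linarith
  have h2 : ((N : ℝ) / K - 1) / W ≤ ((hi : ℝ) - lo) / W.totient := by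
    have h3 : (0 : ℝ) ≤ N / K - 1 := by
      rw [sub_nonneg, le_div_iff₀ (by linarith)]
      linarith
    exact div_le_div₀ (h3.trans hdiff) hdiff hφ hφW
  have h3 : 2 * (1 / (8 * K * W) * N) = ((N : ℝ) / K / 4) / W := by
    field_simp
    ring
  rw [h3] at h1
  have h4 := h2.trans h1
  rw [div_le_div_iff_of_pos_right (by linarith)] at h4
  have h5 : 2 ≤ (N : ℝ) / K := by
    rw [le_div_iff₀ (by linarith)]
    exact hN2r
  linarith

end Pool.Agent.Lib.MP_629a14_nt.Kp.R
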