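import Pool.Agent.Lib.MP_629a14_nt.Kr.AvB
import Pool.Agent.Lib.MP_629a14_nt.Kr.Pnt

/-! The energy increment: every pair of sets is flat at some level. -/

set_option autoImplicit false

namespace Pool.Agent.Lib.MP_629a14_nt.Kp.R

open Finset Filter Topology Pool.Agent.Lib.MP_629a14_nt Pool.Agent.Lib.MP_629a14_nt.Rob

open Classical in
private theorem en_key {β : Type} (S : Finset ℕ) (A : Set ℕ) (φ : ℕ → β) (g : β → ℝ) :
    ∑ p ∈ S, g (φ p) * (((S.filter (fun q => q ∈ A ∧ φ q = φ p)).card : ℝ) /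
      (S.filter (fun q => φ q = φ p)).card) = ∑ q ∈ S.filter (fun q => q ∈ A), g (φ q) := by
  have h1 : ∀ p ∈ S, g (φ p) * (((S.filter (fun q => q ∈ A ∧ φ q = φ p)).card : ℝ) /
      (S.filter (fun q => φ q = φ p)).card) =
      ∑ q ∈ S.filter (fun q => q ∈ A ∧ φ q = φ p), g (φ p) /
        (S.filter (fun q => φ q = φ p)).card := by
    intro p _
    rw [Finset.sum_const, nsmul_eq_mul]
    ring
  rw [Finset.sum_congr rfl h1, Finset.sum_comm' (t' := S.filter (fun q => q ∈ A))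
    (s' := fun q => S.filter (fun p => φ p = φ q))]
  · refine Finset.sum_congr rfl fun q hq => ?_
    have hqS : q ∈ S := (Finset.mem_filter.1 hq).1
    have h2 : ∀ p ∈ S.filter (fun p => φ p = φ q), g (φ p) /
        ((S.filter (fun q => φ q = φ p)).card : ℝ) = g (φ q) /
        (S.filter (fun p => φ p = φ q)).card := by
      intro p hp
      rw [(Finset.mem_filter.1 hp).2]
    rw [Finset.sum_congr rfl h2, Finset.sum_const, nsmul_eq_mul]
    have h3 : ((S.filter (fun p => φ p = φ q)).card : ℝ) ≠ 0 := by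
      have : 0 < (S.filter (fun p => φ p = φ q)).card :=
        Finset.card_pos.2 ⟨q, Finset.mem_filter.2 ⟨hqS, rfl⟩⟩
      exact_mod_cast this.ne'
    field_simp
  · intro p q
    simp only [Finset.mem_filter]
    constructor
    · rintro ⟨hp, hq, hqA, h⟩
      exact ⟨⟨hp, h.symm⟩, hq, hqA⟩
    · rintro ⟨⟨hp, h⟩, hq, hqA⟩
      exact ⟨hp, hq, hqA, h.symm⟩

open Classical in
private theorem en_dnp (A : Set ℕ) (W K N p : ℕ) :
    dnp A W K N p = (((((Icc 1 N).filter Nat.Prime).filter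
      (fun q => q ∈ A ∧ (cell K N q, q % W) = (cell K N p, p % W))).card : ℝ) /
      (((Icc 1 N).filter Nat.Prime).filter
        (fun q => (cell K N q, q % W) = (cell K N p, p % W))).card) := by
  unfold dnp dns cellc
  congr 2
  · congr 1
    ext q
    simp only [Finset.mem_filter, Prod.mk.injEq]
    tauto
  · congr 1
    ext q
    simp only [Finset.mem_filter, Prod.mk.injEq, Set.mem_univ, true_and]
    tauto

private theorem en_pair {W K : ℕ} (N : ℕ) (A : Set ℕ) (g : ℕ × ℕ → ℝ) :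
    ∑ p ∈ (Icc 1 N).filter Nat.Prime, g (cell K N p, p % W) * dnp A W K N p =
      open Classical in
      ∑ q ∈ ((Icc 1 N).filter Nat.Prime).filter (fun q => q ∈ A), g (cell K N q, q % W) := by
  classical
  rw [← en_key _ A (fun p => (cell K N p, p % W)) g]
  refine Finset.sum_congr rfl fun p _ => ?_
  rw [en_dnp]
  congr!

private theorem en_cell {K K' : ℕ} (hK' : 1 ≤ K') (hK : K ∣ K') (N p : ℕ) :
    cell K N p = cell K' N p / (K' / K) := by
  obtain ⟨m, rfl⟩ := hK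
  have hK0 : 0 < K := Nat.pos_of_ne_zero (by rintro rfl; simp at hK')
  have hm : 0 < m := Nat.pos_of_ne_zero (by rintro rfl; simp at hK')
  unfold cell
  rw [Nat.mul_div_cancel_left m hK0, Nat.div_div_eq_div_mul, ← mul_assoc,
    Nat.mul_div_mul_right _ _ hm]

/-- The energy of the densities. -/
noncomputable def eng (A : Set ℕ) (W K N : ℕ) : ℝ :=
  ∑ p ∈ (Icc 1 N).filter Nat.Prime, dnp A W K N p ^ 2

/-- On a coarse cell and class, the densities on the fine level have the mean `dnp A W K N`. -/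
theorem eng_step {W K W' K' : ℕ} (hW' : 1 ≤ W') (hK' : 1 ≤ K') (hW : W ∣ W') (hK : K ∣ K')
    (N : ℕ) (A : Set ℕ) :
    ∑ p ∈ (Icc 1 N).filter Nat.Prime, (dnp A W' K' N p - dnp A W K N p) ^ 2 =
      eng A W' K' N - eng A W K N := by
  classical
  have h1 : ∑ p ∈ (Icc 1 N).filter Nat.Prime, dnp A W K N p * dnp A W K N p =
      ∑ q ∈ ((Icc 1 N).filter Nat.Prime).filter (fun q => q ∈ A), dnp A W K N q :=
    en_pair N A (fun x => dns A W K N x.1 x.2)
  have h2 : ∑ p ∈ (Icc 1 N).filter Nat.Prime, dnp A W K N p * dnp A W' K' N p =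
      ∑ q ∈ ((Icc 1 N).filter Nat.Prime).filter (fun q => q ∈ A), dnp A W K N q := by
    have h3 := en_pair (W := W') (K := K') N A
      (fun x => dns A W K N (x.1 / (K' / K)) (x.2 % W))
    have h4 : ∀ p : ℕ, dns A W K N (cell K' N p / (K' / K)) (p % W' % W) = dnp A W K N p := by
      intro p
      rw [← en_cell hK' hK, Nat.mod_mod_of_dvd p hW]
      rfl
    simpa only [h4] using h3
  have h5 : ∀ p ∈ (Icc 1 N).filter Nat.Prime, (dnp A W' K' N p - dnp A W K N p) ^ 2 =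
      dnp A W' K' N p ^ 2 - 2 * (dnp A W K N p * dnp A W' K' N p) +
        dnp A W K N p * dnp A W K N p := fun p _ => by ring
  have h6 : eng A W K N = ∑ p ∈ (Icc 1 N).filter Nat.Prime, dnp A W K N p * dnp A W K N p :=
    Finset.sum_congr rfl fun p _ => sq _
  rw [Finset.sum_congr rfl h5, Finset.sum_add_distrib, Finset.sum_sub_distrib, ← Finset.mul_sum,
    h2, h6, h1]
  unfold eng
  ring

theorem eng_mem (A : Set ℕ) (W K N : ℕ) :
    0 ≤ eng A W K N ∧ eng A W K N ≤ ((Icc 1 N).filter Nat.Prime).card := by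
  classical
  refine ⟨Finset.sum_nonneg fun p _ => sq_nonneg _, ?_⟩
  have h : ∀ p ∈ (Icc 1 N).filter Nat.Prime, dnp A W K N p ^ 2 ≤ 1 := by
    intro p _
    have h0 : 0 ≤ dnp A W K N p := by
      rw [en_dnp]
      positivity
    have h1 : dnp A W K N p ≤ 1 := by
      rw [en_dnp]
      refine div_le_one_of_le₀ ?_ (Nat.cast_nonneg _)
      refine Nat.cast_le.2 (Finset.card_le_card fun q hq => ?_)
      rw [Finset.mem_filter] at hq ⊢
      exact ⟨hq.1, hq.2.2⟩
    exact pow_le_one₀ h0 h1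
  refine (Finset.sum_le_sum h).trans ?_
  rw [Finset.sum_const, nsmul_eq_mul, mul_one]

theorem pi_le_two : ∃ N₀ : ℕ, ∀ N : ℕ, N₀ ≤ N →
    Real.log N * (((Icc 1 N).filter Nat.Prime).card : ℝ) ≤ 2 * N := by
  obtain ⟨N₀, h⟩ := pnt_class 1 le_rfl 1 one_pos
  refine ⟨N₀, fun N hN => ?_⟩
  have h1 := h N hN 0 (Nat.coprime_one_right 0) N le_rfl
  have e : cntA Set.univ 1 0 N = ((Icc 1 N).filter Nat.Prime).card := by
    unfold cntA
    congr 1
    refine Finset.ext fun p => ?_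
    simp only [mem_filter]
    constructor
    · exact fun hp => ⟨hp.1, hp.2.1⟩
    · exact fun hp => ⟨hp.1, hp.2, Set.mem_univ _, Nat.modEq_one⟩
  rw [e] at h1
  have h2 := (abs_le.1 h1).2
  rw [Nat.totient_one, Nat.cast_one, div_one, one_mul] at h2
  linarith

/-- Cauchy-Schwarz. -/
theorem flat_of_eng {W K W' K' N : ℕ} {A : Set ℕ} {δ : ℝ} (hδ : 0 ≤ δ) (hW' : 1 ≤ W')
    (hK' : 1 ≤ K') (hW : W ∣ W') (hK : K ∣ K')
    (hpi : Real.log N * (((Icc 1 N).filter Nat.Prime).card : ℝ) ≤ 2 * N)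
    (h : Real.log N * (eng A W' K' N - eng A W K N) ≤ δ ^ 2 / 2 * N) :
    Flat W K W' K' N A δ := by
  have hL : 0 ≤ Real.log N := Real.log_natCast_nonneg N
  have hN : (0 : ℝ) ≤ N := Nat.cast_nonneg N
  rw [← eng_step hW' hK' hW hK N A] at h
  unfold Flat
  set P := (Icc 1 N).filter Nat.Prime with hP
  have hcs : (∑ p ∈ P, |dnp A W' K' N p - dnp A W K N p|) ^ 2 ≤
      P.card * ∑ p ∈ P, (dnp A W' K' N p - dnp A W K N p) ^ 2 := by
    have h1 := sq_sum_le_card_mul_sum_sq (s := P)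
      (f := fun p => |dnp A W' K' N p - dnp A W K N p|)
    simpa only [sq_abs] using h1
  have hS : 0 ≤ ∑ p ∈ P, (dnp A W' K' N p - dnp A W K N p) ^ 2 :=
    sum_nonneg fun p _ => sq_nonneg _
  have h3 : (Real.log N * ∑ p ∈ P, |dnp A W' K' N p - dnp A W K N p|) ^ 2 ≤ (δ * N) ^ 2 := by
    calc (Real.log N * ∑ p ∈ P, |dnp A W' K' N p - dnp A W K N p|) ^ 2
        = Real.log N ^ 2 * (∑ p ∈ P, |dnp A W' K' N p - dnp A W K N p|) ^ 2 := mul_pow _ _ _
      _ ≤ Real.log N ^ 2 * (P.card * ∑ p ∈ P, (dnp A W' K' N p - dnp A W K N p) ^ 2) :=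
          mul_le_mul_of_nonneg_left hcs (sq_nonneg _)
      _ = (Real.log N * P.card) *
            (Real.log N * ∑ p ∈ P, (dnp A W' K' N p - dnp A W K N p) ^ 2) := by ring
      _ ≤ (2 * N) * (δ ^ 2 / 2 * N) :=
          mul_le_mul hpi h (mul_nonneg hL hS) (by positivity)
      _ = (δ * N) ^ 2 := by ring
  exact le_of_sq_le_sq h3 (by positivity)

/-- The pigeonhole principle for the increments of `eng A + eng B`. -/
theorem flat_exists {δ : ℝ} (hδ : 0 < δ) : ∃ J N₁ : ℕ, ∀ F : ℕ → ℕ × ℕ,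
    (∀ j, 1 ≤ (F j).1 ∧ 1 ≤ (F j).2 ∧ (F j).1 ∣ (F (j + 1)).1 ∧ (F j).2 ∣ (F (j + 1)).2) →
    ∀ N : ℕ, N₁ ≤ N → ∀ A B : Set ℕ, ∃ j < J,
      Flat (F j).1 (F j).2 (F (j + 1)).1 (F (j + 1)).2 N A δ ∧
      Flat (F j).1 (F j).2 (F (j + 1)).1 (F (j + 1)).2 N B δ := by
  obtain ⟨N₀, hpi⟩ := pi_le_two
  refine ⟨⌈8 / δ ^ 2⌉₊ + 1, max N₀ 1, fun F hF N hN A B => ?_⟩
  have hN0 : N₀ ≤ N := (le_max_left _ _).trans hN
  have hN1 : (1 : ℝ) ≤ N := by exact_mod_cast (le_max_right _ _).trans hN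
  have hpiN := hpi N hN0
  have hL : 0 ≤ Real.log N := Real.log_natCast_nonneg N
  set J := ⌈8 / δ ^ 2⌉₊ + 1 with hJ
  by_contra hcon
  push Not at hcon
  -- the increments
  set a : Set ℕ → ℕ → ℝ := fun C j => Real.log N * eng C (F j).1 (F j).2 N with ha
  have hmono : ∀ C : Set ℕ, ∀ j, a C j ≤ a C (j + 1) := by
    intro C j
    have h1 := eng_step (hF (j + 1)).1 (hF (j + 1)).2.1 (hF j).2.2.1 (hF j).2.2.2 N C
    have h2 : 0 ≤ eng C (F (j + 1)).1 (F (j + 1)).2 N - eng C (F j).1 (F j).2 N := by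
      rw [← h1]
      exact sum_nonneg fun p _ => sq_nonneg _
    exact mul_le_mul_of_nonneg_left (sub_nonneg.1 h2) hL
  have hub : ∀ C : Set ℕ, ∀ j, a C j ≤ 2 * N := fun C j =>
    (mul_le_mul_of_nonneg_left (eng_mem C _ _ N).2 hL).trans hpiN
  have hlb : ∀ C : Set ℕ, ∀ j, 0 ≤ a C j := fun C j => mul_nonneg hL (eng_mem C _ _ N).1
  have hflat : ∀ C : Set ℕ, ∀ j, a C (j + 1) - a C j ≤ δ ^ 2 / 2 * N →
      Flat (F j).1 (F j).2 (F (j + 1)).1 (F (j + 1)).2 N C δ := by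
    intro C j h
    refine flat_of_eng hδ.le (hF (j + 1)).1 (hF (j + 1)).2.1 (hF j).2.2.1 (hF j).2.2.2 hpiN ?_
    rw [mul_sub]
    exact h
  have hstep : ∀ j < J, δ ^ 2 / 2 * N ≤ (a A (j + 1) + a B (j + 1)) - (a A j + a B j) := by
    intro j hj
    by_contra hlt
    push Not at hlt
    have h1 := hmono A j
    have h2 := hmono B j
    exact hcon j hj (hflat A j (by linarith)) (hflat B j (by linarith))
  have hsum : ∑ j ∈ range J, ((a A (j + 1) + a B (j + 1)) - (a A j + a B j)) =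
      (a A J + a B J) - (a A 0 + a B 0) := Finset.sum_range_sub (fun j => a A j + a B j) J
  have hge : (J : ℝ) * (δ ^ 2 / 2 * N) ≤ (a A J + a B J) - (a A 0 + a B 0) := by
    rw [← hsum, ← nsmul_eq_mul, ← card_range J, ← sum_const, card_range]
    exact sum_le_sum fun j hj => hstep j (mem_range.1 hj)
  have hJ' : 8 / δ ^ 2 < J := by
    rw [hJ]
    push_cast
    linarith [Nat.le_ceil (8 / δ ^ 2)]
  have hδ2 : 0 < δ ^ 2 := by positivity
  have h8 : 8 < J * δ ^ 2 := by rwa [div_lt_iff₀ hδ2] at hJ'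
  have h1 := hub A J
  have h2 := hub B J
  have h3 := hlb A 0
  have h4 := hlb B 0
  have h5 : 4 * (N : ℝ) < J * (δ ^ 2 / 2 * N) := by
    have h6 : 8 * (N : ℝ) < J * δ ^ 2 * N := mul_lt_mul_of_pos_right h8 (by linarith)
    linarith
  linarith

end Pool.Agent.Lib.MP_629a14_nt.Kp.R
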