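import Pool.Agent.Lib.MP_629a14_nt.Kr.Defs2
import Pool.Agent.Lib.MP_629a14_nt.Rob.SigLow

/-! Sums over the pairs of classes. -/

set_option autoImplicit false

namespace Pool.Agent.Lib.MP_629a14_nt.Kp.R

open Finset Filter Topology Pool.Agent.Lib.MP_629a14_nt Pool.Agent.Lib.MP_629a14_nt.Rob

section

variable {R : ℕ} [NeZero R]

private theorem err_kap_pos (v : ℕ) : 0 < En.kap v := by
  unfold En.kap
  have h1 := primorial_pos v
  have h2 := Nat.totient_pos.mpr h1
  positivity

private theorem err_count (W k : ℕ) :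
    ((range (W * k)).filter (fun b => b.Coprime W)).card = k * W.totient := by
  induction k with
  | zero => simp
  | succ k ih =>
    have h1 : (range (W * (k + 1))).filter (fun b => b.Coprime W) =
        (range (W * k)).filter (fun b => b.Coprime W) ∪
          (Ico (W * k) (W * k + W)).filter (fun b => W.Coprime b) := by
      ext b
      simp only [mem_filter, mem_union, mem_range, mem_Ico, Nat.coprime_comm (m := b), mul_add,
        mul_one]
      constructor
      · rintro ⟨h2, h3⟩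
        rcases Nat.lt_or_ge b (W * k) with h4 | h4
        · exact Or.inl ⟨h4, h3⟩
        · exact Or.inr ⟨⟨h4, h2⟩, h3⟩
      · rintro (⟨h2, h3⟩ | ⟨⟨h2, h4⟩, h3⟩)
        · exact ⟨by omega, h3⟩
        · exact ⟨h4, h3⟩
    rw [h1, card_union_of_disjoint, ih, Nat.filter_coprime_Ico_eq_totient, add_mul, one_mul]
    rw [Finset.disjoint_left]
    intro b h2 h3
    rw [mem_filter, mem_range] at h2
    rw [mem_filter, mem_Ico] at h3
    omega

theorem uc_sum (V : ℕ) (F : ℕ → ℝ) :
    ∑ b ∈ Uc V R, F b.val = ∑ b ∈ (range R).filter (fun b => b.Coprime V), F b := by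
  refine Finset.sum_nbij' (fun b : ZMod R => b.val) (fun n : ℕ => (n : ZMod R)) ?_ ?_ ?_ ?_ ?_
  · intro b hb
    unfold Uc at hb
    rw [mem_filter] at hb
    rw [mem_filter, mem_range]
    exact ⟨ZMod.val_lt b, hb.2⟩
  · intro n hn
    rw [mem_filter, mem_range] at hn
    unfold Uc
    rw [mem_filter, ZMod.val_natCast, Nat.mod_eq_of_lt hn.1]
    exact ⟨mem_univ _, hn.2⟩
  · intro b hb
    exact ZMod.natCast_zmod_val b
  · intro n hn
    rw [mem_filter, mem_range] at hn
    show ((n : ZMod R)).val = n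
    rw [ZMod.val_natCast, Nat.mod_eq_of_lt hn.1]
  · intro b hb
    rfl

/-- The classes modulo `R` coprime to `primorial v`. -/
theorem uc_card {v : ℕ} (hR : primorial v ∣ R) :
    ((Uc (primorial v) R).card : ℝ) * En.kap v = R := by
  have h1 := uc_sum (R := R) (primorial v) (fun _ => 1)
  simp only [sum_const, nsmul_eq_mul, mul_one] at h1
  obtain ⟨k, hk⟩ := hR
  have h2 := err_count (primorial v) k
  rw [← hk] at h2
  rw [h1, h2]
  unfold En.kap
  have h3 : (0 : ℝ) < (primorial v).totient := by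
    exact_mod_cast Nat.totient_pos.mpr (primorial_pos v)
  have h4 : (R : ℝ) = primorial v * k := by exact_mod_cast hk
  rw [h4]
  push_cast
  field_simp

/-- By `cnt_sig`, `cnt_eq` and `one_le_sig`. -/
theorem uk_card {v : ℕ} (hv : 2 ≤ v) (hR : primorial v ∣ R) {κ : ZMod R} (hκ : 2 ∣ κ.val) :
    (R : ℝ) ≤ ((Uk (primorial v) R κ).card : ℝ) * En.kap v ^ 2 := by
  have h1 := cnt_sig v R κ.val hv hR hκ
  rw [cnt_eq, ZMod.natCast_zmod_val] at h1
  rw [h1]
  have h2 := one_le_sig v κ.val hv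
  have h3 : (0 : ℝ) ≤ R := Nat.cast_nonneg R
  nlinarith

/-- Exchange the sums: `b` lies in `Uk κ` for at most `(Uc).card = R / kap` classes `κ`. -/
theorem err_sum {v : ℕ} (hv : 2 ≤ v) (hR : primorial v ∣ R) (g : ZMod R → ℝ)
    (hg : ∀ b, 0 ≤ g b) :
    ∑ κ ∈ univ.filter (fun κ : ZMod R => 2 ∣ κ.val),
      (∑ b ∈ Uk (primorial v) R κ, g b) / (Uk (primorial v) R κ).card ≤
      En.kap v * ∑ b ∈ Uc (primorial v) R, g b := by
  classical
  have hk := err_kap_pos v
  have hR0 : (0 : ℝ) < R := by exact_mod_cast Nat.pos_of_ne_zero (NeZero.ne R)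
  have h1 : ∀ κ ∈ univ.filter (fun κ : ZMod R => 2 ∣ κ.val),
      (∑ b ∈ Uk (primorial v) R κ, g b) / (Uk (primorial v) R κ).card ≤
        En.kap v ^ 2 / R * ∑ b ∈ Uk (primorial v) R κ, g b := by
    intro κ hκ
    have h2 := uk_card hv hR (mem_filter.1 hκ).2
    have h3 : (0 : ℝ) < (Uk (primorial v) R κ).card := by
      by_contra h4
      have h5 : ((Uk (primorial v) R κ).card : ℝ) = 0 :=
        le_antisymm (not_lt.1 h4) (Nat.cast_nonneg _)
      rw [h5, zero_mul] at h2
      linarith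
    have h4 : (0 : ℝ) ≤ ∑ b ∈ Uk (primorial v) R κ, g b := sum_nonneg fun b _ => hg b
    rw [div_le_iff₀ h3]
    have h5 : En.kap v ^ 2 / R * (∑ b ∈ Uk (primorial v) R κ, g b) *
        (Uk (primorial v) R κ).card = (∑ b ∈ Uk (primorial v) R κ, g b) *
          (((Uk (primorial v) R κ).card : ℝ) * En.kap v ^ 2 / R) := by ring
    rw [h5]
    have h6 : 1 ≤ ((Uk (primorial v) R κ).card : ℝ) * En.kap v ^ 2 / R := by
      rw [le_div_iff₀ hR0, one_mul]
      exact h2
    exact le_mul_of_one_le_right h4 h6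
  refine (sum_le_sum h1).trans ?_
  rw [← mul_sum]
  have h2 : ∑ κ ∈ univ.filter (fun κ : ZMod R => 2 ∣ κ.val),
      ∑ b ∈ Uk (primorial v) R κ, g b ≤
      ∑ κ : ZMod R, ∑ b ∈ Uk (primorial v) R κ, g b :=
    sum_le_sum_of_subset_of_nonneg (filter_subset _ _)
      fun κ _ _ => sum_nonneg fun b _ => hg b
  have h3 : ∑ κ : ZMod R, ∑ b ∈ Uk (primorial v) R κ, g b =
      ∑ b ∈ Uc (primorial v) R,
        ((univ.filter (fun κ : ZMod R => κ - b ∈ Uc (primorial v) R)).card : ℝ) * g b := by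
    have h4 : ∀ κ : ZMod R, ∑ b ∈ Uk (primorial v) R κ, g b =
        ∑ b ∈ Uc (primorial v) R, if κ - b ∈ Uc (primorial v) R then g b else 0 := by
      intro κ
      unfold Uk
      rw [sum_filter]
    simp only [h4]
    rw [sum_comm]
    refine sum_congr rfl fun b _ => ?_
    rw [← sum_filter, sum_const, nsmul_eq_mul]
  have h4 : ∀ b : ZMod R, ((univ.filter (fun κ : ZMod R => κ - b ∈ Uc (primorial v) R)).card : ℝ) ≤
      (Uc (primorial v) R).card := by
    intro b
    have : (univ.filter (fun κ : ZMod R => κ - b ∈ Uc (primorial v) R)).card ≤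
        (Uc (primorial v) R).card := by
      refine card_le_card_of_injOn (fun κ => κ - b) ?_ ?_
      · intro κ hκ
        exact (mem_filter.1 (mem_coe.1 hκ)).2
      · intro κ _ κ' _ h
        exact sub_left_inj.1 h
    exact_mod_cast this
  have h5 : ∑ κ ∈ univ.filter (fun κ : ZMod R => 2 ∣ κ.val),
      ∑ b ∈ Uk (primorial v) R κ, g b ≤
      ((Uc (primorial v) R).card : ℝ) * ∑ b ∈ Uc (primorial v) R, g b := by
    refine h2.trans ?_
    rw [h3, mul_sum]
    exact sum_le_sum fun b _ => mul_le_mul_of_nonneg_right (h4 b) (hg b)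
  have h6 := uc_card (v := v) (R := R) hR
  calc En.kap v ^ 2 / R * ∑ κ ∈ univ.filter (fun κ : ZMod R => 2 ∣ κ.val),
        ∑ b ∈ Uk (primorial v) R κ, g b
      ≤ En.kap v ^ 2 / R * (((Uc (primorial v) R).card : ℝ) *
          ∑ b ∈ Uc (primorial v) R, g b) := by
        gcongr
    _ = En.kap v * (((Uc (primorial v) R).card : ℝ) * En.kap v / R) *
          ∑ b ∈ Uc (primorial v) R, g b := by ring
    _ = En.kap v * ∑ b ∈ Uc (primorial v) R, g b := by
        rw [h6, div_self hR0.ne', mul_one]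

end

end Pool.Agent.Lib.MP_629a14_nt.Kp.R
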