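import Pool.Agent.Lib.MP_629a14_nt.Kr.StarU
import Pool.Agent.Lib.MP_629a14_nt.Kp.PfClass

/-! The truncated sums for the rearranged sets. -/

set_option autoImplicit false

namespace Pool.Agent.Lib.MP_629a14_nt.Kp.R

open Finset Filter Topology Pool.Agent.Lib.MP_629a14_nt Pool.Agent.Lib.MP_629a14_nt.Rob

/-- The even integers up to `N` in a cell and a class. -/
def pc (W H N l c : ℕ) : Finset ℕ :=
  (Icc 1 N).filter (fun n => Even n ∧ cell H N n = l ∧ n % W = c)

theorem mem_pc {W H N l c n : ℕ} : n ∈ pc W H N l c ↔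
    (1 ≤ n ∧ n ≤ N) ∧ Even n ∧ cell H N n = l ∧ n % W = c := by
  unfold pc
  rw [mem_filter, mem_Icc]

open Classical in
/-- The number of the `n ≤ m` in a class with `√2 n` modulo one in an arc. -/
private noncomputable def ct (q c : ℕ) (a b : ℝ) (m : ℕ) : ℕ :=
  ((Icc 1 m).filter (fun n : ℕ => n ≡ c [MOD q] ∧
      a ≤ Int.fract (Real.sqrt 2 * n) ∧ Int.fract (Real.sqrt 2 * n) < b)).card

private theorem ct_unif {q : ℕ} (hq : 1 ≤ q) (c : ℕ) {a b : ℝ} (ha : 0 ≤ a) (hab : a ≤ b)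
    (hb : b ≤ 1) {η : ℝ} (hη : 0 < η) : ∀ᶠ N : ℕ in atTop, ∀ m ≤ N,
      |(ct q c a b m : ℝ) - (b - a) / q * m| ≤ η * N := by
  have hq' : (1 : ℝ) ≤ q := by exact_mod_cast hq
  have h := class_arc hq c (Real.sqrt 2) irrational_sqrt_two a b ha hab hb
  obtain ⟨M, hM⟩ := Metric.tendsto_atTop.1 h η hη
  filter_upwards [eventually_ge_atTop (⌈(M : ℝ) / η⌉₊)] with N hN m hm
  have hN' : (M : ℝ) / η ≤ N := (Nat.le_ceil _).trans (by exact_mod_cast hN)
  rw [div_le_iff₀ hη] at hN'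
  have hmN : (m : ℝ) ≤ N := by exact_mod_cast hm
  rcases lt_or_ge m M with h1 | h1
  · have h2 : (ct q c a b m : ℝ) ≤ m := by
      have : ct q c a b m ≤ m := by
        unfold ct
        exact (Finset.card_filter_le _ _).trans (by simp)
      exact_mod_cast this
    have h3 : (m : ℝ) ≤ M := by exact_mod_cast h1.le
    have h4 : 0 ≤ (b - a) / q * m := by
      have : 0 ≤ b - a := by linarith
      positivity
    have h5 : (b - a) / q * m ≤ m := by
      have h6 : (b - a) / q ≤ 1 := by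
        rw [div_le_one (by linarith)]
        linarith
      nlinarith [Nat.cast_nonneg (α := ℝ) m]
    have h6 : (0 : ℝ) ≤ ct q c a b m := Nat.cast_nonneg _
    rw [abs_le]
    constructor <;> nlinarith
  · rcases Nat.eq_zero_or_pos m with h0 | h0
    · subst h0
      have : ct q c a b 0 = 0 := by
        unfold ct
        simp
      rw [this]
      simp
      positivity
    · have hm0 : (0 : ℝ) < m := by exact_mod_cast h0
      have h2 := (hM m h1).le
      rw [Real.dist_eq] at h2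
      have h3 : ((q : ℝ) / m * ct q c a b m - (b - a)) * (m / q) =
          (ct q c a b m : ℝ) - (b - a) / q * m := by
        field_simp
      have h4 : |((q : ℝ) / m * ct q c a b m - (b - a)) * (m / q)| ≤ η * (m / q) := by
        rw [abs_mul, abs_of_nonneg (by positivity : (0 : ℝ) ≤ m / q)]
        have : |(q : ℝ) / m * ct q c a b m - (b - a)| ≤ η := by
          unfold ct
          convert h2 using 4
        gcongr
      rw [h3] at h4
      refine h4.trans ?_
      have h5 : (m : ℝ) / q ≤ N := by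
        rw [div_le_iff₀ (by linarith)]
        nlinarith
      gcongr

/-- The last element of the cells before `l`. -/
private def ce (H N l : ℕ) : ℕ := min N ((l * (N + 1) - 1) / H)

private theorem ce_le (H N l : ℕ) : ce H N l ≤ N := min_le_left _ _

private theorem cell_lt_iff {H N l n : ℕ} (hH : 1 ≤ H) (hn : 1 ≤ n) (hnN : n ≤ N) :
    cell H N n < l ↔ n ≤ ce H N l := by
  unfold cell ce
  rw [le_min_iff, Nat.div_lt_iff_lt_mul (by omega), Nat.le_div_iff_mul_le (by omega)]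
  have : 1 ≤ n * H := Nat.one_le_iff_ne_zero.2 (by positivity)
  constructor
  · intro h
    exact ⟨hnN, by omega⟩
  · rintro ⟨_, h⟩
    omega

private theorem card_cell {H N : ℕ} (hH : 1 ≤ H) (l : ℕ) (P : ℕ → Prop) [DecidablePred P] :
    ((Icc 1 (ce H N (l + 1))).filter P).card = ((Icc 1 (ce H N l)).filter P).card +
      ((Icc 1 N).filter (fun n => cell H N n = l ∧ P n)).card := by
  rw [← Finset.card_union_of_disjoint]
  · congr 1
    ext n
    simp only [mem_filter, mem_Icc, mem_union]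
    constructor
    · rintro ⟨⟨h1, h2⟩, h3⟩
      have h4 : n ≤ N := h2.trans (ce_le _ _ _)
      have h5 := (cell_lt_iff hH h1 h4).2 h2
      rcases Nat.lt_or_ge (cell H N n) l with h6 | h6
      · exact Or.inl ⟨⟨h1, (cell_lt_iff hH h1 h4).1 h6⟩, h3⟩
      · exact Or.inr ⟨⟨h1, h4⟩, by omega, h3⟩
    · rintro (⟨⟨h1, h2⟩, h3⟩ | ⟨⟨h1, h2⟩, h3, h4⟩)
      · have h4 : n ≤ N := h2.trans (ce_le _ _ _)
        have h5 := (cell_lt_iff hH h1 h4).2 h2
        exact ⟨⟨h1, (cell_lt_iff hH h1 h4).1 (by omega)⟩, h3⟩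
      · exact ⟨⟨h1, (cell_lt_iff hH h1 h2).1 (by omega)⟩, h4⟩
  · rw [Finset.disjoint_left]
    intro n h1 h2
    simp only [mem_filter, mem_Icc] at h1 h2
    have h4 : n ≤ N := h1.1.2.trans (ce_le _ _ _)
    have h5 := (cell_lt_iff hH h1.1.1 h4).2 h1.1.2
    omega

/-- The part of a class and an arc in one cell. -/
private theorem ct_cell {H N q : ℕ} (hH : 1 ≤ H) (l c : ℕ) {a b e : ℝ}
    (h : ∀ m ≤ N, |(ct q c a b m : ℝ) - (b - a) / q * m| ≤ e) :
    |((((Icc 1 N).filter (fun n => cell H N n = l ∧ (n ≡ c [MOD q] ∧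
      a ≤ Int.fract (Real.sqrt 2 * n) ∧ Int.fract (Real.sqrt 2 * n) < b))).card : ℕ) : ℝ) -
      (b - a) / q * ((ce H N (l + 1) : ℝ) - ce H N l)| ≤ 2 * e := by
  classical
  have h1 := card_cell hH (N := N) l (fun n : ℕ => n ≡ c [MOD q] ∧
      a ≤ Int.fract (Real.sqrt 2 * n) ∧ Int.fract (Real.sqrt 2 * n) < b)
  have h2 := h _ (ce_le H N l)
  have h3 := h _ (ce_le H N (l + 1))
  unfold ct at h2 h3
  have h4 : (((Icc 1 (ce H N (l + 1))).filter (fun n : ℕ => n ≡ c [MOD q] ∧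
      a ≤ Int.fract (Real.sqrt 2 * n) ∧ Int.fract (Real.sqrt 2 * n) < b)).card : ℝ) =
      (((Icc 1 (ce H N l)).filter (fun n : ℕ => n ≡ c [MOD q] ∧
      a ≤ Int.fract (Real.sqrt 2 * n) ∧ Int.fract (Real.sqrt 2 * n) < b)).card : ℝ) +
      ((((Icc 1 N).filter (fun n => cell H N n = l ∧ (n ≡ c [MOD q] ∧
      a ≤ Int.fract (Real.sqrt 2 * n) ∧ Int.fract (Real.sqrt 2 * n) < b))).card : ℕ) : ℝ) := by
    exact_mod_cast h1
  rw [abs_le] at h2 h3 ⊢
  constructor <;> nlinarith [h2.1, h2.2, h3.1, h3.2]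

/-- The classes modulo `2 W`. -/
private def CC (W c : ℕ) : Finset ℕ := (range (2 * W)).filter (fun d => Even d ∧ d % W = c)

private theorem card_classes {W H N : ℕ} (hW : 1 ≤ W) (l c : ℕ) (P : ℕ → Prop) [DecidablePred P] :
    ((pc W H N l c).filter P).card = ∑ d ∈ CC W c,
      ((Icc 1 N).filter (fun n => cell H N n = l ∧ (n ≡ d [MOD (2 * W)] ∧ P n))).card := by
  rw [Finset.card_eq_sum_card_fiberwise (f := fun n => n % (2 * W)) (t := CC W c)]
  · refine Finset.sum_congr rfl fun d hd => ?_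
    unfold CC at hd
    rw [mem_filter, mem_range] at hd
    congr 1
    ext n
    simp only [mem_filter, mem_pc, mem_Icc]
    have e1 : (n ≡ d [MOD (2 * W)]) ↔ n % (2 * W) = d := by
      unfold Nat.ModEq
      rw [Nat.mod_eq_of_lt hd.1]
    rw [e1]
    constructor
    · rintro ⟨⟨⟨h1, h2, h3, h4⟩, h5⟩, h6⟩
      exact ⟨h1, h3, h6, h5⟩
    · rintro ⟨h1, h3, h6, h5⟩
      have h7 : n % W = d % W := by
        rw [← h6, Nat.mod_mul_left_mod]
      have h8 : Even n := by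
        rw [Nat.even_iff] at hd ⊢
        have : n % (2 * W) % 2 = n % 2 := Nat.mod_mul_right_mod _ _ _
        rw [← this, h6]
        exact hd.2.1
      exact ⟨⟨⟨h1, h8, h3, by rw [h7, hd.2.2]⟩, h5⟩, h6⟩
  · intro n hn
    rw [Finset.mem_coe, mem_filter, mem_pc] at hn
    unfold CC
    rw [Finset.mem_coe, mem_filter, mem_range]
    refine ⟨Nat.mod_lt _ (by omega), ?_, ?_⟩
    · have h8 := hn.1.2.1
      rw [Nat.even_iff] at h8 ⊢
      have : n % (2 * W) % 2 = n % 2 := Nat.mod_mul_right_mod _ _ _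
      rw [this]
      exact h8
    · have : n % (2 * W) % W = n % W := Nat.mod_mul_left_mod _ _ _
      rw [this]
      exact hn.1.2.2.2

open Classical in
/-- The equidistribution of `√2 n` on the even integers of a class in a cell, uniformly in the
interval. Compare `even_arc` in `Kp/ArcEven.lean` and `rot_upper` in `Kp/Rot.lean`. -/
theorem arcs_even (W H : ℕ) (hW : 1 ≤ W) (hH : 1 ≤ H) (η : ℝ) (hη : 0 < η) : ∃ N₀ : ℕ,
    ∀ N : ℕ, N₀ ≤ N → ∀ l c : ℕ, ∀ x : ℝ, 0 ≤ x → x ≤ 1 / 2 →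
      (((pc W H N l c).filter (fun n => nm n < x)).card : ℝ) ≤
        2 * x * (pc W H N l c).card + η * N := by
  obtain ⟨J, hJ1, hJ⟩ : ∃ J : ℕ, 1 ≤ J ∧ 1 / (J : ℝ) ≤ η / 2 := by
    refine ⟨⌈2 / η⌉₊ + 1, by omega, ?_⟩
    have h2 : 2 / η ≤ (⌈2 / η⌉₊ : ℝ) := Nat.le_ceil _
    push_cast
    rw [div_le_iff₀ (by positivity)]
    rw [div_le_iff₀ hη] at h2
    nlinarith
  have hJr : (1 : ℝ) ≤ J := by exact_mod_cast hJ1
  have hWr : (1 : ℝ) ≤ W := by exact_mod_cast hW
  have hq : 1 ≤ 2 * W := by omega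
  obtain ⟨e, he⟩ : ∃ e : ℝ, e = η / (32 * W) := ⟨_, rfl⟩
  have he0 : 0 < e := by rw [he]; positivity
  -- grid
  have hev : ∀ᶠ N : ℕ in atTop, ∀ d ∈ range (2 * W), ∀ j ∈ range (J + 1),
      (∀ m ≤ N, |(ct (2 * W) d 0 (j / (2 * J)) m : ℝ) - ((j / (2 * J) : ℝ) - 0) / ((2 * W : ℕ) : ℝ) * m| ≤ e * N) ∧
      (∀ m ≤ N, |(ct (2 * W) d (1 - j / (2 * J)) 1 m : ℝ) -
        (1 - (1 - (j / (2 * J) : ℝ))) / ((2 * W : ℕ) : ℝ) * m| ≤ e * N) ∧
      (∀ m ≤ N, |(ct (2 * W) d 0 1 m : ℝ) - ((1 : ℝ) - 0) / ((2 * W : ℕ) : ℝ) * m| ≤ e * N) := by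
    rw [Filter.eventually_all_finset]
    intro d _
    rw [Filter.eventually_all_finset]
    intro j hj
    have hj' : (j : ℝ) ≤ J := by
      have := mem_range.1 hj
      exact_mod_cast (by omega : j ≤ J)
    have hj2 : (j : ℝ) / (2 * J) ≤ 1 := by
      rw [div_le_one (by linarith)]
      linarith
    have hj0 : (0 : ℝ) ≤ (j : ℝ) / (2 * J) := by positivity
    exact (ct_unif hq d le_rfl hj0 hj2 he0).and ((ct_unif hq d (by linarith) (by linarith) le_rfl
      he0).and (ct_unif hq d le_rfl zero_le_one le_rfl he0))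
  obtain ⟨N₀, hN₀⟩ := eventually_atTop.1 hev
  refine ⟨N₀, fun N hN l c x hx hx1 => ?_⟩
  have hN1 := hN₀ N hN
  -- the grid point
  obtain ⟨j, hj⟩ : ∃ j : ℕ, j = ⌈x * (2 * J)⌉₊ := ⟨_, rfl⟩
  have hj1 : x * (2 * J) ≤ j := by rw [hj]; exact Nat.le_ceil _
  have hj2 : (j : ℝ) < x * (2 * J) + 1 := by
    rw [hj]; exact Nat.ceil_lt_add_one (by positivity)
  have hjJ : j ≤ J := by
    rw [hj, Nat.ceil_le]
    nlinarith
  have hjm : j ∈ range (J + 1) := mem_range.2 (by omega)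
  obtain ⟨y, hy⟩ : ∃ y : ℝ, y = (j : ℝ) / (2 * J) := ⟨_, rfl⟩
  have hxy : x ≤ y := by
    rw [hy, le_div_iff₀ (by linarith)]
    exact hj1
  have hyx : y ≤ x + 1 / (2 * J) := by
    rw [hy, div_le_iff₀ (by linarith)]
    field_simp
    linarith
  -- the arcs
  have hsub : (((pc W H N l c).filter (fun n => nm n < x)).card : ℝ) ≤
      ((pc W H N l c).filter (fun n : ℕ => 0 ≤ Int.fract (Real.sqrt 2 * n) ∧
        Int.fract (Real.sqrt 2 * n) < y)).card +
      ((pc W H N l c).filter (fun n : ℕ => 1 - y ≤ Int.fract (Real.sqrt 2 * n) ∧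
        Int.fract (Real.sqrt 2 * n) < 1)).card := by
    have h1 : (pc W H N l c).filter (fun n => nm n < x) ⊆
        (pc W H N l c).filter (fun n : ℕ => 0 ≤ Int.fract (Real.sqrt 2 * n) ∧
        Int.fract (Real.sqrt 2 * n) < y) ∪ (pc W H N l c).filter (fun n : ℕ =>
        1 - y ≤ Int.fract (Real.sqrt 2 * n) ∧ Int.fract (Real.sqrt 2 * n) < 1) := by
      intro n hn
      rw [mem_filter] at hn
      rw [mem_union, mem_filter, mem_filter]
      have h2 := hn.2
      unfold nm at h2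
      rw [abs_sub_round_eq_min] at h2
      rcases min_lt_iff.1 h2 with h3 | h3
      · left
        exact ⟨hn.1, Int.fract_nonneg _, by linarith⟩
      · right
        exact ⟨hn.1, by linarith, Int.fract_lt_one _⟩
    exact_mod_cast (card_le_card h1).trans (card_union_le _ _)
  have hL0 : (0 : ℝ) ≤ (ce H N (l + 1) : ℝ) - ce H N l := by
    have : ce H N l ≤ ce H N (l + 1) := by
      unfold ce
      refine min_le_min le_rfl (Nat.div_le_div_right ?_)
      have : l * (N + 1) ≤ (l + 1) * (N + 1) := Nat.mul_le_mul_right _ (by omega)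
      omega
    have : (ce H N l : ℝ) ≤ ce H N (l + 1) := by exact_mod_cast this
    linarith
  have hLN : (ce H N (l + 1) : ℝ) - ce H N l ≤ N := by
    have h1 : (ce H N (l + 1) : ℝ) ≤ N := by exact_mod_cast ce_le H N (l + 1)
    have h2 : (0 : ℝ) ≤ ce H N l := Nat.cast_nonneg _
    linarith
  obtain ⟨L, hL⟩ : ∃ L : ℝ, L = (ce H N (l + 1) : ℝ) - ce H N l := ⟨_, rfl⟩
  rw [← hL] at hL0 hLN
  obtain ⟨D, hD⟩ : ∃ D : ℝ, D = ((CC W c).card : ℝ) := ⟨_, rfl⟩
  have hD0 : 0 ≤ D := by rw [hD]; positivity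
  have hD2 : D ≤ 2 * W := by
    rw [hD]
    have : (CC W c).card ≤ 2 * W := by
      unfold CC
      exact (card_filter_le _ _).trans (by simp)
    exact_mod_cast this
  have hCC : ∀ d ∈ CC W c, d ∈ range (2 * W) := fun d hd => (mem_filter.1 hd).1
  have hq' : ((2 * W : ℕ) : ℝ) = 2 * W := by push_cast; ring
  have h1 : (((pc W H N l c).filter (fun n : ℕ => 0 ≤ Int.fract (Real.sqrt 2 * n) ∧
        Int.fract (Real.sqrt 2 * n) < y)).card : ℝ) ≤ D * (y / (2 * W) * L + 2 * (e * N)) := by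
    rw [card_classes hW, Nat.cast_sum, hD, ← nsmul_eq_mul, ← sum_const]
    refine sum_le_sum fun d hd => ?_
    have h2 := (hN1 d (hCC d hd) j hjm).1
    have h3 := (abs_le.1 (ct_cell hH l d (N := N) h2)).2
    rw [← hL, sub_zero, hq', ← hy] at h3
    linarith
  have h2 : (((pc W H N l c).filter (fun n : ℕ => 1 - y ≤ Int.fract (Real.sqrt 2 * n) ∧
        Int.fract (Real.sqrt 2 * n) < 1)).card : ℝ) ≤ D * (y / (2 * W) * L + 2 * (e * N)) := by
    rw [card_classes hW, Nat.cast_sum, hD, ← nsmul_eq_mul, ← sum_const]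
    refine sum_le_sum fun d hd => ?_
    have h2 := (hN1 d (hCC d hd) j hjm).2.1
    have h3 := (abs_le.1 (ct_cell hH l d (N := N) h2)).2
    rw [← hL, sub_sub_cancel, hq', ← hy] at h3
    linarith
  have h3 : D * (1 / (2 * W) * L - 2 * (e * N)) ≤ ((pc W H N l c).card : ℝ) := by
    have h0 : (pc W H N l c).card = ((pc W H N l c).filter (fun n : ℕ =>
        0 ≤ Int.fract (Real.sqrt 2 * n) ∧ Int.fract (Real.sqrt 2 * n) < 1)).card := by
      rw [filter_true_of_mem]
      exact fun n _ => ⟨Int.fract_nonneg _, Int.fract_lt_one _⟩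
    rw [h0, card_classes hW, Nat.cast_sum, hD, ← nsmul_eq_mul, ← sum_const]
    refine sum_le_sum fun d hd => ?_
    have h2 := (hN1 d (hCC d hd) j hjm).2.2
    have h3 := (abs_le.1 (ct_cell hH l d (N := N) h2)).1
    rw [← hL, sub_zero, hq'] at h3
    linarith
  have hN' : (0 : ℝ) ≤ N := Nat.cast_nonneg _
  have hpN : ((pc W H N l c).card : ℝ) ≤ N := by
    have : (pc W H N l c).card ≤ N := by
      unfold pc
      exact (card_filter_le _ _).trans (by simp)
    exact_mod_cast this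
  have hy1 : y ≤ 1 := by linarith [hyx, (by
    rw [div_le_div_iff₀ (by linarith) (by norm_num)]; linarith : 1 / (2 * (J : ℝ)) ≤ 1 / 2)]
  have hDe : D * (e * N) ≤ η / 16 * N := by
    calc D * (e * N) ≤ 2 * W * (e * N) := by gcongr
      _ = η / 16 * N := by
        rw [he]
        field_simp
        ring
  have h4 : D * (y / (2 * W) * L) ≤ y * ((pc W H N l c).card + 2 * (D * (e * N))) := by
    have : D * (y / (2 * W) * L) = y * (D * (1 / (2 * W) * L)) := by ring
    rw [this]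
    have hy0 : 0 ≤ y := hx.trans hxy
    gcongr
    linarith
  have h5 : y * (pc W H N l c).card ≤ x * (pc W H N l c).card + η / 4 * N := by
    have h6 : 1 / (2 * (J : ℝ)) ≤ η / 4 := by
      have : 1 / (2 * (J : ℝ)) = 1 / (J : ℝ) / 2 := by field_simp
      rw [this]; linarith
    have h7 : y ≤ x + η / 4 := by linarith
    calc y * ((pc W H N l c).card : ℝ) ≤ (x + η / 4) * (pc W H N l c).card := by gcongr
      _ = x * (pc W H N l c).card + η / 4 * (pc W H N l c).card := by ring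
      _ ≤ _ := by gcongr
  have hy0 : 0 ≤ y := hx.trans hxy
  have h6 : y * (2 * (D * (e * N))) ≤ 2 * (D * (e * N)) := by
    have : 0 ≤ 2 * (D * (e * N)) := by positivity
    nlinarith
  nlinarith

/-- The indicator function of one piece as a weight. -/
theorem wS_ind (W H N l c : ℕ) (F : ℕ → ℝ) :
    wS W H N (ind l c) F = ∑ n ∈ pc W H N l c, F n := by
  unfold wS pc ind
  rw [sum_filter, sum_filter]
  refine sum_congr rfl fun n _ => ?_
  by_cases h1 : Even n <;> by_cases h2 : cell H N n = l ∧ n % W = c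
  · rw [if_pos h1, if_pos h2, if_pos ⟨h1, h2⟩, one_mul]
  · rw [if_pos h1, if_neg h2, if_neg (fun h => h2 h.2), zero_mul]
  · rw [if_neg h1, if_neg (fun h => h1 h.1)]
  · rw [if_neg h1, if_neg (fun h => h1 h.1)]

/-- The sum over the pieces. -/
theorem wS_pieces {W H N : ℕ} (hW : 1 ≤ W) (hH : 1 ≤ H) (s : ℕ → ℕ → ℝ) (F : ℕ → ℝ) :
    wS W H N s F = ∑ l ∈ range H, ∑ c ∈ range W, s l c * ∑ n ∈ pc W H N l c, F n := by
  have h1 : ∀ l c : ℕ, s l c * ∑ n ∈ pc W H N l c, F n =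
      ∑ n ∈ (Icc 1 N).filter (fun n => Even n),
        if n % W = c then (if cell H N n = l then s l c * F n else 0) else 0 := by
    intro l c
    have h2 : pc W H N l c =
        ((Icc 1 N).filter (fun n => Even n)).filter (fun n => n % W = c ∧ cell H N n = l) := by
      unfold pc
      rw [filter_filter]
      refine filter_congr fun n _ => ?_
      tauto
    rw [h2, mul_sum, sum_filter _ (fun n => s l c * F n)]
    refine sum_congr rfl fun n _ => ?_
    rw [ite_and]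
  simp only [h1]
  have h3 : ∀ l ∈ range H, ∑ c ∈ range W, ∑ n ∈ (Icc 1 N).filter (fun n => Even n),
      (if n % W = c then (if cell H N n = l then s l c * F n else 0) else 0) =
      ∑ n ∈ (Icc 1 N).filter (fun n => Even n),
        if cell H N n = l then s l (n % W) * F n else 0 := by
    intro l _
    rw [sum_comm]
    refine sum_congr rfl fun n _ => ?_
    rw [sum_ite_eq, if_pos (mem_range.2 (Nat.mod_lt _ hW))]
  rw [sum_congr rfl h3, sum_comm]
  unfold wS
  refine sum_congr rfl fun n hn => ?_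
  have h4 : n ≤ N := (mem_Icc.1 (mem_filter.1 hn).1).2
  rw [sum_ite_eq, if_pos (mem_range.2 (cell_lt hH h4))]

/-- Finer pieces. -/
theorem wS_fine {W H H₂ N : ℕ} (hH₂ : 1 ≤ H₂) (s : ℕ → ℕ → ℝ) (F : ℕ → ℝ) :
    wS W H N s F = wS W (H * H₂) N (fun l c => s (l / H₂) c) F := by
  unfold wS
  refine sum_congr rfl fun n _ => ?_
  show _ = s (cell (H * H₂) N n / H₂) (n % W) * F n
  rw [cell_nest hH₂]

/-- The length of a cell. -/
theorem cell_len {H N n n' : ℕ} (hH : 1 ≤ H) (h : n ≤ n') (hc : cell H N n = cell H N n') :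
    ((n' : ℝ) - n) ≤ (N + 1) / H := by
  have hH' : (0 : ℝ) < H := by exact_mod_cast hH
  unfold cell at hc
  have h1 := Nat.div_add_mod (n * H) (N + 1)
  have h2 := Nat.div_add_mod (n' * H) (N + 1)
  have h3 : n' * H % (N + 1) < N + 1 := Nat.mod_lt _ (by omega)
  rw [← hc] at h2
  have h4 : n' * H ≤ n * H + (N + 1) := by
    have h5 := Nat.zero_le (n * H % (N + 1))
    linarith
  rw [le_div_iff₀ hH']
  have h5 : ((n' * H : ℕ) : ℝ) ≤ ((n * H + (N + 1) : ℕ) : ℝ) := by exact_mod_cast h4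
  push_cast at h5
  linarith

theorem trap_int_mem {u v x : ℝ} (hu : 0 ≤ u) (hu1 : u ≤ 1) (hv : 0 ≤ v) (hv1 : v ≤ 1)
    (hx : 0 ≤ x) (hx1 : x ≤ 1 / 2) :
    0 ≤ 2 * ∫ z in x..(1 / 2), trap u v z ∧ 2 * ∫ z in x..(1 / 2), trap u v z ≤ 1 := by
  have h1 : 0 ≤ ∫ z in x..(1 / 2), trap u v z :=
    intervalIntegral.integral_nonneg hx1 fun z _ => trap_nonneg hu hv z
  have h2 : ∫ z in x..(1 / 2), trap u v z ≤ ∫ z in x..(1 / 2), (1 : ℝ) :=
    intervalIntegral.integral_mono_on hx1 ((trap_cont u v).intervalIntegrable _ _)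
      (continuous_const.intervalIntegrable _ _) fun z _ => (trap_mem hu hu1 hv hv1).2
  rw [intervalIntegral.integral_const, smul_eq_mul, mul_one] at h2
  constructor <;> linarith

/-- One piece. -/
theorem piece_cmp (W K H : ℕ) (hW : 1 ≤ W) (hW2 : 2 ∣ W) (hK : 1 ≤ K) (hH : 1 ≤ H)
    (η : ℝ) (hη : 0 < η) (t : ℝ) (ht : 0 ≤ t) : ∃ N₀ : ℕ, ∀ N : ℕ, N₀ ≤ N →
      ∀ a b : ℕ → ℕ → ℝ, (∀ k r, 0 ≤ a k r ∧ a k r ≤ 1) → (∀ k r, 0 ≤ b k r ∧ b k r ≤ 1) →
      ∀ (l c : ℕ) (e : ℝ), (∀ n ∈ pc W H N l c, ∀ n' ∈ pc W H N l c, n ≤ n' →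
        ((K : ℝ) + 2) * ((n' : ℝ) - n) / n ≤ e) →
      ∑ n ∈ pc W H N l c, min (rho (starN W K N a) (starN W K N b) n) t ≤
        ∑ n ∈ pc W H N l c, RT W K N a b t n + 2 * e * (pc W H N l c).card + η * N := by
  classical
  obtain ⟨η₁, hη₁⟩ : ∃ η₁ : ℝ, η₁ = η / (t + 1) := ⟨_, rfl⟩
  have hη10 : 0 < η₁ := by rw [hη₁]; positivity
  obtain ⟨N₁, hN₁⟩ := star_up W K H hW hW2 hK hH η₁ hη10
  obtain ⟨N₂, hN₂⟩ := arcs_even W H hW hH η₁ hη10
  refine ⟨max N₁ N₂, fun N hN a b ha hb l c e he => ?_⟩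
  have hNa : N₁ ≤ N := (le_max_left _ _).trans hN
  have hNb : N₂ ≤ N := (le_max_right _ _).trans hN
  have hN' : (0 : ℝ) ≤ N := Nat.cast_nonneg N
  rcases (pc W H N l c).eq_empty_or_nonempty with h0 | ⟨n₁, hn₁⟩
  · rw [h0]
    simp
    positivity
  -- the choice of `x`
  have hcont : Continuous (fun x => Av W K N a b (fun _ _ _ u v => trap u v x) n₁) := by
    simp only [Av_eq]
    exact continuous_finsetSum _ fun j _ => continuous_const.mul (trap_cont _ _)
  have hanti : Antitone (fun x => Av W K N a b (fun _ _ _ u v => trap u v x) n₁) := by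
    intro x y hxy
    exact Av_mono ha hb fun _ _ _ u v _ _ _ _ => trap_anti u v hxy
  obtain ⟨x, hx, hx1, hsplit⟩ := lw_split hcont hanti (t := t)
  have hRT : RT W K N a b t n₁ = 2 * x * t +
      Av W K N a b (fun _ _ _ u v => 2 * ∫ z in x..(1 / 2), trap u v z) n₁ := by
    unfold RT
    rw [hsplit, Av_int (fun u v z => trap u v z) (fun u v => trap_cont u v)]
    congr 1
    rw [Av_eq, Av_eq, mul_sum]
    exact sum_congr rfl fun j _ => by ring
  have hG : ∀ (k k' r : ℕ) (u v : ℝ), 0 ≤ u → u ≤ 1 → 0 ≤ v → v ≤ 1 →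
      0 ≤ 2 * ∫ z in x..(1 / 2), trap u v z ∧ 2 * ∫ z in x..(1 / 2), trap u v z ≤ 1 :=
    fun _ _ _ u v h1 h2 h3 h4 => trap_int_mem h1 h2 h3 h4 hx hx1
  have hn₁' := mem_pc.1 hn₁
  -- comparison with the representative
  have hcmp : ∀ n ∈ pc W H N l c,
      Av W K N a b (fun _ _ _ u v => 2 * ∫ z in x..(1 / 2), trap u v z) n ≤
        RT W K N a b t n - 2 * x * t + 2 * e := by
    intro n hn
    have hn' := mem_pc.1 hn
    have hmod : n ≡ n₁ [MOD W] := by
      unfold Nat.ModEq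
      rw [hn'.2.2.2, hn₁'.2.2.2]
    have h1 : |Av W K N a b (fun _ _ _ u v => 2 * ∫ z in x..(1 / 2), trap u v z) n -
        Av W K N a b (fun _ _ _ u v => 2 * ∫ z in x..(1 / 2), trap u v z) n₁| ≤ e ∧
        |RT W K N a b t n - RT W K N a b t n₁| ≤ e := by
      rcases le_total n n₁ with h | h
      · have h2 := he n hn n₁ hn₁ h
        exact ⟨(av_cont hK ha hb hG hn'.1.1 h hn₁'.1.2 hmod).trans h2,
          (rt_cont hK ha hb hn'.1.1 h hn₁'.1.2 hmod t).trans h2⟩
      · have h2 := he n₁ hn₁ n hn h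
        rw [abs_sub_comm, abs_sub_comm (RT W K N a b t n)]
        exact ⟨(av_cont hK ha hb hG hn₁'.1.1 h hn'.1.2 hmod.symm).trans h2,
          (rt_cont hK ha hb hn₁'.1.1 h hn'.1.2 hmod.symm t).trans h2⟩
    have h3 := (abs_le.1 h1.1).2
    have h4 := (abs_le.1 h1.2).1
    linarith
  -- the two parts
  have hind : ∀ k r, 0 ≤ ind l c k r ∧ ind l c k r ≤ 1 := by
    intro k r
    unfold ind
    split_ifs <;> norm_num
  have hup := hN₁ N hNa (ind l c) hind a b ha hb x hx hx1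
  rw [wS_ind, wS_ind] at hup
  have harc := hN₂ N hNb l c x hx hx1
  have h5 : ∑ n ∈ pc W H N l c, min (rho (starN W K N a) (starN W K N b) n) t ≤
      t * ((pc W H N l c).filter (fun n => nm n < x)).card +
        ∑ n ∈ pc W H N l c, (if x ≤ nm n then rho (starN W K N a) (starN W K N b) n else 0) := by
    have h6 : t * ((pc W H N l c).filter (fun n => nm n < x)).card =
        ∑ n ∈ pc W H N l c, (if nm n < x then t else 0) := by
      rw [← sum_filter, sum_const, nsmul_eq_mul, mul_comm]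
    rw [h6, ← sum_add_distrib]
    refine sum_le_sum fun n _ => ?_
    by_cases h7 : nm n < x
    · rw [if_pos h7, if_neg (not_le.2 h7), add_zero]
      exact min_le_right _ _
    · rw [if_neg h7, if_pos (not_lt.1 h7), zero_add]
      exact min_le_left _ _
  have h8 : ∑ n ∈ pc W H N l c,
      Av W K N a b (fun _ _ _ u v => 2 * ∫ z in x..(1 / 2), trap u v z) n ≤
      ∑ n ∈ pc W H N l c, RT W K N a b t n + (pc W H N l c).card * (2 * e - 2 * x * t) := by
    rw [← nsmul_eq_mul, ← sum_const, ← sum_add_distrib]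
    refine sum_le_sum fun n hn => ?_
    have := hcmp n hn
    linarith
  have h9 := mul_le_mul_of_nonneg_left harc ht
  have h10 : t * (η₁ * N) + η₁ * N = η * N := by
    rw [hη₁]
    field_simp
  linarith

/-- The number of the even integers `n ≤ N` with `n ≤ x`. -/
private theorem starM_card {N : ℕ} {x : ℝ} (hx : 0 ≤ x) (W H : ℕ) :
    wS W H N (fun _ _ => 1) (fun n => if (n : ℝ) ≤ x then 1 else 0) ≤ x := by
  unfold wS
  have h1 : ∑ n ∈ (Icc 1 N).filter (fun n => Even n), (1 : ℝ) * (if (n : ℝ) ≤ x then 1 else 0) ≤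
      ∑ n ∈ Icc 1 N, (if (n : ℝ) ≤ x then 1 else 0) := by
    rw [sum_filter]
    refine sum_le_sum fun n _ => ?_
    by_cases h1 : Even n <;> by_cases h2 : (n : ℝ) ≤ x <;> simp [h1, h2]
  refine h1.trans ?_
  rw [← sum_filter, sum_const, nsmul_eq_mul, mul_one]
  have h2 : (Icc 1 N).filter (fun n : ℕ => (n : ℝ) ≤ x) ⊆ Icc 1 ⌊x⌋₊ := by
    intro n hn
    rw [mem_filter, mem_Icc] at hn
    rw [mem_Icc]
    exact ⟨hn.1.1, Nat.le_floor hn.2⟩
  have h3 := card_le_card h2
  rw [Nat.card_Icc, Nat.add_sub_cancel] at h3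
  calc (((Icc 1 N).filter (fun n : ℕ => (n : ℝ) ≤ x)).card : ℝ) ≤ (⌊x⌋₊ : ℝ) := by exact_mod_cast h3
    _ ≤ x := Nat.floor_le hx

/-- The truncated sums for the rearranged sets are at most the sums of `RT`. Use `wS_fine` with a
large `H₂`, then `wS_pieces` and `piece_cmp`; for the pieces which contain some `n ≤ μ N` use
`rho_le'`. -/
theorem star_cmp (W K H : ℕ) (hW : 1 ≤ W) (hW2 : 2 ∣ W) (hK : 1 ≤ K) (hH : 1 ≤ H)
    (η : ℝ) (hη : 0 < η) (t : ℝ) (ht : 0 ≤ t) : ∃ N₀ : ℕ, ∀ N : ℕ, N₀ ≤ N →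
      ∀ a b : ℕ → ℕ → ℝ, (∀ k r, 0 ≤ a k r ∧ a k r ≤ 1) → (∀ k r, 0 ≤ b k r ∧ b k r ≤ 1) →
      ∀ s : ℕ → ℕ → ℝ, (∀ l c, 0 ≤ s l c ∧ s l c ≤ 1) →
      wS W H N s (fun n => min (rho (starN W K N a) (starN W K N b) n) t) ≤
        wS W H N s (RT W K N a b t) + η * N := by
  classical
  obtain ⟨μ, hμ⟩ : ∃ μ : ℝ, μ = η / (4 * (t + 1)) := ⟨_, rfl⟩
  have hμ0 : 0 < μ := by rw [hμ]; positivity
  have hμt : t * (2 * μ) ≤ η / 2 := by
    rw [hμ]
    have h1 : t * (2 * (η / (4 * (t + 1)))) = η / 2 * (t / (t + 1)) := by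
      field_simp
      ring
    rw [h1]
    exact mul_le_of_le_one_right (by positivity) (div_le_one_of_le₀ (by linarith) (by positivity))
  obtain ⟨H₂, hH₂⟩ := exists_nat_gt (2 / μ + 16 * (K + 2) / (μ * η))
  have hH₂0 : (0 : ℝ) < H₂ := lt_of_le_of_lt (by positivity) hH₂
  have hH₂1 : 1 ≤ H₂ := by exact_mod_cast hH₂0
  obtain ⟨H', hH'⟩ : ∃ H' : ℕ, H' = H * H₂ := ⟨_, rfl⟩
  have hH'1 : 1 ≤ H' := by rw [hH']; exact Nat.mul_pos hH hH₂1
  have hH'r : (H₂ : ℝ) ≤ H' := by
    have : H₂ ≤ H' := by rw [hH']; exact Nat.le_mul_of_pos_left H₂ hH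
    exact_mod_cast this
  have hH'0 : (0 : ℝ) < H' := lt_of_lt_of_le hH₂0 hH'r
  have hW0 : (0 : ℝ) < W := by exact_mod_cast hW
  have hA : 2 / μ ≤ H' := by
    have : (0 : ℝ) ≤ 16 * (K + 2) / (μ * η) := by positivity
    linarith
  have hB : 16 * ((K : ℝ) + 2) / (μ * η) ≤ H' := by
    have : (0 : ℝ) ≤ 2 / μ := by positivity
    linarith
  obtain ⟨e, he⟩ : ∃ e : ℝ, e = ((K : ℝ) + 2) * 2 / (H' * μ) := ⟨_, rfl⟩
  have he0 : 0 ≤ e := by rw [he]; positivity
  have he1 : 2 * e ≤ η / 4 := by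
    rw [he]
    rw [div_le_iff₀ (by positivity)] at hB
    rw [← mul_div_assoc, div_le_iff₀ (by positivity)]
    linarith
  obtain ⟨η', hη'⟩ : ∃ η' : ℝ, η' = η / (4 * (H' * W)) := ⟨_, rfl⟩
  have hη'0 : 0 < η' := by rw [hη']; positivity
  obtain ⟨N₁, hN₁⟩ := piece_cmp W K H' hW hW2 hK hH'1 η' hη'0 t ht
  refine ⟨max N₁ 1, fun N hN a b ha hb s hs => ?_⟩
  have hNa : N₁ ≤ N := (le_max_left _ _).trans hN
  have hNb : 1 ≤ N := (le_max_right _ _).trans hN
  have hN0 : (1 : ℝ) ≤ N := by exact_mod_cast hNb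
  have hlen : ((N : ℝ) + 1) / H' ≤ μ * N := by
    rw [div_le_iff₀ hμ0] at hA
    rw [div_le_iff₀ hH'0]
    nlinarith
  have hlen2 : ((N : ℝ) + 1) / H' ≤ 2 * N / H' := by
    apply div_le_div_of_nonneg_right _ hH'0.le
    linarith
  -- one piece
  have hpiece : ∀ l c : ℕ,
      s (l / H₂) c * ∑ n ∈ pc W H' N l c, min (rho (starN W K N a) (starN W K N b) n) t ≤
        s (l / H₂) c * ∑ n ∈ pc W H' N l c, RT W K N a b t n +
          (2 * e * ∑ _n ∈ pc W H' N l c, (1 : ℝ) + η' * N +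
            t * ∑ n ∈ pc W H' N l c, (if (n : ℝ) ≤ 2 * μ * N then 1 else 0)) := by
    intro l c
    have hX1 : (0 : ℝ) ≤ ∑ _n ∈ pc W H' N l c, (1 : ℝ) := sum_nonneg fun _ _ => zero_le_one
    have hX2 : (0 : ℝ) ≤ ∑ n ∈ pc W H' N l c, (if (n : ℝ) ≤ 2 * μ * N then (1 : ℝ) else 0) := by
      refine sum_nonneg fun n _ => ?_
      split_ifs <;> norm_num
    have hX3 : 0 ≤ η' * N := by positivity
    have hX4 : 0 ≤ 2 * e * ∑ _n ∈ pc W H' N l c, (1 : ℝ) := by positivity
    have hX5 : 0 ≤ t * ∑ n ∈ pc W H' N l c, (if (n : ℝ) ≤ 2 * μ * N then (1 : ℝ) else 0) :=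
      mul_nonneg ht hX2
    have hs1 := hs (l / H₂) c
    have key : ∑ n ∈ pc W H' N l c, min (rho (starN W K N a) (starN W K N b) n) t ≤
        ∑ n ∈ pc W H' N l c, RT W K N a b t n +
          (2 * e * ∑ _n ∈ pc W H' N l c, (1 : ℝ) + η' * N +
            t * ∑ n ∈ pc W H' N l c, (if (n : ℝ) ≤ 2 * μ * N then 1 else 0)) := by
      by_cases hgood : ∀ n ∈ pc W H' N l c, μ * N ≤ n
      · have h1 := hN₁ N hNa a b ha hb l c e ?_
        · have h2 : (∑ _n ∈ pc W H' N l c, (1 : ℝ)) = (pc W H' N l c).card := by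
            rw [sum_const, nsmul_eq_mul, mul_one]
          rw [h2]
          linarith
        · intro n hn n' hn' hnn
          have h3 := hgood n hn
          have hμN : 0 < μ * N := by positivity
          have hn0 : (0 : ℝ) < n := lt_of_lt_of_le hμN h3
          have h4 : ((n' : ℝ) - n) ≤ (N + 1) / H' :=
            cell_len hH'1 hnn ((mem_pc.1 hn).2.2.1.trans (mem_pc.1 hn').2.2.1.symm)
          have h5 : (0 : ℝ) ≤ (n' : ℝ) - n := by
            have : (n : ℝ) ≤ n' := by exact_mod_cast hnn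
            linarith
          calc ((K : ℝ) + 2) * ((n' : ℝ) - n) / n
              ≤ ((K : ℝ) + 2) * (2 * N / H') / n := by
                apply div_le_div_of_nonneg_right _ hn0.le
                exact mul_le_mul_of_nonneg_left (h4.trans hlen2) (by positivity)
            _ ≤ ((K : ℝ) + 2) * (2 * N / H') / (μ * N) := by
                apply div_le_div_of_nonneg_left _ hμN h3
                positivity
            _ = e := by
                rw [he]
                field_simp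
      · push Not at hgood
        obtain ⟨n₀, hn₀, hn₀μ⟩ := hgood
        have hall : ∀ n ∈ pc W H' N l c, (n : ℝ) ≤ 2 * μ * N := by
          intro n hn
          rcases le_total n₀ n with h | h
          · have h4 : ((n : ℝ) - n₀) ≤ (N + 1) / H' :=
              cell_len hH'1 h ((mem_pc.1 hn₀).2.2.1.trans (mem_pc.1 hn).2.2.1.symm)
            linarith
          · have h4 : (n : ℝ) ≤ n₀ := by exact_mod_cast h
            have h5 : 0 ≤ μ * N := by positivity
            linarith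
        have h1 : ∑ n ∈ pc W H' N l c, min (rho (starN W K N a) (starN W K N b) n) t ≤
            t * ∑ n ∈ pc W H' N l c, (if (n : ℝ) ≤ 2 * μ * N then 1 else 0) := by
          rw [mul_sum]
          refine sum_le_sum fun n hn => ?_
          rw [if_pos (hall n hn), mul_one]
          exact min_le_right _ _
        have h2 : 0 ≤ ∑ n ∈ pc W H' N l c, RT W K N a b t n :=
          sum_nonneg fun n _ => (rt_mem ha hb ht).1
        linarith
    have h1 := mul_le_mul_of_nonneg_left key hs1.1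
    have h2 : s (l / H₂) c * (2 * e * ∑ _n ∈ pc W H' N l c, (1 : ℝ) + η' * N +
            t * ∑ n ∈ pc W H' N l c, (if (n : ℝ) ≤ 2 * μ * N then 1 else 0)) ≤
        2 * e * ∑ _n ∈ pc W H' N l c, (1 : ℝ) + η' * N +
            t * ∑ n ∈ pc W H' N l c, (if (n : ℝ) ≤ 2 * μ * N then 1 else 0) :=
      mul_le_of_le_one_left (by positivity) hs1.2
    rw [mul_add] at h1
    linarith
  -- the sum over the pieces
  have hone : ∀ F : ℕ → ℝ, wS W H' N (fun _ _ => 1) F =
      ∑ l ∈ range H', ∑ c ∈ range W, ∑ n ∈ pc W H' N l c, F n := by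
    intro F
    rw [wS_pieces hW hH'1]
    simp only [one_mul]
  rw [wS_fine hH₂1, wS_fine hH₂1 s (RT W K N a b t), ← hH', wS_pieces hW hH'1, wS_pieces hW hH'1]
  have hsum : ∑ l ∈ range H', ∑ c ∈ range W, (s (l / H₂) c *
      ∑ n ∈ pc W H' N l c, min (rho (starN W K N a) (starN W K N b) n) t) ≤
      ∑ l ∈ range H', ∑ c ∈ range W, (s (l / H₂) c * ∑ n ∈ pc W H' N l c, RT W K N a b t n +
          (2 * e * ∑ _n ∈ pc W H' N l c, (1 : ℝ) + η' * N +
            t * ∑ n ∈ pc W H' N l c, (if (n : ℝ) ≤ 2 * μ * N then 1 else 0))) :=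
    sum_le_sum fun l _ => sum_le_sum fun c _ => hpiece l c
  refine hsum.trans ?_
  simp only [sum_add_distrib, ← mul_sum]
  rw [← hone, ← hone]
  have h1 : wS W H' N (fun _ _ => 1) (fun _ => (1 : ℝ)) ≤ 1 * N :=
    wS_const_le (fun _ _ => ⟨zero_le_one, le_rfl⟩) zero_le_one
  have h2 : wS W H' N (fun _ _ => 1) (fun n => if (n : ℝ) ≤ 2 * μ * N then 1 else 0) ≤
      2 * μ * N := starM_card (by positivity) W H'
  have h3 : η' * ∑ _l ∈ range H', ∑ _c ∈ range W, (N : ℝ) = η / 4 * N := by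
    rw [sum_const, sum_const, card_range, card_range, nsmul_eq_mul, nsmul_eq_mul, hη']
    field_simp
  have h4 := mul_le_mul_of_nonneg_left h1 (show 0 ≤ 2 * e by positivity)
  have h5 := mul_le_mul_of_nonneg_left h2 ht
  have h6 : 2 * e * (1 * N) ≤ η / 4 * N := by
    rw [one_mul]
    exact mul_le_mul_of_nonneg_right he1 (by positivity)
  have h7 : t * (2 * μ * N) ≤ η / 2 * N := by
    have := mul_le_mul_of_nonneg_right hμt (show (0 : ℝ) ≤ N by positivity)
    linarith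
  rw [h3]
  linarith

end Pool.Agent.Lib.MP_629a14_nt.Kp.R
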