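import Pool.Agent.Lib.MP_629a14_nt.Kr.StarL
import Pool.Agent.Lib.MP_629a14_nt.Kr.Approx

/-! The value of the bound. -/

set_option autoImplicit false

namespace Pool.Agent.Lib.MP_629a14_nt.Kp.R

open Finset Filter Topology Pool.Agent.Lib.MP_629a14_nt Pool.Agent.Lib.MP_629a14_nt.Rob

theorem lip_cont {φ : ℝ → ℝ} {C Λ : ℝ}
    (hΛ : ∀ x ∈ Set.Icc 0 C, ∀ y ∈ Set.Icc 0 C, |φ x - φ y| ≤ Λ * |x - y|) :
    ContinuousOn φ (Set.Icc 0 C) := by
  rw [Metric.continuousOn_iff]
  intro x hx ε hε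
  refine ⟨ε / (|Λ| + 1), by positivity, fun y hy hxy => ?_⟩
  rw [Real.dist_eq] at hxy ⊢
  rw [lt_div_iff₀ (by positivity)] at hxy
  refine lt_of_le_of_lt (hΛ y hy x hx) ?_
  have h1 : Λ * |y - x| ≤ |Λ| * |y - x| := mul_le_mul_of_nonneg_right (le_abs_self Λ) (abs_nonneg _)
  have h2 := abs_nonneg (y - x)
  have h3 := abs_nonneg Λ
  rcases eq_or_lt_of_le h2 with h4 | h4
  · rw [← h4, mul_zero]
    exact hε
  · nlinarith

theorem val_approx {F : ℝ → ℝ} (hF : Continuous F) {C : ℝ} (h0 : ∀ x, 0 ≤ F x ∧ F x ≤ C)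
    {φ : ℝ → ℝ} {Λ : ℝ}
    (hΛ : ∀ x ∈ Set.Icc 0 C, ∀ y ∈ Set.Icc 0 C, |φ x - φ y| ≤ Λ * |x - y|)
    (n : ℕ) (t c : ℕ → ℝ) (σ e : ℝ)
    (happ : ∀ x, 0 ≤ x → x ≤ C → φ x ≤ φ 0 + σ * x - ∑ k ∈ range n, c k * min x (t k) ∧
      φ 0 + σ * x - ∑ k ∈ range n, c k * min x (t k) ≤ φ x + e) :
    lw F φ ≤ φ 0 + σ * lw F (fun y => y) - ∑ k ∈ range n, c k * lw F (fun y => min y (t k)) ∧
    φ 0 + σ * lw F (fun y => y) - ∑ k ∈ range n, c k * lw F (fun y => min y (t k)) ≤
      lw F φ + e := by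
  obtain ⟨ap, hap⟩ : ∃ ap : ℝ → ℝ, ap = fun y => φ 0 + σ * y -
    ∑ k ∈ range n, c k * min y (t k) := ⟨_, rfl⟩
  have hapc : Continuous ap := by
    rw [hap]
    refine (continuous_const.add (continuous_const.mul continuous_id)).sub ?_
    exact continuous_finsetSum _ fun k _ =>
      continuous_const.mul (continuous_id.min continuous_const)
  have hval : lw F ap = φ 0 + σ * lw F (fun y => y) -
      ∑ k ∈ range n, c k * lw F (fun y => min y (t k)) := by
    have h1 : lw F ap = lw F (fun y => (φ 0 + σ * y) + -∑ k ∈ range n, c k * min y (t k)) := by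
      rw [hap]
      congr 1
    have hcs : Continuous (fun y : ℝ => ∑ k ∈ range n, c k * min y (t k)) :=
      continuous_finsetSum _ fun k _ => continuous_const.mul (continuous_id.min continuous_const)
    have hcm : Continuous (fun y : ℝ => σ * y) := continuous_const.mul continuous_id
    have a1 := lw_add (ψ := F) hF.continuousOn (φ := fun y => φ 0 + σ * y)
      (χ := fun y => -∑ k ∈ range n, c k * min y (t k)) (continuous_const.add hcm) hcs.neg
    have a2 := lw_add (ψ := F) hF.continuousOn (φ := fun _ => φ 0) (χ := fun y => σ * y)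
      continuous_const hcm
    rw [h1, a1, a2, lw_const, lw_mul]
    have h2 : lw F (fun y => -∑ k ∈ range n, c k * min y (t k)) =
        -∑ k ∈ range n, c k * lw F (fun y => min y (t k)) := by
      have h3 := lw_mul F (fun y => ∑ k ∈ range n, c k * min y (t k)) (-1)
      simp only [neg_one_mul] at h3
      rw [h3, lw_sum hF.continuousOn (range n) (fun k y => c k * min y (t k))
        (fun k => continuous_const.mul (continuous_id.min continuous_const))]
      congr 1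
      exact sum_congr rfl fun k _ => lw_mul F _ _
    rw [h2]
    ring
  have hφc : ContinuousOn φ (Set.Icc 0 C) := lip_cont hΛ
  have hint : IntervalIntegrable (fun x => φ (F x)) MeasureTheory.volume 0 (1 / 2) := by
    refine ContinuousOn.intervalIntegrable ?_
    exact hφc.comp hF.continuousOn fun x _ => h0 x
  have hint2 : IntervalIntegrable (fun x => ap (F x)) MeasureTheory.volume 0 (1 / 2) :=
    (hapc.comp hF).intervalIntegrable _ _
  rw [← hval]
  constructor
  · unfold lw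
    refine mul_le_mul_of_nonneg_left ?_ (by norm_num)
    refine intervalIntegral.integral_mono_on (by norm_num) hint hint2 fun x _ => ?_
    rw [hap]
    exact (happ _ (h0 x).1 (h0 x).2).1
  · have h1 : lw F φ + e = 2 * ∫ x in (0 : ℝ)..(1 / 2), (φ (F x) + e) := by
      unfold lw
      rw [intervalIntegral.integral_add hint intervalIntegrable_const,
        intervalIntegral.integral_const, smul_eq_mul]
      ring
    rw [h1]
    unfold lw
    refine mul_le_mul_of_nonneg_left ?_ (by norm_num)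
    refine intervalIntegral.integral_mono_on (by norm_num) hint2
      (hint.add intervalIntegrable_const) fun x _ => ?_
    rw [hap]
    exact (happ _ (h0 x).1 (h0 x).2).2

/-- The mean of `φ` over the law of the counts of the rearranged sets. -/
noncomputable def Val (W K N : ℕ) (a b : ℕ → ℕ → ℝ) (φ : ℝ → ℝ) (n : ℕ) : ℝ :=
  2 * ∫ x in (0 : ℝ)..(1 / 2), φ (Av W K N a b (fun _ _ _ u v => trap u v x) n)

theorem lw_id_av {W K N n : ℕ} {a b : ℕ → ℕ → ℝ}
    (ha : ∀ k r, 0 ≤ a k r ∧ a k r ≤ 1) (hb : ∀ k r, 0 ≤ b k r ∧ b k r ≤ 1) :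
    lw (fun x => Av W K N a b (fun _ _ _ u v => trap u v x) n) (fun y => y) =
      Av W K N a b (fun _ _ _ u v => u * v) n := by
  rw [← rt_large (N := N) ha hb le_rfl]
  unfold RT lw
  congr 1
  refine intervalIntegral.integral_congr fun x _ => ?_
  have h := (Av_unit (W := W) (K := K) (N := N) (n := n) ha hb
    (G := fun _ _ _ u v => trap u v x) fun _ _ _ u v h1 h2 h3 h4 => trap_mem h1 h2 h3 h4).2
  exact (min_eq_left h).symm

theorem val_bdd {W K N n : ℕ} {a b : ℕ → ℕ → ℝ}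
    (ha : ∀ k r, 0 ≤ a k r ∧ a k r ≤ 1) (hb : ∀ k r, 0 ≤ b k r ∧ b k r ≤ 1) {C : ℝ} (hC : 1 ≤ C)
    {φ : ℝ → ℝ} {Λ : ℝ} (hΛ0 : 0 ≤ Λ)
    (hΛ : ∀ x ∈ Set.Icc 0 C, ∀ y ∈ Set.Icc 0 C, |φ x - φ y| ≤ Λ * |x - y|) :
    |Val W K N a b φ n - φ 0| ≤ Λ * C := by
  have h0 : ∀ x, 0 ≤ Av W K N a b (fun _ _ _ u v => trap u v x) n ∧
      Av W K N a b (fun _ _ _ u v => trap u v x) n ≤ C := fun x => by
    have := Av_unit (W := W) (K := K) (N := N) (n := n) ha hb
      (G := fun _ _ _ u v => trap u v x) fun _ _ _ u v h1 h2 h3 h4 => trap_mem h1 h2 h3 h4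
    exact ⟨this.1, this.2.trans hC⟩
  have h1 : ∀ x, |φ (Av W K N a b (fun _ _ _ u v => trap u v x) n) - φ 0| ≤ Λ * C := by
    intro x
    refine (hΛ _ (h0 x) 0 ⟨le_rfl, by linarith⟩).trans ?_
    rw [sub_zero, abs_of_nonneg (h0 x).1]
    exact mul_le_mul_of_nonneg_left (h0 x).2 hΛ0
  have hφc : ContinuousOn φ (Set.Icc 0 C) := lip_cont hΛ
  have hint : IntervalIntegrable (fun x => φ (Av W K N a b (fun _ _ _ u v => trap u v x) n))
      MeasureTheory.volume 0 (1 / 2) := by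
    refine ContinuousOn.intervalIntegrable ?_
    exact hφc.comp av_trap_cont.continuousOn fun x _ => h0 x
  have h2 : Val W K N a b φ n - φ 0 =
      2 * ∫ x in (0 : ℝ)..(1 / 2), (φ (Av W K N a b (fun _ _ _ u v => trap u v x) n) - φ 0) := by
    unfold Val
    rw [intervalIntegral.integral_sub hint intervalIntegrable_const,
      intervalIntegral.integral_const, smul_eq_mul]
    ring
  rw [h2, abs_mul, abs_two]
  have h3 := intervalIntegral.norm_integral_le_of_norm_le_const (a := (0 : ℝ)) (b := 1 / 2)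
    (f := fun x => φ (Av W K N a b (fun _ _ _ u v => trap u v x) n) - φ 0) (C := Λ * C)
    fun x _ => h1 x
  rw [Real.norm_eq_abs] at h3
  have h4 : |(1 : ℝ) / 2 - 0| = 1 / 2 := by norm_num
  rw [h4] at h3
  linarith

/-- The sums for the rearranged sets, up to the approximation. -/
theorem val_cmp {W H K N : ℕ} {a b : ℕ → ℕ → ℝ} {s : ℕ → ℕ → ℝ} {η : ℝ}
    (ha : ∀ k r, 0 ≤ a k r ∧ a k r ≤ 1) (hb : ∀ k r, 0 ≤ b k r ∧ b k r ≤ 1)
    (hs : ∀ l c, 0 ≤ s l c ∧ s l c ≤ 1) {C : ℝ} (hC : 1 ≤ C)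
    (hC' : ∀ (A B : Set ℕ) (n : ℕ), rho A B n ≤ C) {m : ℕ} {t : ℕ → ℝ}
    (A B : Set ℕ) (h1 : ∀ k < m, |wS W H N s (fun n => min (rho A B n) (t k)) -
      wS W H N s (RT W K N a b (t k))| ≤ η * N)
    (h2 : |wS W H N s (rho A B) - wS W H N s (Av W K N a b (fun _ _ _ u v => u * v))| ≤ η * N)
    {φ : ℝ → ℝ} {Λ σ e : ℝ} {c : ℕ → ℝ}
    (hΛ : ∀ x ∈ Set.Icc 0 C, ∀ y ∈ Set.Icc 0 C, |φ x - φ y| ≤ Λ * |x - y|)
    (hσ : |σ| ≤ Λ) (hc : ∀ k < m, 0 ≤ c k) (hcs : ∑ k ∈ range m, c k ≤ 2 * Λ) (he : 0 ≤ e)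
    (happ : ∀ x, 0 ≤ x → x ≤ C → φ x ≤ φ 0 + σ * x - ∑ k ∈ range m, c k * min x (t k) ∧
      φ 0 + σ * x - ∑ k ∈ range m, c k * min x (t k) ≤ φ x + e) :
    |wS W H N s (fun n => φ (rho A B n)) - wS W H N s (Val W K N a b φ)| ≤
      (e + 3 * Λ * η) * N := by
  have hN' : (0 : ℝ) ≤ N := Nat.cast_nonneg N
  have hΛ0 : 0 ≤ Λ := (abs_nonneg _).trans hσ
  have hηN : 0 ≤ η * N := (abs_nonneg _).trans h2
  -- the sums of the approximations
  obtain ⟨P, hP⟩ : ∃ P : ℝ, P = wS W H N s (fun _ => φ 0) + σ * wS W H N s (rho A B) -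
        ∑ k ∈ range m, c k * wS W H N s (fun n => min (rho A B n) (t k)) := ⟨_, rfl⟩
  obtain ⟨P', hP'⟩ : ∃ P' : ℝ, P' = wS W H N s (fun _ => φ 0) +
        σ * wS W H N s (Av W K N a b (fun _ _ _ u v => u * v)) -
        ∑ k ∈ range m, c k * wS W H N s (RT W K N a b (t k)) := ⟨_, rfl⟩
  have hA : wS W H N s (fun n => φ 0 + σ * rho A B n -
      ∑ k ∈ range m, c k * min (rho A B n) (t k)) = P := by
    rw [hP, wS_sub (fun n => φ 0 + σ * rho A B n), wS_add, wS_mul, wS_sum]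
    simp only [wS_mul]
  have hA' : wS W H N s (fun n => φ 0 + σ * Av W K N a b (fun _ _ _ u v => u * v) n -
      ∑ k ∈ range m, c k * RT W K N a b (t k) n) = P' := by
    rw [hP', wS_sub (fun n => φ 0 + σ * Av W K N a b (fun _ _ _ u v => u * v) n), wS_add, wS_mul,
      wS_sum]
    simp only [wS_mul]
  have g1 : wS W H N s (fun n => φ (rho A B n)) ≤ P := by
    rw [← hA]
    exact wS_mono (fun l c => (hs l c).1) fun n _ _ _ => (happ _ (rho_nonneg A B n) (hC' A B n)).1
  have g2 : P ≤ wS W H N s (fun n => φ (rho A B n)) + e * N := by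
    rw [← hA]
    exact wS_abs hs he fun n _ _ _ => (happ _ (rho_nonneg A B n) (hC' A B n)).2
  have hv : ∀ n, Val W K N a b φ n ≤ φ 0 + σ * Av W K N a b (fun _ _ _ u v => u * v) n -
      ∑ k ∈ range m, c k * RT W K N a b (t k) n ∧
      φ 0 + σ * Av W K N a b (fun _ _ _ u v => u * v) n -
      ∑ k ∈ range m, c k * RT W K N a b (t k) n ≤ Val W K N a b φ n + e := by
    intro n
    have h3 := val_approx (F := fun x => Av W K N a b (fun _ _ _ u v => trap u v x) n)
      av_trap_cont (C := C) (fun x => by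
        have := Av_unit (W := W) (K := K) (N := N) (n := n) ha hb
          (G := fun _ _ _ u v => trap u v x) fun _ _ _ u v h1 h2 h3 h4 => trap_mem h1 h2 h3 h4
        exact ⟨this.1, this.2.trans hC⟩) hΛ m t c σ e happ
    rw [lw_id_av ha hb] at h3
    exact h3
  have g3 : wS W H N s (Val W K N a b φ) ≤ P' := by
    rw [← hA']
    exact wS_mono (fun l c => (hs l c).1) fun n _ _ _ => (hv n).1
  have g4 : P' ≤ wS W H N s (Val W K N a b φ) + e * N := by
    rw [← hA']
    exact wS_abs hs he fun n _ _ _ => (hv n).2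
  have g5 : |P - P'| ≤ 3 * Λ * η * N := by
    have e1 : P - P' = σ * (wS W H N s (rho A B) -
        wS W H N s (Av W K N a b (fun _ _ _ u v => u * v))) -
        ∑ k ∈ range m, c k * (wS W H N s (fun n => min (rho A B n) (t k)) -
          wS W H N s (RT W K N a b (t k))) := by
      rw [hP, hP']
      simp only [mul_sub, sum_sub_distrib]
      ring
    rw [e1]
    refine (abs_sub _ _).trans ?_
    have e2 : |σ * (wS W H N s (rho A B) -
        wS W H N s (Av W K N a b (fun _ _ _ u v => u * v)))| ≤ Λ * (η * N) := by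
      rw [abs_mul]
      exact mul_le_mul hσ h2 (abs_nonneg _) hΛ0
    have e3 : |∑ k ∈ range m, c k * (wS W H N s (fun n => min (rho A B n) (t k)) -
          wS W H N s (RT W K N a b (t k)))| ≤ 2 * Λ * (η * N) := by
      refine (abs_sum_le_sum_abs _ _).trans ?_
      calc ∑ k ∈ range m, |c k * (wS W H N s (fun n => min (rho A B n) (t k)) -
            wS W H N s (RT W K N a b (t k)))| ≤ ∑ k ∈ range m, c k * (η * N) := by
            refine sum_le_sum fun k hk => ?_
            rw [abs_mul, abs_of_nonneg (hc k (mem_range.1 hk))]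
            exact mul_le_mul_of_nonneg_left (h1 k (mem_range.1 hk)) (hc k (mem_range.1 hk))
        _ = (∑ k ∈ range m, c k) * (η * N) := by rw [sum_mul]
        _ ≤ 2 * Λ * (η * N) := mul_le_mul_of_nonneg_right hcs hηN
    linarith
  have g6 := abs_le.1 g5
  rw [abs_le]
  constructor <;> linarith [g6.1, g6.2]

end Pool.Agent.Lib.MP_629a14_nt.Kp.R
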