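import Pool.Agent.Lib.MP_629a14_nt.Kr.StarV
import Pool.Agent.Lib.MP_629a14_nt.Kr.StarM
import Pool.Agent.Lib.MP_629a14_nt.Kr.En
import Pool.Agent.Lib.MP_629a14_nt.Kr.Val

/-! The rearrangement inequality for arbitrary sets of primes. -/

set_option autoImplicit false

namespace Pool.Agent.Lib.MP_629a14_nt.Kp.R

open Finset Filter Topology Pool.Agent.Lib.MP_629a14_nt Pool.Agent.Lib.MP_629a14_nt.Rob

/-- The rearranged set at the level `(W, K)`. -/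
noncomputable def rea (W K N : ℕ) (A : Set ℕ) : Set ℕ := starN W K N (dns A W K N)

/-- A bound for finitely many numbers. -/
theorem bdd_range (f : ℕ → ℕ) (J : ℕ) : ∃ L : ℕ, ∀ j < J, f j ≤ L :=
  ⟨(range J).sup f, fun j hj => le_sup (mem_range.2 hj)⟩

/-- The comparison of the truncated sums and of the means. -/
theorem main_cmp (q H : ℕ) (hq : 1 ≤ q) (hH : 1 ≤ H) (η : ℝ) (hη : 0 < η) (m : ℕ) (t : ℕ → ℝ)
    (ht : ∀ k, 0 ≤ t k) : ∃ L : ℕ, ∀ N : ℕ, L ≤ N → ∀ A B : Set ℕ, ∃ W K : ℕ,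
      1 ≤ W ∧ W ≤ L ∧ 1 ≤ K ∧ K ≤ L ∧ q ∣ W ∧
      (∀ k r : ℕ, k < K → r < W → r.Coprime W →
        |dns (rea W K N A) W K N k r - dns A W K N k r| ≤ η ∧
        |dns (rea W K N B) W K N k r - dns B W K N k r| ≤ η) ∧
      ∀ s : ℕ → ℕ → ℝ, (∀ l c, 0 ≤ s l c ∧ s l c ≤ 1) →
        (∀ k < m, wS W H N s (fun n => min (rho (rea W K N A) (rea W K N B) n) (t k)) ≤
          wS W H N s (fun n => min (rho A B n) (t k)) + η * N) ∧
        |wS W H N s (rho A B) - wS W H N s (rho (rea W K N A) (rea W K N B))| ≤ η * N ∧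
        (∀ k < m, |wS W H N s (fun n => min (rho (rea W K N A) (rea W K N B) n) (t k)) -
          wS W H N s (RT W K N (dns A W K N) (dns B W K N) (t k))| ≤ η * N) ∧
        |wS W H N s (rho (rea W K N A) (rea W K N B)) -
          wS W H N s (Av W K N (dns A W K N) (dns B W K N) (fun _ _ _ u v => u * v))| ≤
            η * N := by
  have hη2 : 0 < η / 2 := by positivity
  obtain ⟨δ, hδ, hb⟩ := both_gen hη2
  -- the parameters as functions of the level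
  have hb' : ∀ W K : ℕ, ∃ R₀ K₂ N₀ : ℕ, 1 ≤ K₂ ∧ (1 ≤ W → 2 ∣ W → 1 ≤ K → ∀ N : ℕ, N₀ ≤ N →
      ∀ A B : Set ℕ, Flat W K (W * R₀.factorial) (K * K₂) N A δ →
      Flat W K (W * R₀.factorial) (K * K₂) N B δ →
      ∀ s : ℕ → ℕ → ℝ, (∀ l c, 0 ≤ s l c ∧ s l c ≤ 1) →
        (∀ t : ℝ, 0 ≤ t → wS W H N s (RT W K N (dns A W K N) (dns B W K N) t) ≤
          wS W H N s (fun n => min (rho A B n) t) + η / 2 * N) ∧
        wS W H N s (rho A B) ≤
          wS W H N s (Av W K N (dns A W K N) (dns B W K N) (fun _ _ _ u v => u * v)) +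
            η / 2 * N) := by
    intro W K
    by_cases h : 1 ≤ W ∧ 2 ∣ W ∧ 1 ≤ K
    · obtain ⟨R₀, K₂, N₀, hK₂, h1⟩ := hb W K H h.1 h.2.1 h.2.2 hH
      exact ⟨R₀, K₂, N₀, hK₂, fun _ _ _ => h1⟩
    · exact ⟨0, 1, 0, le_rfl, fun h1 h2 h3 => absurd ⟨h1, h2, h3⟩ h⟩
  choose R₀ K₂ N₀ hK₂ hboth using hb'
  have hc : ∀ W K k : ℕ, ∃ N₁ : ℕ, 1 ≤ W → 2 ∣ W → 1 ≤ K → ∀ N : ℕ, N₁ ≤ N →
      ∀ a b : ℕ → ℕ → ℝ, (∀ k r, 0 ≤ a k r ∧ a k r ≤ 1) → (∀ k r, 0 ≤ b k r ∧ b k r ≤ 1) →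
      ∀ s : ℕ → ℕ → ℝ, (∀ l c, 0 ≤ s l c ∧ s l c ≤ 1) →
      wS W H N s (fun n => min (rho (starN W K N a) (starN W K N b) n) (t k)) ≤
        wS W H N s (RT W K N a b (t k)) + η / 2 * N := by
    intro W K k
    by_cases h : 1 ≤ W ∧ 2 ∣ W ∧ 1 ≤ K
    · obtain ⟨N₁, h1⟩ := star_cmp W K H h.1 h.2.1 h.2.2 hH (η / 2) hη2 (t k) (ht k)
      exact ⟨N₁, fun _ _ _ => h1⟩
    · exact ⟨0, fun h1 h2 h3 => absurd ⟨h1, h2, h3⟩ h⟩
  choose N₁ hcmp using hc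
  have hd : ∀ W K : ℕ, ∃ N₂ : ℕ, 1 ≤ W → 2 ∣ W → 1 ≤ K → ∀ N : ℕ, N₂ ≤ N →
      ∀ a b : ℕ → ℕ → ℝ, (∀ k r, 0 ≤ a k r ∧ a k r ≤ 1) → (∀ k r, 0 ≤ b k r ∧ b k r ≤ 1) →
      ∀ s : ℕ → ℕ → ℝ, (∀ l c, 0 ≤ s l c ∧ s l c ≤ 1) →
      |wS W H N s (rho (starN W K N a) (starN W K N b)) -
        wS W H N s (Av W K N a b (fun _ _ _ u v => u * v))| ≤ η / 2 * N := by
    intro W K
    by_cases h : 1 ≤ W ∧ 2 ∣ W ∧ 1 ≤ K
    · obtain ⟨N₂, h1⟩ := star_mean W K H h.1 h.2.1 h.2.2 hH (η / 2) hη2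
      exact ⟨N₂, fun _ _ _ => h1⟩
    · exact ⟨0, fun h1 h2 h3 => absurd ⟨h1, h2, h3⟩ h⟩
  choose N₂ hmean using hd
  have he : ∀ W K : ℕ, ∃ N₄ : ℕ, 1 ≤ W → 1 ≤ K → ∀ N : ℕ, N₄ ≤ N →
      ∀ a : ℕ → ℕ → ℝ, (∀ k r, 0 ≤ a k r ∧ a k r ≤ 1) →
      ∀ k r : ℕ, k < K → r < W → r.Coprime W →
      |dns (starN W K N a) W K N k r - a k r| ≤ η := by
    intro W K
    by_cases h : 1 ≤ W ∧ 1 ≤ K
    · obtain ⟨N₄, h1⟩ := star_dns0 W K h.1 h.2 η hη
      exact ⟨N₄, fun _ _ => h1⟩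
    · exact ⟨0, fun h1 h2 => absurd ⟨h1, h2⟩ h⟩
  choose N₄ hdens using he
  have hg : ∀ W K : ℕ, ∃ N₅ : ℕ, 1 ≤ W → 2 ∣ W → 1 ≤ K → ∀ N : ℕ, N₅ ≤ N →
      ∀ a b : ℕ → ℕ → ℝ, (∀ k r, 0 ≤ a k r ∧ a k r ≤ 1) → (∀ k r, 0 ≤ b k r ∧ b k r ≤ 1) →
      ∀ s : ℕ → ℕ → ℝ, (∀ l c, 0 ≤ s l c ∧ s l c ≤ 1) → ∀ t : ℝ, 0 ≤ t →
      wS W H N s (RT W K N a b t) ≤
        wS W H N s (fun n => min (rho (starN W K N a) (starN W K N b) n) t) + η * N := by
    intro W K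
    by_cases h : 1 ≤ W ∧ 2 ∣ W ∧ 1 ≤ K
    · obtain ⟨N₅, h1⟩ := star_low W K H h.1 h.2.1 h.2.2 hH η hη
      exact ⟨N₅, fun _ _ _ => h1⟩
    · exact ⟨0, fun h1 h2 h3 => absurd ⟨h1, h2, h3⟩ h⟩
  choose N₅ hslow using hg
  obtain ⟨J, N₃, hfl⟩ := flat_exists hδ
  -- the chain of levels
  obtain ⟨F, hF⟩ : ∃ F : ℕ → ℕ × ℕ, F = fun j => Nat.rec (2 * q, 1)
    (fun _ P => (P.1 * (R₀ P.1 P.2).factorial, P.2 * K₂ P.1 P.2)) j := ⟨_, rfl⟩
  have hF0 : F 0 = (2 * q, 1) := by subst hF; rfl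
  have hF1 : ∀ j, F (j + 1) = ((F j).1 * (R₀ (F j).1 (F j).2).factorial,
      (F j).2 * K₂ (F j).1 (F j).2) := by
    intro j
    subst hF
    rfl
  have hFp : ∀ j, 1 ≤ (F j).1 ∧ 1 ≤ (F j).2 ∧ 2 * q ∣ (F j).1 := by
    intro j
    induction j with
    | zero => rw [hF0]; exact ⟨by omega, le_rfl, dvd_rfl⟩
    | succ j ih =>
      rw [hF1]
      exact ⟨Nat.mul_pos ih.1 (Nat.factorial_pos _), Nat.mul_pos ih.2.1 (hK₂ _ _),
        ih.2.2.mul_right _⟩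
  have hFd : ∀ j, 1 ≤ (F j).1 ∧ 1 ≤ (F j).2 ∧ (F j).1 ∣ (F (j + 1)).1 ∧
      (F j).2 ∣ (F (j + 1)).2 := by
    intro j
    refine ⟨(hFp j).1, (hFp j).2.1, ?_, ?_⟩
    · rw [hF1]
      exact Dvd.intro _ rfl
    · rw [hF1]
      exact Dvd.intro _ rfl
  obtain ⟨L₁, hL₁⟩ := bdd_range (fun j => (F j).1) J
  obtain ⟨L₂, hL₂⟩ := bdd_range (fun j => (F j).2) J
  obtain ⟨L₃, hL₃⟩ := bdd_range (fun j => N₀ (F j).1 (F j).2) J
  obtain ⟨L₄, hL₄⟩ := bdd_range (fun j => N₂ (F j).1 (F j).2) J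
  obtain ⟨L₅, hL₅⟩ := bdd_range (fun j => (range m).sup (N₁ (F j).1 (F j).2)) J
  obtain ⟨L₆, hL₆⟩ := bdd_range (fun j => N₄ (F j).1 (F j).2) J
  obtain ⟨L₇, hL₇⟩ := bdd_range (fun j => N₅ (F j).1 (F j).2) J
  refine ⟨L₁ + L₂ + L₃ + L₄ + L₅ + L₆ + L₇ + N₃, fun N hN A B => ?_⟩
  obtain ⟨j, hj, hfA, hfB⟩ := hfl F hFd N (by omega) A B
  obtain ⟨hp1, hp2, hp3⟩ := hFp j
  obtain ⟨W, hW⟩ : ∃ W : ℕ, W = (F j).1 := ⟨_, rfl⟩
  obtain ⟨K, hK⟩ : ∃ K : ℕ, K = (F j).2 := ⟨_, rfl⟩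
  have hj1 := hL₁ j hj
  have hj2 := hL₂ j hj
  have hj3 := hL₃ j hj
  have hj4 := hL₄ j hj
  have hj5 := hL₅ j hj
  have hj6 := hL₆ j hj
  have hj7 := hL₇ j hj
  rw [hF1] at hfA hfB
  rw [← hW, ← hK] at hfA hfB hj3 hj4 hj5 hj6 hj7
  rw [← hW] at hp1 hp3 hj1
  rw [← hK] at hp2 hj2
  have hW2 : 2 ∣ W := (Dvd.intro _ rfl).trans hp3
  refine ⟨W, K, hp1, by omega, hp2, by omega, (Dvd.intro_left _ rfl).trans hp3,
    fun k r hk hr hrc => ⟨hdens W K hp1 hp2 N (by omega) _ (fun k r => dns_mem A W K N k r) k r hk hr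
      hrc, hdens W K hp1 hp2 N (by omega) _ (fun k r => dns_mem B W K N k r) k r hk hr hrc⟩,
    fun s hs => ?_⟩
  have hN' : (0 : ℝ) ≤ N := Nat.cast_nonneg N
  obtain ⟨h1, h2⟩ := hboth W K hp1 hW2 hp2 N (by omega) A B hfA hfB s hs
  have hm := hmean W K hp1 hW2 hp2 N (by omega) (dns A W K N) (dns B W K N)
    (fun k r => dns_mem A W K N k r) (fun k r => dns_mem B W K N k r) s hs
  have hkN : ∀ k < m, N₁ W K k ≤ N := by
    intro k hk
    have : N₁ W K k ≤ (range m).sup (N₁ W K) := le_sup (mem_range.2 hk)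
    omega
  have hηN : 0 ≤ η * N := by positivity
  have h3 : ∀ k < m, wS W H N s (fun n => min (rho (rea W K N A) (rea W K N B) n) (t k)) ≤
      wS W H N s (RT W K N (dns A W K N) (dns B W K N) (t k)) + η / 2 * N := fun k hk =>
    hcmp W K k hp1 hW2 hp2 N (hkN k hk) (dns A W K N) (dns B W K N)
      (fun k r => dns_mem A W K N k r) (fun k r => dns_mem B W K N k r) s hs
  refine ⟨fun k hk => ?_, ?_, fun k hk => ?_, ?_⟩
  · have h4 := h1 (t k) (ht k)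
    have h5 := h3 k hk
    linarith
  · have h3 := h1 1 zero_le_one
    have h4 : wS W H N s (RT W K N (dns A W K N) (dns B W K N) 1) =
        wS W H N s (Av W K N (dns A W K N) (dns B W K N) (fun _ _ _ u v => u * v)) := by
      unfold wS
      refine sum_congr rfl fun n _ => ?_
      rw [rt_large (fun k r => dns_mem _ W K N k r) (fun k r => dns_mem _ W K N k r) le_rfl]
    have h5 : wS W H N s (fun n => min (rho A B n) 1) ≤ wS W H N s (rho A B) :=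
      wS_mono (fun l c => (hs l c).1) fun n _ _ _ => min_le_left _ _
    rw [abs_le] at hm ⊢
    unfold rea
    constructor <;> linarith
  · have h4 := h3 k hk
    have h5 := hslow W K hp1 hW2 hp2 N (by omega) (dns A W K N) (dns B W K N)
      (fun k r => dns_mem A W K N k r) (fun k r => dns_mem B W K N k r) s hs (t k) (ht k)
    rw [abs_le]
    unfold rea at h4 ⊢
    constructor <;> linarith
  · unfold rea
    refine hm.trans ?_
    linarith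

/-- The weighted form of the inequality. -/
theorem main_wS (q H : ℕ) (hq : 1 ≤ q) (hH : 1 ≤ H) {C : ℝ} (hC1 : 1 ≤ C)
    (hC' : ∀ (A B : Set ℕ) (n : ℕ), rho A B n ≤ C) (ε : ℝ) (hε : 0 < ε) :
    ∃ L : ℕ, ∀ N : ℕ, L ≤ N → ∀ A B : Set ℕ, ∃ W K : ℕ,
      1 ≤ W ∧ W ≤ L ∧ 1 ≤ K ∧ K ≤ L ∧ q ∣ W ∧
      (∀ k r : ℕ, k < K → r < W → r.Coprime W →
        |dns (rea W K N A) W K N k r - dns A W K N k r| ≤ ε ∧
        |dns (rea W K N B) W K N k r - dns B W K N k r| ≤ ε) ∧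
      ∀ s : ℕ → ℕ → ℝ, (∀ l c, 0 ≤ s l c ∧ s l c ≤ 1) → ∀ (φ : ℝ → ℝ) (Λ : ℝ),
        ConvexOn ℝ (Set.Icc 0 C) φ →
        (∀ x ∈ Set.Icc 0 C, ∀ y ∈ Set.Icc 0 C, |φ x - φ y| ≤ Λ * |x - y|) →
        wS W H N s (fun n => φ (rho A B n)) ≤
          wS W H N s (fun n => φ (rho (rea W K N A) (rea W K N B) n)) + Λ * ε * N ∧
        |wS W H N s (fun n => φ (rho (rea W K N A) (rea W K N B) n)) -
          wS W H N s (Val W K N (dns A W K N) (dns B W K N) φ)| ≤ Λ * ε * N := by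
  have hC : 0 < C := lt_of_lt_of_le one_pos hC1
  obtain ⟨m, t, ht, happ⟩ := approx_unif hC (ε := ε / 2) (by positivity)
  obtain ⟨L, hL⟩ := main_cmp q H hq hH (ε / 8) (by positivity) m t ht
  refine ⟨L, fun N hN A B => ?_⟩
  obtain ⟨W, K, h1, h2, h3, h4, h5, hd, h6⟩ := hL N hN A B
  refine ⟨W, K, h1, h2, h3, h4, h5, fun k r hk hr hrc => ?_, fun s hs φ Λ hφ hΛ => ?_⟩
  · obtain ⟨e1, e2⟩ := hd k r hk hr hrc
    exact ⟨e1.trans (by linarith), e2.trans (by linarith)⟩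
  obtain ⟨h7, h8, h9, h10⟩ := h6 s hs
  obtain ⟨σ, c, hσ, hc, hcs, happ⟩ := happ φ Λ hφ hΛ
  have hN' : (0 : ℝ) ≤ N := Nat.cast_nonneg N
  have hΛ0 : 0 ≤ Λ := (abs_nonneg _).trans hσ
  -- the approximation
  have hA : ∀ A B : Set ℕ, wS W H N s (fun n => φ 0 + σ * rho A B n -
      ∑ k ∈ range m, c k * min (rho A B n) (t k)) = wS W H N s (fun _ => φ 0) +
      σ * wS W H N s (rho A B) -
        ∑ k ∈ range m, c k * wS W H N s (fun n => min (rho A B n) (t k)) := by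
    intro A B
    rw [wS_sub (fun n => φ 0 + σ * rho A B n), wS_add, wS_mul, wS_sum]
    simp only [wS_mul]
  have g1 : wS W H N s (fun n => φ (rho A B n)) ≤ wS W H N s (fun n => φ 0 +
      σ * rho A B n - ∑ k ∈ range m, c k * min (rho A B n) (t k)) :=
    wS_mono (fun l c => (hs l c).1) fun n _ _ _ =>
      (happ _ (rho_nonneg A B n) (hC' A B n)).1
  have g2 := wS_abs (W := W) (H := H) (N := N) hs (F := fun n => φ 0 +
      σ * rho (rea W K N A) (rea W K N B) n - ∑ k ∈ range m,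
        c k * min (rho (rea W K N A) (rea W K N B) n) (t k))
    (G := fun n => φ (rho (rea W K N A) (rea W K N B) n)) (C := Λ * (ε / 2)) (by positivity)
    fun n _ _ _ => (happ _ (rho_nonneg _ _ n) (hC' _ _ n)).2
  rw [hA] at g1 g2
  have hηN : 0 ≤ ε / 8 * N := by positivity
  have g3 : σ * wS W H N s (rho A B) ≤
      σ * wS W H N s (rho (rea W K N A) (rea W K N B)) + Λ * (ε / 8 * N) := by
    have e2 : σ * (wS W H N s (rho A B) - wS W H N s (rho (rea W K N A) (rea W K N B))) ≤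
        Λ * (ε / 8 * N) := by
      refine (le_abs_self _).trans ?_
      rw [abs_mul]
      exact mul_le_mul hσ h8 (abs_nonneg _) hΛ0
    linarith
  have g4 : ∑ k ∈ range m, c k * wS W H N s (fun n =>
      min (rho (rea W K N A) (rea W K N B) n) (t k)) ≤
      ∑ k ∈ range m, c k * wS W H N s (fun n => min (rho A B n) (t k)) +
        (∑ k ∈ range m, c k) * (ε / 8 * N) := by
    rw [sum_mul, ← sum_add_distrib]
    refine sum_le_sum fun k hk => ?_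
    rw [← mul_add]
    exact mul_le_mul_of_nonneg_left (h7 k (mem_range.1 hk)) (hc k (mem_range.1 hk))
  have g5 : (∑ k ∈ range m, c k) * (ε / 8 * N) ≤ 2 * Λ * (ε / 8 * N) :=
    mul_le_mul_of_nonneg_right hcs hηN
  have g6 : 0 ≤ Λ * (ε / 8 * N) := mul_nonneg hΛ0 hηN
  refine ⟨by linarith, ?_⟩
  have g7 := val_cmp (fun k r => dns_mem A W K N k r) (fun k r => dns_mem B W K N k r) hs hC1 hC'
    (rea W K N A) (rea W K N B) h9 h10 hΛ hσ hc hcs (e := Λ * (ε / 2)) (by positivity) happ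
  refine g7.trans ?_
  have g8 : (Λ * (ε / 2) + 3 * Λ * (ε / 8)) * N ≤ Λ * ε * N := by
    refine mul_le_mul_of_nonneg_right ?_ hN'
    have : 0 ≤ Λ * ε := by positivity
    linarith
  exact g8

/-- The number of the integers in a cell. -/
theorem cell_card {H N l : ℕ} (hH : 1 ≤ H) :
    (((range (N + 1)).filter (fun n => cell H N n = l)).card : ℝ) ≤ (N + 1) / H + 1 := by
  have hH0 : (0 : ℝ) < H := by exact_mod_cast hH
  rcases ((range (N + 1)).filter (fun n => cell H N n = l)).eq_empty_or_nonempty with h0 | h0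
  · rw [h0]
    simp
    positivity
  · obtain ⟨a, ha, ha'⟩ := exists_min_image _ id h0
    obtain ⟨b, hb, hb'⟩ := exists_max_image _ id h0
    simp only [id] at ha' hb'
    have hab : a ≤ b := ha' b hb
    have h1 := cell_len hH hab ((mem_filter.1 ha).2.trans (mem_filter.1 hb).2.symm)
    have h2 : ((range (N + 1)).filter (fun n => cell H N n = l)).card ≤ b - a + 1 := by
      refine (card_le_card (t := Icc a b) fun n hn => mem_Icc.2 ⟨ha' n hn, hb' n hn⟩).trans ?_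
      rw [Nat.card_Icc]
      omega
    have h3 : (((range (N + 1)).filter (fun n => cell H N n = l)).card : ℝ) ≤ (b : ℝ) - a + 1 := by
      rw [← Nat.cast_sub hab]
      exact_mod_cast h2
    linarith

open Classical in
/-- The weights for a class and an interval. -/
noncomputable def wt (H N q c M₁ M₂ : ℕ) : ℕ → ℕ → ℝ := fun l r =>
  if r % q = c % q ∧ ∀ n, cell H N n = l → M₁ ≤ n ∧ n ≤ M₂ then 1 else 0

/-- The sum over the pieces inside an interval is close to the sum over the interval. -/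
theorem sum_close {W H N q : ℕ} (hH : 1 ≤ H) (hqW : q ∣ W) (F : ℕ → ℝ) {M : ℝ}
    (hF : ∀ n, |F n| ≤ M) (c M₁ M₂ : ℕ) (hM : M₂ ≤ N) :
    |∑ n ∈ (Icc M₁ M₂).filter (fun n => Even n ∧ n ≡ c [MOD q]), F n -
      wS W H N (wt H N q c M₁ M₂) F| ≤ M * (2 * ((N + 1) / H + 1) + 1) := by
  classical
  obtain ⟨S, hS⟩ : ∃ S : Finset ℕ, S = (Icc M₁ M₂).filter (fun n => Even n ∧ n ≡ c [MOD q]) :=
    ⟨_, rfl⟩
  obtain ⟨S', hS'⟩ : ∃ S' : Finset ℕ, S' = (Icc 1 N).filter (fun n => Even n ∧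
    (n % W % q = c % q ∧ ∀ n', cell H N n' = cell H N n → M₁ ≤ n' ∧ n' ≤ M₂)) := ⟨_, rfl⟩
  have hM0 : 0 ≤ M := (abs_nonneg _).trans (hF 0)
  have h1 : wS W H N (wt H N q c M₁ M₂) F = ∑ n ∈ S', F n := by
    rw [hS', sum_filter]
    unfold wS wt
    rw [sum_filter]
    refine sum_congr rfl fun n _ => ?_
    by_cases g1 : Even n <;>
      by_cases g2 : n % W % q = c % q ∧ ∀ n', cell H N n' = cell H N n → M₁ ≤ n' ∧ n' ≤ M₂
    · rw [if_pos g1, if_pos g2, if_pos ⟨g1, g2⟩, one_mul]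
    · rw [if_pos g1, if_neg g2, if_neg (fun h => g2 h.2), zero_mul]
    · rw [if_neg g1, if_neg (fun h => g1 h.1)]
    · rw [if_neg g1, if_neg (fun h => g1 h.1)]
  have hsub : S' ⊆ S := by
    intro n hn
    rw [hS', mem_filter] at hn
    rw [hS, mem_filter, mem_Icc]
    refine ⟨hn.2.2.2 n rfl, hn.2.1, ?_⟩
    unfold Nat.ModEq
    rw [← hn.2.2.1, Nat.mod_mod_of_dvd n hqW]
  have hdiff : S \ S' ⊆ {0} ∪ ((range (N + 1)).filter (fun n => cell H N n = cell H N M₁) ∪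
      (range (N + 1)).filter (fun n => cell H N n = cell H N M₂)) := by
    intro n hn
    rw [Finset.mem_sdiff, hS, mem_filter, mem_Icc, hS', mem_filter, mem_Icc] at hn
    obtain ⟨⟨hn1, hn2, hn3⟩, hn4⟩ := hn
    rw [mem_union, mem_singleton, mem_union, mem_filter, mem_filter, mem_range]
    by_cases h0 : n = 0
    · exact Or.inl h0
    · right
      have h2 : n % W % q = c % q := by
        rw [Nat.mod_mod_of_dvd n hqW]
        exact hn3
      have h3 : ¬ ∀ n', cell H N n' = cell H N n → M₁ ≤ n' ∧ n' ≤ M₂ := fun h =>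
        hn4 ⟨⟨by omega, by omega⟩, hn2, h2, h⟩
      push Not at h3
      obtain ⟨n', h4, h5⟩ := h3
      by_cases h6 : M₁ ≤ n'
      · right
        refine ⟨by omega, ?_⟩
        have h7 : cell H N M₂ ≤ cell H N n' := cell_mono (h5 h6).le
        have h8 : cell H N n ≤ cell H N M₂ := cell_mono hn1.2
        omega
      · left
        refine ⟨by omega, ?_⟩
        have h7 : cell H N n' ≤ cell H N M₁ := cell_mono (by omega)
        have h8 : cell H N M₁ ≤ cell H N n := cell_mono hn1.1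
        omega
  have hcard : ((S \ S').card : ℝ) ≤ 2 * ((N + 1) / H + 1) + 1 := by
    have h2 : (S \ S').card ≤ 1 + (((range (N + 1)).filter
        (fun n => cell H N n = cell H N M₁)).card +
        ((range (N + 1)).filter (fun n => cell H N n = cell H N M₂)).card) := by
      refine (card_le_card hdiff).trans ((card_union_le _ _).trans ?_)
      rw [card_singleton]
      exact Nat.add_le_add_left (card_union_le _ _) 1
    have h3 : ((S \ S').card : ℝ) ≤ 1 + ((((range (N + 1)).filter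
        (fun n => cell H N n = cell H N M₁)).card : ℝ) +
        (((range (N + 1)).filter (fun n => cell H N n = cell H N M₂)).card : ℝ)) := by
      exact_mod_cast h2
    have h4 := cell_card (N := N) (l := cell H N M₁) hH
    have h5 := cell_card (N := N) (l := cell H N M₂) hH
    linarith
  rw [h1, ← hS, ← sum_sdiff hsub, add_sub_cancel_right]
  refine (abs_sum_le_sum_abs _ _).trans ?_
  calc ∑ n ∈ S \ S', |F n| ≤ ∑ _n ∈ S \ S', M := sum_le_sum fun n _ => hF n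
    _ = M * (S \ S').card := by rw [sum_const, nsmul_eq_mul, mul_comm]
    _ ≤ _ := mul_le_mul_of_nonneg_left hcard hM0

/-- The rearrangement inequality for arbitrary sets of primes. -/
theorem main : ∃ C : ℝ, 0 < C ∧ (∀ (A B : Set ℕ) (n : ℕ), rho A B n ≤ C) ∧
    ∀ q : ℕ, 1 ≤ q → ∀ ε : ℝ, 0 < ε → ∃ L : ℕ, ∀ N : ℕ, L ≤ N → ∀ A B : Set ℕ, ∃ W K : ℕ,
      1 ≤ W ∧ W ≤ L ∧ 1 ≤ K ∧ K ≤ L ∧ q ∣ W ∧
      (∀ k r : ℕ, k < K → r < W → r.Coprime W →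
        |dns (rea W K N A) W K N k r - dns A W K N k r| ≤ ε ∧
        |dns (rea W K N B) W K N k r - dns B W K N k r| ≤ ε) ∧
      ∀ (φ : ℝ → ℝ) (Λ : ℝ), ConvexOn ℝ (Set.Icc 0 C) φ →
        (∀ x ∈ Set.Icc 0 C, ∀ y ∈ Set.Icc 0 C, |φ x - φ y| ≤ Λ * |x - y|) →
        ∀ c M₁ M₂ : ℕ, M₂ ≤ N →
          ∑ n ∈ (Icc M₁ M₂).filter (fun n => Even n ∧ n ≡ c [MOD q]), φ (rho A B n) ≤
            ∑ n ∈ (Icc M₁ M₂).filter (fun n => Even n ∧ n ≡ c [MOD q]),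
              φ (rho (rea W K N A) (rea W K N B) n) + Λ * ε * N ∧
          |∑ n ∈ (Icc M₁ M₂).filter (fun n => Even n ∧ n ≡ c [MOD q]),
              φ (rho (rea W K N A) (rea W K N B) n) -
            ∑ n ∈ (Icc M₁ M₂).filter (fun n => Even n ∧ n ≡ c [MOD q]),
              Val W K N (dns A W K N) (dns B W K N) φ n| ≤ Λ * ε * N := by
  classical
  obtain ⟨C₀, hC₀, hC₀'⟩ := rho_le'
  obtain ⟨C, hCe⟩ : ∃ C : ℝ, C = max C₀ 1 := ⟨_, rfl⟩
  have hC1 : 1 ≤ C := by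
    rw [hCe]
    exact le_max_right _ _
  have hC : 0 < C := lt_of_lt_of_le one_pos hC1
  have hC' : ∀ (A B : Set ℕ) (n : ℕ), rho A B n ≤ C := fun A B n => by
    rw [hCe]
    exact (hC₀' A B n).trans (le_max_left _ _)
  refine ⟨C, hC, hC', fun q hq ε hε => ?_⟩
  obtain ⟨H, hH⟩ := exists_nat_gt (32 * (C + 1) / ε)
  have hH0 : (0 : ℝ) < H := lt_trans (by positivity) hH
  have hH1 : 1 ≤ H := by exact_mod_cast hH0
  obtain ⟨L₁, hL₁⟩ := main_wS q H hq hH1 hC1 hC' (ε / 2) (by positivity)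
  obtain ⟨L₂, hL₂⟩ := exists_nat_gt (32 * (C + 1) / ε)
  refine ⟨max L₁ (max L₂ 1), fun N hN A B => ?_⟩
  have hNa : L₁ ≤ N := (le_max_left _ _).trans hN
  have hNb : L₂ ≤ N := (le_max_left _ _).trans ((le_max_right _ _).trans hN)
  have hNc : 1 ≤ N := (le_max_right _ _).trans ((le_max_right _ _).trans hN)
  obtain ⟨W, K, h1, h2, h3, h4, h5, hd, h6⟩ := hL₁ N hNa A B
  refine ⟨W, K, h1, h2.trans (le_max_left _ _), h3, h4.trans (le_max_left _ _), h5,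
    fun k r hk hr hrc => ?_, fun φ Λ hφ hΛ c M₁ M₂ hM₂ => ?_⟩
  · obtain ⟨e1, e2⟩ := hd k r hk hr hrc
    exact ⟨e1.trans (by linarith), e2.trans (by linarith)⟩
  have hΛ0 : 0 ≤ Λ := by
    have e1 := hΛ 0 ⟨le_rfl, hC.le⟩ C ⟨hC.le, le_rfl⟩
    rw [zero_sub, abs_neg, abs_of_pos hC] at e1
    have e2 := (abs_nonneg _).trans e1
    by_contra e3
    push Not at e3
    nlinarith
  have hs : ∀ l r, 0 ≤ wt H N q c M₁ M₂ l r ∧ wt H N q c M₁ M₂ l r ≤ 1 := by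
    intro l r
    unfold wt
    split_ifs <;> norm_num
  obtain ⟨g1, g1'⟩ := h6 (wt H N q c M₁ M₂) hs φ Λ hφ hΛ
  have hb : ∀ A B : Set ℕ, ∀ n, |φ (rho A B n) - φ 0| ≤ Λ * C := fun A B n => by
    refine (hΛ _ ⟨rho_nonneg A B n, hC' A B n⟩ 0 ⟨le_rfl, hC.le⟩).trans ?_
    rw [sub_zero, abs_of_nonneg (rho_nonneg A B n)]
    exact mul_le_mul_of_nonneg_left (hC' A B n) hΛ0
  have g2 := (abs_le.1 (sum_close (W := W) hH1 h5 (fun n => φ (rho A B n) - φ 0) (hb A B) c M₁ M₂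
    hM₂)).2
  have g3 := (abs_le.1 (sum_close (W := W) hH1 h5
    (fun n => φ (rho (rea W K N A) (rea W K N B) n) - φ 0) (hb _ _) c M₁ M₂ hM₂)).1
  have g3' := (abs_le.1 (sum_close (W := W) hH1 h5
    (fun n => φ (rho (rea W K N A) (rea W K N B) n) - φ 0) (hb _ _) c M₁ M₂ hM₂)).2
  have hb' : ∀ n, |Val W K N (dns A W K N) (dns B W K N) φ n - φ 0| ≤ Λ * C := fun n =>
    val_bdd (fun k r => dns_mem A W K N k r) (fun k r => dns_mem B W K N k r) hC1 hΛ0 hΛ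
  have g9 := abs_le.1 (sum_close (W := W) hH1 h5
    (fun n => Val W K N (dns A W K N) (dns B W K N) φ n - φ 0) hb' c M₁ M₂ hM₂)
  obtain ⟨g9, g9'⟩ := g9
  rw [wS_sub, sum_sub_distrib] at g2 g3 g3' g9 g9'
  have hNr : (1 : ℝ) ≤ N := by exact_mod_cast hNc
  have g4 : C * (2 * (((N : ℝ) + 1) / H + 1) + 1) ≤ ε / 4 * N := by
    have e1 : (C + 1) / H ≤ ε / 32 := by
      rw [div_le_iff₀ hH0]
      rw [div_lt_iff₀ hε] at hH
      linarith
    have e2 : C + 1 ≤ ε / 32 * N := by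
      have e3 : (L₂ : ℝ) ≤ N := by exact_mod_cast hNb
      rw [div_lt_iff₀ hε] at hL₂
      nlinarith
    have e3 : C * (((N : ℝ) + 1) / H) ≤ ε / 16 * N := by
      calc C * (((N : ℝ) + 1) / H) = C / H * (N + 1) := by ring
        _ ≤ (C + 1) / H * (N + 1) := by gcongr; linarith
        _ ≤ ε / 32 * (N + 1) := mul_le_mul_of_nonneg_right e1 (by positivity)
        _ ≤ ε / 16 * N := by nlinarith
    have e4 : C * (2 * (((N : ℝ) + 1) / H + 1) + 1) =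
        2 * (C * (((N : ℝ) + 1) / H)) + 3 * C := by ring
    rw [e4]
    linarith
  have g5 := mul_le_mul_of_nonneg_left g4 hΛ0
  refine ⟨by linarith, ?_⟩
  rw [abs_le] at g1' ⊢
  obtain ⟨g10, g11⟩ := g1'
  have e5 : ∀ x : ℝ, wS W H N (wt H N q c M₁ M₂) (fun n => x) =
      wS W H N (wt H N q c M₁ M₂) (fun _ => x) := fun _ => rfl
  constructor <;> linarith

end Pool.Agent.Lib.MP_629a14_nt.Kp.R
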