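import Pool.Agent.Lib.MP_629a14_nt.Kr.Cell
import Pool.Agent.Lib.MP_629a14_nt.Kp.PfDens

/-! The number of elements of a set of primes in an interval, in terms of the fine densities. -/

set_option autoImplicit false

namespace Pool.Agent.Lib.MP_629a14_nt.Kp.R

open Finset Filter Topology Pool.Agent.Lib.MP_629a14_nt Pool.Agent.Lib.MP_629a14_nt.Rob

private theorem Fine_cellc_le (A : Set ℕ) (W K N k r : ℕ) :
    cellc A W K N k r ≤ cellc Set.univ W K N k r := by
  classical
  unfold cellc
  refine card_le_card fun p hp => ?_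
  simp only [mem_filter, Set.mem_univ, true_and] at hp ⊢
  exact ⟨hp.1, hp.2.1, hp.2.2.2⟩

private theorem Fine_dnp (A : Set ℕ) (W K N p : ℕ) :
    0 ≤ dnp A W K N p ∧ dnp A W K N p ≤ 1 := by
  unfold dnp dns
  refine ⟨by positivity, ?_⟩
  refine div_le_one_of_le₀ ?_ (Nat.cast_nonneg _)
  exact_mod_cast Fine_cellc_le A W K N _ _

open Classical in
/-- the deviation of the indicator function from the density -/
private noncomputable def Fine_g (A : Set ℕ) (W K N p : ℕ) : ℝ :=
  (if p ∈ A then 1 else 0) - dnp A W K N p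

private theorem Fine_g_abs (A : Set ℕ) (W K N p : ℕ) : |Fine_g A W K N p| ≤ 1 := by
  obtain ⟨h1, h2⟩ := Fine_dnp A W K N p
  unfold Fine_g
  rw [abs_le]
  split_ifs
  · exact ⟨by linarith, by linarith⟩
  · exact ⟨by linarith, by linarith⟩

/-- the sum over a cell and a class vanishes -/
private theorem Fine_cell_sum (A : Set ℕ) (W K N k r : ℕ) :
    ∑ p ∈ (Icc 1 N).filter (fun p => p.Prime ∧ cell K N p = k ∧ p % W = r),
      Fine_g A W K N p = 0 := by
  classical
  have e1 : ∀ p ∈ (Icc 1 N).filter (fun p => p.Prime ∧ cell K N p = k ∧ p % W = r),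
      Fine_g A W K N p = (if p ∈ A then 1 else 0) - dns A W K N k r := by
    intro p hp
    rw [mem_filter] at hp
    unfold Fine_g dnp
    rw [hp.2.2.1, hp.2.2.2]
  rw [sum_congr rfl e1, sum_sub_distrib, sum_const, nsmul_eq_mul]
  have e2 : (∑ p ∈ (Icc 1 N).filter (fun p => p.Prime ∧ cell K N p = k ∧ p % W = r),
      (if p ∈ A then (1 : ℝ) else 0)) = cellc A W K N k r := by
    rw [← sum_filter, sum_const, nsmul_eq_mul, mul_one, filter_filter]
    unfold cellc
    congr 2
    ext p
    simp only [mem_filter]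
    tauto
  have e3 : (((Icc 1 N).filter (fun p => p.Prime ∧ cell K N p = k ∧ p % W = r)).card : ℝ) =
      cellc Set.univ W K N k r := by
    unfold cellc
    congr 2
    ext p
    simp only [mem_filter, Set.mem_univ, true_and]
  rw [e2, e3]
  unfold dns
  rcases Nat.eq_zero_or_pos (cellc Set.univ W K N k r) with h | h
  · have h2 := Fine_cellc_le A W K N k r
    have h3 : cellc A W K N k r = 0 := by omega
    rw [h, h3]
    simp
  · have h2 : (cellc Set.univ W K N k r : ℝ) ≠ 0 := by exact_mod_cast h.ne'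
    field_simp
    ring

/-- the count as a sum -/
private theorem Fine_cnt (A : Set ℕ) {N R : ℕ} {x y : ℤ} (h1 : 1 ≤ x) (h3 : y ≤ N + 1) (b : ℤ) :
    (cntI A R x y b : ℝ) =
      ∑ p ∈ pI N R x y b, (Fine_g A 1 1 N p + dnp A 1 1 N p) := by
  classical
  have e1 : ∀ p ∈ pI N R x y b, Fine_g A 1 1 N p + dnp A 1 1 N p =
      if p ∈ A then (1 : ℝ) else 0 := by
    intro p _
    unfold Fine_g
    ring
  rw [sum_congr rfl e1, ← sum_filter, sum_const, nsmul_eq_mul, mul_one]
  unfold cntI pI
  congr 2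
  ext p
  simp only [mem_filter, mem_range, mem_Icc]
  constructor
  · rintro ⟨h4, h5, h6, h7, h8⟩
    exact ⟨⟨⟨h5.one_le, by omega⟩, h5, h7, by omega, h8⟩, h6⟩
  · rintro ⟨⟨⟨h4, h5⟩, h6, h7, h8, h9⟩, h10⟩
    exact ⟨by omega, h6, h10, h7, h9⟩

/-- the difference as a sum over the boundary cells -/
private theorem Fine_diff (A : Set ℕ) {W' K' N R : ℕ} (hR : R ∣ W') {x y : ℤ}
    (h1 : 1 ≤ x) (h2 : x ≤ y) (h3 : y ≤ N + 1) (b : ℤ) :
    (cntI A R x y b : ℝ) - ∑ p ∈ pI N R x y b, dnp A W' K' N p =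
      ∑ p ∈ (pI N R x y b).filter (fun p => cell K' N p = cell K' N x.toNat ∨
        cell K' N p = cell K' N y.toNat), Fine_g A W' K' N p := by
  classical
  rw [Fine_cnt A h1 h3 b, ← sum_sub_distrib]
  have e1 : ∀ p ∈ pI N R x y b, Fine_g A 1 1 N p + dnp A 1 1 N p - dnp A W' K' N p =
      Fine_g A W' K' N p := by
    intro p _
    unfold Fine_g
    ring
  rw [sum_congr rfl e1, ← sum_filter_add_sum_filter_not (pI N R x y b)
    (fun p => cell K' N p = cell K' N x.toNat ∨ cell K' N p = cell K' N y.toNat)]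
  rw [add_eq_left]
  set S := (pI N R x y b).filter (fun p => ¬ (cell K' N p = cell K' N x.toNat ∨
        cell K' N p = cell K' N y.toNat)) with hS
  rw [← sum_fiberwise_of_maps_to (s := S)
    (t := S.image (fun p => (cell K' N p, p % W'))) (g := fun p => (cell K' N p, p % W'))
    (fun p hp => mem_image_of_mem _ hp)]
  refine sum_eq_zero fun q hq => ?_
  rw [mem_image] at hq
  obtain ⟨p0, hp0, rfl⟩ := hq
  have e2 : (S.filter fun p => (cell K' N p, p % W') = (cell K' N p0, p0 % W')) =
      (Icc 1 N).filter (fun p => p.Prime ∧ cell K' N p = cell K' N p0 ∧ p % W' = p0 % W') := by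
    rw [hS] at hp0 ⊢
    unfold pI at hp0 ⊢
    simp only [mem_filter, mem_Icc, not_or] at hp0
    obtain ⟨⟨⟨a1, a2⟩, a3, a4, a5, a6⟩, a7, a8⟩ := hp0
    ext p
    simp only [mem_filter, mem_Icc, not_or, Prod.mk.injEq]
    constructor
    · rintro ⟨⟨⟨b1, b2, b3, b4, b5⟩, b6⟩, b7, b8⟩
      exact ⟨b1, b2, b7, b8⟩
    · rintro ⟨b1, b2, b3, b4⟩
      have c1 : x ≤ (p : ℤ) := by
        by_contra hcon
        have d1 : cell K' N p ≤ cell K' N x.toNat := cell_mono (by omega)
        have d2 : cell K' N x.toNat ≤ cell K' N p0 := cell_mono (by omega)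
        omega
      have c2 : (p : ℤ) < y := by
        by_contra hcon
        have d1 : cell K' N y.toNat ≤ cell K' N p := cell_mono (by omega)
        have d2 : cell K' N p0 ≤ cell K' N y.toNat := cell_mono (by omega)
        omega
      have c3 : (p : ℤ) ≡ b [ZMOD R] := by
        have d1 : p ≡ p0 [MOD W'] := b4
        have d2 : p ≡ p0 [MOD R] := d1.of_dvd hR
        exact (Int.natCast_modEq_iff.2 d2).trans a6
      exact ⟨⟨⟨b1, b2, c1, c2, c3⟩, by rw [b3]; exact ⟨a7, a8⟩⟩, b3, b4⟩
  rw [e2]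
  exact Fine_cell_sum A W' K' N _ _

/-- The fine cells inside `[x, y)` (for the classes modulo `W'`, which refine those modulo `R`)
contribute nothing; at most two cells contain primes inside and outside of `[x, y)`. -/
theorem fine_one {A : Set ℕ} {W' K' N R : ℕ} (hR1 : 1 ≤ R) (hR : R ∣ W') (hW' : 1 ≤ W')
    (hK' : 1 ≤ K') {x y : ℤ} (h1 : 1 ≤ x) (h2 : x ≤ y) (h3 : y ≤ N + 1) {Z : ℝ}
    (hZ : ∀ k : ℕ, Real.log N * (ncell K' N k : ℝ) ≤ Z) :
    ∑ b ∈ range R, |Real.log N * (cntI A R x y b : ℝ) -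
      Real.log N * ∑ p ∈ pI N R x y b, dnp A W' K' N p| ≤ 2 * Z := by
  classical
  have hlog : 0 ≤ Real.log N := Real.log_natCast_nonneg N
  set k1 := cell K' N x.toNat with hk1
  set k2 := cell K' N y.toNat with hk2
  set S := (Icc 1 N).filter (fun p : ℕ => p.Prime ∧ (cell K' N p = k1 ∨ cell K' N p = k2))
    with hS
  have hb : ∀ b ∈ range R, |Real.log N * (cntI A R x y b : ℝ) -
      Real.log N * ∑ p ∈ pI N R x y b, dnp A W' K' N p| ≤
        Real.log N * ((S.filter (fun p => p % R = b)).card : ℝ) := by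
    intro b hb
    rw [← mul_sub, abs_mul, abs_of_nonneg hlog]
    refine mul_le_mul_of_nonneg_left ?_ hlog
    rw [Fine_diff A hR h1 h2 h3]
    refine (abs_sum_le_sum_abs _ _).trans ?_
    refine (sum_le_card_nsmul _ _ 1 fun p _ => Fine_g_abs A W' K' N p).trans ?_
    rw [nsmul_eq_mul, mul_one]
    have hsub : (pI N R x y b).filter (fun p => cell K' N p = cell K' N x.toNat ∨
        cell K' N p = cell K' N y.toNat) ⊆ S.filter (fun p => p % R = b) := by
      intro p hp
      unfold pI at hp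
      simp only [mem_filter] at hp
      obtain ⟨⟨a1, a2, a3, a4, a5⟩, a6⟩ := hp
      rw [hS]
      simp only [mem_filter]
      refine ⟨⟨a1, a2, a6⟩, ?_⟩
      have d1 : p ≡ b [MOD R] := Int.natCast_modEq_iff.1 a5
      have d2 : p % R = b % R := d1
      rw [d2, Nat.mod_eq_of_lt (mem_range.1 hb)]
    exact_mod_cast card_le_card hsub
  refine (sum_le_sum hb).trans ?_
  rw [← mul_sum]
  have hcard : (∑ b ∈ range R, ((S.filter (fun p => p % R = b)).card : ℝ)) = (S.card : ℝ) := by
    have h := card_eq_sum_card_fiberwise (s := S) (t := range R) (f := fun p => p % R)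
      (fun p _ => by
        simp only [coe_range, Set.mem_Iio]
        exact Nat.mod_lt p (by omega))
    rw [h]
    push_cast
    rfl
  rw [hcard]
  have hS2 : (S.card : ℝ) ≤ ncell K' N k1 + ncell K' N k2 := by
    have hsub : S ⊆ ((Icc 1 N).filter (fun p => p.Prime ∧ cell K' N p = k1)) ∪
        ((Icc 1 N).filter (fun p => p.Prime ∧ cell K' N p = k2)) := by
      intro p hp
      rw [hS] at hp
      simp only [mem_union, mem_filter] at hp ⊢
      tauto
    have := (card_le_card hsub).trans (card_union_le _ _)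
    unfold ncell
    exact_mod_cast this
  have h4 := mul_le_mul_of_nonneg_left hS2 hlog
  have h5 := hZ k1
  have h6 := hZ k2
  rw [mul_add] at h4
  linarith

end Pool.Agent.Lib.MP_629a14_nt.Kp.R
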