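import Pool.Agent.Lib.MP_629a14_nt.Kr.Fine
import Pool.Agent.Lib.MP_629a14_nt.Kr.Err
import Pool.Agent.Lib.MP_629a14_nt.Kp.PfStruct

/-! The numbers of elements of a set in the blocks, in terms of the densities. -/

set_option autoImplicit false

namespace Pool.Agent.Lib.MP_629a14_nt.Kp.R

open Finset Filter Topology Pool.Agent.Lib.MP_629a14_nt Pool.Agent.Lib.MP_629a14_nt.Rob

open Pool.Agent.Lib.MP_629a14_nt.Ml

private theorem sf_dnp (A : Set ℕ) (W K N k r : ℕ) :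
    0 ≤ dns A W K N k r ∧ dns A W K N k r ≤ 1 := by
  classical
  unfold dns
  refine ⟨by positivity, ?_⟩
  refine div_le_one_of_le₀ ?_ (Nat.cast_nonneg _)
  have : cellc A W K N k r ≤ cellc Set.univ W K N k r := by
    unfold cellc
    refine card_le_card fun p hp => ?_
    simp only [mem_filter, Set.mem_univ, true_and] at hp ⊢
    exact ⟨hp.1, hp.2.1, hp.2.2.2⟩
  exact_mod_cast this

private theorem sf_card {N R : ℕ} {x y : ℤ} (h1 : 1 ≤ x) (h3 : y ≤ N + 1) (b : ℤ) :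
    (pI N R x y b).card = cntI Set.univ R x y b := by
  classical
  unfold cntI pI
  congr 1
  ext p
  simp only [mem_filter, mem_range, mem_Icc, Set.mem_univ, true_and]
  constructor
  · rintro ⟨⟨h4, h5⟩, h6, h7, h8, h9⟩
    exact ⟨by omega, h6, h7, h9⟩
  · rintro ⟨h4, h5, h7, h8⟩
    exact ⟨⟨h5.one_le, by omega⟩, h5, h7, by omega, h8⟩

/-- The total distance of the densities on two levels, over disjoint intervals and the classes. -/
theorem flat_sum {A : Set ℕ} {W K W' K' N R : ℕ} {δ : ℝ} (hflat : Flat W K W' K' N A δ)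
    (hR : 1 ≤ R) (I : Finset ℕ) (x y : ℕ → ℤ) (hd : ∀ i ∈ I, ∀ j ∈ I, i < j → y i ≤ x j) :
    ∑ i ∈ I, ∑ b ∈ range R, |Real.log N * ∑ p ∈ pI N R (x i) (y i) b, dnp A W' K' N p -
      Real.log N * ∑ p ∈ pI N R (x i) (y i) b, dnp A W K N p| ≤ δ * N := by
  classical
  refine le_trans ?_ hflat
  have hlog : 0 ≤ Real.log N := Real.log_natCast_nonneg N
  obtain ⟨h, hh⟩ : ∃ h : ℕ → ℝ, h = fun p => |dnp A W' K' N p - dnp A W K N p| := ⟨_, rfl⟩
  have h0 : ∀ p, 0 ≤ h p := fun p => by rw [hh]; exact abs_nonneg _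
  calc _ ≤ ∑ i ∈ I, ∑ b ∈ range R, Real.log N * ∑ p ∈ pI N R (x i) (y i) b, h p := by
        refine sum_le_sum fun i _ => sum_le_sum fun b _ => ?_
        rw [← mul_sub, abs_mul, abs_of_nonneg hlog, ← sum_sub_distrib]
        refine mul_le_mul_of_nonneg_left ?_ hlog
        refine (abs_sum_le_sum_abs _ _).trans (le_of_eq ?_)
        rw [hh]
    _ = Real.log N * ∑ q ∈ I ×ˢ range R, ∑ p ∈ pI N R (x q.1) (y q.1) (q.2 : ℕ), h p := by
        rw [sum_product, mul_sum]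
        refine sum_congr rfl fun i _ => ?_
        rw [mul_sum]
    _ = Real.log N * ∑ p ∈ (Icc 1 N).filter Nat.Prime,
          ∑ q ∈ (I ×ˢ range R).filter (fun q => p ∈ pI N R (x q.1) (y q.1) (q.2 : ℕ)), h p := by
        congr 1
        refine sum_comm' ?_
        intro q p
        simp only [mem_filter]
        constructor
        · rintro ⟨h1, h2⟩
          refine ⟨⟨h1, h2⟩, ?_⟩
          unfold pI at h2
          rw [mem_filter] at h2
          exact ⟨h2.1, h2.2.1⟩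
        · rintro ⟨⟨h1, h2⟩, -⟩
          exact ⟨h1, h2⟩
    _ ≤ Real.log N * ∑ p ∈ (Icc 1 N).filter Nat.Prime, h p := by
        refine mul_le_mul_of_nonneg_left (sum_le_sum fun p _ => ?_) hlog
        rw [sum_const, nsmul_eq_mul]
        have hc : ((I ×ˢ range R).filter
            (fun q => p ∈ pI N R (x q.1) (y q.1) (q.2 : ℕ))).card ≤ 1 := by
          rw [card_le_one]
          rintro ⟨i, b⟩ hq ⟨j, c⟩ hq'
          unfold pI at hq hq'
          simp only [mem_filter, mem_product, mem_range] at hq hq'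
          obtain ⟨⟨hi, hb⟩, -, -, a1, a2, a3⟩ := hq
          obtain ⟨⟨hj, hc⟩, -, -, b1, b2, b3⟩ := hq'
          have e1 : i = j := by
            rcases lt_trichotomy i j with hlt | heq | hgt
            · have := hd i hi j hj hlt
              omega
            · exact heq
            · have := hd j hj i hi hgt
              omega
          have e2 : b = c := by
            have g1 : (b : ℤ) ≡ c [ZMOD R] := a3.symm.trans b3
            have g2 : b ≡ c [MOD R] := Int.natCast_modEq_iff.1 g1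
            exact Nat.ModEq.eq_of_lt_of_lt g2 hb hc
          rw [e1, e2]
        have hc' : (((I ×ˢ range R).filter
            (fun q => p ∈ pI N R (x q.1) (y q.1) (q.2 : ℕ))).card : ℝ) ≤ 1 := by exact_mod_cast hc
        exact mul_le_of_le_one_left (h0 p) hc'
    _ = _ := by rw [hh]

/-- The number of primes in one block and one class. -/
private theorem sf_close {N R Q v x₀ b : ℕ} {ρ : ℝ} {τ : ℤ}
    (hRV : primorial v ∣ R) (hR : 1 ≤ R)
    (hRp : ∀ p : ℕ, p.Prime → p ∣ R → p ≤ v) (hτv : (primorial v : ℤ) ∣ τ)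
    (hb : b.Coprime (primorial v)) (h1 : 1 ≤ (x₀ : ℤ) + τ) (h2 : (x₀ : ℤ) + τ + R * Q ≤ N + 1)
    (hpnt : ∀ b : ℕ, b.Coprime R → ∀ x : ℕ, x ≤ N →
      |Real.log N * (cntA Set.univ R b x : ℝ) - x / R.totient| ≤ ρ * N) :
    |Real.log N * ((pI N R ((x₀ : ℤ) + τ) ((x₀ : ℤ) + τ + R * Q) ((b : ℤ) + τ)).card : ℝ) -
      En.kap v * Q| ≤ 2 * (ρ * N) := by
  rw [sf_card h1 h2]
  have hRtot := totient_ratio v R hR hRV hRp
  have hφ : (0 : ℝ) < R.totient := by exact_mod_cast Nat.totient_pos.2 (by omega)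
  set b' : ℕ := ((b + τ) % (R : ℤ)).toNat with hb'
  have hR0 : (R : ℤ) ≠ 0 := by exact_mod_cast (by omega : R ≠ 0)
  have hb'' : ((b' : ℕ) : ℤ) = (b + τ) % (R : ℤ) := by
    rw [hb', Int.toNat_of_nonneg (Int.emod_nonneg _ hR0)]
  have hbm : (b' : ℤ) ≡ b + τ [ZMOD R] := by
    rw [hb'']
    exact Int.mod_modEq _ _
  have hbR : b'.Coprime R := by
    have g1 : (b' : ℤ) ≡ b + τ [ZMOD (primorial v : ℕ)] := hbm.of_dvd (by exact_mod_cast hRV)
    have g2 : (b : ℤ) + τ ≡ b + 0 [ZMOD (primorial v : ℕ)] :=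
      Int.ModEq.add_left _ ((Int.modEq_zero_iff_dvd).2 hτv)
    rw [add_zero] at g2
    have g3 : b' ≡ b [MOD primorial v] := (Int.natCast_modEq_iff).1 (g1.trans g2)
    have g4 : b'.Coprime (primorial v) := by
      have := g3.gcd_eq
      unfold Nat.Coprime at hb ⊢
      rw [this, hb]
    by_contra h
    obtain ⟨p, hp, h2, h3⟩ := Nat.Prime.not_coprime_iff_dvd.1 h
    have h5 : p ∣ primorial v := hp.dvd_primorial_iff.2 (hRp p hp h3)
    exact hp.one_lt.ne' (Nat.dvd_one.1 (g4 ▸ Nat.dvd_gcd h2 h5))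
  have g8 := cntI_close (A := Set.univ) (R := R) (N := N) (a := 1) (ε := ρ) (x₀ + τ)
    (x₀ + τ + R * Q) (b + τ) b' hbm h1 (by
      have : (0 : ℤ) ≤ (R : ℤ) * Q := by positivity
      linarith) h2 (fun z hz => by
      have := hpnt b' hbR z hz
      rwa [one_mul])
  refine le_trans (le_of_eq ?_) g8
  congr 2
  rw [← hRtot]
  push_cast
  field_simp
  ring

/-- One block and one class, if the cell does not change. -/
theorem coarse_eq {A : Set ℕ} {W K N R Q v x₀ b : ℕ} {ρ : ℝ} {τ : ℤ} (hW : 1 ≤ W)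
    (hRV : primorial v ∣ R) (hRW : W ∣ R) (hR : 1 ≤ R)
    (hRp : ∀ p : ℕ, p.Prime → p ∣ R → p ≤ v) (hτW : (W : ℤ) ∣ τ) (hτv : (primorial v : ℤ) ∣ τ)
    (hb : b.Coprime (primorial v)) (h1 : 1 ≤ (x₀ : ℤ) + τ) (h2 : (x₀ : ℤ) + τ + R * Q ≤ N + 1)
    (hpnt : ∀ b : ℕ, b.Coprime R → ∀ x : ℕ, x ≤ N →
      |Real.log N * (cntA Set.univ R b x : ℝ) - x / R.totient| ≤ ρ * N)
    (hcell : ∀ p : ℕ, (x₀ : ℤ) + τ ≤ p → (p : ℤ) < (x₀ : ℤ) + τ + R * Q → cell K N p = cell K N x₀) :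
    |Real.log N * ∑ p ∈ pI N R ((x₀ : ℤ) + τ) ((x₀ : ℤ) + τ + R * Q) ((b : ℤ) + τ), dnp A W K N p -
      dns A W K N (cell K N x₀) (b % W) * (En.kap v * Q)| ≤ 2 * (ρ * N) := by
  have key := sf_close hRV hR hRp hτv hb h1 h2 hpnt
  obtain ⟨d0, d1⟩ := sf_dnp A W K N (cell K N x₀) (b % W)
  have e1 : ∀ p ∈ pI N R ((x₀ : ℤ) + τ) ((x₀ : ℤ) + τ + R * Q) ((b : ℤ) + τ),
      dnp A W K N p = dns A W K N (cell K N x₀) (b % W) := by
    intro p hp
    unfold pI at hp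
    rw [mem_filter] at hp
    obtain ⟨-, -, a1, a2, a3⟩ := hp
    unfold dnp
    rw [hcell p a1 a2]
    congr 1
    have g1 : (p : ℤ) ≡ b + τ [ZMOD W] := a3.of_dvd (by exact_mod_cast hRW)
    have g2 : (b : ℤ) + τ ≡ b + 0 [ZMOD W] :=
      Int.ModEq.add_left _ ((Int.modEq_zero_iff_dvd).2 hτW)
    rw [add_zero] at g2
    exact (Int.natCast_modEq_iff).1 (g1.trans g2)
  rw [sum_congr rfl e1, sum_const, nsmul_eq_mul]
  have e2 : Real.log N * (((pI N R ((x₀ : ℤ) + τ) ((x₀ : ℤ) + τ + R * Q) ((b : ℤ) + τ)).card : ℝ) *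
      dns A W K N (cell K N x₀) (b % W)) - dns A W K N (cell K N x₀) (b % W) * (En.kap v * Q) =
      dns A W K N (cell K N x₀) (b % W) * (Real.log N *
        ((pI N R ((x₀ : ℤ) + τ) ((x₀ : ℤ) + τ + R * Q) ((b : ℤ) + τ)).card : ℝ) -
        En.kap v * Q) := by ring
  rw [e2, abs_mul, abs_of_nonneg d0]
  exact (mul_le_of_le_one_left (abs_nonneg _) d1).trans key

/-- One block and one class, the trivial estimate. -/
theorem coarse_triv {A : Set ℕ} {W K N R Q v x₀ b : ℕ} {ρ : ℝ} {τ : ℤ} (hW : 1 ≤ W)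
    (hRV : primorial v ∣ R) (hR : 1 ≤ R)
    (hRp : ∀ p : ℕ, p.Prime → p ∣ R → p ≤ v) (hτv : (primorial v : ℤ) ∣ τ)
    (hb : b.Coprime (primorial v)) (h1 : 1 ≤ (x₀ : ℤ) + τ) (h2 : (x₀ : ℤ) + τ + R * Q ≤ N + 1)
    (hpnt : ∀ b : ℕ, b.Coprime R → ∀ x : ℕ, x ≤ N →
      |Real.log N * (cntA Set.univ R b x : ℝ) - x / R.totient| ≤ ρ * N) :
    |Real.log N * ∑ p ∈ pI N R ((x₀ : ℤ) + τ) ((x₀ : ℤ) + τ + R * Q) ((b : ℤ) + τ), dnp A W K N p -
      dns A W K N (cell K N x₀) (b % W) * (En.kap v * Q)| ≤ En.kap v * Q + 2 * (ρ * N) := by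
  have key := sf_close hRV hR hRp hτv hb h1 h2 hpnt
  obtain ⟨d0, d1⟩ := sf_dnp A W K N (cell K N x₀) (b % W)
  have hlog : 0 ≤ Real.log N := Real.log_natCast_nonneg N
  have hk : 0 ≤ En.kap v * Q := mul_nonneg (le_trans zero_le_one (one_le_kap v)) (Nat.cast_nonneg _)
  have s0 : 0 ≤ ∑ p ∈ pI N R ((x₀ : ℤ) + τ) ((x₀ : ℤ) + τ + R * Q) ((b : ℤ) + τ),
      dnp A W K N p := sum_nonneg fun p _ => (sf_dnp A W K N _ _).1
  have s1 : ∑ p ∈ pI N R ((x₀ : ℤ) + τ) ((x₀ : ℤ) + τ + R * Q) ((b : ℤ) + τ),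
      dnp A W K N p ≤ (pI N R ((x₀ : ℤ) + τ) ((x₀ : ℤ) + τ + R * Q) ((b : ℤ) + τ)).card := by
    refine (sum_le_card_nsmul _ _ 1 fun p _ => (sf_dnp A W K N _ _).2).trans ?_
    rw [nsmul_eq_mul, mul_one]
  have s2 := mul_le_mul_of_nonneg_left s1 hlog
  have s3 := mul_nonneg hlog s0
  have k1 := abs_le.1 key
  have k2 := le_trans (abs_nonneg _) key
  have k3 : dns A W K N (cell K N x₀) (b % W) * (En.kap v * Q) ≤ En.kap v * Q :=
    mul_le_of_le_one_left hk d1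
  have k4 : 0 ≤ dns A W K N (cell K N x₀) (b % W) * (En.kap v * Q) := mul_nonneg d0 hk
  rw [abs_le]
  constructor
  · linarith
  · linarith [k1.2]

/-- The number of blocks whose neighbourhood meets two cells. By `bad_card`. -/
theorem bad_blocks {K N M s i₀ i₁ : ℕ} (hK : 1 ≤ K) (hM : 1 ≤ M) (h0 : s ≤ i₀ * M)
    (h1 : i₁ * M + s ≤ N) :
    (((Ico i₀ i₁).filter (fun i => cell K N (i * M - s) ≠ cell K N ((i + 1) * M + s))).card : ℝ) *
      M ≤ K * (2 * s + 2 * M) := by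
  obtain ⟨q, hq1, hq2⟩ : ∃ q : ℕ, M + 2 * s ≤ q * M ∧ q * M ≤ 2 * s + 2 * M := by
    refine ⟨2 * s / M + 2, ?_, ?_⟩
    · have e1 := Nat.div_add_mod (2 * s) M
      have e2 := Nat.mod_lt (2 * s) (show M > 0 by omega)
      rw [add_mul, mul_comm (2 * s / M) M]
      omega
    · have e1 := Nat.div_mul_le_self (2 * s) M
      rw [add_mul]
      omega
  have hb := bad_card (fun i => min (cell K N (i * M - s)) K) (by
    intro i j hij
    exact min_le_min (cell_mono (Nat.sub_le_sub_right (Nat.mul_le_mul_right M hij) s)) le_rfl)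
    q i₀ i₁ K (fun i _ => min_le_right _ _)
  have hsub : (Ico i₀ i₁).filter (fun i => cell K N (i * M - s) ≠ cell K N ((i + 1) * M + s)) ⊆
      (Ico i₀ i₁).filter (fun i => (fun i => min (cell K N (i * M - s)) K) i ≠
        (fun i => min (cell K N (i * M - s)) K) (i + q)) := by
    intro i hi
    rw [mem_filter, mem_Ico] at hi ⊢
    obtain ⟨⟨hi0, hi1⟩, hi2⟩ := hi
    refine ⟨⟨hi0, hi1⟩, ?_⟩
    have g1 : (i + 1) * M ≤ i₁ * M := Nat.mul_le_mul_right M hi1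
    have g2 : cell K N ((i + 1) * M + s) < K := cell_lt hK (by omega)
    have g3 : cell K N (i * M - s) ≤ cell K N ((i + 1) * M + s) := cell_mono (by
      rw [add_mul]; omega)
    have g4 : cell K N ((i + 1) * M + s) ≤ cell K N ((i + q) * M - s) := cell_mono (by
      rw [add_mul, add_mul]; omega)
    show min (cell K N (i * M - s)) K ≠ min (cell K N ((i + q) * M - s)) K
    omega
  have h2 := (card_le_card hsub).trans hb
  have h3 : ((Ico i₀ i₁).filter
      (fun i => cell K N (i * M - s) ≠ cell K N ((i + 1) * M + s))).card * M ≤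
      K * (2 * s + 2 * M) := by
    calc _ ≤ q * K * M := Nat.mul_le_mul_right M h2
      _ = K * (q * M) := by ring
      _ ≤ _ := Nat.mul_le_mul_left K hq2
  exact_mod_cast h3

private theorem sh_cntI_congr {A : Set ℕ} {R : ℕ} {x y b b' : ℤ} (h : b ≡ b' [ZMOD R]) :
    cntI A R x y b = cntI A R x y b' := by
  classical
  unfold cntI
  congr 1
  ext p
  simp only [mem_filter]
  constructor
  · rintro ⟨h0, h1, h2, h3, h4⟩
    exact ⟨h0, h1, h2, h3, h4.trans h⟩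
  · rintro ⟨h0, h1, h2, h3, h4⟩
    exact ⟨h0, h1, h2, h3, h4.trans h.symm⟩

private theorem sh_pI_congr {N R : ℕ} {x y b b' : ℤ} (h : b ≡ b' [ZMOD R]) :
    pI N R x y b = pI N R x y b' := by
  unfold pI
  ext p
  simp only [mem_filter]
  constructor
  · rintro ⟨h0, h1, h2, h3, h4⟩
    exact ⟨h0, h1, h2, h3, h4.trans h⟩
  · rintro ⟨h0, h1, h2, h3, h4⟩
    exact ⟨h0, h1, h2, h3, h4.trans h.symm⟩

/-- A shift permutes the classes. -/
private theorem sh_sum_shift {R : ℕ} (hR : 1 ≤ R) (τ : ℤ) (F : ℤ → ℝ)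
    (hF : ∀ b b' : ℤ, b ≡ b' [ZMOD R] → F b = F b') :
    ∑ b ∈ range R, F ((b : ℤ) + τ) = ∑ b ∈ range R, F (b : ℤ) := by
  have hR0 : (R : ℤ) ≠ 0 := by exact_mod_cast (by omega : R ≠ 0)
  have hRp : (0 : ℤ) < R := by exact_mod_cast (by omega : 0 < R)
  refine Finset.sum_nbij' (fun b => (((b : ℤ) + τ) % (R : ℤ)).toNat)
    (fun b => (((b : ℤ) - τ) % (R : ℤ)).toNat) ?_ ?_ ?_ ?_ ?_
  · intro b _
    rw [mem_range]
    have := Int.emod_lt_of_pos ((b : ℤ) + τ) hRp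
    have := Int.emod_nonneg ((b : ℤ) + τ) hR0
    omega
  · intro b _
    rw [mem_range]
    have := Int.emod_lt_of_pos ((b : ℤ) - τ) hRp
    have := Int.emod_nonneg ((b : ℤ) - τ) hR0
    omega
  · intro b hb
    rw [mem_range] at hb
    have h1 := Int.emod_nonneg ((b : ℤ) + τ) hR0
    simp only [Int.toNat_of_nonneg h1]
    have h2 : (((b : ℤ) + τ) % R - τ) % R = b % R := by
      rw [Int.emod_sub_emod]
      ring_nf
    rw [h2, Int.emod_eq_of_lt (by positivity) (by exact_mod_cast hb)]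
    simp
  · intro b hb
    rw [mem_range] at hb
    have h1 := Int.emod_nonneg ((b : ℤ) - τ) hR0
    simp only [Int.toNat_of_nonneg h1]
    have h2 : (((b : ℤ) - τ) % R + τ) % R = b % R := by
      rw [Int.emod_add_emod]
      ring_nf
    rw [h2, Int.emod_eq_of_lt (by positivity) (by exact_mod_cast hb)]
    simp
  · intro b _
    have h1 := Int.emod_nonneg ((b : ℤ) + τ) hR0
    rw [Int.toNat_of_nonneg h1]
    exact hF _ _ (Int.mod_modEq _ _).symm


/-- The blocks shifted by `τ`. -/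
theorem shift_sum {A : Set ℕ} {W K v R₀ R Q N K₂ i₀ i₁ : ℕ} {c ε δ ρ : ℝ} {τ : ℤ}
    (hW : 1 ≤ W) (hK : 1 ≤ K) (hK₂ : 1 ≤ K₂) (hN : 1 ≤ N)
    (hRV : primorial v ∣ R) (hRW : W ∣ R) (hR : 1 ≤ R) (hR₀ : R ≤ R₀)
    (hRp : ∀ p : ℕ, p.Prime → p ∣ R → p ≤ v) (hQ1 : 1 ≤ Q) (hc : 0 < c) (hQ : c * N ≤ Q)
    (hε : 0 < ε) (hε1 : ε ≤ 1 / 4) (hs : (R : ℝ) * Q ≤ ε * N)
    (hτW : (W : ℤ) ∣ τ) (hτv : (primorial v : ℤ) ∣ τ) (hτ : |(τ : ℝ)| ≤ ε * N)
    (h0 : 2 * ε * N ≤ (i₀ : ℝ) * (R * Q)) (h1 : (i₁ : ℝ) * (R * Q) ≤ (1 - 2 * ε) * N)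
    (hρ : 0 ≤ ρ) (hpnt : ∀ b : ℕ, b.Coprime R → ∀ x : ℕ, x ≤ N →
      |Real.log N * (cntA Set.univ R b x : ℝ) - x / R.totient| ≤ ρ * N)
    (hcell : ∀ k : ℕ, Real.log N * (ncell (K * K₂) N k : ℝ) ≤ N / (K * K₂ : ℕ) + ρ * N)
    (hflat : Flat W K (W * R₀.factorial) (K * K₂) N A δ) :
    ∑ i ∈ Ico i₀ i₁, ∑ b ∈ (range R).filter (fun b => b.Coprime (primorial v)),
      |Real.log N * (cntI A R (((i * (R * Q) : ℕ) : ℤ) + τ)
          (((i * (R * Q) : ℕ) : ℤ) + τ + R * Q) ((b : ℤ) + τ) : ℝ) -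
        dns A W K N (cell K N (i * (R * Q))) (b % W) * (En.kap v * Q)| ≤
      (δ + 4 * K * ε + 2 / c * (1 / (K * K₂ : ℕ) + 4 * ρ)) * N := by
  classical
  have : NeZero R := ⟨by omega⟩
  have hN0 : (0 : ℝ) < N := by exact_mod_cast hN
  have hRr : (1 : ℝ) ≤ R := by exact_mod_cast hR
  have hQr : (1 : ℝ) ≤ Q := by exact_mod_cast hQ1
  have hkap : (1 : ℝ) ≤ En.kap v := one_le_kap v
  obtain ⟨M, hMdef⟩ : ∃ M : ℕ, M = R * Q := ⟨_, rfl⟩
  have hM1 : 1 ≤ M := by rw [hMdef]; exact Nat.mul_pos (by omega) (by omega)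
  have hMr : (M : ℝ) = R * Q := by rw [hMdef]; push_cast; ring
  obtain ⟨s, hsdef⟩ : ∃ s : ℕ, s = τ.natAbs := ⟨_, rfl⟩
  have hsr : (s : ℝ) = |(τ : ℝ)| := by
    rw [hsdef, Nat.cast_natAbs]; push_cast; rfl
  obtain ⟨U, hU⟩ : ∃ U : Finset ℕ, U = (range R).filter (fun b => b.Coprime (primorial v)) :=
    ⟨_, rfl⟩
  have hUcard : (U.card : ℝ) * En.kap v = R := by
    have e1 := uc_card (R := R) hRV
    have e2 := uc_sum (R := R) (primorial v) (fun _ => (1 : ℝ))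
    simp only [sum_const, nsmul_eq_mul, mul_one] at e2
    rw [hU, ← e2, e1]
  rw [← hU]
  have hUle : (U.card : ℝ) ≤ R := by
    rw [← hUcard]
    exact le_mul_of_one_le_right (Nat.cast_nonneg _) hkap
  -- the number of blocks
  have hnb : (((Ico i₀ i₁).card : ℕ) : ℝ) * (R * Q) ≤ N := by
    rw [Nat.card_Ico]
    have e1 : ((i₁ - i₀ : ℕ) : ℝ) ≤ i₁ := by exact_mod_cast Nat.sub_le _ _
    calc ((i₁ - i₀ : ℕ) : ℝ) * (R * Q) ≤ i₁ * (R * Q) :=
          mul_le_mul_of_nonneg_right e1 (by positivity)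
      _ ≤ (1 - 2 * ε) * N := h1
      _ ≤ N := by nlinarith
  have hnb2 : (((Ico i₀ i₁).card : ℕ) : ℝ) * R ≤ 1 / c := by
    rw [le_div_iff₀ hc]
    have e1 : (((Ico i₀ i₁).card : ℕ) : ℝ) * R * c * N ≤ 1 * N := by
      calc (((Ico i₀ i₁).card : ℕ) : ℝ) * R * c * N = (((Ico i₀ i₁).card : ℕ) : ℝ) * R * (c * N) := by
            ring
        _ ≤ (((Ico i₀ i₁).card : ℕ) : ℝ) * R * Q := mul_le_mul_of_nonneg_left hQ (by positivity)
        _ = (((Ico i₀ i₁).card : ℕ) : ℝ) * (R * Q) := by ring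
        _ ≤ 1 * N := by rw [one_mul]; exact hnb
    exact le_of_mul_le_mul_right e1 hN0
  have hnb3 : (((Ico i₀ i₁).card : ℕ) : ℝ) ≤ 1 / c :=
    le_trans (le_mul_of_one_le_right (Nat.cast_nonneg _) hRr) hnb2
  -- positions
  have hpos : ∀ i ∈ Ico i₀ i₁, (1 : ℤ) ≤ ((i * (R * Q) : ℕ) : ℤ) + τ ∧
      ((i * (R * Q) : ℕ) : ℤ) + τ + R * Q ≤ N + 1 := by
    intro i hi
    rw [mem_Ico] at hi
    have g5 := abs_le.1 hτ
    constructor
    · have e1 : (i₀ : ℝ) * (R * Q) ≤ (i : ℝ) * (R * Q) :=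
        mul_le_mul_of_nonneg_right (by exact_mod_cast hi.1) (by positivity)
      have e2 : (0 : ℝ) < ((i * (R * Q) : ℕ) : ℝ) + τ := by
        push_cast
        have : 0 < ε * N := mul_pos hε hN0
        linarith
      have e3 : (0 : ℤ) < ((i * (R * Q) : ℕ) : ℤ) + τ := by exact_mod_cast e2
      exact e3
    · have e1 : ((i : ℝ) + 1) * (R * Q) ≤ (i₁ : ℝ) * (R * Q) :=
        mul_le_mul_of_nonneg_right (by exact_mod_cast hi.2) (by positivity)
      have e2 : ((i * (R * Q) : ℕ) : ℝ) + τ + R * Q ≤ N + 1 := by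
        push_cast
        have : 0 < ε * N := mul_pos hε hN0
        nlinarith
      exact_mod_cast e2
  -- the three parts
  have hT1 : ∑ i ∈ Ico i₀ i₁, ∑ b ∈ U,
      |Real.log N * (cntI A R (((i * (R * Q) : ℕ) : ℤ) + τ)
          (((i * (R * Q) : ℕ) : ℤ) + τ + R * Q) ((b : ℤ) + τ) : ℝ) -
        Real.log N * ∑ p ∈ pI N R (((i * (R * Q) : ℕ) : ℤ) + τ)
          (((i * (R * Q) : ℕ) : ℤ) + τ + R * Q) ((b : ℤ) + τ),
          dnp A (W * R₀.factorial) (K * K₂) N p| ≤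
      1 / c * (2 * (N / (K * K₂ : ℕ) + ρ * N)) := by
    calc _ ≤ ∑ i ∈ Ico i₀ i₁, 2 * (N / (K * K₂ : ℕ) + ρ * N) := by
          refine sum_le_sum fun i hi => ?_
          obtain ⟨hi1, hi2⟩ := hpos i hi
          have hW' : R ∣ W * R₀.factorial :=
            Dvd.dvd.mul_left (Nat.dvd_factorial (by omega) hR₀) W
          have hfac : 1 ≤ W * R₀.factorial := Nat.mul_pos (by omega) (Nat.factorial_pos _)
          have key := fine_one (A := A) (W' := W * R₀.factorial) (K' := K * K₂) (N := N) (R := R)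
            hR hW' hfac (Nat.mul_pos (by omega) (by omega))
            (x := ((i * (R * Q) : ℕ) : ℤ) + τ) (y := ((i * (R * Q) : ℕ) : ℤ) + τ + R * Q) hi1
            (by have : (0 : ℤ) ≤ (R : ℤ) * Q := by positivity
                linarith) hi2 (Z := N / (K * K₂ : ℕ) + ρ * N) hcell
          refine le_trans ?_ key
          have hsh := sh_sum_shift hR τ (fun b : ℤ =>
            |Real.log N * (cntI A R (((i * (R * Q) : ℕ) : ℤ) + τ)
              (((i * (R * Q) : ℕ) : ℤ) + τ + R * Q) b : ℝ) -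
            Real.log N * ∑ p ∈ pI N R (((i * (R * Q) : ℕ) : ℤ) + τ)
              (((i * (R * Q) : ℕ) : ℤ) + τ + R * Q) b,
              dnp A (W * R₀.factorial) (K * K₂) N p|) (fun b b' hb => by
                simp only [sh_cntI_congr hb, sh_pI_congr hb])
          rw [← hsh, hU]
          exact sum_le_sum_of_subset_of_nonneg (filter_subset _ _) (fun _ _ _ => abs_nonneg _)
      _ = (((Ico i₀ i₁).card : ℕ) : ℝ) * (2 * (N / (K * K₂ : ℕ) + ρ * N)) := by
          rw [sum_const, nsmul_eq_mul]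
      _ ≤ _ := mul_le_mul_of_nonneg_right hnb3 (by positivity)
  have hT2 : ∑ i ∈ Ico i₀ i₁, ∑ b ∈ U,
      |Real.log N * ∑ p ∈ pI N R (((i * (R * Q) : ℕ) : ℤ) + τ)
          (((i * (R * Q) : ℕ) : ℤ) + τ + R * Q) ((b : ℤ) + τ),
          dnp A (W * R₀.factorial) (K * K₂) N p -
        Real.log N * ∑ p ∈ pI N R (((i * (R * Q) : ℕ) : ℤ) + τ)
          (((i * (R * Q) : ℕ) : ℤ) + τ + R * Q) ((b : ℤ) + τ), dnp A W K N p| ≤ δ * N := by
    refine le_trans ?_ (flat_sum hflat hR (Ico i₀ i₁) (fun i => ((i * (R * Q) : ℕ) : ℤ) + τ)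
      (fun i => ((i * (R * Q) : ℕ) : ℤ) + τ + R * Q) (fun i _ j _ hij => ?_))
    · refine sum_le_sum fun i _ => ?_
      have hsh := sh_sum_shift hR τ (fun b : ℤ =>
        |Real.log N * ∑ p ∈ pI N R (((i * (R * Q) : ℕ) : ℤ) + τ)
          (((i * (R * Q) : ℕ) : ℤ) + τ + R * Q) b,
          dnp A (W * R₀.factorial) (K * K₂) N p -
        Real.log N * ∑ p ∈ pI N R (((i * (R * Q) : ℕ) : ℤ) + τ)
          (((i * (R * Q) : ℕ) : ℤ) + τ + R * Q) b, dnp A W K N p|) (fun b b' hb => by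
            simp only [sh_pI_congr hb])
      rw [← hsh, hU]
      exact sum_le_sum_of_subset_of_nonneg (filter_subset _ _) (fun _ _ _ => abs_nonneg _)
    · show ((i * (R * Q) : ℕ) : ℤ) + τ + R * Q ≤ ((j * (R * Q) : ℕ) : ℤ) + τ
      have : (i + 1) * (R * Q) ≤ j * (R * Q) := Nat.mul_le_mul_right _ hij
      have h2 : (((i + 1) * (R * Q) : ℕ) : ℤ) ≤ ((j * (R * Q) : ℕ) : ℤ) := by exact_mod_cast this
      push_cast at h2 ⊢
      linarith
  -- the third part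
  have hg : ∀ i ∈ Ico i₀ i₁, ¬ (cell K N (i * M - s) ≠ cell K N ((i + 1) * M + s)) → ∀ b ∈ U,
      |Real.log N * ∑ p ∈ pI N R (((i * (R * Q) : ℕ) : ℤ) + τ)
          (((i * (R * Q) : ℕ) : ℤ) + τ + R * Q) ((b : ℤ) + τ), dnp A W K N p -
        dns A W K N (cell K N (i * (R * Q))) (b % W) * (En.kap v * Q)| ≤ 2 * (ρ * N) := by
    intro i hi hgood b hb
    obtain ⟨hi1, hi2⟩ := hpos i hi
    rw [hU, mem_filter] at hb
    have hgood' : cell K N (i * M - s) = cell K N ((i + 1) * M + s) := not_not.1 hgood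
    refine coarse_eq hW hRV hRW hR hRp hτW hτv hb.2 hi1 hi2 hpnt (fun p hp1 hp2 => ?_)
    have hτs : -(s : ℤ) ≤ τ ∧ τ ≤ s := by rw [hsdef]; omega
    have e0 : ((i * (R * Q) : ℕ) : ℤ) = ((i * M : ℕ) : ℤ) := by rw [hMdef]
    have e1 : ((R : ℤ) * Q) = (M : ℤ) := by rw [hMdef]; push_cast; ring
    have f1 : i * M - s ≤ p := by
      rw [e0] at hp1
      omega
    have f2 : p ≤ (i + 1) * M + s := by
      rw [e0, e1] at hp2
      rw [add_mul]
      omega
    have g1 := cell_mono (K := K) (N := N) f1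
    have g2 := cell_mono (K := K) (N := N) f2
    have g3 := cell_mono (K := K) (N := N) (show i * M - s ≤ i * M by omega)
    have g4 := cell_mono (K := K) (N := N) (show i * M ≤ (i + 1) * M + s by rw [add_mul]; omega)
    rw [hMdef] at g1 g2 g3 g4 hgood'
    omega
  have hbd : ∀ i ∈ Ico i₀ i₁, ∀ b ∈ U,
      |Real.log N * ∑ p ∈ pI N R (((i * (R * Q) : ℕ) : ℤ) + τ)
          (((i * (R * Q) : ℕ) : ℤ) + τ + R * Q) ((b : ℤ) + τ), dnp A W K N p -
        dns A W K N (cell K N (i * (R * Q))) (b % W) * (En.kap v * Q)| ≤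
        En.kap v * Q + 2 * (ρ * N) := by
    intro i hi b hb
    obtain ⟨hi1, hi2⟩ := hpos i hi
    rw [hU, mem_filter] at hb
    exact coarse_triv hW hRV hR hRp hτv hb.2 hi1 hi2 hpnt
  have hT3 : ∑ i ∈ Ico i₀ i₁, ∑ b ∈ U,
      |Real.log N * ∑ p ∈ pI N R (((i * (R * Q) : ℕ) : ℤ) + τ)
          (((i * (R * Q) : ℕ) : ℤ) + τ + R * Q) ((b : ℤ) + τ), dnp A W K N p -
        dns A W K N (cell K N (i * (R * Q))) (b % W) * (En.kap v * Q)| ≤
      1 / c * (2 * (ρ * N)) + 4 * K * ε * N := by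
    have hle : ∀ i ∈ Ico i₀ i₁, ∑ b ∈ U,
      |Real.log N * ∑ p ∈ pI N R (((i * (R * Q) : ℕ) : ℤ) + τ)
          (((i * (R * Q) : ℕ) : ℤ) + τ + R * Q) ((b : ℤ) + τ), dnp A W K N p -
        dns A W K N (cell K N (i * (R * Q))) (b % W) * (En.kap v * Q)| ≤
        U.card * (2 * (ρ * N)) +
          if cell K N (i * M - s) ≠ cell K N ((i + 1) * M + s) then (M : ℝ) else 0 := by
      intro i hi
      by_cases hgood : cell K N (i * M - s) ≠ cell K N ((i + 1) * M + s)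
      · rw [if_pos hgood]
        calc _ ≤ ∑ b ∈ U, (En.kap v * Q + 2 * (ρ * N)) := sum_le_sum fun b hb => hbd i hi b hb
          _ = U.card * (2 * (ρ * N)) + (U.card * En.kap v) * Q := by
              rw [sum_const, nsmul_eq_mul]; ring
          _ = _ := by rw [hUcard, hMr]
      · rw [if_neg hgood, add_zero]
        calc _ ≤ ∑ b ∈ U, (2 * (ρ * N)) := sum_le_sum fun b hb => hg i hi hgood b hb
          _ = _ := by rw [sum_const, nsmul_eq_mul]
    have hbad := bad_blocks (K := K) (N := N) (M := M) (s := s) (i₀ := i₀) (i₁ := i₁) hK hM1 (by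
        have : (s : ℝ) ≤ i₀ * M := by
          rw [hsr, hMr]
          have : 0 < ε * N := mul_pos hε hN0
          linarith
        exact_mod_cast this) (by
        have : (i₁ : ℝ) * M + s ≤ N := by
          rw [hsr, hMr]
          have : 0 < ε * N := mul_pos hε hN0
          linarith
        exact_mod_cast this)
    calc _ ≤ ∑ i ∈ Ico i₀ i₁, (U.card * (2 * (ρ * N)) +
          if cell K N (i * M - s) ≠ cell K N ((i + 1) * M + s) then (M : ℝ) else 0) :=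
            sum_le_sum hle
      _ = (((Ico i₀ i₁).card : ℕ) : ℝ) * U.card * (2 * (ρ * N)) +
          (((Ico i₀ i₁).filter
            (fun i => cell K N (i * M - s) ≠ cell K N ((i + 1) * M + s))).card : ℝ) * M := by
            rw [sum_add_distrib, sum_const, nsmul_eq_mul, ← sum_filter, sum_const, nsmul_eq_mul]
            ring
      _ ≤ 1 / c * (2 * (ρ * N)) + K * (2 * s + 2 * M) := by
            refine add_le_add (mul_le_mul_of_nonneg_right ?_ (by positivity)) hbad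
            exact le_trans (mul_le_mul_of_nonneg_left hUle (Nat.cast_nonneg _)) hnb2
      _ ≤ 1 / c * (2 * (ρ * N)) + K * (2 * (ε * N) + 2 * (ε * N)) := by
            refine add_le_add le_rfl (mul_le_mul_of_nonneg_left ?_ (Nat.cast_nonneg _))
            rw [hsr, hMr]
            linarith
      _ = _ := by ring
  calc _ ≤ ∑ i ∈ Ico i₀ i₁, ∑ b ∈ U,
      (|Real.log N * (cntI A R (((i * (R * Q) : ℕ) : ℤ) + τ)
          (((i * (R * Q) : ℕ) : ℤ) + τ + R * Q) ((b : ℤ) + τ) : ℝ) -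
        Real.log N * ∑ p ∈ pI N R (((i * (R * Q) : ℕ) : ℤ) + τ)
          (((i * (R * Q) : ℕ) : ℤ) + τ + R * Q) ((b : ℤ) + τ),
          dnp A (W * R₀.factorial) (K * K₂) N p| +
      |Real.log N * ∑ p ∈ pI N R (((i * (R * Q) : ℕ) : ℤ) + τ)
          (((i * (R * Q) : ℕ) : ℤ) + τ + R * Q) ((b : ℤ) + τ),
          dnp A (W * R₀.factorial) (K * K₂) N p -
        Real.log N * ∑ p ∈ pI N R (((i * (R * Q) : ℕ) : ℤ) + τ)
          (((i * (R * Q) : ℕ) : ℤ) + τ + R * Q) ((b : ℤ) + τ), dnp A W K N p| +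
      |Real.log N * ∑ p ∈ pI N R (((i * (R * Q) : ℕ) : ℤ) + τ)
          (((i * (R * Q) : ℕ) : ℤ) + τ + R * Q) ((b : ℤ) + τ), dnp A W K N p -
        dns A W K N (cell K N (i * (R * Q))) (b % W) * (En.kap v * Q)|) := by
        refine sum_le_sum fun i _ => sum_le_sum fun b _ => ?_
        refine (abs_sub_le _ (Real.log N * ∑ p ∈ pI N R (((i * (R * Q) : ℕ) : ℤ) + τ)
          (((i * (R * Q) : ℕ) : ℤ) + τ + R * Q) ((b : ℤ) + τ), dnp A W K N p) _).trans ?_
        exact add_le_add (abs_sub_le _ _ _) le_rfl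
    _ ≤ 1 / c * (2 * (N / (K * K₂ : ℕ) + ρ * N)) + δ * N +
        (1 / c * (2 * (ρ * N)) + 4 * K * ε * N) := by
        simp only [sum_add_distrib]
        exact add_le_add (add_le_add hT1 hT2) hT3
    _ ≤ _ := by
        have e1 : (δ + 4 * K * ε + 2 / c * (1 / (K * K₂ : ℕ) + 4 * ρ)) * N -
          (1 / c * (2 * (N / (K * K₂ : ℕ) + ρ * N)) + δ * N +
            (1 / c * (2 * (ρ * N)) + 4 * K * ε * N)) = 1 / c * (4 * (ρ * N)) := by ring
        have e2 : 0 ≤ 1 / c * (4 * (ρ * N)) := by positivity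
        linarith

end Pool.Agent.Lib.MP_629a14_nt.Kp.R
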