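import Pool.Agent.Lib.MP_629a14_nt.Kr.LowN
import Pool.Agent.Lib.MP_629a14_nt.Kr.Shift
import Pool.Agent.Lib.MP_629a14_nt.Kr.Close
import Pool.Agent.Lib.MP_629a14_nt.Kr.Pnt
import Pool.Agent.Lib.MP_629a14_nt.Kp.GStruct

/-! The lower bound for the truncated sums, for arbitrary sets of primes. -/

set_option autoImplicit false

namespace Pool.Agent.Lib.MP_629a14_nt.Kp.R

open Finset Filter Topology Pool.Agent.Lib.MP_629a14_nt Pool.Agent.Lib.MP_629a14_nt.Rob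
open Pool.Agent.Lib.MP_629a14_nt.Ml

/-- One of the two sets: the block means are close to the densities. -/
theorem dt_le {A : Set ℕ} {W K v R₀ R Q N K₂ i₀ m₁ : ℕ} {c ε δ ρ : ℝ} {T : Finset ℕ} {κ : ℕ → ℝ}
    {τ : ℕ → ℤ} {f : ℕ → ℝ}
    (hW : 1 ≤ W) (hK : 1 ≤ K) (hK₂ : 1 ≤ K₂) (hN : 1 ≤ N)
    (hRV : primorial v ∣ R) (hRW : W ∣ R) (hR : 1 ≤ R) (hR₀ : R ≤ R₀)
    (hRp : ∀ p : ℕ, p.Prime → p ∣ R → p ≤ v) (hQ1 : 1 ≤ Q) (hc : 0 < c) (hQ : c * N ≤ Q)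
    (hε : 0 < ε) (hε1 : ε ≤ 1 / 4) (hs : (R : ℝ) * Q ≤ ε * N)
    (hT : ∀ t ∈ T, (W : ℤ) ∣ τ t ∧ (primorial v : ℤ) ∣ τ t ∧ |(τ t : ℝ)| ≤ ε * N ∧ 0 ≤ κ t)
    (hκ1 : ∑ t ∈ T, κ t ≤ 1) (hκ2 : 1 - ε ≤ ∑ t ∈ T, κ t)
    (hf : LocG (primorial v) R Q N T κ τ A (En.kap v) ε f)
    (h0 : 2 * ε * N ≤ (i₀ : ℝ) * (R * Q)) (h1 : (m₁ : ℝ) * (R * Q) ≤ (1 - 2 * ε) * N)
    (hρ : 0 ≤ ρ) (hδ : 0 ≤ δ) (hpnt : ∀ b : ℕ, b.Coprime R → ∀ x : ℕ, x ≤ N →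
      |Real.log N * (cntA Set.univ R b x : ℝ) - x / R.totient| ≤ ρ * N)
    (hcell : ∀ k : ℕ, Real.log N * (ncell (K * K₂) N k : ℝ) ≤ N / (K * K₂ : ℕ) + ρ * N)
    (hflat : Flat W K (W * R₀.factorial) (K * K₂) N A δ) :
    ∑ i ∈ Ico i₀ m₁, dt R Q W (primorial v) f (fun i => dns A W K N (cell K N (i * (R * Q)))) i ≤
      (2 * ε + (δ + 4 * K * ε + 2 / c * (1 / (K * K₂ : ℕ) + 4 * ρ))) * N / (En.kap v * Q) := by
  have hN0 : (0 : ℝ) < N := by exact_mod_cast hN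
  have hεN : 0 ≤ ε * N := by positivity
  refine close_sum hRV hR hQ1 hN hε (fun t ht => (hT t ht).2.2.2) hκ1 hκ2 hf ?_ ?_ ?_ ?_
  · linarith
  · linarith
  · positivity
  · intro t ht
    exact shift_sum hW hK hK₂ hN hRV hRW hR hR₀ hRp hQ1 hc hQ hε hε1 hs (hT t ht).1
      (hT t ht).2.1 (hT t ht).2.2.1 h0 h1 hρ hpnt hcell hflat

theorem low_N {A B : Set ℕ} {W K H v R₀ K₂ N : ℕ} {ε c η δ ρ t : ℝ} {s : ℕ → ℕ → ℝ}
    (hW : 1 ≤ W) (hW2 : 2 ∣ W) (hK : 1 ≤ K) (hH : 1 ≤ H) (hK₂ : 1 ≤ K₂)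
    (hv : 2 ≤ v) (hvW : W ≤ v) (hvε : 1 / ε ≤ v) (hε : 0 < ε) (hεη : 6 * ε ≤ η)
    (hη : η ≤ 1 / 4) (hδ : 0 ≤ δ) (hρ : 0 ≤ ρ) (hc : 0 < c) (hN1 : 1 ≤ ε * N)
    (hS : StrucG W v R₀ c N A B ε)
    (hpnt : ∀ R : ℕ, 1 ≤ R → R ≤ R₀ → ∀ b : ℕ, b.Coprime R → ∀ x : ℕ, x ≤ N →
      |Real.log N * (cntA Set.univ R b x : ℝ) - x / R.totient| ≤ ρ * N)
    (hcell : ∀ k : ℕ, Real.log N * (ncell (K * K₂) N k : ℝ) ≤ N / (K * K₂ : ℕ) + ρ * N)
    (hfA : Flat W K (W * R₀.factorial) (K * K₂) N A δ)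
    (hfB : Flat W K (W * R₀.factorial) (K * K₂) N B δ)
    (hs : ∀ l c, 0 ≤ s l c ∧ s l c ≤ 1) (ht : 0 ≤ t) (ht1 : t ≤ 1) :
    wS W H N s (RT W K N (dns A W K N) (dns B W K N) t) ≤
      wS W H N s (fun n => min (rho A B n) t) +
        (η + (H + 16) * ε + 4 * ((3 * K + 12) * ε / η) +
          2 * (2 * ε + (δ + 4 * K * ε + 2 / c * (1 / (K * K₂ : ℕ) + 4 * ρ))) / η) * N := by
  classical
  obtain ⟨R, Q, hRV, hRW, hR, hR₀, hRp, hQ1, hQp, hRQ, hcQ, T, κ, τ, hT, hκ1, hκ2, f, g, hf, hg,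
    hex⟩ := hS
  have : NeZero R := ⟨by omega⟩
  have : NeZero Q := ⟨by omega⟩
  have hε4 : ε ≤ 1 / 4 := by linarith
  have hε1 : ε ≤ 1 := by linarith
  have hη0 : 0 < η := by linarith
  have hN0 : (0 : ℝ) < N := by
    by_contra h
    push Not at h
    nlinarith
  have hNn : 1 ≤ N := by exact_mod_cast hN0
  have hR0 : (0 : ℝ) < R := by exact_mod_cast hR
  have hQ0 : (0 : ℝ) < Q := by exact_mod_cast hQ1
  have hM0 : (0 : ℝ) < R * Q := mul_pos hR0 hQ0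
  obtain ⟨Y, hY⟩ : ∃ Y : ℝ, Y = 2 * ε + (δ + 4 * K * ε + 2 / c * (1 / (K * K₂ : ℕ) + 4 * ρ)) :=
    ⟨_, rfl⟩
  have hY0 : 0 ≤ Y := by rw [hY]; positivity
  -- the indices
  obtain ⟨i₀, hi₀⟩ : ∃ i₀ : ℕ, i₀ = ⌈2 * ε * N / (R * Q)⌉₊ := ⟨_, rfl⟩
  obtain ⟨m₀, hm₀⟩ : ∃ m₀ : ℕ, m₀ = ⌈η * N / (R * Q)⌉₊ := ⟨_, rfl⟩
  obtain ⟨m₁, hm₁⟩ : ∃ m₁ : ℕ, m₁ = ⌊(1 - 2 * ε) * N / (R * Q)⌋₊ := ⟨_, rfl⟩
  have hi1 : 2 * ε * N ≤ (i₀ : ℝ) * (R * Q) := by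
    rw [← div_le_iff₀ hM0, hi₀]
    exact Nat.le_ceil _
  have hi2 : (i₀ : ℝ) * (R * Q) ≤ 3 * ε * N := by
    have h1 : (i₀ : ℝ) ≤ 2 * ε * N / (R * Q) + 1 := by
      rw [hi₀]
      exact (Nat.ceil_lt_add_one (by positivity)).le
    calc (i₀ : ℝ) * (R * Q) ≤ (2 * ε * N / (R * Q) + 1) * (R * Q) :=
          mul_le_mul_of_nonneg_right h1 hM0.le
      _ = 2 * ε * N + R * Q := by field_simp
      _ ≤ 3 * ε * N := by linarith
  have hi3 : 1 ≤ i₀ := by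
    rw [hi₀]
    exact Nat.ceil_pos.2 (by positivity)
  have hm0' : η * N ≤ (m₀ : ℝ) * (R * Q) := by
    rw [← div_le_iff₀ hM0, hm₀]
    exact Nat.le_ceil _
  have hm0'' : (m₀ : ℝ) * (R * Q) ≤ (η + ε) * N := by
    have h1 : (m₀ : ℝ) ≤ η * N / (R * Q) + 1 := by
      rw [hm₀]
      exact (Nat.ceil_lt_add_one (by positivity)).le
    calc (m₀ : ℝ) * (R * Q) ≤ (η * N / (R * Q) + 1) * (R * Q) :=
          mul_le_mul_of_nonneg_right h1 hM0.le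
      _ = η * N + R * Q := by field_simp
      _ ≤ (η + ε) * N := by linarith
  have hpos : 0 ≤ (1 - 2 * ε) * N := mul_nonneg (by linarith) hN0.le
  have hm1' : (m₁ : ℝ) * (R * Q) ≤ (1 - 2 * ε) * N := by
    rw [← le_div_iff₀ hM0, hm₁]
    exact Nat.floor_le (div_nonneg hpos hM0.le)
  have hm1'' : (1 - 3 * ε) * N ≤ (m₁ : ℝ) * (R * Q) := by
    have h1 : (1 - 2 * ε) * N / (R * Q) < (m₁ : ℝ) + 1 := by
      rw [hm₁]
      exact Nat.lt_floor_add_one _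
    rw [div_lt_iff₀ hM0] at h1
    linarith
  have h2i : 2 * i₀ ≤ m₀ := by
    have h1 : ((2 * i₀ : ℕ) : ℝ) * (R * Q) ≤ (m₀ : ℝ) * (R * Q) := by
      push_cast
      have : 6 * ε * N ≤ η * N := mul_le_mul_of_nonneg_right hεη hN0.le
      linarith
    exact_mod_cast le_of_mul_le_mul_right h1 hM0
  have hm01 : m₀ ≤ m₁ := by
    have h1 : (m₀ : ℝ) * (R * Q) ≤ (m₁ : ℝ) * (R * Q) := by
      have : (η + ε) * N ≤ (1 - 3 * ε) * N := mul_le_mul_of_nonneg_right (by linarith) hN0.le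
      linarith
    exact_mod_cast le_of_mul_le_mul_right h1 hM0
  have hm1N : m₁ * (R * Q) ≤ N := by
    have h1 : ((m₁ * (R * Q) : ℕ) : ℝ) ≤ N := by
      push_cast
      have : (1 - 2 * ε) * N ≤ 1 * N := mul_le_mul_of_nonneg_right (by linarith) hN0.le
      linarith
    exact_mod_cast h1
  have hm0pos : (0 : ℝ) < m₀ := by
    have : 1 ≤ m₀ := by omega
    exact_mod_cast this
  obtain ⟨e, he⟩ : ∃ e : ℝ, e = (3 * K + 12) * ε / η := ⟨_, rfl⟩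
  have he0 : 0 ≤ e := by rw [he]; positivity
  have hK0 : (0 : ℝ) ≤ K := Nat.cast_nonneg K
  have hem : ∀ m : ℕ, m₀ ≤ m → ((2 : ℝ) * i₀ + 3 * K + 6) / m ≤ e := by
    intro m hm
    have hmr : (m₀ : ℝ) ≤ m := by exact_mod_cast hm
    have hmpos : (0 : ℝ) < m := lt_of_lt_of_le hm0pos hmr
    rw [he, div_le_div_iff₀ hmpos hη0]
    have h1 : (2 * (i₀ : ℝ) + 3 * K + 6) * (R * Q) ≤ (3 * K + 12) * ε * N := by
      have h3 : (3 * (K : ℝ) + 6) * (R * Q) ≤ (3 * K + 6) * (ε * N) :=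
        mul_le_mul_of_nonneg_left hRQ (by positivity)
      nlinarith
    have h2 : η * N ≤ (m : ℝ) * (R * Q) :=
      hm0'.trans (mul_le_mul_of_nonneg_right hmr hM0.le)
    have h4 : (2 * (i₀ : ℝ) + 3 * K + 6) * η * (N * (R * Q)) ≤
        (3 * K + 12) * ε * m * (N * (R * Q)) := by
      calc (2 * (i₀ : ℝ) + 3 * K + 6) * η * (N * (R * Q))
          = ((2 * (i₀ : ℝ) + 3 * K + 6) * (R * Q)) * (η * N) := by ring
        _ ≤ ((3 * K + 12) * ε * N) * (m * (R * Q)) :=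
            mul_le_mul h1 h2 (by positivity) (by positivity)
        _ = (3 * K + 12) * ε * m * (N * (R * Q)) := by ring
    exact le_of_mul_le_mul_right h4 (mul_pos hN0 hM0)
  -- the local model
  have hmain := low_model R Q (H := H) (t := t) hW hW2 hv hvW hvε hRV hRW hQp hε hε1
    (locG_loc hf 0) (locG_loc hg 0) hK hH (fun k r => dns_mem A W K N k r)
    (fun k r => dns_mem B W K N k r) ht hs hi3 h2i hm01 hm1N hem he0 (X := Y * N)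
    (mul_nonneg hY0 hN0.le)
    (by
      rw [hY]
      exact dt_le hW hK hK₂ hNn hRV hRW hR hR₀ hRp hQ1 hc hcQ hε hε4 hRQ hT hκ1 hκ2 hf hi1 hm1'
        hρ hδ (hpnt R hR hR₀) hcell hfA)
    (by
      rw [hY]
      exact dt_le hW hK hK₂ hNn hRV hRW hR hR₀ hRp hQ1 hc hcQ hε hε4 hRQ hT hκ1 hκ2 hg hi1 hm1'
        hρ hδ (hpnt R hR hR₀) hcell hfB)
  -- the exceptional set
  obtain ⟨E, hE⟩ : ∃ E : Finset ℕ, E = (Icc 1 N).filter (fun n => Even n ∧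
    ε < |rho A B n - model v f g n|) := ⟨_, rfl⟩
  have hexc : wS W H N s (fun n => min (model v f g n) t) ≤
      wS W H N s (fun n => min (rho A B n) t) + ε * N + 1 * E.card := by
    refine wS_exc hs hε.le zero_le_one E ?_ ?_
    · intro n h1 h2 h3 h4
      have h5 : |rho A B n - model v f g n| ≤ ε := by
        by_contra hcon
        push Not at hcon
        exact h4 (by
          rw [hE, mem_filter, mem_Icc]
          exact ⟨⟨h1, h2⟩, h3, hcon⟩)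
      have h6 := (abs_le.1 h5).1
      rcases min_cases (rho A B n) t with h | h
      · rw [h.1]
        exact (min_le_left _ _).trans (by linarith)
      · rw [h.1]
        exact (min_le_right _ _).trans (by linarith)
    · intro n _ _ _
      have h6 : 0 ≤ min (rho A B n) t := le_min (rho_nonneg A B n) ht
      have h7 : min (model v f g n) t ≤ t := min_le_right _ _
      linarith
  have hEc : (E.card : ℝ) ≤ ε * N := by
    rw [hE]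
    exact hex
  -- the last term
  have hlast : 2 * (Y * N) * ((m₁ : ℝ) - m₀) / (m₀ + 1) ≤ 2 * Y / η * N := by
    have h1 : ((m₁ : ℝ) - m₀) * (R * Q) ≤ N := by
      have h2 : (m₁ : ℝ) * (R * Q) ≤ N := by exact_mod_cast hm1N
      have h3 : 0 ≤ (m₀ : ℝ) * (R * Q) := by positivity
      linarith
    have h2 : η * N ≤ ((m₀ : ℝ) + 1) * (R * Q) := by linarith
    have h3 : η * ((m₁ : ℝ) - m₀) ≤ (m₀ : ℝ) + 1 := by
      have h4 : η * ((m₁ : ℝ) - m₀) * (R * Q) ≤ ((m₀ : ℝ) + 1) * (R * Q) := by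
        calc η * ((m₁ : ℝ) - m₀) * (R * Q) = η * (((m₁ : ℝ) - m₀) * (R * Q)) := by ring
          _ ≤ η * N := mul_le_mul_of_nonneg_left h1 hη0.le
          _ ≤ _ := h2
      exact le_of_mul_le_mul_right h4 hM0
    rw [div_mul_eq_mul_div, div_le_div_iff₀ (by positivity) hη0]
    calc 2 * (Y * N) * ((m₁ : ℝ) - m₀) * η = 2 * (Y * N) * (η * ((m₁ : ℝ) - m₀)) := by ring
      _ ≤ 2 * (Y * N) * ((m₀ : ℝ) + 1) := mul_le_mul_of_nonneg_left h3 (by positivity)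
      _ = 2 * Y * N * (m₀ + 1) := by ring
  have hHM : (H : ℝ) * (R * Q) ≤ H * (ε * N) :=
    mul_le_mul_of_nonneg_left hRQ (Nat.cast_nonneg H)
  rw [← hY, ← he]
  linarith

/-- Larger truncations. -/
theorem low_N' {A B : Set ℕ} {W K H N : ℕ} {C t : ℝ} {s : ℕ → ℕ → ℝ}
    (hs : ∀ l c, 0 ≤ s l c ∧ s l c ≤ 1)
    (h : ∀ t : ℝ, 0 ≤ t → t ≤ 1 → wS W H N s (RT W K N (dns A W K N) (dns B W K N) t) ≤
      wS W H N s (fun n => min (rho A B n) t) + C) (ht : 0 ≤ t) :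
    wS W H N s (RT W K N (dns A W K N) (dns B W K N) t) ≤
      wS W H N s (fun n => min (rho A B n) t) + C := by
  rcases le_total t 1 with h1 | h1
  · exact h t ht h1
  · have h2 := h 1 zero_le_one le_rfl
    have h3 : wS W H N s (RT W K N (dns A W K N) (dns B W K N) t) =
        wS W H N s (RT W K N (dns A W K N) (dns B W K N) 1) := by
      unfold wS
      refine sum_congr rfl fun n _ => ?_
      rw [rt_large (fun k r => dns_mem A W K N k r) (fun k r => dns_mem B W K N k r) h1,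
        rt_large (fun k r => dns_mem A W K N k r) (fun k r => dns_mem B W K N k r) le_rfl]
    rw [h3]
    refine h2.trans (add_le_add ?_ le_rfl)
    exact wS_mono (fun l c => (hs l c).1) fun n _ _ _ => min_le_min_left _ h1

/-- The lower bound for the truncated sums: `δ` depends only on `η`. -/
theorem low_gen {η : ℝ} (hη : 0 < η) : ∃ δ : ℝ, 0 < δ ∧ ∀ W K H : ℕ, 1 ≤ W → 2 ∣ W → 1 ≤ K →
    1 ≤ H → ∃ R₀ K₂ N₀ : ℕ, 1 ≤ K₂ ∧ ∀ N : ℕ, N₀ ≤ N → ∀ A B : Set ℕ,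
      Flat W K (W * R₀.factorial) (K * K₂) N A δ → Flat W K (W * R₀.factorial) (K * K₂) N B δ →
      ∀ s : ℕ → ℕ → ℝ, (∀ l c, 0 ≤ s l c ∧ s l c ≤ 1) → ∀ t : ℝ, 0 ≤ t →
        wS W H N s (RT W K N (dns A W K N) (dns B W K N) t) ≤
          wS W H N s (fun n => min (rho A B n) t) + η * N := by
  obtain ⟨η₀, hη₀⟩ : ∃ η₀ : ℝ, η₀ = min η 1 := ⟨_, rfl⟩
  have h0 : 0 < η₀ := by
    rw [hη₀]
    exact lt_min hη one_pos
  have h1 : η₀ ≤ 1 := by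
    rw [hη₀]
    exact min_le_right _ _
  have h2 : η₀ ≤ η := by
    rw [hη₀]
    exact min_le_left _ _
  obtain ⟨μ, hμ⟩ : ∃ μ : ℝ, μ = η₀ / 16 := ⟨_, rfl⟩
  have hμ0 : 0 < μ := by rw [hμ]; positivity
  refine ⟨μ * η₀ / 16, by positivity, fun W K H hW hW2 hK hH => ?_⟩
  have hKr : (1 : ℝ) ≤ K := by exact_mod_cast hK
  have hHr : (1 : ℝ) ≤ H := by exact_mod_cast hH
  obtain ⟨ε, hε⟩ : ∃ ε : ℝ, ε = μ * η₀ / (1000 * (K + H)) := ⟨_, rfl⟩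
  have hKH : (0 : ℝ) < 1000 * (K + H) := by positivity
  have hε0 : 0 < ε := by rw [hε]; positivity
  have hεK : (K + H) * ε = μ * η₀ / 1000 := by
    rw [hε]
    field_simp
  have hεK1 : K * ε ≤ μ * η₀ / 1000 := by
    rw [← hεK]
    nlinarith
  have hεH1 : H * ε ≤ μ * η₀ / 1000 := by
    rw [← hεK]
    nlinarith
  have hε1 : ε ≤ μ * η₀ / 1000 := by
    rw [← hεK]
    nlinarith
  have hμη : μ * η₀ ≤ μ := by nlinarith
  have hμη' : μ * η₀ ≤ η₀ / 16 := by rw [hμ]; nlinarith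
  obtain ⟨v, hv, hvW, hvε, R₀, c, hc, N₁, hst⟩ := struct_gen W hW hε0
  obtain ⟨K₂, hK₂⟩ := exists_nat_gt (128 / (c * μ * η₀))
  obtain ⟨ρ, hρ⟩ : ∃ ρ : ℝ, ρ = c * μ * η₀ / 1024 := ⟨_, rfl⟩
  have hρ0 : 0 < ρ := by rw [hρ]; positivity
  have hK₂0 : (0 : ℝ) < K₂ := lt_trans (by positivity) hK₂
  have hK₂1 : 1 ≤ K₂ := by exact_mod_cast hK₂0
  -- the prime number theorem for all `R ≤ R₀`
  have hpn : ∀ R : ℕ, ∃ N₀ : ℕ, 1 ≤ R → ∀ N : ℕ, N₀ ≤ N →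
      ∀ b : ℕ, b.Coprime R → ∀ x : ℕ, x ≤ N →
      |Real.log N * (cntA Set.univ R b x : ℝ) - x / R.totient| ≤ ρ * N := by
    intro R
    by_cases hR : 1 ≤ R
    · obtain ⟨N₀, h⟩ := pnt_class R hR ρ hρ0
      exact ⟨N₀, fun _ => h⟩
    · exact ⟨0, fun h => absurd h hR⟩
  choose NN hNN using hpn
  obtain ⟨N₂, hN₂⟩ := pnt_cell (K * K₂) (Nat.mul_pos hK hK₂1) ρ hρ0
  obtain ⟨N₃, hN₃⟩ := exists_nat_gt (1 / ε)
  refine ⟨R₀, K₂, max (max N₁ N₂) (max N₃ ((range (R₀ + 1)).sup NN)), hK₂1, ?_⟩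
  intro N hN A B hfA hfB s hs t ht
  have hN1 : N₁ ≤ N := (le_max_left _ _).trans ((le_max_left _ _).trans hN)
  have hN2 : N₂ ≤ N := (le_max_right _ _).trans ((le_max_left _ _).trans hN)
  have hN3 : N₃ ≤ N := (le_max_left _ _).trans ((le_max_right _ _).trans hN)
  have hN4 : (range (R₀ + 1)).sup NN ≤ N := (le_max_right _ _).trans ((le_max_right _ _).trans hN)
  have hεN : 1 ≤ ε * N := by
    have h3 : (N₃ : ℝ) ≤ N := by exact_mod_cast hN3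
    have h4 : 1 / ε ≤ N := hN₃.le.trans h3
    rw [div_le_iff₀ hε0] at h4
    linarith
  have hN0 : (0 : ℝ) ≤ N := Nat.cast_nonneg N
  refine low_N' hs (fun t ht ht1 => ?_) ht
  have hmain := low_N (H := H) hW hW2 hK hH hK₂1 hv hvW hvε hε0 (η := μ) (δ := μ * η₀ / 16) (ρ := ρ)
    (by linarith) (by linarith) (by positivity) hρ0.le hc hεN (hst N hN1 A B)
    (fun R hR hR₀ => hNN R hR N ((le_sup (f := NN) (mem_range.2 (by omega))).trans hN4))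
    (hN₂ N hN2) hfA hfB hs ht ht1
  refine hmain.trans (add_le_add le_rfl (mul_le_mul_of_nonneg_right ?_ hN0))
  have e1 : (H + 16) * ε ≤ η₀ / 50 := by
    have : (H + 16) * ε = H * ε + 16 * ε := by ring
    rw [this]
    linarith
  have e2 : 4 * ((3 * K + 12) * ε / μ) ≤ η₀ / 16 := by
    have h3 : (3 * (K : ℝ) + 12) * ε ≤ 15 * (μ * η₀ / 1000) := by
      have : (3 * (K : ℝ) + 12) * ε = 3 * (K * ε) + 12 * ε := by ring
      rw [this]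
      linarith
    have h4 : (3 * (K : ℝ) + 12) * ε / μ ≤ 15 * (η₀ / 1000) := by
      rw [div_le_iff₀ hμ0]
      linarith
    linarith
  have hKK : (1 : ℝ) / ((K * K₂ : ℕ) : ℝ) ≤ c * μ * η₀ / 128 := by
    have h3 : (K₂ : ℝ) ≤ ((K * K₂ : ℕ) : ℝ) := by
      push_cast
      nlinarith
    have h4 : (1 : ℝ) / ((K * K₂ : ℕ) : ℝ) ≤ 1 / K₂ := one_div_le_one_div_of_le hK₂0 h3
    refine h4.trans ?_
    rw [div_le_iff₀ hK₂0]
    rw [div_lt_iff₀ (by positivity)] at hK₂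
    linarith
  have e3 : 2 / c * (1 / ((K * K₂ : ℕ) : ℝ) + 4 * ρ) ≤ 3 * (μ * η₀) / 128 := by
    have h3 : 1 / ((K * K₂ : ℕ) : ℝ) + 4 * ρ ≤ c * (3 * (μ * η₀) / 256) := by
      rw [hρ]
      linarith
    calc 2 / c * (1 / ((K * K₂ : ℕ) : ℝ) + 4 * ρ) ≤ 2 / c * (c * (3 * (μ * η₀) / 256)) :=
          mul_le_mul_of_nonneg_left h3 (by positivity)
      _ = 3 * (μ * η₀) / 128 := by field_simp; ring
  have e4 : 2 * (2 * ε + (μ * η₀ / 16 + 4 * K * ε + 2 / c * (1 / ((K * K₂ : ℕ) : ℝ) + 4 * ρ))) / μ ≤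
      η₀ / 4 := by
    rw [div_le_iff₀ hμ0]
    have h3 : 4 * (K : ℝ) * ε = 4 * (K * ε) := by ring
    rw [h3]
    linarith
  rw [hμ] at e2 e4 ⊢
  linarith

end Pool.Agent.Lib.MP_629a14_nt.Kp.R
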