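import Pool.Agent.Lib.MP_629a14_nt.Kr.AvB

/-! Weighted sums over the even integers up to `N`. -/

set_option autoImplicit false

namespace Pool.Agent.Lib.MP_629a14_nt.Kp.R

open Finset Filter Topology Pool.Agent.Lib.MP_629a14_nt Pool.Agent.Lib.MP_629a14_nt.Rob

/-- The sum of `F` over the even integers `n ≤ N`, with weights depending on the cell of `n` and on
`n` modulo `W`. -/
noncomputable def wS (W H N : ℕ) (s : ℕ → ℕ → ℝ) (F : ℕ → ℝ) : ℝ :=
  ∑ n ∈ (Icc 1 N).filter (fun n => Even n), s (cell H N n) (n % W) * F n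

section

variable {W H N : ℕ} {s : ℕ → ℕ → ℝ}

theorem wS_add (F G : ℕ → ℝ) : wS W H N s (fun n => F n + G n) = wS W H N s F + wS W H N s G := by
  unfold wS
  rw [← sum_add_distrib]
  exact sum_congr rfl fun n _ => by ring

theorem wS_sub (F G : ℕ → ℝ) : wS W H N s (fun n => F n - G n) = wS W H N s F - wS W H N s G := by
  unfold wS
  rw [← sum_sub_distrib]
  exact sum_congr rfl fun n _ => by ring

theorem wS_mul (c : ℝ) (F : ℕ → ℝ) : wS W H N s (fun n => c * F n) = c * wS W H N s F := by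
  unfold wS
  rw [mul_sum]
  exact sum_congr rfl fun n _ => by ring

theorem wS_sum {ι : Type} (I : Finset ι) (F : ι → ℕ → ℝ) :
    wS W H N s (fun n => ∑ i ∈ I, F i n) = ∑ i ∈ I, wS W H N s (F i) := by
  unfold wS
  rw [sum_comm]
  exact sum_congr rfl fun n _ => by rw [mul_sum]

theorem wS_mono (hs : ∀ l c, 0 ≤ s l c) {F G : ℕ → ℝ} (h : ∀ n, 1 ≤ n → n ≤ N → Even n →
    F n ≤ G n) : wS W H N s F ≤ wS W H N s G := by
  unfold wS
  refine sum_le_sum fun n hn => ?_
  rw [mem_filter, mem_Icc] at hn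
  exact mul_le_mul_of_nonneg_left (h n hn.1.1 hn.1.2 hn.2) (hs _ _)

theorem even_card_le (N : ℕ) : (((Icc 1 N).filter (fun n => Even n)).card : ℝ) ≤ N := by
  have h : ((Icc 1 N).filter (fun n => Even n)).card ≤ N := by
    refine (card_filter_le _ _).trans ?_
    rw [Nat.card_Icc, Nat.add_sub_cancel]
  exact_mod_cast h

/-- A bounded function. -/
theorem wS_const_le (hs : ∀ l c, 0 ≤ s l c ∧ s l c ≤ 1) {C : ℝ} (hC : 0 ≤ C) :
    wS W H N s (fun _ => C) ≤ C * N := by
  unfold wS
  calc ∑ n ∈ (Icc 1 N).filter (fun n => Even n), s (cell H N n) (n % W) * C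
      ≤ ∑ _n ∈ (Icc 1 N).filter (fun n => Even n), C := by
        refine sum_le_sum fun n _ => ?_
        have h1 := (hs (cell H N n) (n % W)).2
        nlinarith
    _ ≤ C * N := by
        rw [sum_const, nsmul_eq_mul, mul_comm]
        exact mul_le_mul_of_nonneg_left (even_card_le N) hC

theorem wS_abs (hs : ∀ l c, 0 ≤ s l c ∧ s l c ≤ 1) {F G : ℕ → ℝ} {C : ℝ} (hC : 0 ≤ C)
    (h : ∀ n, 1 ≤ n → n ≤ N → Even n → F n ≤ G n + C) :
    wS W H N s F ≤ wS W H N s G + C * N := by
  have h1 := wS_mono (s := s) (W := W) (H := H) (fun l c => (hs l c).1) h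
  rw [wS_add] at h1
  have h2 := wS_const_le (W := W) (H := H) (N := N) hs hC
  linarith

/-- Up to few exceptions. -/
theorem wS_exc (hs : ∀ l c, 0 ≤ s l c ∧ s l c ≤ 1) {F G : ℕ → ℝ} {C D : ℝ} (hC : 0 ≤ C)
    (hD : 0 ≤ D) (E : Finset ℕ)
    (h : ∀ n, 1 ≤ n → n ≤ N → Even n → n ∉ E → F n ≤ G n + C)
    (h' : ∀ n, 1 ≤ n → n ≤ N → Even n → F n ≤ G n + C + D) :
    wS W H N s F ≤ wS W H N s G + C * N + D * E.card := by
  classical
  have h1 : wS W H N s F ≤ wS W H N s (fun n => (G n + C) + (if n ∈ E then D else 0)) := by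
    refine wS_mono (fun l c => (hs l c).1) fun n h1 h2 h3 => ?_
    by_cases hn : n ∈ E
    · rw [if_pos hn]
      exact h' n h1 h2 h3
    · rw [if_neg hn, add_zero]
      exact h n h1 h2 h3 hn
  rw [wS_add, wS_add] at h1
  have h2 := wS_const_le (W := W) (H := H) (N := N) hs hC
  have h3 : wS W H N s (fun n => if n ∈ E then D else 0) ≤ D * E.card := by
    unfold wS
    calc ∑ n ∈ (Icc 1 N).filter (fun n => Even n), s (cell H N n) (n % W) *
          (if n ∈ E then D else 0)
        ≤ ∑ n ∈ (Icc 1 N).filter (fun n => Even n), (if n ∈ E then D else 0) := by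
          refine sum_le_sum fun n _ => ?_
          have h1 := (hs (cell H N n) (n % W)).2
          split_ifs
          · nlinarith
          · simp
      _ ≤ D * E.card := by
          rw [← sum_filter, sum_const, nsmul_eq_mul, mul_comm]
          refine mul_le_mul_of_nonneg_left ?_ hD
          have : (((Icc 1 N).filter (fun n => Even n)).filter (fun n => n ∈ E)).card ≤ E.card :=
            card_le_card fun n hn => (mem_filter.1 hn).2
          exact_mod_cast this
  linarith

end

end Pool.Agent.Lib.MP_629a14_nt.Kp.R
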