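import Pool.Agent.Lib.MP_629a14_nt.Kr.Rtb
import Pool.Agent.Lib.MP_629a14_nt.Kr.WS
import Pool.Agent.Lib.MP_629a14_nt.Kr.Err

/-! The lower bound for the truncated sums of the local model. -/

set_option autoImplicit false

namespace Pool.Agent.Lib.MP_629a14_nt.Kp.R

open Finset Filter Topology Pool.Agent.Lib.MP_629a14_nt Pool.Agent.Lib.MP_629a14_nt.Rob


/-- The even members of a finite set, by the residue modulo `W`. -/
private theorem even_fibre {W : ℕ} (S : Finset ℕ) (hW1 : 1 ≤ W) (hW2 : 2 ∣ W) (F : ℕ → ℝ) :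
    ∑ n ∈ S.filter (fun n => Even n), F n =
      ∑ c ∈ (range W).filter (fun c => 2 ∣ c), ∑ n ∈ S.filter (fun n => n ≡ c [MOD W]), F n := by
  rw [← Finset.sum_fiberwise_of_maps_to (s := S.filter (fun n => Even n))
    (t := (range W).filter (fun c => 2 ∣ c)) (g := fun n => n % W) (fun n hn => by
      rw [mem_filter] at hn ⊢
      exact ⟨mem_range.2 (Nat.mod_lt _ hW1), (Nat.dvd_mod_iff hW2).2 hn.2.two_dvd⟩)]
  refine sum_congr rfl fun c hc => sum_congr ?_ (fun _ _ => rfl)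
  rw [mem_filter, mem_range] at hc
  rw [filter_filter]
  refine filter_congr fun n _ => ?_
  unfold Nat.ModEq
  rw [Nat.mod_eq_of_lt hc.1]
  constructor
  · exact fun h => h.2
  · refine fun h => ⟨even_iff_two_dvd.2 ((Nat.dvd_mod_iff hW2).1 ?_), h⟩
    rw [h]
    exact hc.2

/-- The same for the classes modulo `R`. -/
private theorem even_fibre' {R W : ℕ} [NeZero R] (hW1 : 1 ≤ W) (hW2 : 2 ∣ W) (F : ZMod R → ℝ) :
    ∑ κ ∈ univ.filter (fun κ : ZMod R => 2 ∣ κ.val), F κ =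
      ∑ c ∈ (range W).filter (fun c => 2 ∣ c), ∑ κ ∈ Ec R W c, F κ := by
  rw [← Finset.sum_fiberwise_of_maps_to (s := univ.filter (fun κ : ZMod R => 2 ∣ κ.val))
    (t := (range W).filter (fun c => 2 ∣ c)) (g := fun κ => κ.val % W) (fun n hn => by
      rw [mem_filter] at hn ⊢
      exact ⟨mem_range.2 (Nat.mod_lt _ hW1), (Nat.dvd_mod_iff hW2).2 hn.2⟩)]
  refine sum_congr rfl fun c hc => sum_congr ?_ (fun _ _ => rfl)
  rw [mem_filter, mem_range] at hc
  ext κ
  rw [mem_Ec, mem_filter, mem_filter]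
  unfold Nat.ModEq
  rw [Nat.mod_eq_of_lt hc.1]
  constructor
  · exact fun h => h.2
  · refine fun h => ⟨⟨mem_univ _, (Nat.dvd_mod_iff hW2).1 ?_⟩, h⟩
    rw [h]
    exact hc.2

section

variable (R Q : ℕ) [NeZero R] [NeZero Q]

/-- The total distance of the block means in the block `i` from the profile `u`. -/
noncomputable def dt (W V : ℕ) (f : ℕ → ℝ) (u : ℕ → ℕ → ℝ) (i : ℕ) : ℝ :=
  ∑ b ∈ (range R).filter (fun b => b.Coprime V), |bm R Q f i b - u i (b % W)|


omit [NeZero Q] in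
private theorem dd_nonneg (W V : ℕ) (f : ℕ → ℝ) (u : ℕ → ℕ → ℝ) (i : ℕ) (κ : ZMod R) :
    0 ≤ dd W V R Q f u i κ := by
  unfold dd
  exact div_nonneg (sum_nonneg fun b _ => abs_nonneg _) (Nat.cast_nonneg _)

omit [NeZero Q] in
private theorem dd_sum_le {v : ℕ} (W : ℕ) (hv : 2 ≤ v) (hR : primorial v ∣ R) (f : ℕ → ℝ)
    (u : ℕ → ℕ → ℝ) (i : ℕ) :
    ∑ κ ∈ univ.filter (fun κ : ZMod R => 2 ∣ κ.val), dd W (primorial v) R Q f u i κ ≤
      En.kap v * dt R Q W (primorial v) f u i := by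
  have h1 := err_sum hv hR (fun b : ZMod R => |bm R Q f i b.val - u i (b.val % W)|)
    (fun b => abs_nonneg _)
  have h2 := uc_sum (R := R) (primorial v) (fun b => |bm R Q f i b - u i (b % W)|)
  unfold dd dt
  rw [← h2]
  exact h1

/-- All even classes of one block on which the weights depend only on the class. Multiply
`rt_block` for the even `c < W` by `s l c` and add; for the errors use `err_sum`, `uc_sum`. -/
theorem good_block {W K H v m i₀ N l : ℕ} {ε t : ℝ} {f g : ℕ → ℝ} {a b s : ℕ → ℕ → ℝ}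
    (hW1 : 1 ≤ W) (hW2 : 2 ∣ W) (hv : 2 ≤ v) (hvW : W ≤ v) (hvε : 1 / ε ≤ v)
    (hR : primorial v ∣ R) (hWR : W ∣ R) (hQ : ∀ p : ℕ, p.Prime → p ∣ Q → v < p)
    (hε : 0 < ε) (hε1 : ε ≤ 1) (hf : Loc (primorial v) R Q 0 0 ε f)
    (hg : Loc (primorial v) R Q 0 0 ε g) (hK : 1 ≤ K)
    (ha : ∀ k r, 0 ≤ a k r ∧ a k r ≤ 1) (hb : ∀ k r, 0 ≤ b k r ∧ b k r ≤ 1) (ht : 0 ≤ t)
    (hi₀ : 1 ≤ i₀) (hi : 2 * i₀ ≤ m) (hN : (m + 1) * (R * Q) ≤ N)
    (hs : ∀ l c, 0 ≤ s l c ∧ s l c ≤ 1)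
    (hcell : ∀ n, m * (R * Q) ≤ n → n < m * (R * Q) + R * Q → cell H N n = l) :
    ∑ n ∈ (Ico (m * (R * Q)) (m * (R * Q) + R * Q)).filter (fun n => Even n),
        s (cell H N n) (n % W) * RT W K N a b t n -
      (9 * ε + 4 * ((2 * i₀ + 3 * K + 6) / m)) * (R * Q) -
      (Q * En.kap v) / (m + 1) * ∑ i ∈ Ico i₀ (m - i₀ + 1),
        (dt R Q W (primorial v) f (fun i => a (cell K N (i * (R * Q)))) i +
          dt R Q W (primorial v) g (fun i => b (cell K N (i * (R * Q)))) (m - i)) ≤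
      ∑ n ∈ (Ico (m * (R * Q)) (m * (R * Q) + R * Q)).filter (fun n => Even n),
        s (cell H N n) (n % W) * min (model v f g n) t := by
  classical
  have hRn : 1 ≤ R := Nat.pos_of_ne_zero (NeZero.ne R)
  have hQn : 1 ≤ Q := Nat.pos_of_ne_zero (NeZero.ne Q)
  obtain ⟨E, hE⟩ : ∃ E : ℝ, E = 9 * ε + 4 * ((2 * i₀ + 3 * K + 6) / m) := ⟨_, rfl⟩
  have hE0 : 0 ≤ E := by rw [hE]; positivity
  obtain ⟨B, hB⟩ : ∃ B : Finset ℕ, B = Ico (m * (R * Q)) (m * (R * Q) + R * Q) := ⟨_, rfl⟩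
  obtain ⟨C, hC⟩ : ∃ C : Finset ℕ, C = (range W).filter (fun c => 2 ∣ c) := ⟨_, rfl⟩
  obtain ⟨D, hD⟩ : ∃ D : ℕ → ZMod R → ℝ, D = fun i κ =>
      dd W (primorial v) R Q f (fun i => a (cell K N (i * (R * Q)))) i κ +
        dd W (primorial v) R Q g (fun i => b (cell K N (i * (R * Q)))) (m - i) κ := ⟨_, rfl⟩
  have hD0 : ∀ i κ, 0 ≤ D i κ := fun i κ => by
    rw [hD]
    exact add_nonneg (dd_nonneg R Q _ _ _ _ _ _) (dd_nonneg R Q _ _ _ _ _ _)
  have hm1 : (0 : ℝ) < (m : ℝ) + 1 := by positivity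
  have hQ0 : (0 : ℝ) ≤ Q := Nat.cast_nonneg Q
  -- weights
  have hw : ∀ (F : ℕ → ℝ), ∑ n ∈ B.filter (fun n => Even n), s (cell H N n) (n % W) * F n =
      ∑ c ∈ C, s l c * ∑ n ∈ B.filter (fun n => n ≡ c [MOD W]), F n := by
    intro F
    rw [even_fibre B hW1 hW2, hC]
    refine sum_congr rfl fun c hc => ?_
    rw [mem_filter, mem_range] at hc
    rw [mul_sum]
    refine sum_congr rfl fun n hn => ?_
    rw [mem_filter, hB, mem_Ico] at hn
    have h1 : n % W = c := by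
      have := hn.2
      unfold Nat.ModEq at this
      rw [Nat.mod_eq_of_lt hc.1] at this
      exact this
    rw [hcell n hn.1.1 hn.1.2, h1]
  have hrt : ∀ c ∈ C, s l c * ∑ n ∈ B.filter (fun n => n ≡ c [MOD W]), RT W K N a b t n -
      E * (B.filter (fun n => n ≡ c [MOD W])).card -
      (Q : ℝ) / (m + 1) * ∑ i ∈ Ico i₀ (m - i₀ + 1), ∑ κ ∈ Ec R W c, D i κ ≤
      s l c * ∑ n ∈ B.filter (fun n => n ≡ c [MOD W]), min (model v f g n) t := by
    intro c hc
    rw [hC, mem_filter] at hc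
    have h1 := rt_block R Q hW1 hW2 hc.2 hv hvW hvε hR hWR hQ hε hε1 hf hg hK ha hb ht hi₀ hi hN
    have h2 : ∑ n ∈ (Ico (m * (R * Q)) (m * (R * Q) + R * Q)).filter (fun n => n ≡ c [MOD W]),
        (RT W K N a b t n - 9 * ε - 4 * ((2 * i₀ + 3 * K + 6) / m)) =
        ∑ n ∈ B.filter (fun n => n ≡ c [MOD W]), RT W K N a b t n -
          E * (B.filter (fun n => n ≡ c [MOD W])).card := by
      rw [mul_comm E, ← nsmul_eq_mul, ← sum_const, ← sum_sub_distrib, hB]
      refine sum_congr rfl fun n _ => ?_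
      rw [hE]
      ring
    have h3 : ∑ i ∈ Ico i₀ (m - i₀ + 1), ∑ κ ∈ Ec R W c,
        (dd W (primorial v) R Q f (fun i => a (cell K N (i * (R * Q)))) i κ +
          dd W (primorial v) R Q g (fun i => b (cell K N (i * (R * Q)))) (m - i) κ) =
        ∑ i ∈ Ico i₀ (m - i₀ + 1), ∑ κ ∈ Ec R W c, D i κ := by
      rw [hD]
    rw [h2, h3, ← hB] at h1
    have h4 := mul_le_mul_of_nonneg_left h1 (hs l c).1
    have h5 : 0 ≤ E * (B.filter (fun n => n ≡ c [MOD W])).card := by positivity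
    have h6 : 0 ≤ (Q : ℝ) / (m + 1) * ∑ i ∈ Ico i₀ (m - i₀ + 1), ∑ κ ∈ Ec R W c, D i κ :=
      mul_nonneg (by positivity) (sum_nonneg fun i _ => sum_nonneg fun κ _ => hD0 i κ)
    have h7 := mul_le_of_le_one_left h5 (hs l c).2
    have h8 := mul_le_of_le_one_left h6 (hs l c).2
    linarith
  have hsum := sum_le_sum hrt
  rw [sum_sub_distrib, sum_sub_distrib, ← mul_sum, ← mul_sum, ← hw, ← hw] at hsum
  -- the number of the integers
  have hcard : ∑ c ∈ C, ((B.filter (fun n => n ≡ c [MOD W])).card : ℝ) ≤ R * Q := by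
    have h1 := even_fibre B hW1 hW2 (fun _ => (1 : ℝ))
    simp only [sum_const, nsmul_eq_mul, mul_one] at h1
    rw [hC, ← h1]
    have h2 : (B.filter (fun n => Even n)).card ≤ R * Q := by
      refine (card_filter_le _ _).trans ?_
      rw [hB, Nat.card_Ico]
      omega
    exact_mod_cast h2
  -- the errors
  have herr : ∑ c ∈ C, ∑ i ∈ Ico i₀ (m - i₀ + 1), ∑ κ ∈ Ec R W c, D i κ ≤
      ∑ i ∈ Ico i₀ (m - i₀ + 1), En.kap v *
        (dt R Q W (primorial v) f (fun i => a (cell K N (i * (R * Q)))) i +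
          dt R Q W (primorial v) g (fun i => b (cell K N (i * (R * Q)))) (m - i)) := by
    rw [sum_comm]
    refine sum_le_sum fun i _ => ?_
    rw [hC, ← even_fibre' hW1 hW2, hD, sum_add_distrib, mul_add]
    exact add_le_add (dd_sum_le R Q W hv hR _ _ _) (dd_sum_le R Q W hv hR _ _ _)
  rw [← mul_sum] at herr
  have h1 : (Q : ℝ) / (m + 1) * ∑ c ∈ C, ∑ i ∈ Ico i₀ (m - i₀ + 1), ∑ κ ∈ Ec R W c, D i κ ≤
      (Q * En.kap v) / (m + 1) * ∑ i ∈ Ico i₀ (m - i₀ + 1),
        (dt R Q W (primorial v) f (fun i => a (cell K N (i * (R * Q)))) i +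
          dt R Q W (primorial v) g (fun i => b (cell K N (i * (R * Q)))) (m - i)) := by
    refine (mul_le_mul_of_nonneg_left herr (by positivity)).trans (le_of_eq ?_)
    ring
  have h2 := mul_le_mul_of_nonneg_left hcard hE0
  rw [← hB, ← hE]
  linarith


private theorem model_nonneg {v : ℕ} {f g : ℕ → ℝ} (hf : ∀ x, 0 ≤ f x) (hg : ∀ x, 0 ≤ g x)
    (n : ℕ) : 0 ≤ model v f g n := by
  unfold model
  have h1 := sig_pos' v n
  refine mul_nonneg (by positivity) (sum_nonneg fun x _ => mul_nonneg (hf _) (hg _))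

omit [NeZero R] [NeZero Q] in
private theorem dt_nonneg (W V : ℕ) (f : ℕ → ℝ) (u : ℕ → ℕ → ℝ) (i : ℕ) :
    0 ≤ dt R Q W V f u i := by
  unfold dt
  exact sum_nonneg fun b _ => abs_nonneg _

/-- The sum over all blocks `m₀ ≤ m < m₁`. The blocks with `cell H N (m (R Q)) ≠
cell H N ((m + 1) (R Q))` are at most `H` many by `bad_card`, and trivial. -/
theorem low_model {W K H v N i₀ m₀ m₁ : ℕ} {ε e t X : ℝ} {f g : ℕ → ℝ} {a b s : ℕ → ℕ → ℝ}
    (hW1 : 1 ≤ W) (hW2 : 2 ∣ W) (hv : 2 ≤ v) (hvW : W ≤ v) (hvε : 1 / ε ≤ v)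
    (hR : primorial v ∣ R) (hWR : W ∣ R) (hQ : ∀ p : ℕ, p.Prime → p ∣ Q → v < p)
    (hε : 0 < ε) (hε1 : ε ≤ 1) (hf : Loc (primorial v) R Q 0 0 ε f)
    (hg : Loc (primorial v) R Q 0 0 ε g) (hK : 1 ≤ K) (hH : 1 ≤ H)
    (ha : ∀ k r, 0 ≤ a k r ∧ a k r ≤ 1) (hb : ∀ k r, 0 ≤ b k r ∧ b k r ≤ 1) (ht : 0 ≤ t)
    (hs : ∀ l c, 0 ≤ s l c ∧ s l c ≤ 1)
    (hi₀ : 1 ≤ i₀) (hi : 2 * i₀ ≤ m₀) (hm : m₀ ≤ m₁) (hN : m₁ * (R * Q) ≤ N)
    (he : ∀ m, m₀ ≤ m → ((2 : ℝ) * i₀ + 3 * K + 6) / m ≤ e) (he0 : 0 ≤ e) (hX : 0 ≤ X)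
    (hDf : ∑ i ∈ Ico i₀ m₁, dt R Q W (primorial v) f (fun i => a (cell K N (i * (R * Q)))) i ≤
      X / (En.kap v * Q))
    (hDg : ∑ i ∈ Ico i₀ m₁, dt R Q W (primorial v) g (fun i => b (cell K N (i * (R * Q)))) i ≤
      X / (En.kap v * Q)) :
    wS W H N s (RT W K N a b t) ≤ wS W H N s (fun n => min (model v f g n) t) +
      (m₀ * (R * Q) + (N - m₁ * (R * Q)) + H * (R * Q)) + (9 * ε + 4 * e) * N + 1 +
      2 * X * (m₁ - m₀) / (m₀ + 1) := by
  classical
  have hRn : 1 ≤ R := Nat.pos_of_ne_zero (NeZero.ne R)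
  have hQn : 1 ≤ Q := Nat.pos_of_ne_zero (NeZero.ne Q)
  obtain ⟨M, hM⟩ : ∃ M : ℕ, M = R * Q := ⟨_, rfl⟩
  have hM1 : 1 ≤ M := by rw [hM]; exact Nat.mul_pos hRn hQn
  have hMr : (M : ℝ) = (R : ℝ) * Q := by rw [hM]; push_cast; ring
  have hkap := kap_pos' v
  have hQ0 : (0 : ℝ) < Q := by exact_mod_cast hQn
  obtain ⟨F, hF⟩ : ∃ F : ℕ → ℝ, F = fun n => if Even n then
    s (cell H N n) (n % W) * RT W K N a b t n else 0 := ⟨_, rfl⟩
  obtain ⟨G, hG⟩ : ∃ G : ℕ → ℝ, G = fun n => if Even n then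
    s (cell H N n) (n % W) * min (model v f g n) t else 0 := ⟨_, rfl⟩
  have hF1 : ∀ n, F n ≤ 1 := by
    intro n
    rw [hF]
    dsimp only
    split_ifs
    · have h1 := rt_mem (W := W) (K := K) (N := N) (n := n) ha hb ht
      have h2 := hs (cell H N n) (n % W)
      nlinarith [h1.1, h1.2, h2.1, h2.2]
    · exact zero_le_one
  have hG0 : ∀ n, 0 ≤ G n := by
    intro n
    rw [hG]
    dsimp only
    split_ifs
    · exact mul_nonneg (hs _ _).1 (le_min (model_nonneg hf.nonneg hg.nonneg n) ht)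
    · exact le_rfl
  -- one block
  have hblk : ∀ m ∈ Ico m₀ m₁, ∑ n ∈ Ico (m * M) (m * M + M), F n ≤
      ∑ n ∈ Ico (m * M) (m * M + M), G n + ((9 * ε + 4 * e) * M + 2 * X / (m₀ + 1)) +
        (if cell H N (m * M) ≠ cell H N ((m + 1) * M) then (M : ℝ) else 0) := by
    intro m hm'
    rw [mem_Ico] at hm'
    have hE0 : 0 ≤ (9 * ε + 4 * e) * M + 2 * X / (m₀ + 1) := by positivity
    by_cases hcell : cell H N (m * M) = cell H N ((m + 1) * M)
    · rw [if_neg (not_not.2 hcell), add_zero]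
      have hgb := good_block R Q (H := H) (l := cell H N (m * M)) hW1 hW2 hv hvW hvε hR hWR hQ
        hε hε1 hf hg hK ha hb ht hi₀ (hi.trans hm'.1) (N := N)
        ((Nat.mul_le_mul_right _ (by omega : m + 1 ≤ m₁)).trans hN) hs (by
          intro n h1 h2
          rw [← hM] at h1 h2
          have h3 : m * M + M = (m + 1) * M := by ring
          have h4 : cell H N (m * M) ≤ cell H N n := cell_mono h1
          have h5 : cell H N n ≤ cell H N ((m + 1) * M) := cell_mono (by omega)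
          omega)
      rw [← hM, ← hMr, sum_filter, sum_filter] at hgb
      have e1 : ∀ n, (if Even n then s (cell H N n) (n % W) * RT W K N a b t n else 0) = F n :=
        fun n => by rw [hF]
      have e2 : ∀ n, (if Even n then s (cell H N n) (n % W) * min (model v f g n) t else 0) =
        G n := fun n => by rw [hG]
      simp only [e1, e2] at hgb
      have h1 := he m hm'.1
      have h2 : (9 * ε + 4 * ((2 * (i₀ : ℝ) + 3 * K + 6) / m)) * (M : ℝ) ≤
          (9 * ε + 4 * e) * M := by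
        refine mul_le_mul_of_nonneg_right ?_ (Nat.cast_nonneg _)
        linarith
      have h3 : ∑ i ∈ Ico i₀ (m - i₀ + 1),
          (dt R Q W (primorial v) f (fun i => a (cell K N (i * M))) i +
            dt R Q W (primorial v) g (fun i => b (cell K N (i * M))) (m - i)) ≤
          2 * (X / (En.kap v * Q)) := by
        rw [sum_add_distrib, two_mul]
        refine add_le_add (le_trans ?_ (hM ▸ hDf)) (le_trans ?_ (hM ▸ hDg))
        · refine sum_le_sum_of_subset_of_nonneg (Ico_subset_Ico_right (by omega)) fun i _ _ => ?_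
          exact dt_nonneg R Q _ _ _ _ _
        · have h4 : ∑ i ∈ Ico i₀ (m - i₀ + 1),
              dt R Q W (primorial v) g (fun i => b (cell K N (i * M))) (m - i) =
              ∑ i ∈ Ico i₀ (m - i₀ + 1),
                dt R Q W (primorial v) g (fun i => b (cell K N (i * M))) i := by
            refine Finset.sum_nbij' (fun i => m - i) (fun i => m - i) ?_ ?_ ?_ ?_ ?_
            · intro i hi'
              rw [mem_Ico] at hi' ⊢
              omega
            · intro i hi'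
              rw [mem_Ico] at hi' ⊢
              omega
            · intro i hi'
              rw [mem_Ico] at hi'
              omega
            · intro i hi'
              rw [mem_Ico] at hi'
              omega
            · intro i _
              rfl
          rw [h4]
          refine sum_le_sum_of_subset_of_nonneg (Ico_subset_Ico_right (by omega)) fun i _ _ => ?_
          exact dt_nonneg R Q _ _ _ _ _
      have h4 : ((Q : ℝ) * En.kap v) / (m + 1) * ∑ i ∈ Ico i₀ (m - i₀ + 1),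
          (dt R Q W (primorial v) f (fun i => a (cell K N (i * M))) i +
            dt R Q W (primorial v) g (fun i => b (cell K N (i * M))) (m - i)) ≤
          2 * X / (m₀ + 1) := by
        refine (mul_le_mul_of_nonneg_left h3 (by positivity)).trans ?_
        have e3 : ((Q : ℝ) * En.kap v) / (m + 1) * (2 * (X / (En.kap v * Q))) =
            2 * X / (m + 1) := by
          field_simp
        rw [e3]
        refine div_le_div_of_nonneg_left (by positivity) (by positivity) ?_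
        have : (m₀ : ℝ) ≤ m := by exact_mod_cast hm'.1
        linarith
      linarith
    · rw [if_pos hcell]
      have h1 : ∑ n ∈ Ico (m * M) (m * M + M), F n ≤ M := by
        calc ∑ n ∈ Ico (m * M) (m * M + M), F n ≤ ∑ _n ∈ Ico (m * M) (m * M + M), (1 : ℝ) :=
              sum_le_sum fun n _ => hF1 n
          _ = M := by
            rw [sum_const, nsmul_eq_mul, mul_one, Nat.card_Ico, Nat.add_sub_cancel_left]
      have h2 : 0 ≤ ∑ n ∈ Ico (m * M) (m * M + M), G n := sum_nonneg fun n _ => hG0 n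
      linarith
  have hsum := sum_le_sum hblk
  rw [sum_add_distrib, sum_add_distrib, sum_blocks F M m₀ m₁ hm, sum_blocks G M m₀ m₁ hm,
    sum_const, nsmul_eq_mul, Nat.card_Ico, Nat.cast_sub hm, ← sum_filter, sum_const,
    nsmul_eq_mul] at hsum
  have hbad : (((Ico m₀ m₁).filter (fun m => cell H N (m * M) ≠ cell H N ((m + 1) * M))).card : ℝ) ≤
      H := by
    have h1 := bad_card (fun m => cell H N (m * M))
      (fun x y hxy => cell_mono (Nat.mul_le_mul_right M hxy)) 1 m₀ m₁ H (fun i hi' => by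
        refine (cell_lt hH ?_).le
        rw [← hM] at hN
        exact (Nat.mul_le_mul_right M (by omega : i ≤ m₁)).trans hN)
    rw [one_mul] at h1
    exact_mod_cast h1
  have hbad2 := mul_le_mul_of_nonneg_right hbad (Nat.cast_nonneg (α := ℝ) M)
  -- the whole range
  have hm₀M : 1 ≤ m₀ * M := Nat.mul_pos (by omega) hM1
  have hmM : m₀ * M ≤ m₁ * M := Nat.mul_le_mul_right M hm
  have hmN : m₁ * M ≤ N := by rw [hM]; exact hN
  have e1 : wS W H N s (RT W K N a b t) = ∑ n ∈ Ico 1 (N + 1), F n := by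
    unfold wS
    rw [sum_filter, hF]
    rfl
  have e2 : wS W H N s (fun n => min (model v f g n) t) = ∑ n ∈ Ico 1 (N + 1), G n := by
    unfold wS
    rw [sum_filter, hG]
    rfl
  have hsplit : ∀ Z : ℕ → ℝ, ∑ n ∈ Ico 1 (N + 1), Z n = ∑ n ∈ Ico 1 (m₀ * M), Z n +
      ∑ n ∈ Ico (m₀ * M) (m₁ * M), Z n + ∑ n ∈ Ico (m₁ * M) (N + 1), Z n := by
    intro Z
    rw [sum_Ico_consecutive Z hm₀M hmM, sum_Ico_consecutive Z (hm₀M.trans hmM) (by omega)]
  have h1 : ∑ n ∈ Ico 1 (m₀ * M), F n ≤ m₀ * M := by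
    calc ∑ n ∈ Ico 1 (m₀ * M), F n ≤ ∑ _n ∈ Ico 1 (m₀ * M), (1 : ℝ) :=
          sum_le_sum fun n _ => hF1 n
      _ = ((m₀ * M - 1 : ℕ) : ℝ) := by
        rw [sum_const, nsmul_eq_mul, mul_one, Nat.card_Ico]
      _ ≤ m₀ * M := by
        rw [← Nat.cast_mul]
        exact_mod_cast Nat.sub_le _ _
  have h2 : ∑ n ∈ Ico (m₁ * M) (N + 1), F n ≤ N + 1 - m₁ * M := by
    calc ∑ n ∈ Ico (m₁ * M) (N + 1), F n ≤ ∑ _n ∈ Ico (m₁ * M) (N + 1), (1 : ℝ) :=
          sum_le_sum fun n _ => hF1 n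
      _ = ((N + 1 - m₁ * M : ℕ) : ℝ) := by
        rw [sum_const, nsmul_eq_mul, mul_one, Nat.card_Ico]
      _ = N + 1 - m₁ * M := by
        rw [Nat.cast_sub (by omega)]
        push_cast
        ring
  have h3 : 0 ≤ ∑ n ∈ Ico 1 (m₀ * M), G n := sum_nonneg fun n _ => hG0 n
  have h4 : 0 ≤ ∑ n ∈ Ico (m₁ * M) (N + 1), G n := sum_nonneg fun n _ => hG0 n
  rw [e1, e2, hsplit F, hsplit G, ← hMr]
  have h5 : ((m₁ : ℝ) - m₀) * ((9 * ε + 4 * e) * M + 2 * X / (m₀ + 1)) ≤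
      (9 * ε + 4 * e) * N + 2 * X * (m₁ - m₀) / (m₀ + 1) := by
    have h6 : ((m₁ : ℝ) - m₀) * M ≤ N := by
      have h7 : (m₁ : ℝ) * M ≤ N := by exact_mod_cast hmN
      have h8 : (0 : ℝ) ≤ m₀ * M := by positivity
      linarith
    have h9 := mul_le_mul_of_nonneg_left h6 (by positivity : 0 ≤ 9 * ε + 4 * e)
    have h10 : ((m₁ : ℝ) - m₀) * (2 * X / (m₀ + 1)) = 2 * X * (m₁ - m₀) / (m₀ + 1) := by ring
    rw [mul_add, h10]
    linarith
  linarith

end

end Pool.Agent.Lib.MP_629a14_nt.Kp.R
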