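import Pool.Agent.Lib.MP_629a14_nt.Kr.AvB

/-! The truncated law of a mixture of trapezoids, and the choice of the thresholds. -/

set_option autoImplicit false

namespace Pool.Agent.Lib.MP_629a14_nt.Kp.R

open Finset Filter Topology Pool.Agent.Lib.MP_629a14_nt Pool.Agent.Lib.MP_629a14_nt.Rob

/-- a mixture of trapezoids -/
private noncomputable def mixF {ι : Type} (s : Finset ι) (w a b : ι → ℝ) (x : ℝ) : ℝ :=
  ∑ i ∈ s, w i * trap (a i) (b i) x

private theorem mixF_cont {ι : Type} (s : Finset ι) (w a b : ι → ℝ) : Continuous (mixF s w a b) := by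
  unfold mixF
  exact continuous_finsetSum _ fun i _ => continuous_const.mul (trap_cont _ _)

private theorem mixF_anti {ι : Type} (s : Finset ι) (w a b : ι → ℝ) (hw : ∀ i ∈ s, 0 ≤ w i) :
    Antitone (mixF s w a b) := by
  intro x y hxy
  unfold mixF
  exact sum_le_sum fun i hi => mul_le_mul_of_nonneg_left (trap_anti _ _ hxy) (hw i hi)

/-- the integral of a mixture -/
private theorem mix_int {ι : Type} (s : Finset ι) (w : ι → ℝ) (f : ι → ℝ → ℝ)
    (hf : ∀ i, Continuous (f i)) :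
    2 * ∫ x in (0 : ℝ)..(1 / 2), ∑ i ∈ s, w i * f i x =
      ∑ i ∈ s, w i * (2 * ∫ x in (0 : ℝ)..(1 / 2), f i x) := by
  rw [intervalIntegral.integral_finsetSum]
  · rw [mul_sum]
    refine sum_congr rfl fun i _ => ?_
    rw [intervalIntegral.integral_const_mul]
    ring
  · intro i _
    exact (continuous_const.mul (hf i)).intervalIntegrable _ _

private theorem mix_id {ι : Type} (s : Finset ι) (w a b : ι → ℝ)
    (ha : ∀ i ∈ s, 0 ≤ a i ∧ a i ≤ 1) (hb : ∀ i ∈ s, 0 ≤ b i ∧ b i ≤ 1) :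
    2 * ∫ x in (0 : ℝ)..(1 / 2), mixF s w a b x = ∑ i ∈ s, w i * (a i * b i) := by
  unfold mixF
  rw [mix_int s w (fun i => trap (a i) (b i)) (fun i => trap_cont _ _)]
  refine sum_congr rfl fun i hi => ?_
  rw [← lw_trap_id (ha i hi).1 (ha i hi).2 (hb i hi).1 (hb i hi).2]
  rfl

/-- Compare `prs_low`. If `F = ∑ w trap` satisfies `F 0 ≤ t` take `θ = 1`, `x = 0`; if
`F (1 / 2) ≤ t ≤ F 0` take `θ = 1` and `x` with `F x = t`; otherwise `x = 1 / 2`, `θ = t / F (1 / 2)`. -/
theorem mix_low {ι : Type} (s : Finset ι) (w a b : ι → ℝ) (hw : ∀ i ∈ s, 0 ≤ w i)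
    (ha : ∀ i ∈ s, 0 ≤ a i ∧ a i ≤ 1) (hb : ∀ i ∈ s, 0 ≤ b i ∧ b i ≤ 1) {t : ℝ} (ht : 0 ≤ t) :
    ∃ θ x : ℝ, 0 ≤ θ ∧ θ ≤ 1 ∧ 0 ≤ x ∧ x ≤ 1 / 2 ∧
      ∑ i ∈ s, w i * (θ * trap (a i) (b i) x) ≤ t ∧
      lw (fun y => ∑ i ∈ s, w i * trap (a i) (b i) y) (fun y => min y t) =
        ∑ i ∈ s, w i * TT (a i) (b i) (θ * trap (a i) (b i) x) := by
  have hF0 : ∀ x, 0 ≤ mixF s w a b x := fun x =>
    sum_nonneg fun i hi => mul_nonneg (hw i hi) (trap_nonneg (ha i hi).1 (hb i hi).1 x)
  have hanti := mixF_anti s w a b hw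
  rcases le_total (mixF s w a b 0) t with h1 | h1
  · refine ⟨1, 0, zero_le_one, le_rfl, le_rfl, by norm_num, ?_, ?_⟩
    · simp only [one_mul]
      exact h1
    · have e1 : lw (fun y => ∑ i ∈ s, w i * trap (a i) (b i) y) (fun y => min y t) =
          2 * ∫ x in (0 : ℝ)..(1 / 2), mixF s w a b x := by
        unfold lw
        congr 1
        refine intervalIntegral.integral_congr fun x hx => ?_
        rw [Set.uIcc_of_le (by norm_num)] at hx
        exact min_eq_left ((hanti hx.1).trans h1)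
      rw [e1, mix_id s w a b ha hb]
      refine sum_congr rfl fun i hi => ?_
      rw [one_mul, trap_zero, TT_large (ha i hi).2 (hb i hi).2 le_rfl]
  rcases le_total (mixF s w a b (1 / 2)) t with h2 | h2
  · obtain ⟨z, hz, hzt⟩ : t ∈ mixF s w a b '' Set.Icc 0 (1 / 2) :=
      intermediate_value_Icc' (by norm_num) (mixF_cont s w a b).continuousOn ⟨h2, h1⟩
    refine ⟨1, z, zero_le_one, le_rfl, hz.1, hz.2, ?_, ?_⟩
    · simp only [one_mul]
      exact hzt.le
    · have e1 : lw (fun y => ∑ i ∈ s, w i * trap (a i) (b i) y) (fun y => min y t) =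
          2 * ∫ x in (0 : ℝ)..(1 / 2), ∑ i ∈ s, w i * min (trap (a i) (b i) x) (trap (a i) (b i) z) := by
        unfold lw
        congr 1
        refine intervalIntegral.integral_congr fun x _ => ?_
        have e2 : ∀ a b, min (trap a b x) (trap a b z) = trap a b (max x z) := fun a b =>
          ((trap_anti a b).map_max).symm
        simp only [e2]
        have e3 : min (mixF s w a b x) (mixF s w a b z) = mixF s w a b (max x z) :=
          (hanti.map_max).symm
        rw [hzt] at e3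
        exact e3
      rw [e1, mix_int s w (fun i x => min (trap (a i) (b i) x) (trap (a i) (b i) z))
        (fun i => (trap_cont _ _).min continuous_const)]
      refine sum_congr rfl fun i hi => ?_
      rw [one_mul]
      have := lw_trap_min (ha i hi).1 (ha i hi).2 (hb i hi).1 (hb i hi).2
        (trap_nonneg (ha i hi).1 (hb i hi).1 z)
      rw [← this]
      rfl
  · have h3 : 0 ≤ mixF s w a b (1 / 2) := hF0 _
    set lam : ℝ := t / mixF s w a b (1 / 2) with hlam
    have hl0 : 0 ≤ lam := div_nonneg ht h3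
    have hl1 : lam ≤ 1 := div_le_one_of_le₀ h2 h3
    have hlt : lam * mixF s w a b (1 / 2) = t := by
      rcases eq_or_lt_of_le h3 with h | h
      · rw [← h] at h2 ⊢
        have : t = 0 := le_antisymm h2 ht
        rw [this]
        ring
      · rw [hlam]
        field_simp
    have e0 : ∑ i ∈ s, w i * (lam * trap (a i) (b i) (1 / 2)) = t := by
      rw [← hlt]
      unfold mixF
      rw [mul_sum]
      refine sum_congr rfl fun i _ => by ring
    refine ⟨lam, 1 / 2, hl0, hl1, by norm_num, le_rfl, e0.le, ?_⟩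
    have e1 : lw (fun y => ∑ i ∈ s, w i * trap (a i) (b i) y) (fun y => min y t) = t := by
      have : lw (fun y => ∑ i ∈ s, w i * trap (a i) (b i) y) (fun y => min y t) =
          lw (fun y => ∑ i ∈ s, w i * trap (a i) (b i) y) (fun _ => t) := by
        unfold lw
        congr 1
        refine intervalIntegral.integral_congr fun x hx => ?_
        rw [Set.uIcc_of_le (by norm_num)] at hx
        exact min_eq_right (h2.trans (hanti hx.2))
      rw [this, lw_const]
    rw [e1]
    conv_lhs => rw [← e0]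
    refine sum_congr rfl fun i hi => ?_
    rw [trap_half (ha i hi).1 (ha i hi).2 (hb i hi).1 (hb i hi).2]
    congr 1
    refine (TT_small (ha i hi).1 (ha i hi).2 (hb i hi).1 (hb i hi).2
      (mul_nonneg hl0 (le_max_left _ _)) ?_).symm
    nlinarith [le_max_left (0 : ℝ) (a i + b i - 1)]

/-- The thresholds for one `n`. By `Av_eq` and `mix_low`. -/
theorem rt_low {W K N n : ℕ} {a b : ℕ → ℕ → ℝ}
    (ha : ∀ k r, 0 ≤ a k r ∧ a k r ≤ 1) (hb : ∀ k r, 0 ≤ b k r ∧ b k r ≤ 1)
    {t : ℝ} (ht : 0 ≤ t) :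
    ∃ T : ℕ → ℕ → ℕ → ℝ, (∀ k k' r, 0 ≤ T k k' r ∧ T k k' r ≤ 1) ∧
      Av W K N a b (fun k k' r _ _ => T k k' r) n ≤ t ∧
      RT W K N a b t n = Av W K N a b (fun k k' r u v => TT u v (T k k' r)) n := by
  obtain ⟨θ, x, h0, h1, hx0, hx1, hle, heq⟩ := mix_low (Ico 1 n ×ˢ adm W n)
    (fun j => 1 / ((n : ℝ) * (adm W n).card)) (fun j => a (cell K N j.1) j.2)
    (fun j => b (cell K N (n - j.1)) ((n + W - j.2) % W)) (fun j _ => by positivity)
    (fun j _ => ha _ _) (fun j _ => hb _ _) ht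
  refine ⟨fun k k' r => θ * trap (a k r) (b k' ((n + W - r) % W)) x, fun k k' r => ?_, ?_, ?_⟩
  · have h := trap_mem (x := x) (ha k r).1 (ha k r).2 (hb k' ((n + W - r) % W)).1
      (hb k' ((n + W - r) % W)).2
    exact ⟨mul_nonneg h0 h.1, mul_le_one₀ h1 h.1 h.2⟩
  · rw [Av_eq]
    exact hle
  · rw [Av_eq]
    rw [← heq]
    unfold RT
    congr 1
    funext y
    exact Av_eq _

/-- Large thresholds. -/
theorem rt_large {W K N n : ℕ} {a b : ℕ → ℕ → ℝ}
    (ha : ∀ k r, 0 ≤ a k r ∧ a k r ≤ 1) (hb : ∀ k r, 0 ≤ b k r ∧ b k r ≤ 1)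
    {t : ℝ} (ht : 1 ≤ t) : RT W K N a b t n = Av W K N a b (fun _ _ _ u v => u * v) n := by
  have h1 : RT W K N a b t n = 2 * ∫ x in (0 : ℝ)..(1 / 2),
      mixF (Ico 1 n ×ˢ adm W n) (fun _ => 1 / ((n : ℝ) * (adm W n).card))
        (fun j => a (cell K N j.1) j.2)
        (fun j => b (cell K N (n - j.1)) ((n + W - j.2) % W)) x := by
    unfold RT lw
    congr 1
    refine intervalIntegral.integral_congr fun x _ => ?_
    have h2 := Av_unit (W := W) (K := K) (N := N) (n := n) (a := a) (b := b) ha hb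
      (G := fun _ _ _ u v => trap u v x)
      (fun k k' r u v hu hu1 hv hv1 => trap_mem hu hu1 hv hv1)
    show min _ t = _
    rw [min_eq_left (h2.2.trans ht), Av_eq]
    rfl
  rw [h1, mix_id _ _ _ _ (fun j _ => ha _ _) (fun j _ => hb _ _), Av_eq]

theorem rt_mem {W K N n : ℕ} {a b : ℕ → ℕ → ℝ}
    (ha : ∀ k r, 0 ≤ a k r ∧ a k r ≤ 1) (hb : ∀ k r, 0 ≤ b k r ∧ b k r ≤ 1)
    {t : ℝ} (ht : 0 ≤ t) : 0 ≤ RT W K N a b t n ∧ RT W K N a b t n ≤ 1 := by
  obtain ⟨T, hT, -, hRT⟩ := rt_low (W := W) (K := K) (N := N) (n := n) ha hb ht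
  rw [hRT]
  refine Av_unit ha hb fun k k' r u v hu hu1 hv hv1 => ?_
  have h1 : 0 ≤ min (T k k' r) (min u v) := le_min (hT k k' r).1 (le_min hu hv)
  have h2 : min (T k k' r) (min u v) ≤ 1 := ((min_le_right _ _).trans (min_le_left _ _)).trans hu1
  have h3 : 0 ≤ min 1 (u + v - min (T k k' r) (min u v)) := by
    refine le_min zero_le_one ?_
    have := (min_le_right (T k k' r) (min u v)).trans (min_le_left _ _)
    linarith
  exact ⟨mul_nonneg h1 h3, mul_le_one₀ h2 h3 (min_le_left _ _)⟩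

/-- The truncated integral of a monotone function. -/
theorem lw_split {F : ℝ → ℝ} (hF : Continuous F) (hF' : Antitone F) {t : ℝ} :
    ∃ x : ℝ, 0 ≤ x ∧ x ≤ 1 / 2 ∧
      lw F (fun y => min y t) = 2 * x * t + 2 * ∫ z in x..(1 / 2), F z := by
  rcases le_total (F 0) t with h1 | h1
  · refine ⟨0, le_rfl, by norm_num, ?_⟩
    unfold lw
    have : ∫ x in (0 : ℝ)..(1 / 2), min (F x) t = ∫ z in (0 : ℝ)..(1 / 2), F z := by
      refine intervalIntegral.integral_congr fun x hx => ?_
      rw [Set.uIcc_of_le (by norm_num)] at hx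
      exact min_eq_left ((hF' hx.1).trans h1)
    rw [this]
    ring
  rcases le_total (F (1 / 2)) t with h2 | h2
  · obtain ⟨z, hz, hzt⟩ : t ∈ F '' Set.Icc 0 (1 / 2) :=
      intermediate_value_Icc' (by norm_num) hF.continuousOn ⟨h2, h1⟩
    refine ⟨z, hz.1, hz.2, ?_⟩
    unfold lw
    have hc : Continuous fun x => min (F x) t := hF.min continuous_const
    rw [← intervalIntegral.integral_add_adjacent_intervals (b := z)
      (hc.intervalIntegrable _ _) (hc.intervalIntegrable _ _)]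
    have i1 : ∫ x in (0 : ℝ)..z, min (F x) t = z * t := by
      have : ∫ x in (0 : ℝ)..z, min (F x) t = ∫ _ in (0 : ℝ)..z, t := by
        refine intervalIntegral.integral_congr fun x hx => ?_
        rw [Set.uIcc_of_le hz.1] at hx
        exact min_eq_right (hzt ▸ hF' hx.2)
      rw [this, intervalIntegral.integral_const, smul_eq_mul, sub_zero]
    have i2 : ∫ x in z..(1 / 2), min (F x) t = ∫ x in z..(1 / 2), F x := by
      refine intervalIntegral.integral_congr fun x hx => ?_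
      rw [Set.uIcc_of_le hz.2] at hx
      exact min_eq_left (hzt ▸ hF' hx.1)
    rw [i1, i2]
    ring
  · refine ⟨1 / 2, by norm_num, le_rfl, ?_⟩
    unfold lw
    have : ∫ x in (0 : ℝ)..(1 / 2), min (F x) t = ∫ _ in (0 : ℝ)..(1 / 2), t := by
      refine intervalIntegral.integral_congr fun x hx => ?_
      rw [Set.uIcc_of_le (by norm_num)] at hx
      exact min_eq_right (h2.trans (hF' hx.2))
    rw [this, intervalIntegral.integral_const, smul_eq_mul, intervalIntegral.integral_same]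
    ring

end Pool.Agent.Lib.MP_629a14_nt.Kp.R
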