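import Pool.Agent.Lib.MP_629a14_nt.Kr.Blk
import Pool.Agent.Lib.MP_629a14_nt.Kr.Cmp
import Pool.Agent.Lib.MP_629a14_nt.Kr.Cont
import Pool.Agent.Lib.MP_629a14_nt.Kr.Mix

/-! The lower bound for the truncated sums in one block in terms of `RT`. -/

set_option autoImplicit false

namespace Pool.Agent.Lib.MP_629a14_nt.Kp.R

open Finset Filter Topology Pool.Agent.Lib.MP_629a14_nt Pool.Agent.Lib.MP_629a14_nt.Rob

section

variable (R Q : ℕ) [NeZero R] [NeZero Q]

/-- The number of the integers of a class in a block. -/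
theorem block_card {W : ℕ} (c m : ℕ) (hW1 : 1 ≤ W) (hWR : W ∣ R) :
    (((Ico (m * (R * Q)) (m * (R * Q) + R * Q)).filter (fun n => n ≡ c [MOD W])).card : ℝ) =
      Q * (Ec R W c).card := by
  obtain ⟨k, hk⟩ := hWR
  have h1 : ((Ico (m * (R * Q)) (m * (R * Q) + R * Q)).filter (fun n => n ≡ c [MOD W])).card =
      ((range (W * (k * Q))).filter (fun n => n ≡ c [MOD W])).card := by
    have hs : ∀ j : ℕ, m * (R * Q) + j ≡ j [MOD W] := fun j => by
      rw [hk, show m * (W * k * Q) = W * (m * k * Q) by ring]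
      simp [Nat.ModEq]
    symm
    refine card_bij (fun j _ => m * (R * Q) + j) ?_ ?_ ?_
    · intro j hj
      rw [mem_filter, mem_range] at hj
      rw [mem_filter, mem_Ico]
      refine ⟨⟨Nat.le_add_right _ _, ?_⟩, (hs j).trans hj.2⟩
      have : W * (k * Q) = R * Q := by rw [hk]; ring
      rw [← this]
      exact Nat.add_lt_add_left hj.1 _
    · intro a _ b _ hab
      exact Nat.add_left_cancel hab
    · intro n hn
      rw [mem_filter, mem_Ico] at hn
      have e1 : m * (R * Q) + (n - m * (R * Q)) = n := Nat.add_sub_cancel' hn.1.1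
      refine ⟨n - m * (R * Q), ?_, e1⟩
      rw [mem_filter, mem_range]
      refine ⟨?_, ?_⟩
      · have : W * (k * Q) = R * Q := by rw [hk]; ring
        rw [this]
        have := hn.1.2
        omega
      · have h2 := hs (n - m * (R * Q))
        rw [e1] at h2
        exact h2.symm.trans hn.2
  have h2 : (Ec R W c).card = k := by
    have h3 := card_Ec R c hW1 (Dvd.intro k hk.symm)
    have h4 : W * (Ec R W c).card = W * k := by
      rw [← hk]
      exact_mod_cast h3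
    exact Nat.eq_of_mul_eq_mul_left hW1 h4
  rw [h1, card_range_mod W c (k * Q) hW1, h2]
  push_cast
  ring

theorem rt_block {W K v c m i₀ N : ℕ} {ε t : ℝ} {f g : ℕ → ℝ} {a b : ℕ → ℕ → ℝ}
    (hW1 : 1 ≤ W) (hW2 : 2 ∣ W) (hc2 : 2 ∣ c) (hv : 2 ≤ v) (hvW : W ≤ v) (hvε : 1 / ε ≤ v)
    (hR : primorial v ∣ R) (hWR : W ∣ R) (hQ : ∀ p : ℕ, p.Prime → p ∣ Q → v < p)
    (hε : 0 < ε) (hε1 : ε ≤ 1) (hf : Loc (primorial v) R Q 0 0 ε f)
    (hg : Loc (primorial v) R Q 0 0 ε g) (hK : 1 ≤ K)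
    (ha : ∀ k r, 0 ≤ a k r ∧ a k r ≤ 1) (hb : ∀ k r, 0 ≤ b k r ∧ b k r ≤ 1) (ht : 0 ≤ t)
    (hi₀ : 1 ≤ i₀) (hi : 2 * i₀ ≤ m) (hN : (m + 1) * (R * Q) ≤ N) :
    ∑ n ∈ (Ico (m * (R * Q)) (m * (R * Q) + R * Q)).filter (fun n => n ≡ c [MOD W]),
        (RT W K N a b t n - 9 * ε - 4 * ((2 * i₀ + 3 * K + 6) / m)) -
      (Q : ℝ) / (m + 1) * ∑ i ∈ Ico i₀ (m - i₀ + 1), ∑ κ ∈ Ec R W c,
        (dd W (primorial v) R Q f (fun i => a (cell K N (i * (R * Q)))) i κ +
          dd W (primorial v) R Q g (fun i => b (cell K N (i * (R * Q)))) (m - i) κ) ≤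
      ∑ n ∈ (Ico (m * (R * Q)) (m * (R * Q) + R * Q)).filter (fun n => n ≡ c [MOD W]),
        min (model v f g n) t := by
  classical
  have hRn : 1 ≤ R := Nat.pos_of_ne_zero (NeZero.ne R)
  have hQn : 1 ≤ Q := Nat.pos_of_ne_zero (NeZero.ne Q)
  have hM : 1 ≤ R * Q := Nat.mul_pos hRn hQn
  have hm1 : 1 ≤ m := by omega
  have hm0 : (0 : ℝ) < m := by exact_mod_cast hm1
  have hWM : W ≤ R * Q := (Nat.le_of_dvd hRn hWR).trans (Nat.le_mul_of_pos_right R hQn)
  obtain ⟨E, hE⟩ : ∃ E : ℝ, E = (2 * i₀ + 3 * K + 6) / m := ⟨_, rfl⟩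
  have hE0 : 0 ≤ E := by rw [hE]; positivity
  -- the representative
  obtain ⟨n₀, hn₀⟩ : ∃ n₀ : ℕ, n₀ = m * (R * Q) + c % W := ⟨_, rfl⟩
  have hcW : c % W < W := Nat.mod_lt _ hW1
  have hn₀1 : m * (R * Q) ≤ n₀ := by omega
  have hn₀2 : n₀ < (m + 1) * (R * Q) := by
    rw [hn₀, add_mul, one_mul]
    omega
  have hn₀N : n₀ ≤ N := by omega
  have hn₀c : n₀ ≡ c [MOD W] := by
    rw [hn₀]
    have h1 : W ∣ m * (R * Q) := (hWR.mul_right Q).mul_left m
    obtain ⟨d, hd⟩ := h1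
    rw [hd]
    simp [Nat.ModEq]
  obtain ⟨T, hT, hT1, hT2⟩ := rt_low (W := W) (K := K) (N := N) (n := n₀) ha hb ht
  have hTT : ∀ (k k' r : ℕ) (u v : ℝ), 0 ≤ u → u ≤ 1 → 0 ≤ v → v ≤ 1 →
      0 ≤ TT u v (T k k' r) ∧ TT u v (T k k' r) ≤ 1 := fun k k' r u v h1 h2 h3 _ =>
    TT_mem h1 h2 h3 (hT k k' r).1
  have hc1 := bl_cmp (W := W) (n := n₀) hK hM ha hb (G := fun k k' r _ _ => T k k' r)
    (fun k k' r _ _ _ _ _ _ => hT k k' r) hm1 hi₀ hi hn₀1 hn₀2 hn₀N
  have hc2' := bl_cmp (W := W) (n := n₀) hK hM ha hb (G := fun k k' r u v => TT u v (T k k' r))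
    hTT hm1 hi₀ hi hn₀1 hn₀2 hn₀N
  simp only [prs_mod hn₀c] at hc1 hc2'
  rw [← hE] at hc1 hc2' ⊢
  have hblk := rb_block R Q hW1 hW2 hc2 hv hvW hvε hR hWR hQ hε hε1 hf hg
    (fun i => a (cell K N (i * (R * Q)))) (fun i => b (cell K N (i * (R * Q))))
    (fun i r => ha _ r) (fun i r => hb _ r)
    (fun i r => T (cell K N (i * (R * Q))) (cell K N ((m - i) * (R * Q))) r)
    (fun i r => (hT _ _ r).1) (m := m) (i₀ := i₀) (i₁ := m - i₀ + 1) (t := t + E) (by omega)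
    (by omega) hm1 (by
      have := (abs_le.1 hc1).1
      linarith)
  -- the main term
  obtain ⟨P, hP⟩ : ∃ P : ℕ → ℝ, P = fun i => prs W c (a (cell K N (i * (R * Q))))
      (b (cell K N ((m - i) * (R * Q))))
      (fun r u v => TT u v (T (cell K N (i * (R * Q))) (cell K N ((m - i) * (R * Q))) r)) :=
    ⟨_, rfl⟩
  obtain ⟨D, hD⟩ : ∃ D : ℕ → ZMod R → ℝ, D = fun i κ =>
      dd W (primorial v) R Q f (fun i => a (cell K N (i * (R * Q)))) i κ +
        dd W (primorial v) R Q g (fun i => b (cell K N (i * (R * Q)))) (m - i) κ := ⟨_, rfl⟩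
  obtain ⟨S, hS⟩ : ∃ S : Finset ℕ, S = (Ico (m * (R * Q)) (m * (R * Q) + R * Q)).filter
      (fun n => n ≡ c [MOD W]) := ⟨_, rfl⟩
  have hScard : (S.card : ℝ) = Q * (Ec R W c).card := by
    rw [hS]
    exact block_card R Q c m hW1 hWR
  have hm1' : (0 : ℝ) < (m : ℝ) + 1 := by positivity
  have hQ0 : (0 : ℝ) ≤ Q := Nat.cast_nonneg Q
  have hcard : ((Ico i₀ (m - i₀ + 1)).card : ℝ) ≤ (m : ℝ) + 1 := by
    rw [Nat.card_Ico]
    have : m - i₀ + 1 - i₀ ≤ m + 1 := by omega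
    exact_mod_cast this
  have h1 : ∑ κ ∈ Ec R W c, ((Q : ℝ) * (RT W K N a b t n₀ - E - 9 * ε)) -
      (Q : ℝ) / (m + 1) * ∑ i ∈ Ico i₀ (m - i₀ + 1), ∑ κ ∈ Ec R W c, D i κ ≤
      ∑ n ∈ S, min (model v f g n) (t + E) := by
    rw [hS]
    refine le_trans (le_of_eq_of_le ?_ (sum_le_sum (f := fun κ => (Q : ℝ) *
      ((RT W K N a b t n₀ - E - 9 * ε) - 1 / ((m : ℝ) + 1) *
        ∑ i ∈ Ico i₀ (m - i₀ + 1), D i κ)) fun κ hκ => ?_)) hblk
    · rw [sum_comm, mul_sum, ← sum_sub_distrib]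
      refine sum_congr rfl fun κ _ => ?_
      rw [div_mul_eq_mul_div, one_div, mul_div_assoc, div_eq_inv_mul]
      ring
    · refine mul_le_mul_of_nonneg_left ?_ hQ0
      have h2 : ∑ i ∈ Ico i₀ (m - i₀ + 1), (prs W c (a (cell K N (i * (R * Q))))
          (b (cell K N ((m - i) * (R * Q))))
          (fun r u v => TT u v (T (cell K N (i * (R * Q))) (cell K N ((m - i) * (R * Q))) r)) -
          7 * ε - dd W (primorial v) R Q f (fun i => a (cell K N (i * (R * Q)))) i κ -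
          dd W (primorial v) R Q g (fun i => b (cell K N (i * (R * Q)))) (m - i) κ) =
          ∑ i ∈ Ico i₀ (m - i₀ + 1), P i - (Ico i₀ (m - i₀ + 1)).card * (7 * ε) -
            ∑ i ∈ Ico i₀ (m - i₀ + 1), D i κ := by
        rw [← nsmul_eq_mul, ← sum_const, ← sum_sub_distrib, ← sum_sub_distrib]
        refine sum_congr rfl fun i _ => ?_
        rw [hP, hD]
        ring
      rw [h2]
      have h3 : RT W K N a b t n₀ - E ≤ 1 / ((m : ℝ) + 1) * ∑ i ∈ Ico i₀ (m - i₀ + 1), P i := by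
        rw [hT2, hP]
        have := (abs_le.1 hc2').2
        linarith
      have h4 : 1 / ((m : ℝ) + 1) * (((Ico i₀ (m - i₀ + 1)).card : ℝ) * (7 * ε)) ≤ 7 * ε := by
        rw [one_div, inv_mul_le_iff₀ hm1']
        exact mul_le_mul_of_nonneg_right hcard (by positivity)
      rw [mul_sub, mul_sub]
      linarith
  have h5 : ∑ n ∈ S, min (model v f g n) (t + E) ≤ ∑ n ∈ S, min (model v f g n) t + S.card * E := by
    rw [← nsmul_eq_mul, ← sum_const, ← sum_add_distrib]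
    refine sum_le_sum fun n _ => ?_
    rcases min_cases (model v f g n) t with h | h
    · rw [h.1]
      exact (min_le_left _ _).trans (by linarith)
    · rw [h.1]
      exact min_le_right _ _
  have h6 : ∀ n ∈ S, RT W K N a b t n - 9 * ε - 4 * E ≤ RT W K N a b t n₀ - E - 9 * ε - E := by
    intro n hn
    rw [hS, mem_filter, mem_Ico] at hn
    have hnn : n ≡ n₀ [MOD W] := hn.2.trans hn₀c.symm
    have hKm : ((K : ℝ) + 2) / m ≤ E := by
      rw [hE]
      have h9 : (0 : ℝ) ≤ i₀ := Nat.cast_nonneg _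
      have h10 : (0 : ℝ) ≤ K := Nat.cast_nonneg _
      exact div_le_div_of_nonneg_right (by linarith) hm0.le
    have hM0 : (0 : ℝ) < ((R * Q : ℕ) : ℝ) := by exact_mod_cast hM
    have hlow : ∀ x : ℕ, m * (R * Q) ≤ x → (m : ℝ) * ((R * Q : ℕ) : ℝ) ≤ x := fun x hx => by
      exact_mod_cast hx
    have hgen : ∀ x y : ℕ, m * (R * Q) ≤ x → x ≤ y → y < (m + 1) * (R * Q) →
        ((K : ℝ) + 2) * ((y : ℝ) - x) / x ≤ E := by
      intro x y hx hxy hy
      have hx0 : (0 : ℝ) < x := lt_of_lt_of_le (mul_pos hm0 hM0) (hlow x hx)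
      have hyx : (y : ℝ) - x ≤ ((R * Q : ℕ) : ℝ) := by
        have h7 : y ≤ x + R * Q := by
          rw [add_mul, one_mul] at hy
          omega
        have h8 : (y : ℝ) ≤ x + ((R * Q : ℕ) : ℝ) := by exact_mod_cast h7
        linarith
      calc ((K : ℝ) + 2) * ((y : ℝ) - x) / x ≤ ((K : ℝ) + 2) * ((R * Q : ℕ) : ℝ) / x := by
            gcongr
        _ ≤ ((K : ℝ) + 2) * ((R * Q : ℕ) : ℝ) / ((m : ℝ) * ((R * Q : ℕ) : ℝ)) := by
            exact div_le_div_of_nonneg_left (by positivity) (mul_pos hm0 hM0) (hlow x hx)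
        _ = ((K : ℝ) + 2) / m := by field_simp
        _ ≤ E := hKm
    have hd : RT W K N a b t n - RT W K N a b t n₀ ≤ E := by
      rcases le_total n n₀ with hle | hle
      · have h7 := rt_cont (t := t) hK ha hb (by
          have := Nat.mul_pos hm1 hM
          omega) hle hn₀N hnn
        exact (le_abs_self _).trans (h7.trans (hgen n n₀ hn.1.1 hle hn₀2))
      · have hnN : n ≤ N := by
          have h12 := hn.1.2
          rw [add_mul, one_mul] at hN
          omega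
        have h7 := rt_cont (t := t) hK ha hb (by
          have := Nat.mul_pos hm1 hM
          omega) hle hnN hnn.symm
        rw [abs_sub_comm] at h7
        refine (le_abs_self _).trans (h7.trans (hgen n₀ n hn₀1 hle ?_))
        rw [add_mul, one_mul]
        exact hn.1.2
    linarith
  have h7 : ∑ n ∈ S, (RT W K N a b t n - 9 * ε - 4 * E) ≤
      ∑ κ ∈ Ec R W c, ((Q : ℝ) * (RT W K N a b t n₀ - E - 9 * ε)) - S.card * E := by
    refine (sum_le_sum h6).trans (le_of_eq ?_)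
    rw [sum_const, sum_const, nsmul_eq_mul, nsmul_eq_mul, hScard]
    ring
  rw [← hS]
  have h8 : ∑ i ∈ Ico i₀ (m - i₀ + 1), ∑ κ ∈ Ec R W c,
        (dd W (primorial v) R Q f (fun i => a (cell K N (i * (R * Q)))) i κ +
          dd W (primorial v) R Q g (fun i => b (cell K N (i * (R * Q)))) (m - i) κ) =
      ∑ i ∈ Ico i₀ (m - i₀ + 1), ∑ κ ∈ Ec R W c, D i κ := by
    rw [hD]
  rw [h8]
  linarith

end

end Pool.Agent.Lib.MP_629a14_nt.Kp.R
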