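import Pool.Agent.Lib.MP_629a14_nt.Kr.AvB
import Pool.Agent.Lib.MP_629a14_nt.Kr.Pnt
import Pool.Agent.Lib.MP_629a14_nt.Kp.Sharp
import Pool.Agent.Lib.MP_629a14_nt.Kp.Arc

/-! The densities of the rearranged sets. -/

set_option autoImplicit false

namespace Pool.Agent.Lib.MP_629a14_nt.Kp.R

open Finset Filter Topology Pool.Agent.Lib.MP_629a14_nt Pool.Agent.Lib.MP_629a14_nt.Rob

/-- The last integer before the cell `k`. -/
private def cq (K N k : ℕ) : ℕ := (k * (N + 1) - 1) / K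

private theorem cq_iff {K N k p : ℕ} (hK : 1 ≤ K) (hp : 1 ≤ p) :
    p ≤ cq K N k ↔ cell K N p < k := by
  unfold cq cell
  rw [Nat.le_div_iff_mul_le (by omega), Nat.div_lt_iff_lt_mul (by omega)]
  have h1 : 1 ≤ p * K := Nat.mul_pos (by omega) (by omega)
  omega

private theorem cq_mono {K N k : ℕ} : cq K N k ≤ cq K N (k + 1) := by
  unfold cq
  apply Nat.div_le_div_right
  have : k * (N + 1) ≤ (k + 1) * (N + 1) := Nat.mul_le_mul_right _ (by omega)
  omega

private theorem cq_le {K N k : ℕ} (hK : 1 ≤ K) (hk : k ≤ K) : cq K N k ≤ N := by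
  unfold cq
  rw [← Nat.lt_succ_iff, Nat.div_lt_iff_lt_mul (by omega)]
  have h1 : k * (N + 1) ≤ K * (N + 1) := Nat.mul_le_mul_right _ hk
  have h2 : 1 ≤ K * (N + 1) := Nat.mul_pos (by omega) (by omega)
  have h3 : N.succ * K = K * (N + 1) := by rw [mul_comm]
  omega

private theorem cq_close {K N k : ℕ} (hK : 1 ≤ K) (hk : k ≤ K) :
    |(cq K N k : ℝ) - k * N / K| ≤ 2 := by
  have hK' : (1 : ℝ) ≤ K := by exact_mod_cast hK
  have hk' : (k : ℝ) ≤ K := by exact_mod_cast hk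
  have hk0 : (0 : ℝ) ≤ k := Nat.cast_nonneg k
  have h1 : cq K N k * K ≤ k * (N + 1) := by
    have := Nat.div_mul_le_self (k * (N + 1) - 1) K
    unfold cq
    omega
  have h2 : k * (N + 1) ≤ cq K N k * K + K := by
    have h3 := Nat.lt_div_mul_add (a := k * (N + 1) - 1) (b := K) (by omega)
    unfold cq
    omega
  have h1' : (cq K N k : ℝ) * K ≤ k * (N + 1) := by exact_mod_cast h1
  have h2' : (k : ℝ) * (N + 1) ≤ cq K N k * K + K := by exact_mod_cast h2
  rw [abs_le]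
  constructor
  · rw [le_sub_iff_add_le, ← le_sub_iff_add_le', div_le_iff₀ (by linarith)]
    nlinarith
  · rw [sub_le_iff_le_add, ← sub_le_iff_le_add', le_div_iff₀ (by linarith)]
    nlinarith

private theorem cellc_eq (A : Set ℕ) {W K N k r : ℕ} (hK : 1 ≤ K) (hk : k < K) (hr : r < W) :
    (cellc A W K N k r : ℝ) = (cntA A W r (cq K N (k + 1)) : ℝ) - cntA A W r (cq K N k) := by
  classical
  have hm := cq_mono (K := K) (N := N) (k := k)
  have hl := cq_le (K := K) (N := N) (k := k + 1) hK (by omega)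
  have hmod : ∀ p : ℕ, p % W = r ↔ p ≡ r [MOD W] := by
    intro p
    unfold Nat.ModEq
    rw [Nat.mod_eq_of_lt hr]
  have h1 : cntA A W r (cq K N (k + 1)) = cellc A W K N k r + cntA A W r (cq K N k) := by
    unfold cntA cellc
    rw [← card_union_of_disjoint]
    · congr 1
      ext p
      simp only [mem_union, mem_filter, mem_Icc, hmod]
      constructor
      · rintro ⟨⟨h2, h3⟩, h4, h5, h6⟩
        by_cases h7 : p ≤ cq K N k
        · exact Or.inr ⟨⟨h2, h7⟩, h4, h5, h6⟩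
        · left
          rw [cq_iff hK h2] at h7 h3
          exact ⟨⟨h2, by rw [← cq_iff hK h2] at h3; omega⟩, h4, h5, by omega, h6⟩
      · rintro (⟨⟨h2, h3⟩, h4, h5, h6, h7⟩ | ⟨⟨h2, h3⟩, h4, h5, h6⟩)
        · exact ⟨⟨h2, (cq_iff hK h2).2 (by omega)⟩, h4, h5, h7⟩
        · exact ⟨⟨h2, by omega⟩, h4, h5, h6⟩
    · rw [disjoint_left]
      intro p hp hp'
      simp only [mem_filter, mem_Icc] at hp hp'
      have := (cq_iff hK hp'.1.1).1 hp'.1.2
      omega
  rw [h1]
  push_cast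
  ring

private theorem dns_gen (A : Set ℕ) (c : ℝ) (hc0 : 0 ≤ c) (hc1 : c ≤ 1) (hA : HasDensity A c)
    (W K : ℕ) (hW : 1 ≤ W) (hK : 1 ≤ K) (θ : ℝ) (hθ : 0 < θ) : ∃ N₀ : ℕ, ∀ N : ℕ, N₀ ≤ N →
      ∀ k r : ℕ, k < K → r < W → r.Coprime W → |dns A W K N k r - c| ≤ θ := by
  have hφ : (1 : ℝ) ≤ W.totient := by
    have := Nat.totient_pos.2 (show 0 < W by omega)
    exact_mod_cast this
  have hK' : (1 : ℝ) ≤ K := by exact_mod_cast hK
  obtain ⟨ε, hε⟩ : ∃ ε : ℝ, ε = min (1 / (8 * (K : ℝ) * W.totient))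
    (θ / (16 * (K : ℝ) * W.totient)) := ⟨_, rfl⟩
  have hε0 : 0 < ε := by
    rw [hε]
    exact lt_min (by positivity) (by positivity)
  have hε1 : ε * (8 * K * W.totient) ≤ 1 := by
    rw [← le_div_iff₀ (by positivity), hε]
    exact min_le_left _ _
  have hε2 : ε * (16 * K * W.totient) ≤ θ := by
    rw [← le_div_iff₀ (by positivity), hε]
    exact min_le_right _ _
  have hP : HasProfile A 1 (fun _ => c) := fun q a hq _ ha => hA q a hq ha
  obtain ⟨N₁, h1⟩ := prof_unif hP W hW (one_dvd W) ε hε0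
  obtain ⟨N₂, h2⟩ := pnt_class W hW ε hε0
  refine ⟨max (max N₁ N₂) (8 * K + 1), fun N hN k r hk hr hcr => ?_⟩
  have hN1 : N₁ ≤ N := (le_max_left _ _).trans ((le_max_left _ _).trans hN)
  have hN2 : N₂ ≤ N := (le_max_right _ _).trans ((le_max_left _ _).trans hN)
  have hN3 : 8 * K + 1 ≤ N := (le_max_right _ _).trans hN
  have hN3' : (8 : ℝ) * K + 1 ≤ N := by exact_mod_cast hN3
  have hNpos : (0 : ℝ) < N := by linarith
  have hlog : 0 < Real.log N := Real.log_pos (by linarith)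
  obtain ⟨x, hx⟩ : ∃ x : ℕ, x = cq K N k := ⟨_, rfl⟩
  obtain ⟨y, hy⟩ : ∃ y : ℕ, y = cq K N (k + 1) := ⟨_, rfl⟩
  have hxN : x ≤ N := hx ▸ cq_le hK (by omega)
  have hyN : y ≤ N := hy ▸ cq_le hK (by omega)
  have cx := cq_close (K := K) (N := N) (k := k) hK (by omega)
  have cy := cq_close (K := K) (N := N) (k := k + 1) hK (by omega)
  rw [← hx] at cx
  rw [← hy] at cy
  have hlen : (N : ℝ) / (2 * K) ≤ (y : ℝ) - x := by
    have h3 : ((k + 1 : ℕ) : ℝ) * N / K = (k : ℝ) * N / K + N / K := by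
      push_cast
      ring
    rw [h3] at cy
    have h4 := (abs_le.1 cx).2
    have h5 := (abs_le.1 cy).1
    have h6 : (N : ℝ) / (2 * K) = N / K - N / (2 * K) := by
      field_simp
      ring
    have h7 : 4 ≤ (N : ℝ) / (2 * K) := by
      rw [le_div_iff₀ (by positivity)]
      linarith
    linarith
  have a1 := h1 N hN1 r hcr x hxN
  have a2 := h1 N hN1 r hcr y hyN
  have b1 := h2 N hN2 r hcr x hxN
  have b2 := h2 N hN2 r hcr y hyN
  have eA := cellc_eq A (W := W) (N := N) hK hk hr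
  have eU := cellc_eq Set.univ (W := W) (N := N) hK hk hr
  rw [← hx, ← hy] at eA eU
  obtain ⟨X, hX⟩ : ∃ X : ℝ, X = cellc A W K N k r := ⟨_, rfl⟩
  obtain ⟨Y, hY⟩ : ∃ Y : ℝ, Y = cellc Set.univ W K N k r := ⟨_, rfl⟩
  have g1 : |Real.log N * X - c * (((y : ℝ) - x) / W.totient)| ≤ 2 * (ε * N) := by
    have : Real.log N * X - c * (((y : ℝ) - x) / W.totient) =
        (Real.log N * (cntA A W r y : ℝ) - c * y / W.totient) -
        (Real.log N * (cntA A W r x : ℝ) - c * x / W.totient) := by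
      rw [hX, eA]
      ring
    rw [this]
    refine (abs_sub _ _).trans ?_
    linarith
  have g2 : |Real.log N * Y - ((y : ℝ) - x) / W.totient| ≤ 2 * (ε * N) := by
    have : Real.log N * Y - ((y : ℝ) - x) / W.totient =
        (Real.log N * (cntA Set.univ W r y : ℝ) - y / W.totient) -
        (Real.log N * (cntA Set.univ W r x : ℝ) - x / W.totient) := by
      rw [hY, eU]
      ring
    rw [this]
    refine (abs_sub _ _).trans ?_
    linarith
  have g3 : (N : ℝ) / (2 * K * W.totient) ≤ ((y : ℝ) - x) / W.totient := by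
    rw [← div_div]
    exact div_le_div_of_nonneg_right hlen (by linarith)
  have g4 : (N : ℝ) / (4 * K * W.totient) ≤ Real.log N * Y := by
    have h3 := (abs_le.1 g2).1
    have h4 : 2 * (ε * N) ≤ (N : ℝ) / (4 * K * W.totient) := by
      rw [le_div_iff₀ (by positivity)]
      have := mul_le_mul_of_nonneg_right hε1 hNpos.le
      linarith
    have h5 : (N : ℝ) / (2 * K * W.totient) = N / (4 * K * W.totient) + N / (4 * K * W.totient) := by
      field_simp
      ring
    linarith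
  have hLY : 0 < Real.log N * Y := lt_of_lt_of_le (by positivity) g4
  have hYpos : 0 < Y := (pos_iff_pos_of_mul_pos hLY).1 hlog
  have g5 : |Real.log N * X - c * (Real.log N * Y)| ≤ 4 * (ε * N) := by
    have : Real.log N * X - c * (Real.log N * Y) =
        (Real.log N * X - c * (((y : ℝ) - x) / W.totient)) -
        c * (Real.log N * Y - ((y : ℝ) - x) / W.totient) := by ring
    rw [this]
    refine (abs_sub _ _).trans ?_
    rw [abs_mul, abs_of_nonneg hc0]
    have h3 : c * |Real.log N * Y - ((y : ℝ) - x) / W.totient| ≤ 1 * (2 * (ε * N)) :=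
      mul_le_mul hc1 g2 (abs_nonneg _) zero_le_one
    linarith
  unfold dns
  rw [← hX, ← hY]
  have e : X / Y - c = (Real.log N * X - c * (Real.log N * Y)) / (Real.log N * Y) := by
    field_simp
  rw [e, abs_div, abs_of_pos hLY, div_le_iff₀ hLY]
  refine g5.trans ?_
  have h6 : θ * ((N : ℝ) / (4 * K * W.totient)) ≤ θ * (Real.log N * Y) :=
    mul_le_mul_of_nonneg_left g4 hθ.le
  refine le_trans ?_ h6
  have h7 : 4 * (ε * N) = ε * (16 * K * W.totient) * ((N : ℝ) / (4 * K * W.totient)) := by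
    field_simp
    ring
  rw [h7]
  exact mul_le_mul_of_nonneg_right hε2 (by positivity)

/-- From `arc_density`, `prof_unif` or `dens_at`, and the lower bound of the number of all primes
in the cell and the class. -/
theorem arc_cell (W K : ℕ) (hW : 1 ≤ W) (hK : 1 ≤ K) (α β : ℝ) (h0 : 0 ≤ α) (h1 : α ≤ β)
    (h2 : β ≤ 1) (θ : ℝ) (hθ : 0 < θ) : ∃ N₀ : ℕ, ∀ N : ℕ, N₀ ≤ N → ∀ k r : ℕ, k < K → r < W →
      r.Coprime W → |dns (arcS α β) W K N k r - (β - α)| ≤ θ :=
  dns_gen (arcS α β) (β - α) (by linarith) (by linarith) (arc_density α β h0 h1 h2) W K hW hK θ hθ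

private theorem dns_mono' {A B : Set ℕ} (h : A ⊆ B) (W K N k r : ℕ) :
    dns A W K N k r ≤ dns B W K N k r := by
  classical
  unfold dns
  apply div_le_div_of_nonneg_right _ (Nat.cast_nonneg _)
  have : cellc A W K N k r ≤ cellc B W K N k r := by
    unfold cellc
    refine card_le_card fun p hp => ?_
    simp only [mem_filter] at hp ⊢
    exact ⟨hp.1, hp.2.1, h hp.2.2.1, hp.2.2.2⟩
  exact_mod_cast this

private theorem arcS_mono {α β α' β' : ℝ} (h1 : α' ≤ α) (h2 : β ≤ β') :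
    arcS α β ⊆ arcS α' β' := fun _ hp => ⟨h1.trans hp.1, hp.2.trans_le h2⟩

/-- Uniformity in the interval, from `arc_cell` for the intervals `[i / J, j / J)`. -/
theorem arc_unif (W K : ℕ) (hW : 1 ≤ W) (hK : 1 ≤ K) (θ : ℝ) (hθ : 0 < θ) :
    ∃ N₀ : ℕ, ∀ N : ℕ, N₀ ≤ N → ∀ α β : ℝ, 0 ≤ α → α ≤ β → β ≤ 1 → ∀ k r : ℕ, k < K → r < W →
      r.Coprime W → |dns (arcS α β) W K N k r - (β - α)| ≤ θ := by
  obtain ⟨J, hJ⟩ := exists_nat_gt (4 / θ)
  have hJ0 : (0 : ℝ) < J := lt_trans (by positivity) hJ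
  have hJ1 : 2 / (J : ℝ) ≤ θ / 2 := by
    rw [div_lt_iff₀ hθ] at hJ
    rw [div_le_iff₀ hJ0]
    nlinarith
  have h1 : ∀ i j : ℕ, ∃ N₁ : ℕ, i ≤ j → j ≤ J → ∀ N : ℕ, N₁ ≤ N → ∀ k r : ℕ, k < K → r < W →
      r.Coprime W → |dns (arcS ((i : ℝ) / J) ((j : ℝ) / J)) W K N k r -
        ((j : ℝ) / J - (i : ℝ) / J)| ≤ θ / 2 := by
    intro i j
    by_cases h : i ≤ j ∧ j ≤ J
    · have hij : (i : ℝ) ≤ j := by exact_mod_cast h.1
      have hjJ : (j : ℝ) ≤ J := by exact_mod_cast h.2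
      obtain ⟨N₁, hN₁⟩ := arc_cell W K hW hK ((i : ℝ) / J) ((j : ℝ) / J) (by positivity)
        (by gcongr) (by rwa [div_le_one hJ0]) (θ / 2) (by positivity)
      exact ⟨N₁, fun _ _ => hN₁⟩
    · exact ⟨0, fun h3 h4 => absurd ⟨h3, h4⟩ h⟩
  choose N₁ hN₁ using h1
  refine ⟨(range (J + 1)).sup (fun i => (range (J + 1)).sup (fun j => N₁ i j)),
    fun N hN α β hα hαβ hβ k r hk hr hc => ?_⟩
  have hsup : ∀ i j : ℕ, i ≤ j → j ≤ J → N₁ i j ≤ N := by
    intro i j hij hj
    refine le_trans ?_ hN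
    refine le_trans ?_ (le_sup (f := fun i => (range (J + 1)).sup (fun j => N₁ i j))
      (mem_range.2 (show i < J + 1 by omega)))
    exact le_sup (f := fun j => N₁ i j) (mem_range.2 (show j < J + 1 by omega))
  have hαJ0 : 0 ≤ α * J := by positivity
  have hβ0 : 0 ≤ β := hα.trans hαβ
  have hβJ0 : 0 ≤ β * J := by positivity
  have hαβJ : α * J ≤ β * J := mul_le_mul_of_nonneg_right hαβ hJ0.le
  have hβJ : β * J ≤ J := by nlinarith
  rw [abs_le]
  constructor
  · -- lower bound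
    by_cases hij : ⌈α * J⌉₊ ≤ ⌊β * J⌋₊
    · have hj : ⌊β * J⌋₊ ≤ J := by
        have h3 : ((⌊β * J⌋₊ : ℕ) : ℝ) ≤ (J : ℕ) := (Nat.floor_le hβJ0).trans hβJ
        exact_mod_cast h3
      have h3 := hN₁ _ _ hij hj N (hsup _ _ hij hj) k r hk hr hc
      have h4 : dns (arcS ((⌈α * J⌉₊ : ℝ) / J) ((⌊β * J⌋₊ : ℝ) / J)) W K N k r ≤
          dns (arcS α β) W K N k r := by
        apply dns_mono'
        apply arcS_mono
        · rw [le_div_iff₀ hJ0]
          exact Nat.le_ceil _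
        · rw [div_le_iff₀ hJ0]
          exact Nat.floor_le hβJ0
      have h5 := (abs_le.1 h3).1
      have h6 : (⌈α * J⌉₊ : ℝ) / J ≤ α + 1 / J := by
        rw [div_le_iff₀ hJ0, add_mul, one_div_mul_cancel hJ0.ne']
        exact (Nat.ceil_lt_add_one hαJ0).le
      have h7 : β - 1 / J ≤ (⌊β * J⌋₊ : ℝ) / J := by
        rw [le_div_iff₀ hJ0, sub_mul, one_div_mul_cancel hJ0.ne']
        have := Nat.lt_floor_add_one (β * J)
        linarith
      have h8 : 2 / (J : ℝ) = 1 / J + 1 / J := by ring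
      linarith
    · have h3 := (dns_mem (arcS α β) W K N k r).1
      have h4 : ⌊β * J⌋₊ + 1 ≤ ⌈α * J⌉₊ := by omega
      have h5 : (⌊β * J⌋₊ : ℝ) + 1 ≤ ⌈α * J⌉₊ := by exact_mod_cast h4
      have h6 := Nat.lt_floor_add_one (β * J)
      have h7 := Nat.ceil_lt_add_one hαJ0
      have h8 : β - α ≤ 1 / J := by
        rw [le_div_iff₀ hJ0]
        nlinarith
      have h9 : 2 / (J : ℝ) = 1 / J + 1 / J := by ring
      have h10 : 0 < 1 / (J : ℝ) := by positivity
      linarith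
  · -- upper bound
    have hij : ⌊α * J⌋₊ ≤ ⌈β * J⌉₊ := by
      have h3 : ((⌊α * J⌋₊ : ℕ) : ℝ) ≤ (⌈β * J⌉₊ : ℕ) :=
        (Nat.floor_le hαJ0).trans (hαβJ.trans (Nat.le_ceil _))
      exact_mod_cast h3
    have hj : ⌈β * J⌉₊ ≤ J := Nat.ceil_le.2 hβJ
    have h3 := hN₁ _ _ hij hj N (hsup _ _ hij hj) k r hk hr hc
    have h4 : dns (arcS α β) W K N k r ≤
        dns (arcS ((⌊α * J⌋₊ : ℝ) / J) ((⌈β * J⌉₊ : ℝ) / J)) W K N k r := by
      apply dns_mono'
      apply arcS_mono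
      · rw [div_le_iff₀ hJ0]
        exact Nat.floor_le hαJ0
      · rw [le_div_iff₀ hJ0]
        exact Nat.le_ceil _
    have h5 := (abs_le.1 h3).2
    have h6 : (⌈β * J⌉₊ : ℝ) / J ≤ β + 1 / J := by
      rw [div_le_iff₀ hJ0, add_mul, one_div_mul_cancel hJ0.ne']
      exact (Nat.ceil_lt_add_one hβJ0).le
    have h7 : α - 1 / J ≤ (⌊α * J⌋₊ : ℝ) / J := by
      rw [le_div_iff₀ hJ0, sub_mul, one_div_mul_cancel hJ0.ne']
      have := Nat.lt_floor_add_one (α * J)
      linarith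
    have h8 : 2 / (J : ℝ) = 1 / J + 1 / J := by ring
    linarith

private theorem sd_cellc_le {S A B : Set ℕ} {W K N k r : ℕ}
    (h : ∀ p : ℕ, p.Prime → cell K N p = k → p % W = r → p ∈ S → p ∈ A ∨ p ∈ B) :
    cellc S W K N k r ≤ cellc A W K N k r + cellc B W K N k r := by
  classical
  unfold cellc
  refine le_trans (card_le_card ?_) (card_union_le _ _)
  intro p hp
  simp only [mem_filter, mem_union] at hp ⊢
  obtain ⟨h1, h2, h3, h4, h5⟩ := hp
  rcases h p h2 h4 h5 h3 with h6 | h6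
  · exact Or.inl ⟨h1, h2, h6, h4, h5⟩
  · exact Or.inr ⟨h1, h2, h6, h4, h5⟩

private theorem sd_cellc_ge {S A B : Set ℕ} {W K N k r : ℕ}
    (hA : ∀ p : ℕ, p.Prime → cell K N p = k → p % W = r → p ∈ A → p ∈ S)
    (hB : ∀ p : ℕ, p.Prime → cell K N p = k → p % W = r → p ∈ B → p ∈ S)
    (hAB : ∀ p : ℕ, p ∈ A → p ∈ B → False) :
    cellc A W K N k r + cellc B W K N k r ≤ cellc S W K N k r := by
  classical
  unfold cellc
  rw [← card_union_of_disjoint]
  · refine card_le_card ?_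
    intro p hp
    simp only [mem_filter, mem_union] at hp ⊢
    rcases hp with ⟨h1, h2, h3, h4, h5⟩ | ⟨h1, h2, h3, h4, h5⟩
    · exact ⟨h1, h2, hA p h2 h4 h5 h3, h4, h5⟩
    · exact ⟨h1, h2, hB p h2 h4 h5 h3, h4, h5⟩
  · rw [disjoint_left]
    intro p hp hq
    simp only [mem_filter] at hp hq
    exact hAB p hp.2.2.1 hq.2.2.1

private theorem sd_dns_le {S A B : Set ℕ} {W K N k r : ℕ}
    (h : ∀ p : ℕ, p.Prime → cell K N p = k → p % W = r → p ∈ S → p ∈ A ∨ p ∈ B) :
    dns S W K N k r ≤ dns A W K N k r + dns B W K N k r := by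
  unfold dns
  rw [← add_div]
  refine div_le_div_of_nonneg_right ?_ (Nat.cast_nonneg _)
  exact_mod_cast sd_cellc_le h

private theorem sd_dns_ge {S A B : Set ℕ} {W K N k r : ℕ}
    (hA : ∀ p : ℕ, p.Prime → cell K N p = k → p % W = r → p ∈ A → p ∈ S)
    (hB : ∀ p : ℕ, p.Prime → cell K N p = k → p % W = r → p ∈ B → p ∈ S)
    (hAB : ∀ p : ℕ, p ∈ A → p ∈ B → False) :
    dns A W K N k r + dns B W K N k r ≤ dns S W K N k r := by
  unfold dns
  rw [← add_div]
  refine div_le_div_of_nonneg_right ?_ (Nat.cast_nonneg _)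
  exact_mod_cast sd_cellc_ge hA hB hAB

private theorem sd_dns_congr {S A : Set ℕ} {W K N k r : ℕ}
    (h : ∀ p : ℕ, p.Prime → cell K N p = k → p % W = r → (p ∈ S ↔ p ∈ A)) :
    dns S W K N k r = dns A W K N k r := by
  have : cellc S W K N k r = cellc A W K N k r := by
    unfold cellc
    refine le_antisymm (card_le_card fun p hp => ?_) (card_le_card fun p hp => ?_)
    · simp only [mem_filter] at hp ⊢
      obtain ⟨h1, h2, h3, h4, h5⟩ := hp
      exact ⟨h1, h2, (h p h2 h4 h5).1 h3, h4, h5⟩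
    · simp only [mem_filter] at hp ⊢
      obtain ⟨h1, h2, h3, h4, h5⟩ := hp
      exact ⟨h1, h2, (h p h2 h4 h5).2 h3, h4, h5⟩
  unfold dns
  rw [this]

/-- The coarse cell is determined by the fine cell. -/
private theorem sd_cell {K K' N x p : ℕ} (hK' : 1 ≤ K') (hK : K ∣ K')
    (h : cell K' N p = cell K' N x) : cell K N p = cell K N x := by
  obtain ⟨K₂, rfl⟩ := hK
  have hK₂ : 1 ≤ K₂ := by
    rcases Nat.eq_zero_or_pos K₂ with h0 | h0
    · subst h0
      omega
    · exact h0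
  rw [← cell_nest (K := K) (N := N) (x := p) hK₂, ← cell_nest (K := K) (N := N) (x := x) hK₂, h]

private theorem sd_mod {W W' x p : ℕ} (hW : W ∣ W') (h : p % W' = x % W') : p % W = x % W := by
  have : p ≡ x [MOD W'] := h
  exact this.of_dvd hW

private theorem sd_cop {W W' x p : ℕ} (hW : W ∣ W') (hx : x.Coprime W') (h : p % W' = x % W') :
    p.Coprime W := by
  have h1 : p ≡ x [MOD W'] := h
  have h2 : p.Coprime W' := by
    unfold Nat.Coprime at hx ⊢
    rw [h1.gcd_eq]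
    exact hx
  exact h2.coprime_dvd_right hW

/-- Distance to the nearest integer and fractional part. -/
private theorem sd_round {y α : ℝ} (h1 : α ≤ 1) :
    |y - round y| < α / 2 ↔ Int.fract y < α / 2 ∨ 1 - α / 2 < Int.fract y := by
  rw [abs_sub_round_eq_min]
  rw [min_lt_iff]
  constructor
  · rintro (h | h)
    · exact Or.inl h
    · right
      linarith
  · rintro (h | h)
    · exact Or.inl h
    · right
      linarith

/-- The densities of the rearranged set on a finer level. -/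
theorem star_dns (W K W' K' : ℕ) (hW' : 1 ≤ W') (hK' : 1 ≤ K') (hW : W ∣ W') (hK : K ∣ K')
    (θ : ℝ) (hθ : 0 < θ) : ∃ N₀ : ℕ, ∀ N : ℕ, N₀ ≤ N → ∀ a : ℕ → ℕ → ℝ,
      (∀ k r, 0 ≤ a k r ∧ a k r ≤ 1) → ∀ x : ℕ, x ≤ N → x.Coprime W' →
      |dnp (starN W K N a) W' K' N x - a (cell K N x) (x % W)| ≤ θ := by
  obtain ⟨N₀, hN₀⟩ := arc_unif W' K' hW' hK' (θ / 3) (by positivity)
  refine ⟨N₀, fun N hN a ha x hx hxc => ?_⟩
  have hk : cell K' N x < K' := cell_lt hK' hx
  have hr : x % W' < W' := Nat.mod_lt _ (by omega)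
  have hrc : (x % W').Coprime W' := by
    unfold Nat.Coprime at hxc ⊢
    rw [(Nat.mod_modEq x W').gcd_eq]
    exact hxc
  obtain ⟨ha0, ha1⟩ := ha (cell K N x) (x % W)
  set α := a (cell K N x) (x % W) with hα
  -- membership in the fine cell
  have hmem : ∀ p : ℕ, p.Prime → cell K' N p = cell K' N x → p % W' = x % W' →
      (p ∈ starN W K N a ↔ Int.fract (Real.sqrt 2 * p) < α / 2 ∨
        1 - α / 2 < Int.fract (Real.sqrt 2 * p)) := by
    intro p _ h4 h5
    have e1 : cell K N p = cell K N x := sd_cell hK' hK h4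
    have e2 : p % W = x % W := sd_mod hW h5
    have e3 : p.Coprime W := sd_cop hW hxc h5
    rw [← sd_round ha1]
    unfold starN
    simp only [Set.mem_setOf_eq]
    rw [e1, e2]
    exact ⟨fun h => h.2, fun h => ⟨e3, h⟩⟩
  set β := min 1 (1 - α / 2 + θ / 3) with hβ
  have hβ1 : β ≤ 1 := min_le_left _ _
  have hβ2 : β ≤ 1 - α / 2 + θ / 3 := min_le_right _ _
  have hβ0 : 0 ≤ β := le_min zero_le_one (by linarith)
  have b1 := hN₀ N hN 0 (α / 2) le_rfl (by linarith) (by linarith) _ _ hk hr hrc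
  have b2 := hN₀ N hN (1 - α / 2) 1 (by linarith) (by linarith) le_rfl _ _ hk hr hrc
  have b3 := hN₀ N hN β 1 hβ0 hβ1 le_rfl _ _ hk hr hrc
  have up : dns (starN W K N a) W' K' N (cell K' N x) (x % W') ≤
      dns (arcS 0 (α / 2)) W' K' N (cell K' N x) (x % W') +
        dns (arcS (1 - α / 2) 1) W' K' N (cell K' N x) (x % W') := by
    refine sd_dns_le fun p hp h4 h5 h3 => ?_
    rcases (hmem p hp h4 h5).1 h3 with h | h
    · exact Or.inl ⟨Int.fract_nonneg _, h⟩
    · exact Or.inr ⟨h.le, Int.fract_lt_one _⟩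
  have lo : dns (arcS 0 (α / 2)) W' K' N (cell K' N x) (x % W') +
      dns (arcS β 1) W' K' N (cell K' N x) (x % W') ≤
        dns (starN W K N a) W' K' N (cell K' N x) (x % W') := by
    refine sd_dns_ge (fun p hp h4 h5 h3 => ?_) (fun p hp h4 h5 h3 => ?_) (fun p h3 h6 => ?_)
    · exact (hmem p hp h4 h5).2 (Or.inl h3.2)
    · refine (hmem p hp h4 h5).2 (Or.inr ?_)
      obtain ⟨h7, h8⟩ := h3
      rcases le_total 1 (1 - α / 2 + θ / 3) with h9 | h9
      · rw [hβ, min_eq_left h9] at h7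
        linarith
      · rw [hβ, min_eq_right h9] at h7
        linarith
    · obtain ⟨_, h7⟩ := h3
      obtain ⟨h8, h10⟩ := h6
      rcases le_total 1 (1 - α / 2 + θ / 3) with h9 | h9
      · rw [hβ, min_eq_left h9] at h8
        linarith
      · rw [hβ, min_eq_right h9] at h8
        linarith
  unfold dnp
  rw [abs_le] at b1 b2 b3 ⊢
  constructor
  · linarith [b1.1, b3.1]
  · linarith [b1.2, b2.2]

/-- The part of an arc in a cell and a class. -/
def CS (W K N J k r h : ℕ) : Set ℕ :=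
  {p : ℕ | cell K N p = k ∧ p % W = r ∧ p ∈ arcS ((h : ℝ) / J) (((h : ℝ) + 1) / J)}

open Classical in
theorem cs_dns (W K W' K' J : ℕ) (hW' : 1 ≤ W') (hK' : 1 ≤ K') (hW : W ∣ W') (hK : K ∣ K')
    (hJ : 1 ≤ J) (θ : ℝ) (hθ : 0 < θ) : ∃ N₀ : ℕ, ∀ N : ℕ, N₀ ≤ N → ∀ k r h : ℕ, h < J →
      ∀ x : ℕ, x ≤ N → x.Coprime W' →
      |dnp (CS W K N J k r h) W' K' N x -
        (if cell K N x = k ∧ x % W = r then 1 / (J : ℝ) else 0)| ≤ θ := by
  obtain ⟨N₀, hN₀⟩ := arc_unif W' K' hW' hK' θ hθ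
  refine ⟨N₀, fun N hN k r h hh x hx hxc => ?_⟩
  have hk : cell K' N x < K' := cell_lt hK' hx
  have hr : x % W' < W' := Nat.mod_lt _ (by omega)
  have hrc : (x % W').Coprime W' := by
    unfold Nat.Coprime at hxc ⊢
    rw [(Nat.mod_modEq x W').gcd_eq]
    exact hxc
  unfold dnp
  split_ifs with hc
  · obtain ⟨hc1, hc2⟩ := hc
    have hJ' : (0 : ℝ) < J := by exact_mod_cast hJ
    have e : dns (CS W K N J k r h) W' K' N (cell K' N x) (x % W') =
        dns (arcS ((h : ℝ) / J) (((h : ℝ) + 1) / J)) W' K' N (cell K' N x) (x % W') := by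
      refine sd_dns_congr fun p _ h4 h5 => ?_
      have e1 : cell K N p = cell K N x := sd_cell hK' hK h4
      have e2 : p % W = x % W := sd_mod hW h5
      unfold CS
      simp only [Set.mem_setOf_eq]
      exact ⟨fun h => h.2.2, fun h => ⟨e1.trans hc1, e2.trans hc2, h⟩⟩
    have h1 := hN₀ N hN ((h : ℝ) / J) (((h : ℝ) + 1) / J) (by positivity)
      (div_le_div_of_nonneg_right (by linarith) hJ'.le)
      (by rw [div_le_one hJ']; exact_mod_cast hh) _ _ hk hr hrc
    have e3 : ((h : ℝ) + 1) / J - (h : ℝ) / J = 1 / J := by ring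
    rw [e3] at h1
    rw [e]
    exact h1
  · have e : dns (CS W K N J k r h) W' K' N (cell K' N x) (x % W') = 0 := by
      have e0 : cellc (CS W K N J k r h) W' K' N (cell K' N x) (x % W') = 0 := by
        unfold cellc
        rw [card_eq_zero, filter_eq_empty_iff]
        rintro p _ ⟨_, h3, h4, h5⟩
        have e1 : cell K N p = cell K N x := sd_cell hK' hK h4
        have e2 : p % W = x % W := sd_mod hW h5
        exact hc ⟨e1.symm.trans h3.1, e2.symm.trans h3.2.1⟩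
      unfold dns
      rw [e0, Nat.cast_zero, zero_div]
    rw [e, sub_zero, abs_zero]
    exact hθ.le

/-- A set whose densities on both levels are close to the same function is flat. -/
theorem flat_close (W' : ℕ) (hW' : 1 ≤ W') (θ : ℝ) (hθ : 0 < θ) : ∃ N₀ : ℕ, ∀ N : ℕ, N₀ ≤ N →
    ∀ (W K K' : ℕ) (A : Set ℕ) (g : ℕ → ℝ), (∀ x : ℕ, x ≤ N → x.Coprime W' →
      |dnp A W' K' N x - g x| ≤ θ ∧ |dnp A W K N x - g x| ≤ θ) → Flat W K W' K' N A (5 * θ) := by
  obtain ⟨N₁, hN₁⟩ := pnt_class 1 le_rfl 1 one_pos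
  -- `W' log N ≤ θ N`
  have hlog : Tendsto (fun N : ℕ => Real.log N / (N : ℝ)) atTop (𝓝 0) := by
    have h1 : Tendsto (fun x : ℝ => Real.log x / x) atTop (𝓝 0) := by
      have := Real.isLittleO_log_id_atTop.tendsto_div_nhds_zero
      simpa using this
    exact h1.comp tendsto_natCast_atTop_atTop
  have hW0 : (0 : ℝ) < W' := by exact_mod_cast hW'
  obtain ⟨N₂, hN₂⟩ := eventually_atTop.1 ((tendsto_order.1 hlog).2 (θ / W') (by positivity))
  refine ⟨max (max N₁ N₂) 1, fun N hN W K K' A g hg => ?_⟩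
  have hNN1 : N₁ ≤ N := le_trans (le_trans (le_max_left _ _) (le_max_left _ _)) hN
  have hNN2 : N₂ ≤ N := le_trans (le_trans (le_max_right _ _) (le_max_left _ _)) hN
  have hN1 : 1 ≤ N := le_trans (le_max_right _ _) hN
  have hNpos : (0 : ℝ) < N := by exact_mod_cast hN1
  have hlog0 : 0 ≤ Real.log N := Real.log_natCast_nonneg N
  have hW1 : (W' : ℝ) * Real.log N ≤ θ * N := by
    have := hN₂ N hNN2
    rw [div_lt_div_iff₀ hNpos hW0] at this
    linarith
  have hpi : Real.log N * ((((Icc 1 N).filter Nat.Prime).card : ℕ) : ℝ) ≤ 2 * N := by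
    have h := hN₁ N hNN1 0 (Nat.coprime_one_right 0) N le_rfl
    have e : ((Icc 1 N).filter Nat.Prime).card ≤ cntA Set.univ 1 0 N := by
      unfold cntA
      refine card_le_card fun p hp => ?_
      simp only [mem_filter] at hp ⊢
      exact ⟨hp.1, hp.2, Set.mem_univ _, Nat.modEq_one⟩
    have e' : ((((Icc 1 N).filter Nat.Prime).card : ℕ) : ℝ) ≤ (cntA Set.univ 1 0 N : ℝ) := by
      exact_mod_cast e
    rw [Nat.totient_one, Nat.cast_one, div_one, abs_le] at h
    have h3 := mul_le_mul_of_nonneg_left e' hlog0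
    linarith [h.2]
  -- the pointwise bound
  have hpt : ∀ p ∈ (Icc 1 N).filter Nat.Prime, |dnp A W' K' N p - dnp A W K N p| ≤
      2 * θ + if p ∣ W' then 1 else 0 := by
    intro p hp
    rw [mem_filter, mem_Icc] at hp
    split_ifs with hd
    · have h1 := dns_mem A W' K' N (cell K' N p) (p % W')
      have h2 := dns_mem A W K N (cell K N p) (p % W)
      unfold dnp
      rw [abs_le]
      constructor <;> linarith [h1.1, h1.2, h2.1, h2.2]
    · have hc : p.Coprime W' := (Nat.Prime.coprime_iff_not_dvd hp.2).2 hd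
      obtain ⟨h1, h2⟩ := hg p hp.1.2 hc
      rw [abs_le] at h1 h2 ⊢
      constructor <;> linarith [h1.1, h1.2, h2.1, h2.2]
  have hcard : ((((Icc 1 N).filter Nat.Prime).filter (fun p => p ∣ W')).card : ℝ) ≤ W' := by
    have h1 : ((Icc 1 N).filter Nat.Prime).filter (fun p => p ∣ W') ⊆ Icc 1 W' := by
      intro p hp
      simp only [mem_filter, mem_Icc] at hp ⊢
      exact ⟨hp.1.1.1, Nat.le_of_dvd (by omega) hp.2⟩
    have h2 := card_le_card h1
    rw [Nat.card_Icc] at h2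
    have h3 : (((Icc 1 N).filter Nat.Prime).filter (fun p => p ∣ W')).card ≤ W' := by omega
    exact_mod_cast h3
  unfold Flat
  calc Real.log N * ∑ p ∈ (Icc 1 N).filter Nat.Prime, |dnp A W' K' N p - dnp A W K N p|
      ≤ Real.log N * ∑ p ∈ (Icc 1 N).filter Nat.Prime, (2 * θ + if p ∣ W' then (1 : ℝ) else 0) :=
        mul_le_mul_of_nonneg_left (sum_le_sum hpt) hlog0
    _ = 2 * θ * (Real.log N * ((((Icc 1 N).filter Nat.Prime).card : ℕ) : ℝ)) +
        Real.log N * ((((Icc 1 N).filter Nat.Prime).filter (fun p => p ∣ W')).card : ℝ) := by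
        rw [sum_add_distrib, sum_const, nsmul_eq_mul, ← sum_filter, sum_const, nsmul_eq_mul,
          mul_one]
        ring
    _ ≤ 2 * θ * (2 * N) + Real.log N * W' :=
        add_le_add (mul_le_mul_of_nonneg_left hpi (by positivity))
          (mul_le_mul_of_nonneg_left hcard hlog0)
    _ ≤ 5 * θ * N := by linarith

end Pool.Agent.Lib.MP_629a14_nt.Kp.R
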