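import Pool.Agent.Lib.MP_629a14_nt.Kr.StarV

/-! Lower bounds for the truncated sums of the rearranged sets. -/

set_option autoImplicit false

namespace Pool.Agent.Lib.MP_629a14_nt.Kp.R

open Finset Filter Topology Pool.Agent.Lib.MP_629a14_nt Pool.Agent.Lib.MP_629a14_nt.Rob

/-- `trap` is Lipschitz in the lengths. -/
theorem trap_lip {u v u' v' x : ℝ} : |trap u v x - trap u' v' x| ≤ |u - u'| + |v - v'| := by
  have h1 := abs_sub_abs_le_abs_sub u u'
  unfold trap
  rw [abs_le]
  have a1 := le_abs_self (u - u')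
  have a2 := neg_abs_le (u - u')
  have b1 := le_abs_self (v - v')
  have b2 := neg_abs_le (v - v')
  have c1 := abs_nonneg (u - u')
  have c2 := abs_nonneg (v - v')
  have key : ∀ a b a' b' s : ℝ, a ≤ a' + s → b ≤ b' + s → min a b ≤ min a' b' + s := by
    intro a b a' b' s h1 h2
    rcases min_cases a' b' with h | h
    · rw [h.1]; exact (min_le_left _ _).trans h1
    · rw [h.1]; exact (min_le_right _ _).trans h2
  have key' : ∀ a b a' b' s : ℝ, a ≤ a' + s → b ≤ b' + s → max a b ≤ max a' b' + s := by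
    intro a b a' b' s h1 h2
    exact max_le (h1.trans (by linarith [le_max_left a' b'])) (h2.trans (by
      linarith [le_max_right a' b']))
  constructor
  · have : min (min u' v') (max (max 0 (u' + v' - 1)) ((u' + v') / 2 - x)) ≤
        min (min u v) (max (max 0 (u + v - 1)) ((u + v) / 2 - x)) + (|u - u'| + |v - v'|) := by
      refine key _ _ _ _ _ (key _ _ _ _ _ (by linarith) (by linarith)) ?_
      exact key' _ _ _ _ _ (key' _ _ _ _ _ (by linarith) (by linarith)) (by linarith)
    linarith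
  · have : min (min u v) (max (max 0 (u + v - 1)) ((u + v) / 2 - x)) ≤
        min (min u' v') (max (max 0 (u' + v' - 1)) ((u' + v') / 2 - x)) +
          (|u - u'| + |v - v'|) := by
      refine key _ _ _ _ _ (key _ _ _ _ _ (by linarith) (by linarith)) ?_
      exact key' _ _ _ _ _ (key' _ _ _ _ _ (by linarith) (by linarith)) (by linarith)
    linarith

/-- Close densities give close means. -/
theorem Av_close' {W K N n : ℕ} {a b a' b' : ℕ → ℕ → ℝ} {θ x : ℝ} (hK : 1 ≤ K) (hn : n ≤ N)
    (hθ : 0 ≤ θ) (h : ∀ k r, k < K → r < W → r.Coprime W → |a k r - a' k r| ≤ θ)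
    (h' : ∀ k r, k < K → r < W → r.Coprime W → |b k r - b' k r| ≤ θ) :
    |Av W K N a b (fun _ _ _ u v => trap u v x) n -
      Av W K N a' b' (fun _ _ _ u v => trap u v x) n| ≤ 2 * θ := by
  rw [Av_eq, Av_eq, ← sum_sub_distrib]
  refine (abs_sum_le_sum_abs _ _).trans ?_
  calc ∑ j ∈ Ico 1 n ×ˢ adm W n, |1 / ((n : ℝ) * (adm W n).card) *
        trap (a (cell K N j.1) j.2) (b (cell K N (n - j.1)) ((n + W - j.2) % W)) x -
        1 / ((n : ℝ) * (adm W n).card) *
        trap (a' (cell K N j.1) j.2) (b' (cell K N (n - j.1)) ((n + W - j.2) % W)) x|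
      ≤ ∑ _j ∈ Ico 1 n ×ˢ adm W n, 1 / ((n : ℝ) * (adm W n).card) * (2 * θ) := by
        refine sum_le_sum fun j hj => ?_
        rw [mem_product, mem_Ico] at hj
        obtain ⟨h1, h2⟩ := adm_co hj.2
        rw [← mul_sub, abs_mul, abs_of_nonneg (show (0 : ℝ) ≤ 1 / ((n : ℝ) * (adm W n).card) by
          positivity)]
        refine mul_le_mul_of_nonneg_left ?_ (by positivity)
        have e1 := h (cell K N j.1) j.2 (cell_lt hK (by omega)) h1.1 h1.2
        have e2 := h' (cell K N (n - j.1)) ((n + W - j.2) % W) (cell_lt hK (by omega)) h2.1 h2.2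
        refine trap_lip.trans ?_
        linarith
    _ ≤ 2 * θ := by
        rw [← sum_mul]
        have := Av_weight (W := W) (n := n)
        nlinarith

theorem av_trap_cont {W K N n : ℕ} {a b : ℕ → ℕ → ℝ} :
    Continuous (fun x => Av W K N a b (fun _ _ _ u v => trap u v x) n) := by
  simp only [Av_eq]
  exact continuous_finsetSum _ fun j _ => continuous_const.mul (trap_cont _ _)

theorem rt_close {W K N n : ℕ} {a b a' b' : ℕ → ℕ → ℝ} {θ : ℝ} (hK : 1 ≤ K) (hn : n ≤ N)
    (hθ : 0 ≤ θ) (h : ∀ k r, k < K → r < W → r.Coprime W → |a k r - a' k r| ≤ θ)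
    (h' : ∀ k r, k < K → r < W → r.Coprime W → |b k r - b' k r| ≤ θ) (t : ℝ) :
    RT W K N a b t n ≤ RT W K N a' b' t n + 2 * θ := by
  unfold RT
  have h1 : ∀ x, Av W K N a b (fun _ _ _ u v => trap u v x) n ≤
      Av W K N a' b' (fun _ _ _ u v => trap u v x) n + 2 * θ := fun x => by
    have := (abs_le.1 (Av_close' (x := x) hK hn hθ h h')).2
    linarith
  have h2 : lw (fun x => Av W K N a b (fun _ _ _ u v => trap u v x) n) (fun y => min y t) ≤
      lw (fun x => Av W K N a' b' (fun _ _ _ u v => trap u v x) n) (fun y => min y t + 2 * θ) := by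
    unfold lw
    refine mul_le_mul_of_nonneg_left ?_ (by norm_num)
    refine intervalIntegral.integral_mono_on (by norm_num)
      ((av_trap_cont.min continuous_const).intervalIntegrable _ _)
      (((av_trap_cont.min continuous_const).add continuous_const).intervalIntegrable _ _)
      fun x _ => ?_
    show min (Av W K N a b (fun _ _ _ u v => trap u v x) n) t ≤
      min (Av W K N a' b' (fun _ _ _ u v => trap u v x) n) t + 2 * θ
    have h3 := h1 x
    rcases min_cases (Av W K N a' b' (fun _ _ _ u v => trap u v x) n) t with g | g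
    · rw [g.1]
      exact (min_le_left _ _).trans h3
    · rw [g.1]
      exact (min_le_right _ _).trans (by linarith)
  refine h2.trans (le_of_eq ?_)
  have h3 := lw_add (ψ := fun x => Av W K N a' b' (fun _ _ _ u v => trap u v x) n)
    (av_trap_cont.continuousOn) (φ := fun y => min y t) (χ := fun _ => 2 * θ)
    (continuous_id.min continuous_const) continuous_const
  rw [h3, lw_const]

/-- The lower bound for the truncated sums of the rearranged sets. -/
theorem star_low (W K H : ℕ) (hW : 1 ≤ W) (hW2 : 2 ∣ W) (hK : 1 ≤ K) (hH : 1 ≤ H)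
    (η : ℝ) (hη : 0 < η) : ∃ N₀ : ℕ, ∀ N : ℕ, N₀ ≤ N →
      ∀ a b : ℕ → ℕ → ℝ, (∀ k r, 0 ≤ a k r ∧ a k r ≤ 1) → (∀ k r, 0 ≤ b k r ∧ b k r ≤ 1) →
      ∀ s : ℕ → ℕ → ℝ, (∀ l c, 0 ≤ s l c ∧ s l c ≤ 1) → ∀ t : ℝ, 0 ≤ t →
      wS W H N s (RT W K N a b t) ≤
        wS W H N s (fun n => min (rho (starN W K N a) (starN W K N b) n) t) + η * N := by
  have hη2 : 0 < η / 2 := by positivity
  obtain ⟨δ, hδ, hb⟩ := both_gen hη2
  obtain ⟨R₀, K₂, N₁, hK₂, hb⟩ := hb W K H hW hW2 hK hH
  obtain ⟨N₂, hN₂⟩ := star_flat W K (W * R₀.factorial) (K * K₂)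
    (Nat.mul_pos hW (Nat.factorial_pos _)) (Nat.mul_pos hK hK₂) (Dvd.intro _ rfl)
    (Dvd.intro _ rfl) δ hδ
  obtain ⟨N₃, hN₃⟩ := star_dns0 W K hW hK (η / 4) (by positivity)
  refine ⟨max N₁ (max N₂ N₃), fun N hN a b ha hb' s hs t ht => ?_⟩
  have hNa : N₁ ≤ N := (le_max_left _ _).trans hN
  have hNb : N₂ ≤ N := (le_max_left _ _).trans ((le_max_right _ _).trans hN)
  have hNc : N₃ ≤ N := (le_max_right _ _).trans ((le_max_right _ _).trans hN)
  have h1 := (hb N hNa (starN W K N a) (starN W K N b) (hN₂ N hNb a ha) (hN₂ N hNb b hb')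
    s hs).1 t ht
  have h2 := wS_abs (W := W) (H := H) (N := N) hs (F := RT W K N a b t)
    (G := RT W K N (dns (starN W K N a) W K N) (dns (starN W K N b) W K N) t)
    (C := 2 * (η / 4)) (by positivity) (fun n _ hn _ => rt_close hK hn (by positivity)
      (fun k r h1 h2 h3 => by
        rw [abs_sub_comm]
        exact hN₃ N hNc a ha k r h1 h2 h3)
      (fun k r h1 h2 h3 => by
        rw [abs_sub_comm]
        exact hN₃ N hNc b hb' k r h1 h2 h3) t)
  linarith

end Pool.Agent.Lib.MP_629a14_nt.Kp.R
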