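import Pool.Agent.Lib.MP_629a14_nt.Kr.Up
import Pool.Agent.Lib.MP_629a14_nt.Kr.StarD
import Pool.Agent.Lib.MP_629a14_nt.Kr.ArcP

/-! The mass of the counts of the rearranged sets on `{n : x ≤ ‖√2 n‖}`. -/

set_option autoImplicit false

namespace Pool.Agent.Lib.MP_629a14_nt.Kp.R

open Finset Filter Topology Pool.Agent.Lib.MP_629a14_nt Pool.Agent.Lib.MP_629a14_nt.Rob

/-- The distance of `√2 n` from the integers. -/
noncomputable def nm (n : ℕ) : ℝ := |Real.sqrt 2 * n - round (Real.sqrt 2 * n)|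

/-- The pairs of a cell and a class. -/
def idx (W K : ℕ) : Finset ((ℕ × ℕ) × (ℕ × ℕ)) := (range K ×ˢ range W) ×ˢ (range K ×ˢ range W)

/-- The indicator function of a cell and a class. -/
noncomputable def ind (k r : ℕ) : ℕ → ℕ → ℝ := fun k' r' => if k' = k ∧ r' = r then 1 else 0

/-- Compare `rho_le_cells` in `Kp/Sharp.lean`: for a representation `n = p + q`, take `k`, `k'` the
cells, `r`, `r'` the classes and `h`, `h'` the arcs of `p` and `q`; `s`, `s'` are the fractional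
parts of `√2 p` and `√2 q`. -/
theorem star_cover {W K N J n : ℕ} {a b : ℕ → ℕ → ℝ} {x : ℝ} (hW : 1 ≤ W) (hK : 1 ≤ K)
    (hJ : 1 ≤ J) (hn : n ≤ N) (hx : x ≤ nm n) :
    rho (starN W K N a) (starN W K N b) n ≤
      ∑ j ∈ idx W K, ∑ h ∈ prs2 J (a j.1.1 j.1.2) (b j.2.1 j.2.2) x,
        rho (CS W K N J j.1.1 j.1.2 h.1) (CS W K N J j.2.1 j.2.2 h.2) n := by
  classical
  have hJ0 : (0 : ℝ) < J := by exact_mod_cast hJ
  have hcell : ∀ y : ℕ, y ≤ n → cell K N y < K := by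
    intro y hy
    unfold cell
    rw [Nat.div_lt_iff_lt_mul (by omega)]
    calc y * K ≤ N * K := Nat.mul_le_mul_right K (hy.trans hn)
      _ < (N + 1) * K := Nat.mul_lt_mul_of_pos_right (by omega) (by omega)
      _ = K * (N + 1) := mul_comm _ _
  have hround : ∀ y z : ℝ, Int.fract y = Int.fract z → |y - round y| = |z - round z| := by
    intro y z h
    rw [abs_sub_round_eq_min, abs_sub_round_eq_min, h]
  unfold rho
  simp only [← Finset.sum_div]
  apply div_le_div_of_nonneg_right _ (shHL_nonneg n)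
  have h : Sm.repsIn (starN W K N a) (starN W K N b) n ≤
      ∑ j ∈ idx W K, ∑ h ∈ prs2 J (a j.1.1 j.1.2) (b j.2.1 j.2.2) x,
        Sm.repsIn (CS W K N J j.1.1 j.1.2 h.1) (CS W K N J j.2.1 j.2.2 h.2) n := by
    rw [Finset.sum_sigma' (idx W K) (fun j => prs2 J (a j.1.1 j.1.2) (b j.2.1 j.2.2) x)
      (fun j h => Sm.repsIn (CS W K N J j.1.1 j.1.2 h.1) (CS W K N J j.2.1 j.2.2 h.2) n)]
    unfold Sm.repsIn
    refine le_trans (Finset.card_le_card ?_) Finset.card_biUnion_le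
    intro p hp
    rw [Finset.mem_filter, Finset.mem_range] at hp
    obtain ⟨hpn, hp1, hp2, hpA, hpB⟩ := hp
    rw [Finset.mem_biUnion]
    obtain ⟨i, hiM, hi1, hi2, hi3⟩ := mem_arc (M := J) (by omega) p
    obtain ⟨j, hjM, hj1, hj2, hj3⟩ := mem_arc (M := J) (by omega) (n - p)
    refine ⟨⟨((cell K N p, p % W), (cell K N (n - p), (n - p) % W)), (i, j)⟩, ?_, ?_⟩
    · rw [Finset.mem_sigma]
      constructor
      · unfold idx
        simp only [Finset.mem_product, Finset.mem_range]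
        exact ⟨⟨hcell _ (by omega), Nat.mod_lt _ (by omega)⟩,
          ⟨hcell _ (by omega), Nat.mod_lt _ (by omega)⟩⟩
      · unfold prs2
        rw [Finset.mem_filter, Finset.mem_product, Finset.mem_range, Finset.mem_range]
        refine ⟨⟨hiM, hjM⟩, Int.fract (Real.sqrt 2 * (p : ℕ)),
          Int.fract (Real.sqrt 2 * ((n - p : ℕ) : ℝ)), hi1.1, hi1.2, hj1.1, hj1.2, ?_, ?_, ?_⟩
        · rw [hround _ _ (Int.fract_fract _)]
          exact hpA.2
        · rw [hround _ _ (Int.fract_fract _)]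
          exact hpB.2
        · have h1 : Int.fract (Int.fract (Real.sqrt 2 * (p : ℕ)) +
              Int.fract (Real.sqrt 2 * ((n - p : ℕ) : ℝ))) = Int.fract (Real.sqrt 2 * n) := by
            rw [Int.fract_eq_fract]
            refine ⟨-⌊Real.sqrt 2 * (p : ℕ)⌋ - ⌊Real.sqrt 2 * ((n - p : ℕ) : ℝ)⌋, ?_⟩
            have hnp : (n : ℝ) = p + ((n - p : ℕ) : ℝ) := by
              rw [Nat.cast_sub (by omega)]
              ring
            have e1 := Int.self_sub_floor (Real.sqrt 2 * (p : ℕ))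
            have e2 := Int.self_sub_floor (Real.sqrt 2 * ((n - p : ℕ) : ℝ))
            push_cast
            rw [hnp, ← e1, ← e2]
            ring
          rw [hround _ _ h1]
          exact hx
    · rw [Finset.mem_filter, Finset.mem_range]
      exact ⟨hpn, hp1, hp2, ⟨rfl, rfl, hi1⟩, ⟨rfl, rfl, hj1⟩⟩
  exact_mod_cast h

/-- By `Av_eq`: for each `y`, `r` exactly one `j` contributes. -/
theorem sum_ind {W K N n : ℕ} {a b : ℕ → ℕ → ℝ} (hW : 1 ≤ W) (hK : 1 ≤ K) (hn : n ≤ N)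
    (F : ℝ → ℝ → ℝ) :
    ∑ j ∈ idx W K, F (a j.1.1 j.1.2) (b j.2.1 j.2.2) *
      Av W K N (ind j.1.1 j.1.2) (ind j.2.1 j.2.2) (fun _ _ _ u v => u * v) n =
      Av W K N a b (fun _ _ _ u v => F u v) n := by
  have h0 : ∀ j ∈ idx W K, F (a j.1.1 j.1.2) (b j.2.1 j.2.2) *
      Av W K N (ind j.1.1 j.1.2) (ind j.2.1 j.2.2) (fun _ _ _ u v => u * v) n =
      ∑ q ∈ Ico 1 n ×ˢ adm W n, F (a j.1.1 j.1.2) (b j.2.1 j.2.2) *
        (1 / ((n : ℝ) * (adm W n).card) *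
          (ind j.1.1 j.1.2 (cell K N q.1) q.2 *
            ind j.2.1 j.2.2 (cell K N (n - q.1)) ((n + W - q.2) % W))) := by
    intro j _
    rw [Av_eq, mul_sum]
  rw [sum_congr rfl h0, sum_comm, Av_eq]
  refine sum_congr rfl fun q hq => ?_
  rw [mem_product, mem_Ico] at hq
  obtain ⟨⟨h1, h2⟩, h3⟩ := hq
  have h4 : q.2 < W := by
    unfold adm at h3
    exact mem_range.1 (mem_filter.1 h3).1
  have h5 : cell K N q.1 < K := cell_lt hK (by omega)
  have h6 : cell K N (n - q.1) < K := cell_lt hK (by omega)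
  have h7 : (n + W - q.2) % W < W := Nat.mod_lt _ (by omega)
  rw [sum_eq_single ((cell K N q.1, q.2), (cell K N (n - q.1), (n + W - q.2) % W))]
  · have e1 : ind (cell K N q.1) q.2 (cell K N q.1) q.2 = 1 := by
      unfold ind
      rw [if_pos ⟨rfl, rfl⟩]
    have e2 : ind (cell K N (n - q.1)) ((n + W - q.2) % W) (cell K N (n - q.1))
        ((n + W - q.2) % W) = 1 := by
      unfold ind
      rw [if_pos ⟨rfl, rfl⟩]
    simp only [e1, e2]
    ring
  · rintro ⟨⟨k, r⟩, ⟨k', r'⟩⟩ _ hj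
    simp only
    by_cases c1 : cell K N q.1 = k ∧ q.2 = r
    · by_cases c2 : cell K N (n - q.1) = k' ∧ (n + W - q.2) % W = r'
      · exfalso
        apply hj
        obtain ⟨rfl, rfl⟩ := c1
        obtain ⟨rfl, rfl⟩ := c2
        rfl
      · have e2 : ind k' r' (cell K N (n - q.1)) ((n + W - q.2) % W) = 0 := by
          unfold ind
          rw [if_neg c2]
        rw [e2]
        ring
    · have e1 : ind k r (cell K N q.1) q.2 = 0 := by
        unfold ind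
        rw [if_neg c1]
      rw [e1]
      ring
  · intro h
    exfalso
    apply h
    unfold idx
    rw [mem_product, mem_product, mem_product, mem_range, mem_range, mem_range, mem_range]
    exact ⟨⟨h5, h4⟩, ⟨h6, h7⟩⟩

/-- The sets `CS` are flat on all levels. By `cs_dns` and `flat_close`. -/
theorem cs_flat (W K W' K' J : ℕ) (hW' : 1 ≤ W') (hK' : 1 ≤ K') (hW : W ∣ W') (hK : K ∣ K')
    (hJ : 1 ≤ J) (δ : ℝ) (hδ : 0 < δ) : ∃ N₀ : ℕ, ∀ N : ℕ, N₀ ≤ N → ∀ k r h : ℕ, h < J →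
      Flat W K W' K' N (CS W K N J k r h) δ := by
  have hW1 : 1 ≤ W := Nat.pos_of_dvd_of_pos hW hW'
  have hK1 : 1 ≤ K := Nat.pos_of_dvd_of_pos hK hK'
  have hδ5 : 0 < δ / 5 := by positivity
  obtain ⟨N₁, h1⟩ := flat_close W' hW' (δ / 5) hδ5
  obtain ⟨N₂, h2⟩ := cs_dns W K W' K' J hW' hK' hW hK hJ (δ / 5) hδ5
  obtain ⟨N₃, h3⟩ := cs_dns W K W K J hW1 hK1 dvd_rfl dvd_rfl hJ (δ / 5) hδ5
  refine ⟨max N₁ (max N₂ N₃), fun N hN k r h hh => ?_⟩
  have hN1 : N₁ ≤ N := (le_max_left _ _).trans hN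
  have hN2 : N₂ ≤ N := ((le_max_left _ _).trans (le_max_right _ _)).trans hN
  have hN3 : N₃ ≤ N := ((le_max_right _ _).trans (le_max_right _ _)).trans hN
  have h4 := h1 N hN1 W K K' (CS W K N J k r h) _ fun x hx hxW =>
    ⟨h2 N hN2 k r h hh x hx hxW, h3 N hN3 k r h hh x hx (hxW.coprime_dvd_right hW)⟩
  rwa [mul_div_cancel₀ δ (by norm_num : (5 : ℝ) ≠ 0)] at h4

/-- The rearranged sets are flat on all levels. By `star_dns` and `flat_close`. -/
theorem star_flat (W K W' K' : ℕ) (hW' : 1 ≤ W') (hK' : 1 ≤ K') (hW : W ∣ W') (hK : K ∣ K')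
    (δ : ℝ) (hδ : 0 < δ) : ∃ N₀ : ℕ, ∀ N : ℕ, N₀ ≤ N → ∀ a : ℕ → ℕ → ℝ,
      (∀ k r, 0 ≤ a k r ∧ a k r ≤ 1) → Flat W K W' K' N (starN W K N a) δ := by
  have hW1 : 1 ≤ W := Nat.pos_of_dvd_of_pos hW hW'
  have hK1 : 1 ≤ K := Nat.pos_of_dvd_of_pos hK hK'
  have hδ5 : 0 < δ / 5 := by positivity
  obtain ⟨N₁, h1⟩ := flat_close W' hW' (δ / 5) hδ5
  obtain ⟨N₂, h2⟩ := star_dns W K W' K' hW' hK' hW hK (δ / 5) hδ5
  obtain ⟨N₃, h3⟩ := star_dns W K W K hW1 hK1 dvd_rfl dvd_rfl (δ / 5) hδ5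
  refine ⟨max N₁ (max N₂ N₃), fun N hN a ha => ?_⟩
  have hN1 : N₁ ≤ N := (le_max_left _ _).trans hN
  have hN2 : N₂ ≤ N := ((le_max_left _ _).trans (le_max_right _ _)).trans hN
  have hN3 : N₃ ≤ N := ((le_max_right _ _).trans (le_max_right _ _)).trans hN
  have h4 := h1 N hN1 W K K' (starN W K N a) _ fun x hx hxW =>
    ⟨h2 N hN2 a ha x hx hxW, h3 N hN3 a ha x hx (hxW.coprime_dvd_right hW)⟩
  rwa [mul_div_cancel₀ δ (by norm_num : (5 : ℝ) ≠ 0)] at h4

private theorem ind_unit (k r k' r' : ℕ) : 0 ≤ ind k r k' r' ∧ ind k r k' r' ≤ 1 := by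
  unfold ind
  split_ifs <;> norm_num

/-- The mean of the counts of two sets `CS`. By `both_gen`, `cs_flat`, `cs_dns` and `full_ev`. -/
theorem cs_mean (W K H J : ℕ) (hW : 1 ≤ W) (hW2 : 2 ∣ W) (hK : 1 ≤ K) (hH : 1 ≤ H) (hJ : 1 ≤ J)
    (η : ℝ) (hη : 0 < η) : ∃ N₀ : ℕ, ∀ N : ℕ, N₀ ≤ N → ∀ s : ℕ → ℕ → ℝ,
      (∀ l c, 0 ≤ s l c ∧ s l c ≤ 1) → ∀ k r k' r' h h' : ℕ, h < J → h' < J →
      wS W H N s (rho (CS W K N J k r h) (CS W K N J k' r' h')) ≤
        1 / (J : ℝ) ^ 2 * wS W H N s (Av W K N (ind k r) (ind k' r') (fun _ _ _ u v => u * v)) +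
          η * N := by
  obtain ⟨δ, hδ, hboth⟩ := both_gen (half_pos hη)
  obtain ⟨R₀, K₂, N₁, hK₂, hboth⟩ := hboth W K H hW hW2 hK hH
  have hη4 : 0 < η / 4 := by positivity
  obtain ⟨N₂, hN₂⟩ := cs_dns W K W K J hW hK dvd_rfl dvd_rfl hJ (η / 4) hη4
  obtain ⟨N₃, hN₃⟩ := full_ev W K hW hK
  obtain ⟨N₄, hN₄⟩ := cs_flat W K (W * R₀.factorial) (K * K₂) J
    (Nat.mul_pos hW R₀.factorial_pos) (Nat.mul_pos hK hK₂) (Dvd.intro _ rfl) (Dvd.intro _ rfl)
    hJ δ hδ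
  refine ⟨max (max N₁ N₂) (max N₃ N₄), fun N hN s hs k r k' r' h h' hh hh' => ?_⟩
  have hN1 : N₁ ≤ N := (le_max_left _ _).trans ((le_max_left _ _).trans hN)
  have hN2 : N₂ ≤ N := (le_max_right _ _).trans ((le_max_left _ _).trans hN)
  have hN3 : N₃ ≤ N := (le_max_left _ _).trans ((le_max_right _ _).trans hN)
  have hN4 : N₄ ≤ N := (le_max_right _ _).trans ((le_max_right _ _).trans hN)
  have hN0 : (0 : ℝ) ≤ N := Nat.cast_nonneg N
  have hJ0 : (0 : ℝ) < J := by exact_mod_cast hJ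
  have hfull := hN₃ N hN3
  have hfl := hN₄ N hN4
  have hb := (hboth N hN1 (CS W K N J k r h) (CS W K N J k' r' h') (hfl k r h hh)
    (hfl k' r' h' hh') s hs).2
  -- the densities
  have hd : ∀ k r h : ℕ, h < J → ∀ k₁ r₁ : ℕ, k₁ < K → r₁ < W → r₁.Coprime W →
      |dns (CS W K N J k r h) W K N k₁ r₁ - ind k r k₁ r₁ / J| ≤ η / 4 := by
    intro k r h hh k₁ r₁ hk₁ hr₁ hc
    have h1 := hfull k₁ r₁ hk₁ hr₁ hc
    unfold cellc at h1
    obtain ⟨p, hp⟩ := card_pos.1 h1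
    have hp' := (@Finset.mem_filter _ _ (_) _ _).1 hp
    obtain ⟨hp1, hp2, _, hp3, hp4⟩ := hp'
    rw [mem_Icc] at hp1
    have hco : p.Coprime W := by
      rw [← hp4] at hc
      unfold Nat.Coprime at hc ⊢
      rwa [Nat.gcd_comm, Nat.gcd_rec]
    have h2 := hN₂ N hN2 k r h hh p hp1.2 hco
    unfold dnp at h2
    rw [hp3, hp4] at h2
    unfold ind
    split_ifs at h2 ⊢ with h3
    · exact h2
    · rw [zero_div]
      exact h2
  have hmain : ∀ n : ℕ, 1 ≤ n → n ≤ N → Even n →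
      Av W K N (dns (CS W K N J k r h) W K N) (dns (CS W K N J k' r' h') W K N)
        (fun _ _ _ u v => u * v) n ≤
      1 / (J : ℝ) ^ 2 * Av W K N (ind k r) (ind k' r') (fun _ _ _ u v => u * v) n + η / 2 := by
    intro n hn1 hn _
    have e1 : ∑ j ∈ Ico 1 n ×ˢ adm W n, 1 / ((n : ℝ) * (adm W n).card) * (η / 2) ≤ η / 2 := by
      rw [← sum_mul]
      exact mul_le_of_le_one_left (half_pos hη).le (Av_weight (W := W) (n := n))
    refine le_trans ?_ (add_le_add_right e1 _)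
    rw [Av_eq, Av_eq, mul_sum, ← sum_add_distrib]
    refine sum_le_sum fun j hj => ?_
    rw [mem_product, mem_Ico] at hj
    obtain ⟨hj1, hj2⟩ := hj
    obtain ⟨h1, h2⟩ := adm_co hj2
    have w0 : 0 ≤ 1 / ((n : ℝ) * (adm W n).card) := by positivity
    have c1 := hd k r h hh (cell K N j.1) j.2 (cell_lt hK (by omega)) h1.1 h1.2
    have c2 := hd k' r' h' hh' (cell K N (n - j.1)) ((n + W - j.2) % W)
      (cell_lt hK (by omega)) h2.1 h2.2
    have d1 := dns_mem (CS W K N J k r h) W K N (cell K N j.1) j.2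
    have i2 := ind_unit k' r' (cell K N (n - j.1)) ((n + W - j.2) % W)
    have i3 : 0 ≤ ind k' r' (cell K N (n - j.1)) ((n + W - j.2) % W) / J := div_nonneg i2.1 hJ0.le
    have i4 : ind k' r' (cell K N (n - j.1)) ((n + W - j.2) % W) / J ≤ 1 := by
      rw [div_le_one hJ0]
      have : (1 : ℝ) ≤ J := by exact_mod_cast hJ
      linarith
    generalize dns (CS W K N J k r h) W K N (cell K N j.1) j.2 = x at *
    generalize dns (CS W K N J k' r' h') W K N (cell K N (n - j.1)) ((n + W - j.2) % W) = y at *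
    generalize ind k r (cell K N j.1) j.2 = u at *
    generalize ind k' r' (cell K N (n - j.1)) ((n + W - j.2) % W) = v at *
    have hxy : x * y ≤ u * v / (J : ℝ) ^ 2 + η / 2 := by
      have e2 : u * v / (J : ℝ) ^ 2 = (u / J) * (v / J) := by
        rw [div_mul_div_comm, pow_two]
      rw [e2]
      obtain ⟨_, c1⟩ := abs_le.1 c1
      obtain ⟨_, c2⟩ := abs_le.1 c2
      have f1 : x * (y - v / J) ≤ η / 4 := by
        calc x * (y - v / J) ≤ x * (η / 4) := mul_le_mul_of_nonneg_left c2 d1.1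
          _ ≤ 1 * (η / 4) := mul_le_mul_of_nonneg_right d1.2 hη4.le
          _ = η / 4 := one_mul _
      have f2 : (x - u / J) * (v / J) ≤ η / 4 := by
        calc (x - u / J) * (v / J) ≤ (η / 4) * (v / J) := mul_le_mul_of_nonneg_right c1 i3
          _ ≤ (η / 4) * 1 := mul_le_mul_of_nonneg_left i4 hη4.le
          _ = η / 4 := mul_one _
      nlinarith
    have hmul := mul_le_mul_of_nonneg_left hxy w0
    refine hmul.trans (le_of_eq ?_)
    ring
  have h3 := wS_abs (W := W) (H := H) (s := s) hs (half_pos hη).le hmain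
  rw [wS_mul] at h3
  linarith

open Classical in
/-- The mass of the counts of the rearranged sets where `√2 n` is not close to an integer. -/
theorem star_up (W K H : ℕ) (hW : 1 ≤ W) (hW2 : 2 ∣ W) (hK : 1 ≤ K) (hH : 1 ≤ H)
    (η : ℝ) (hη : 0 < η) : ∃ N₀ : ℕ, ∀ N : ℕ, N₀ ≤ N → ∀ s : ℕ → ℕ → ℝ,
      (∀ l c, 0 ≤ s l c ∧ s l c ≤ 1) → ∀ a b : ℕ → ℕ → ℝ, (∀ k r, 0 ≤ a k r ∧ a k r ≤ 1) →
      (∀ k r, 0 ≤ b k r ∧ b k r ≤ 1) → ∀ x : ℝ, 0 ≤ x → x ≤ 1 / 2 →
      wS W H N s (fun n => if x ≤ nm n then rho (starN W K N a) (starN W K N b) n else 0) ≤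
        wS W H N s (Av W K N a b (fun _ _ _ u v => 2 * ∫ z in x..(1 / 2), trap u v z)) +
          η * N := by
  obtain ⟨J, hJ⟩ := exists_nat_gt (200 / η)
  have hJ0 : (0 : ℝ) < J := lt_trans (by positivity) hJ
  have hJ1 : 1 ≤ J := by exact_mod_cast hJ0
  obtain ⟨L, hL⟩ : ∃ L : ℝ, L = (idx W K).card * (J : ℝ) ^ 2 + 1 := ⟨_, rfl⟩
  have hL0 : 0 < L := by rw [hL]; positivity
  obtain ⟨η₁, hη₁⟩ : ∃ η₁ : ℝ, η₁ = η / (2 * L) := ⟨_, rfl⟩
  have hη10 : 0 < η₁ := by rw [hη₁]; positivity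
  obtain ⟨N₀, hN₀⟩ := cs_mean W K H J hW hW2 hK hH hJ1 η₁ hη10
  refine ⟨N₀, fun N hN s hs a b ha hb x hx hx1 => ?_⟩
  have hcs := hN₀ N hN s hs
  have hN' : (0 : ℝ) ≤ N := Nat.cast_nonneg N
  have h1 : wS W H N s (fun n => if x ≤ nm n then rho (starN W K N a) (starN W K N b) n else 0) ≤
      wS W H N s (fun n => ∑ j ∈ idx W K, ∑ h ∈ prs2 J (a j.1.1 j.1.2) (b j.2.1 j.2.2) x,
        rho (CS W K N J j.1.1 j.1.2 h.1) (CS W K N J j.2.1 j.2.2 h.2) n) := by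
    refine wS_mono (fun l c => (hs l c).1) fun n _ h2 _ => ?_
    split_ifs with h
    · exact star_cover hW hK hJ1 h2 h
    · exact sum_nonneg fun j _ => sum_nonneg fun h _ => rho_nonneg _ _ _
  rw [wS_sum] at h1
  refine h1.trans ?_
  -- the mass of one pair of cells and classes
  obtain ⟨V, hV⟩ : ∃ V : ((ℕ × ℕ) × (ℕ × ℕ)) → ℝ, V = fun j =>
      wS W H N s (Av W K N (ind j.1.1 j.1.2) (ind j.2.1 j.2.2) (fun _ _ _ u v => u * v)) :=
    ⟨_, rfl⟩
  have hind : ∀ k r k' r', 0 ≤ ind k r k' r' ∧ ind k r k' r' ≤ 1 := by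
    intro k r k' r'
    unfold ind
    split_ifs <;> norm_num
  have hV0 : ∀ j, 0 ≤ V j := by
    intro j
    rw [hV]
    unfold wS
    refine sum_nonneg fun n _ => mul_nonneg (hs _ _).1 ?_
    exact (Av_unit (hind _ _) (hind _ _) fun _ _ _ u v h1 h2 h3 h4 =>
      ⟨mul_nonneg h1 h3, mul_le_one₀ h2 h3 h4⟩).1
  have hprs : ∀ j : (ℕ × ℕ) × (ℕ × ℕ), ∀ h ∈ prs2 J (a j.1.1 j.1.2) (b j.2.1 j.2.2) x,
      h.1 < J ∧ h.2 < J := by
    intro j h hh
    unfold prs2 at hh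
    have := (mem_filter.1 hh).1
    rw [mem_product, mem_range, mem_range] at this
    exact this
  have hcard : ∀ j : (ℕ × ℕ) × (ℕ × ℕ),
      ((prs2 J (a j.1.1 j.1.2) (b j.2.1 j.2.2) x).card : ℝ) ≤ (J : ℝ) ^ 2 := by
    intro j
    have h2 : (prs2 J (a j.1.1 j.1.2) (b j.2.1 j.2.2) x).card ≤ J * J := by
      unfold prs2
      refine (card_filter_le _ _).trans (le_of_eq ?_)
      rw [card_product, card_range]
    rw [pow_two]
    exact_mod_cast h2
  have h2 : ∀ j ∈ idx W K, wS W H N s (fun n => ∑ h ∈ prs2 J (a j.1.1 j.1.2) (b j.2.1 j.2.2) x,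
      rho (CS W K N J j.1.1 j.1.2 h.1) (CS W K N J j.2.1 j.2.2 h.2) n) ≤
      (2 * ∫ z in x..(1 / 2), trap (a j.1.1 j.1.2) (b j.2.1 j.2.2) z) * V j +
        100 / J * V j + (J : ℝ) ^ 2 * (η₁ * N) := by
    intro j _
    have hc := card_prs2 hJ1 (ha j.1.1 j.1.2).1 (ha j.1.1 j.1.2).2 (hb j.2.1 j.2.2).1
      (hb j.2.1 j.2.2).2 hx hx1
    rw [wS_sum]
    calc ∑ h ∈ prs2 J (a j.1.1 j.1.2) (b j.2.1 j.2.2) x,
          wS W H N s (rho (CS W K N J j.1.1 j.1.2 h.1) (CS W K N J j.2.1 j.2.2 h.2))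
        ≤ ∑ _h ∈ prs2 J (a j.1.1 j.1.2) (b j.2.1 j.2.2) x, (1 / (J : ℝ) ^ 2 * V j + η₁ * N) := by
          refine sum_le_sum fun h hh => ?_
          rw [hV]
          exact hcs _ _ _ _ _ _ (hprs j h hh).1 (hprs j h hh).2
      _ = ((prs2 J (a j.1.1 j.1.2) (b j.2.1 j.2.2) x).card : ℝ) * (1 / (J : ℝ) ^ 2 * V j) +
          ((prs2 J (a j.1.1 j.1.2) (b j.2.1 j.2.2) x).card : ℝ) * (η₁ * N) := by
          rw [sum_const, nsmul_eq_mul]
          ring
      _ ≤ (J ^ 2 * (2 * ∫ z in x..(1 / 2), trap (a j.1.1 j.1.2) (b j.2.1 j.2.2) z) + 100 * J) *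
          (1 / (J : ℝ) ^ 2 * V j) + (J : ℝ) ^ 2 * (η₁ * N) := by
          refine add_le_add ?_ ?_
          · exact mul_le_mul_of_nonneg_right hc (mul_nonneg (by positivity) (hV0 j))
          · exact mul_le_mul_of_nonneg_right (hcard j) (by positivity)
      _ = _ := by
          field_simp
  refine (sum_le_sum h2).trans ?_
  rw [sum_add_distrib, sum_add_distrib, sum_const, nsmul_eq_mul, ← mul_sum]
  have h3 : ∑ j ∈ idx W K, (2 * ∫ z in x..(1 / 2), trap (a j.1.1 j.1.2) (b j.2.1 j.2.2) z) * V j =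
      wS W H N s (Av W K N a b (fun _ _ _ u v => 2 * ∫ z in x..(1 / 2), trap u v z)) := by
    rw [hV]
    have h4 : ∀ j ∈ idx W K, (2 * ∫ z in x..(1 / 2), trap (a j.1.1 j.1.2) (b j.2.1 j.2.2) z) *
        wS W H N s (Av W K N (ind j.1.1 j.1.2) (ind j.2.1 j.2.2) (fun _ _ _ u v => u * v)) =
        wS W H N s (fun n => (2 * ∫ z in x..(1 / 2), trap (a j.1.1 j.1.2) (b j.2.1 j.2.2) z) *
          Av W K N (ind j.1.1 j.1.2) (ind j.2.1 j.2.2) (fun _ _ _ u v => u * v) n) :=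
      fun j _ => (wS_mul _ _).symm
    rw [sum_congr rfl h4, ← wS_sum]
    unfold wS
    refine sum_congr rfl fun n hn => ?_
    rw [mem_filter, mem_Icc] at hn
    exact congrArg (fun z => s (cell H N n) (n % W) * z)
      (sum_ind hW hK hn.1.2 (fun u v => 2 * ∫ z in x..(1 / 2), trap u v z))
  have h5 : ∑ j ∈ idx W K, V j ≤ N := by
    rw [hV]
    have h6 : ∑ j ∈ idx W K, wS W H N s (Av W K N (ind j.1.1 j.1.2) (ind j.2.1 j.2.2)
        (fun _ _ _ u v => u * v)) =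
        wS W H N s (Av W K N a b (fun _ _ _ _ _ => 1)) := by
      rw [← wS_sum]
      unfold wS
      refine sum_congr rfl fun n hn => ?_
      rw [mem_filter, mem_Icc] at hn
      rw [← sum_ind hW hK hn.1.2 (fun _ _ => 1)]
      simp only [one_mul]
    rw [h6]
    calc wS W H N s (Av W K N a b (fun _ _ _ _ _ => 1)) ≤ wS W H N s (fun _ => 1) := by
          refine wS_mono (fun l c => (hs l c).1) fun n _ _ _ => ?_
          exact (Av_unit ha hb fun _ _ _ _ _ _ _ _ _ => ⟨zero_le_one, le_rfl⟩).2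
      _ ≤ 1 * N := wS_const_le hs zero_le_one
      _ = N := one_mul _
  have h7 : 100 / (J : ℝ) * ∑ j ∈ idx W K, V j ≤ η / 2 * N := by
    have h8 : 100 / (J : ℝ) ≤ η / 2 := by
      rw [div_le_iff₀ hJ0]
      rw [div_lt_iff₀ hη] at hJ
      linarith
    exact mul_le_mul h8 h5 (sum_nonneg fun j _ => hV0 j) (by positivity)
  have h9 : ((idx W K).card : ℝ) * ((J : ℝ) ^ 2 * (η₁ * N)) ≤ η / 2 * N := by
    have h10 : ((idx W K).card : ℝ) * (J : ℝ) ^ 2 * η₁ ≤ η / 2 := by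
      have h11 : L * η₁ = η / 2 := by
        rw [hη₁]
        field_simp
      rw [← h11]
      refine mul_le_mul_of_nonneg_right ?_ hη10.le
      rw [hL]
      linarith
    calc ((idx W K).card : ℝ) * ((J : ℝ) ^ 2 * (η₁ * N)) =
          ((idx W K).card : ℝ) * (J : ℝ) ^ 2 * η₁ * N := by ring
      _ ≤ _ := mul_le_mul_of_nonneg_right h10 hN'
  rw [h3]
  linarith

end Pool.Agent.Lib.MP_629a14_nt.Kp.R
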