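import Pool.Agent.Lib.MP_629a14_nt.Kr.StarU

/-! The means of the counts for the rearranged sets. -/

set_option autoImplicit false

namespace Pool.Agent.Lib.MP_629a14_nt.Kp.R

open Finset Filter Topology Pool.Agent.Lib.MP_629a14_nt Pool.Agent.Lib.MP_629a14_nt.Rob

/-- The densities of the rearranged sets. -/
theorem star_dns0 (W K : ℕ) (hW : 1 ≤ W) (hK : 1 ≤ K) (θ : ℝ) (hθ : 0 < θ) : ∃ N₀ : ℕ,
    ∀ N : ℕ, N₀ ≤ N → ∀ a : ℕ → ℕ → ℝ, (∀ k r, 0 ≤ a k r ∧ a k r ≤ 1) →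
      ∀ k r : ℕ, k < K → r < W → r.Coprime W →
      |dns (starN W K N a) W K N k r - a k r| ≤ θ := by
  classical
  obtain ⟨N₁, hN₁⟩ := star_dns W K W K hW hK dvd_rfl dvd_rfl θ hθ
  obtain ⟨N₂, hN₂⟩ := full_ev W K hW hK
  refine ⟨max N₁ N₂, fun N hN a ha k r hk hr hrc => ?_⟩
  have hNa : N₁ ≤ N := (le_max_left _ _).trans hN
  have hNb : N₂ ≤ N := (le_max_right _ _).trans hN
  have hpos := hN₂ N hNb k r hk hr hrc
  unfold cellc at hpos
  obtain ⟨p, hp⟩ := card_pos.1 hpos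
  have hp' := (@Finset.mem_filter _ _ (_) _ _).1 hp
  obtain ⟨h1, h2, -, h3, h4⟩ := hp'
  rw [mem_Icc] at h1
  have hpc : p.Coprime W := by
    unfold Nat.Coprime
    rw [← (Nat.mod_modEq p W).gcd_eq, h4]
    exact hrc
  have h5 := hN₁ N hNa a ha p h1.2 hpc
  unfold dnp at h5
  rw [h3, h4] at h5
  exact h5

theorem Av_close {W K N n : ℕ} {a b a' b' : ℕ → ℕ → ℝ} {θ : ℝ} (hK : 1 ≤ K) (hn : n ≤ N)
    (ha : ∀ k r, 0 ≤ a k r ∧ a k r ≤ 1) (hb : ∀ k r, 0 ≤ b k r ∧ b k r ≤ 1)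
    (ha' : ∀ k r, 0 ≤ a' k r ∧ a' k r ≤ 1) (hb' : ∀ k r, 0 ≤ b' k r ∧ b' k r ≤ 1)
    (hθ : 0 ≤ θ) (h : ∀ k r, k < K → r < W → r.Coprime W → |a k r - a' k r| ≤ θ)
    (h' : ∀ k r, k < K → r < W → r.Coprime W → |b k r - b' k r| ≤ θ) :
    |Av W K N a b (fun _ _ _ u v => u * v) n - Av W K N a' b' (fun _ _ _ u v => u * v) n| ≤
      2 * θ := by
  rw [Av_eq, Av_eq, ← sum_sub_distrib]
  refine (abs_sum_le_sum_abs _ _).trans ?_
  calc ∑ j ∈ Ico 1 n ×ˢ adm W n, |1 / ((n : ℝ) * (adm W n).card) *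
        (a (cell K N j.1) j.2 * b (cell K N (n - j.1)) ((n + W - j.2) % W)) -
        1 / ((n : ℝ) * (adm W n).card) *
        (a' (cell K N j.1) j.2 * b' (cell K N (n - j.1)) ((n + W - j.2) % W))|
      ≤ ∑ _j ∈ Ico 1 n ×ˢ adm W n, 1 / ((n : ℝ) * (adm W n).card) * (2 * θ) := by
        refine sum_le_sum fun j hj => ?_
        rw [mem_product, mem_Ico] at hj
        obtain ⟨h1, h2⟩ := adm_co hj.2
        rw [← mul_sub, abs_mul, abs_of_nonneg (show (0 : ℝ) ≤ 1 / ((n : ℝ) * (adm W n).card) by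
          positivity)]
        refine mul_le_mul_of_nonneg_left ?_ (by positivity)
        have e1 := h (cell K N j.1) j.2 (cell_lt hK (by omega)) h1.1 h1.2
        have e2 := h' (cell K N (n - j.1)) ((n + W - j.2) % W) (cell_lt hK (by omega)) h2.1 h2.2
        have e3 := ha (cell K N j.1) j.2
        have e4 := hb' (cell K N (n - j.1)) ((n + W - j.2) % W)
        have e5 : a (cell K N j.1) j.2 * b (cell K N (n - j.1)) ((n + W - j.2) % W) -
            a' (cell K N j.1) j.2 * b' (cell K N (n - j.1)) ((n + W - j.2) % W) =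
            a (cell K N j.1) j.2 * (b (cell K N (n - j.1)) ((n + W - j.2) % W) -
              b' (cell K N (n - j.1)) ((n + W - j.2) % W)) +
            (a (cell K N j.1) j.2 - a' (cell K N j.1) j.2) *
              b' (cell K N (n - j.1)) ((n + W - j.2) % W) := by ring
        rw [e5]
        refine (abs_add_le _ _).trans ?_
        rw [abs_mul, abs_mul, abs_of_nonneg e3.1, abs_of_nonneg e4.1]
        have e6 : a (cell K N j.1) j.2 * |b (cell K N (n - j.1)) ((n + W - j.2) % W) -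
              b' (cell K N (n - j.1)) ((n + W - j.2) % W)| ≤ 1 * θ :=
          mul_le_mul e3.2 e2 (abs_nonneg _) zero_le_one
        have e7 : |a (cell K N j.1) j.2 - a' (cell K N j.1) j.2| *
              b' (cell K N (n - j.1)) ((n + W - j.2) % W) ≤ θ * 1 :=
          mul_le_mul e1 e4.2 e4.1 hθ
        linarith
    _ ≤ 2 * θ := by
        rw [← sum_mul]
        have := Av_weight (W := W) (n := n)
        nlinarith

/-- The means of the counts for the rearranged sets. -/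
theorem star_mean (W K H : ℕ) (hW : 1 ≤ W) (hW2 : 2 ∣ W) (hK : 1 ≤ K) (hH : 1 ≤ H)
    (η : ℝ) (hη : 0 < η) : ∃ N₀ : ℕ, ∀ N : ℕ, N₀ ≤ N →
      ∀ a b : ℕ → ℕ → ℝ, (∀ k r, 0 ≤ a k r ∧ a k r ≤ 1) → (∀ k r, 0 ≤ b k r ∧ b k r ≤ 1) →
      ∀ s : ℕ → ℕ → ℝ, (∀ l c, 0 ≤ s l c ∧ s l c ≤ 1) →
      |wS W H N s (rho (starN W K N a) (starN W K N b)) -
        wS W H N s (Av W K N a b (fun _ _ _ u v => u * v))| ≤ η * N := by
  have hη2 : 0 < η / 2 := by positivity
  obtain ⟨δ, hδ, hb⟩ := both_gen hη2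
  obtain ⟨R₀, K₂, N₁, hK₂, hb⟩ := hb W K H hW hW2 hK hH
  obtain ⟨N₂, hN₂⟩ := star_flat W K (W * R₀.factorial) (K * K₂)
    (Nat.mul_pos hW (Nat.factorial_pos _)) (Nat.mul_pos hK hK₂) (Dvd.intro _ rfl)
    (Dvd.intro _ rfl) δ hδ
  obtain ⟨N₃, hN₃⟩ := star_dns0 W K hW hK (η / 4) (by positivity)
  refine ⟨max N₁ (max N₂ N₃), fun N hN a b ha hb' s hs => ?_⟩
  have hNa : N₁ ≤ N := (le_max_left _ _).trans hN
  have hNb : N₂ ≤ N := (le_max_left _ _).trans ((le_max_right _ _).trans hN)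
  have hNc : N₃ ≤ N := (le_max_right _ _).trans ((le_max_right _ _).trans hN)
  obtain ⟨h1, h2⟩ := hb N hNa (starN W K N a) (starN W K N b) (hN₂ N hNb a ha) (hN₂ N hNb b hb')
    s hs
  have h3 := h1 1 zero_le_one
  have h4 : wS W H N s (RT W K N (dns (starN W K N a) W K N) (dns (starN W K N b) W K N) 1) =
      wS W H N s (Av W K N (dns (starN W K N a) W K N) (dns (starN W K N b) W K N)
        (fun _ _ _ u v => u * v)) := by
    unfold wS
    refine sum_congr rfl fun n _ => ?_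
    rw [rt_large (fun k r => dns_mem _ W K N k r) (fun k r => dns_mem _ W K N k r) le_rfl]
  have h5 : wS W H N s (fun n => min (rho (starN W K N a) (starN W K N b) n) 1) ≤
      wS W H N s (rho (starN W K N a) (starN W K N b)) :=
    wS_mono (fun l c => (hs l c).1) fun n _ _ _ => min_le_left _ _
  have hcl : ∀ n, n ≤ N → |Av W K N (dns (starN W K N a) W K N) (dns (starN W K N b) W K N)
      (fun _ _ _ u v => u * v) n - Av W K N a b (fun _ _ _ u v => u * v) n| ≤ 2 * (η / 4) :=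
    fun n hn => Av_close hK hn (fun k r => dns_mem _ W K N k r) (fun k r => dns_mem _ W K N k r)
      ha hb' (by positivity) (fun k r h1 h2 h3 => hN₃ N hNc a ha k r h1 h2 h3)
      (fun k r h1 h2 h3 => hN₃ N hNc b hb' k r h1 h2 h3)
  have h6 := wS_abs (W := W) (H := H) (N := N) hs (F := Av W K N (dns (starN W K N a) W K N)
    (dns (starN W K N b) W K N) (fun _ _ _ u v => u * v))
    (G := Av W K N a b (fun _ _ _ u v => u * v)) (C := 2 * (η / 4)) (by positivity)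
    (fun n _ hn _ => by
      have := (abs_le.1 (hcl n hn)).2
      linarith)
  have h7 := wS_abs (W := W) (H := H) (N := N) hs (F := Av W K N a b (fun _ _ _ u v => u * v))
    (G := Av W K N (dns (starN W K N a) W K N)
    (dns (starN W K N b) W K N) (fun _ _ _ u v => u * v)) (C := 2 * (η / 4)) (by positivity)
    (fun n _ hn _ => by
      have := (abs_le.1 (hcl n hn)).1
      linarith)
  rw [abs_le]
  constructor <;> linarith

end Pool.Agent.Lib.MP_629a14_nt.Kp.R
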