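import Pool.Agent.Lib.MP_629a14_nt.Kr.Low
import Pool.Agent.Lib.MP_629a14_nt.Kp.All

/-! The means of the counts, for arbitrary sets of primes. -/

set_option autoImplicit false

namespace Pool.Agent.Lib.MP_629a14_nt.Kp.R

open Finset Filter Topology Pool.Agent.Lib.MP_629a14_nt Pool.Agent.Lib.MP_629a14_nt.Rob
open Pool.Agent.Lib.MP_629a14_nt.Ml

open Classical in
theorem cellc_sum (A : Set ℕ) (W K N k r : ℕ) : (cellc A W K N k r : ℝ) =
    ∑ p ∈ (Icc 1 N).filter (fun p => p.Prime ∧ cell K N p = k ∧ p % W = r),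
      (if p ∈ A then (1 : ℝ) else 0) := by
  rw [← sum_filter, sum_const, nsmul_eq_mul, mul_one]
  unfold cellc
  congr 2
  ext p
  constructor
  · intro h
    have h := Finset.mem_filter.1 h
    exact Finset.mem_filter.2 ⟨Finset.mem_filter.2 ⟨h.1, h.2.1, h.2.2.2⟩, h.2.2.1⟩
  · intro h
    have h1 := Finset.mem_filter.1 h
    have h2 := Finset.mem_filter.1 h1.1
    exact Finset.mem_filter.2 ⟨h2.1, h2.2.1, h1.2, h2.2.2⟩

theorem cellc_compl (A : Set ℕ) (W K N k r : ℕ) :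
    (cellc Aᶜ W K N k r : ℝ) = cellc Set.univ W K N k r - cellc A W K N k r := by
  rw [cellc_sum, cellc_sum, cellc_sum, ← sum_sub_distrib]
  refine sum_congr rfl fun p _ => ?_
  by_cases h : p ∈ A
  · rw [if_neg (fun h' : p ∈ Aᶜ => h' h), if_pos (Set.mem_univ p), if_pos h, sub_self]
  · rw [if_pos (show p ∈ Aᶜ from h), if_pos (Set.mem_univ p), if_neg h, sub_zero]

theorem dns_compl {A : Set ℕ} {W K N k r : ℕ} (h : 0 < cellc Set.univ W K N k r) :
    dns Aᶜ W K N k r = 1 - dns A W K N k r := by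
  have h' : (0 : ℝ) < cellc Set.univ W K N k r := by exact_mod_cast h
  unfold dns
  rw [cellc_compl, sub_div, div_self h'.ne']

theorem dns_univ {W K N k r : ℕ} (h : 0 < cellc Set.univ W K N k r) :
    dns Set.univ W K N k r = 1 := by
  have h' : (0 : ℝ) < cellc Set.univ W K N k r := by exact_mod_cast h
  unfold dns
  rw [div_self h'.ne']

theorem cellc_pos {W K N p : ℕ} (hp : p.Prime) (hN : p ≤ N) :
    0 < cellc Set.univ W K N (cell K N p) (p % W) := by
  unfold cellc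
  refine card_pos.2 ⟨p, ?_⟩
  refine (@Finset.mem_filter _ _ (_) _ _).2 ?_
  exact ⟨mem_Icc.2 ⟨hp.one_le, hN⟩, hp, Set.mem_univ _, rfl, rfl⟩

theorem flat_compl {W K W' K' N : ℕ} {A : Set ℕ} {δ : ℝ} (h : Flat W K W' K' N A δ) :
    Flat W K W' K' N Aᶜ δ := by
  unfold Flat at h ⊢
  refine le_trans (le_of_eq ?_) h
  congr 1
  refine sum_congr rfl fun p hp => ?_
  rw [mem_filter, mem_Icc] at hp
  unfold dnp
  rw [dns_compl (cellc_pos hp.2 hp.1.2), dns_compl (cellc_pos hp.2 hp.1.2),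
    sub_sub_sub_cancel_left, abs_sub_comm]

theorem flat_univ {W K W' K' N : ℕ} {δ : ℝ} (h : 0 ≤ δ) : Flat W K W' K' N Set.univ δ := by
  unfold Flat
  have h1 : ∑ p ∈ (Icc 1 N).filter Nat.Prime,
      |dnp Set.univ W' K' N p - dnp Set.univ W K N p| = 0 := by
    refine sum_eq_zero fun p hp => ?_
    rw [mem_filter, mem_Icc] at hp
    unfold dnp
    rw [dns_univ (cellc_pos hp.2 hp.1.2), dns_univ (cellc_pos hp.2 hp.1.2)]
    simp
  rw [h1, mul_zero]
  positivity

/-- `Av` for the complement in the first variable. -/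
theorem Av_congr {W K N n : ℕ} {a b a' b' : ℕ → ℕ → ℝ} {G G' : ℕ → ℕ → ℕ → ℝ → ℝ → ℝ}
    (hK : 1 ≤ K) (hn : n ≤ N)
    (h : ∀ k k' r r', k < K → k' < K → r < W → r.Coprime W → r' < W → r'.Coprime W →
      G k k' r (a k r) (b k' r') = G' k k' r (a' k r) (b' k' r')) :
    Av W K N a b G n = Av W K N a' b' G' n := by
  unfold Av
  congr 1
  refine sum_congr rfl fun y hy => ?_
  rw [mem_Ico] at hy
  unfold prs
  congr 1
  refine sum_congr rfl fun r hr => ?_
  obtain ⟨h1, h2⟩ := adm_co hr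
  exact h _ _ r _ (cell_lt hK (by omega)) (cell_lt hK (by omega)) h1.1 h1.2 h2.1 h2.2

theorem Av_add {W K N n : ℕ} {a b : ℕ → ℕ → ℝ} (G G' : ℕ → ℕ → ℕ → ℝ → ℝ → ℝ) :
    Av W K N a b (fun k k' r u v => G k k' r u v + G' k k' r u v) n =
      Av W K N a b G n + Av W K N a b G' n := by
  rw [Av_eq, Av_eq, Av_eq, ← sum_add_distrib]
  exact sum_congr rfl fun j _ => by ring

theorem Av_one {W K N n : ℕ} {a b : ℕ → ℕ → ℝ} (hW : 1 ≤ W) (hW2 : 2 ∣ W) (hn : Even n)
    (hn1 : 1 ≤ n) : Av W K N a b (fun _ _ _ _ _ => 1) n = 1 - 1 / n := by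
  have hc := adm_card_pos hW hW2 hn.two_dvd
  have hc' : (0 : ℝ) < (adm W n).card := by exact_mod_cast hc
  have hn0 : (0 : ℝ) < n := by exact_mod_cast hn1
  have h1 : ∀ y ∈ Ico 1 n, prs W n (a (cell K N y)) (b (cell K N (n - y)))
      (fun _ _ _ => (1 : ℝ)) = 1 := by
    intro y _
    exact prs_one hc
  unfold Av
  rw [sum_congr rfl h1, sum_const, nsmul_eq_mul, mul_one, Nat.card_Ico, Nat.cast_sub hn1,
    Nat.cast_one, sub_div, div_self hn0.ne']

/-- The sum of all counts. -/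
theorem wS_univ {η : ℝ} (hη : 0 < η) : ∃ N₀ : ℕ, ∀ N : ℕ, N₀ ≤ N → ∀ (W H : ℕ) (s : ℕ → ℕ → ℝ),
    (∀ l c, 0 ≤ s l c ∧ s l c ≤ 1) →
    wS W H N s (rho Set.univ Set.univ) ≤ wS W H N s (fun _ => 1) + η * N := by
  classical
  obtain ⟨C, hC, hC'⟩ := rho_le'
  obtain ⟨ε, hε⟩ : ∃ ε : ℝ, ε = η / (1 + C) := ⟨_, rfl⟩
  have hε0 : 0 < ε := by rw [hε]; positivity
  obtain ⟨N₀, h⟩ := univ_bad hε0
  refine ⟨N₀, fun N hN W H s hs => ?_⟩
  have h1 := wS_exc (W := W) (H := H) (N := N) (F := rho Set.univ Set.univ) (G := fun _ => 1) hs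
    hε0.le hC.le ((Icc 1 N).filter (fun n => Even n ∧ 1 + ε < rho Set.univ Set.univ n))
    (fun n h1 h2 h3 h4 => by
      by_contra hcon
      push Not at hcon
      exact h4 (by
        rw [mem_filter, mem_Icc]
        exact ⟨⟨h1, h2⟩, h3, hcon⟩))
    (fun n _ _ _ => by
      have := hC' Set.univ Set.univ n
      linarith)
  have h2 := mul_le_mul_of_nonneg_left (h N hN) hC.le
  have h3 : ε * N + C * (ε * N) = η * N := by
    rw [hε]
    field_simp
  linarith

theorem inv_sum {η : ℝ} (hη : 0 < η) : ∃ N₀ : ℕ, ∀ N : ℕ, N₀ ≤ N → ∀ (W H : ℕ)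
    (s : ℕ → ℕ → ℝ), (∀ l c, 0 ≤ s l c ∧ s l c ≤ 1) →
    wS W H N s (fun n => 1 / (n : ℝ)) ≤ η * N := by
  classical
  obtain ⟨X, hX⟩ := exists_nat_gt (2 / η)
  obtain ⟨N₀, hN₀⟩ := exists_nat_gt (2 * (X : ℝ) / η)
  refine ⟨N₀, fun N hN W H s hs => ?_⟩
  have hX0 : (0 : ℝ) < X := lt_trans (by positivity) hX
  have h1 := wS_exc (W := W) (H := H) (N := N) (s := s) (F := fun n : ℕ => 1 / (n : ℝ))
    (G := fun _ => 0) (C := 1 / X) (D := 1) hs (by positivity) zero_le_one (range X)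
    (fun n h1 h2 h3 h4 => by
      rw [mem_range, not_lt] at h4
      rw [zero_add]
      exact one_div_le_one_div_of_le hX0 (by exact_mod_cast h4))
    (fun n h1 _ _ => by
      have h5 : (1 : ℝ) ≤ n := by exact_mod_cast h1
      have h6 : 1 / (n : ℝ) ≤ 1 := by
        rw [div_le_one (by linarith)]
        exact h5
      have h7 : (0 : ℝ) < 1 / X := by positivity
      linarith)
  have h2 : wS W H N s (fun _ => 0) = 0 := by
    unfold wS
    simp
  rw [h2, card_range, one_mul] at h1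
  have hN' : (N₀ : ℝ) ≤ N := by exact_mod_cast hN
  have h3 : (X : ℝ) ≤ η / 2 * N := by
    rw [div_lt_iff₀ hη] at hN₀
    nlinarith
  have h4 : 1 / (X : ℝ) ≤ η / 2 := by
    rw [div_le_iff₀ hX0]
    rw [div_lt_iff₀ hη] at hX
    linarith
  have h5 := mul_le_mul_of_nonneg_right h4 (Nat.cast_nonneg (α := ℝ) N)
  linarith

/-- The lower bound for the truncated sums, and the upper bound for the means. -/
theorem both_gen {η : ℝ} (hη : 0 < η) : ∃ δ : ℝ, 0 < δ ∧ ∀ W K H : ℕ, 1 ≤ W → 2 ∣ W → 1 ≤ K →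
    1 ≤ H → ∃ R₀ K₂ N₀ : ℕ, 1 ≤ K₂ ∧ ∀ N : ℕ, N₀ ≤ N → ∀ A B : Set ℕ,
      Flat W K (W * R₀.factorial) (K * K₂) N A δ → Flat W K (W * R₀.factorial) (K * K₂) N B δ →
      ∀ s : ℕ → ℕ → ℝ, (∀ l c, 0 ≤ s l c ∧ s l c ≤ 1) →
        (∀ t : ℝ, 0 ≤ t → wS W H N s (RT W K N (dns A W K N) (dns B W K N) t) ≤
          wS W H N s (fun n => min (rho A B n) t) + η * N) ∧
        wS W H N s (rho A B) ≤
          wS W H N s (Av W K N (dns A W K N) (dns B W K N) (fun _ _ _ u v => u * v)) + η * N := by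
  have hη4 : 0 < η / 4 := by positivity
  obtain ⟨δ, hδ, hlow⟩ := low_gen hη4
  refine ⟨δ, hδ, fun W K H hW hW2 hK hH => ?_⟩
  obtain ⟨R₀, K₂, N₁, hK₂, hlow⟩ := hlow W K H hW hW2 hK hH
  obtain ⟨N₂, hN₂⟩ := full_ev W K hW hK
  obtain ⟨N₃, hN₃⟩ := wS_univ hη4
  obtain ⟨N₄, hN₄⟩ := inv_sum hη4
  refine ⟨R₀, K₂, max (max N₁ N₂) (max N₃ N₄), hK₂, fun N hN A B hA hB s hs => ?_⟩
  have hN1 : N₁ ≤ N := (le_max_left _ _).trans ((le_max_left _ _).trans hN)
  have hN2 : N₂ ≤ N := (le_max_right _ _).trans ((le_max_left _ _).trans hN)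
  have hN3 : N₃ ≤ N := (le_max_left _ _).trans ((le_max_right _ _).trans hN)
  have hN4 : N₄ ≤ N := (le_max_right _ _).trans ((le_max_right _ _).trans hN)
  have hN0 : (0 : ℝ) ≤ N := Nat.cast_nonneg N
  have hηN : 0 ≤ η * N := by positivity
  refine ⟨fun t ht => ?_, ?_⟩
  · have := hlow N hN1 A B hA hB s hs t ht
    linarith
  · have hfull := hN₂ N hN2
    -- the two lower bounds
    have g : ∀ A B : Set ℕ, Flat W K (W * R₀.factorial) (K * K₂) N A δ →
        Flat W K (W * R₀.factorial) (K * K₂) N B δ →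
        wS W H N s (Av W K N (dns A W K N) (dns B W K N) (fun _ _ _ u v => u * v)) ≤
          wS W H N s (rho A B) + η / 4 * N := by
      intro A B hA hB
      have h1 := hlow N hN1 A B hA hB s hs 1 zero_le_one
      have h2 : wS W H N s (RT W K N (dns A W K N) (dns B W K N) 1) =
          wS W H N s (Av W K N (dns A W K N) (dns B W K N) (fun _ _ _ u v => u * v)) := by
        unfold wS
        refine sum_congr rfl fun n _ => ?_
        rw [rt_large (fun k r => dns_mem A W K N k r) (fun k r => dns_mem B W K N k r) le_rfl]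
      have h3 : wS W H N s (fun n => min (rho A B n) 1) ≤ wS W H N s (rho A B) :=
        wS_mono (fun l c => (hs l c).1) fun n _ _ _ => min_le_left _ _
      linarith
    have g1 := g Aᶜ Set.univ (flat_compl hA) (flat_univ hδ.le)
    have g2 := g A Bᶜ hA (flat_compl hB)
    have g3 := hN₃ N hN3 W H s hs
    have g4 := hN₄ N hN4 W H s hs
    have e1 : wS W H N s (rho Set.univ Set.univ) =
        wS W H N s (rho A B) + wS W H N s (rho Aᶜ Set.univ) + wS W H N s (rho A Bᶜ) := by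
      rw [← wS_add, ← wS_add]
      unfold wS
      exact sum_congr rfl fun n _ => by rw [rho_split A B n]
    have e2 : wS W H N s (fun _ => 1) =
        wS W H N s (Av W K N (dns A W K N) (dns B W K N) (fun _ _ _ u v => u * v)) +
        wS W H N s (Av W K N (dns Aᶜ W K N) (dns Set.univ W K N) (fun _ _ _ u v => u * v)) +
        wS W H N s (Av W K N (dns A W K N) (dns Bᶜ W K N) (fun _ _ _ u v => u * v)) +
        wS W H N s (fun n => 1 / (n : ℝ)) := by
      rw [← wS_add, ← wS_add, ← wS_add]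
      unfold wS
      refine sum_congr rfl fun n hn => ?_
      rw [mem_filter, mem_Icc] at hn
      have f1 : Av W K N (dns Aᶜ W K N) (dns Set.univ W K N) (fun _ _ _ u v => u * v) n =
          Av W K N (dns A W K N) (dns B W K N) (fun _ _ _ u _ => 1 - u) n :=
        Av_congr hK hn.1.2 fun k k' r r' h1 h2 h3 h4 h5 h6 => by
          rw [dns_compl (hfull k r h1 h3 h4), dns_univ (hfull k' r' h2 h5 h6), mul_one]
      have f2 : Av W K N (dns A W K N) (dns Bᶜ W K N) (fun _ _ _ u v => u * v) n =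
          Av W K N (dns A W K N) (dns B W K N) (fun _ _ _ u v => u * (1 - v)) n :=
        Av_congr hK hn.1.2 fun k k' r r' h1 h2 h3 h4 h5 h6 => by
          rw [dns_compl (hfull k' r' h2 h5 h6)]
      have f3 := Av_one (K := K) (N := N) (a := dns A W K N) (b := dns B W K N) hW hW2 hn.2 hn.1.1
      have f4 : Av W K N (dns A W K N) (dns B W K N) (fun _ _ _ _ _ => 1) n =
          Av W K N (dns A W K N) (dns B W K N) (fun _ _ _ u v => u * v) n +
          Av W K N (dns A W K N) (dns B W K N) (fun _ _ _ u _ => 1 - u) n +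
          Av W K N (dns A W K N) (dns B W K N) (fun _ _ _ u v => u * (1 - v)) n := by
        rw [← Av_add, ← Av_add]
        congr 1
        funext k k' r u v
        ring
      rw [f4] at f3
      show s (cell H N n) (n % W) * 1 = s (cell H N n) (n % W) *
        (Av W K N (dns A W K N) (dns B W K N) (fun _ _ _ u v => u * v) n +
          Av W K N (dns Aᶜ W K N) (dns Set.univ W K N) (fun _ _ _ u v => u * v) n +
          Av W K N (dns A W K N) (dns Bᶜ W K N) (fun _ _ _ u v => u * v) n + 1 / (n : ℝ))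
      rw [f1, f2, f3, sub_add_cancel]
    linarith

end Pool.Agent.Lib.MP_629a14_nt.Kp.R
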