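import Pool.Agent.Lib.MP_629a14_nt.Kr.Val
import Pool.Agent.Lib.MP_629a14_nt.Kr.Cell

/-! The extremal value as a function of the even number is regular. -/

set_option autoImplicit false

namespace Pool.Agent.Lib.MP_629a14_nt.Kp.R

open Finset Filter Topology Pool.Agent.Lib.MP_629a14_nt Pool.Agent.Lib.MP_629a14_nt.Rob

/-- `Av` changes by at most `(K + 2) h / (n + h)` if `n` is replaced by `n + h`, `W ∣ h`. -/
theorem av_reg {W K N n h : ℕ} {a b : ℕ → ℕ → ℝ} (hK : 1 ≤ K)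
    (ha : ∀ k r, 0 ≤ a k r ∧ a k r ≤ 1) (hb : ∀ k r, 0 ≤ b k r ∧ b k r ≤ 1) (hn : 1 ≤ n)
    (hN : n + h ≤ N) (hW : W ∣ h) (x : ℝ) :
    |Av W K N a b (fun _ _ _ u v => trap u v x) (n + h) -
      Av W K N a b (fun _ _ _ u v => trap u v x) n| ≤ (K + 2) * h / (n + h) := by
  classical
  obtain ⟨P, hP⟩ : ∃ P : ℕ → ℕ → ℝ, P = fun k k' =>
    prs W n (a k) (b k') (fun _ u v => trap u v x) := ⟨_, rfl⟩
  have hP01 : ∀ k k', 0 ≤ P k k' ∧ P k k' ≤ 1 := by
    intro k k'
    rw [hP]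
    exact prs_unit (ha k) (hb k') fun _ u v h1 h2 h3 h4 => trap_mem h1 h2 h3 h4
  have hmod : n + h ≡ n [MOD W] := by
    have h1 : n + h ≡ n + 0 [MOD W] := Nat.ModEq.add_left n ((Nat.modEq_zero_iff_dvd).2 hW)
    rwa [add_zero] at h1
  obtain ⟨S, hS⟩ : ∃ S : ℝ, S = ∑ y ∈ Ico 1 n, P (cell K N y) (cell K N (n - y)) := ⟨_, rfl⟩
  obtain ⟨S', hS'⟩ : ∃ S' : ℝ, S' = ∑ y ∈ Ico 1 (n + h), P (cell K N y) (cell K N (n + h - y)) :=
    ⟨_, rfl⟩
  have e1 : Av W K N a b (fun _ _ _ u v => trap u v x) n = S / n := by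
    rw [hS, hP]
    rfl
  have e2 : Av W K N a b (fun _ _ _ u v => trap u v x) (n + h) = S' / ((n : ℝ) + h) := by
    rw [hS', hP]
    unfold Av
    rw [Nat.cast_add]
    congr 1
    exact sum_congr rfl fun y _ => prs_mod hmod _ _ _
  have hS0 : 0 ≤ S := by
    rw [hS]
    exact sum_nonneg fun y _ => (hP01 _ _).1
  have hS1 : S ≤ n := by
    rw [hS]
    calc ∑ y ∈ Ico 1 n, P (cell K N y) (cell K N (n - y)) ≤ ∑ y ∈ Ico 1 n, (1 : ℝ) :=
          sum_le_sum fun y _ => (hP01 _ _).2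
      _ = ((n - 1 : ℕ) : ℝ) := by rw [sum_const, Nat.card_Ico, nsmul_eq_mul, mul_one]
      _ ≤ n := by exact_mod_cast Nat.sub_le n 1
  have hsplit : S' = ∑ y ∈ Ico 1 n, P (cell K N y) (cell K N (n + h - y)) +
      ∑ y ∈ Ico n (n + h), P (cell K N y) (cell K N (n + h - y)) := by
    rw [hS', sum_Ico_consecutive _ hn (by omega)]
  have h2 : |∑ y ∈ Ico n (n + h), P (cell K N y) (cell K N (n + h - y))| ≤ h := by
    rw [abs_of_nonneg (sum_nonneg fun y _ => (hP01 _ _).1)]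
    calc ∑ y ∈ Ico n (n + h), P (cell K N y) (cell K N (n + h - y)) ≤ ∑ y ∈ Ico n (n + h), (1 : ℝ) :=
          sum_le_sum fun y _ => (hP01 _ _).2
      _ = h := by rw [sum_const, Nat.card_Ico, nsmul_eq_mul, mul_one, Nat.add_sub_cancel_left]
  have hbad : ((Ico 1 n).filter (fun y => cell K N (n - y) ≠ cell K N (n - y + h))).card ≤ h * K := by
    refine le_trans ?_ (bad_card (cell K N) (fun _ _ h => cell_mono h) h 1 n K
      (fun i hi => (cell_lt hK (by omega)).le))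
    refine card_le_card_of_injOn (fun y => n - y) ?_ ?_
    · intro y hy
      obtain ⟨h3, h4⟩ := mem_filter.1 (mem_coe.1 hy)
      rw [mem_Ico] at h3
      exact mem_coe.2 (mem_filter.2 ⟨mem_Ico.2 ⟨show 1 ≤ n - y by omega, show n - y < n by omega⟩, h4⟩)
    · intro y hy z hz hyz
      have h3 := mem_Ico.1 (mem_filter.1 (mem_coe.1 hy)).1
      have h4 := mem_Ico.1 (mem_filter.1 (mem_coe.1 hz)).1
      simp only at hyz
      omega
  have h3 : |∑ y ∈ Ico 1 n, P (cell K N y) (cell K N (n + h - y)) - S| ≤ h * K := by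
    rw [hS, ← sum_sub_distrib]
    refine (abs_sum_le_sum_abs _ _).trans ?_
    have h4 : ∀ y ∈ Ico 1 n, |P (cell K N y) (cell K N (n + h - y)) -
        P (cell K N y) (cell K N (n - y))| ≤
        if cell K N (n - y) ≠ cell K N (n - y + h) then 1 else 0 := by
      intro y hy
      rw [mem_Ico] at hy
      have e3 : n + h - y = n - y + h := by omega
      rw [e3]
      split_ifs with h5
      · have h6 := hP01 (cell K N y) (cell K N (n - y + h))
        have h7 := hP01 (cell K N y) (cell K N (n - y))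
        rw [abs_le]
        constructor <;> linarith [h6.1, h6.2, h7.1, h7.2]
      · rw [not_not] at h5
        rw [h5, sub_self, abs_zero]
    refine (sum_le_sum h4).trans ?_
    rw [sum_boole]
    exact_mod_cast hbad
  have h4 : |S' - S| ≤ (K + 1) * h := by
    have e3 : S' - S = (∑ y ∈ Ico 1 n, P (cell K N y) (cell K N (n + h - y)) - S) +
        ∑ y ∈ Ico n (n + h), P (cell K N y) (cell K N (n + h - y)) := by
      rw [hsplit]
      ring
    rw [e3]
    refine (abs_add_le _ _).trans ?_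
    linarith
  have hn0 : (0 : ℝ) < n := by exact_mod_cast hn
  have hh0 : (0 : ℝ) ≤ h := Nat.cast_nonneg h
  have hnh : (0 : ℝ) < (n : ℝ) + h := by positivity
  rw [e1, e2]
  have e3 : S' / ((n : ℝ) + h) - S / n = ((S' - S) - S / n * h) / ((n : ℝ) + h) := by
    field_simp
    ring
  rw [e3, abs_div, abs_of_pos hnh]
  refine div_le_div_of_nonneg_right ?_ hnh.le
  refine (abs_sub _ _).trans ?_
  have h5 : |S / n * h| ≤ h := by
    rw [abs_of_nonneg (by positivity)]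
    have h6 : S / n ≤ 1 := by
      rw [div_le_one hn0]
      exact hS1
    calc S / n * h ≤ 1 * h := mul_le_mul_of_nonneg_right h6 hh0
      _ = h := one_mul _
  linarith

/-- `Val` changes by at most `Λ (K + 2) h / (n + h)` if `n` is replaced by `n + h`, `W ∣ h`. -/
theorem val_reg {W K N n h : ℕ} {a b : ℕ → ℕ → ℝ} (hK : 1 ≤ K)
    (ha : ∀ k r, 0 ≤ a k r ∧ a k r ≤ 1) (hb : ∀ k r, 0 ≤ b k r ∧ b k r ≤ 1) (hn : 1 ≤ n)
    (hN : n + h ≤ N) (hW : W ∣ h) {C : ℝ} (hC : 1 ≤ C) {φ : ℝ → ℝ} {Λ : ℝ} (hΛ0 : 0 ≤ Λ)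
    (hΛ : ∀ x ∈ Set.Icc 0 C, ∀ y ∈ Set.Icc 0 C, |φ x - φ y| ≤ Λ * |x - y|) :
    |Val W K N a b φ (n + h) - Val W K N a b φ n| ≤ Λ * ((K + 2) * h / (n + h)) := by
  have h0 : ∀ n x, 0 ≤ Av W K N a b (fun _ _ _ u v => trap u v x) n ∧
      Av W K N a b (fun _ _ _ u v => trap u v x) n ≤ C := fun n x => by
    have := Av_unit (W := W) (K := K) (N := N) (n := n) ha hb
      (G := fun _ _ _ u v => trap u v x) fun _ _ _ u v h1 h2 h3 h4 => trap_mem h1 h2 h3 h4
    exact ⟨this.1, this.2.trans hC⟩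
  have hφc : ContinuousOn φ (Set.Icc 0 C) := lip_cont hΛ
  have hint : ∀ n, IntervalIntegrable (fun x => φ (Av W K N a b (fun _ _ _ u v => trap u v x) n))
      MeasureTheory.volume 0 (1 / 2) := by
    intro n
    refine ContinuousOn.intervalIntegrable ?_
    exact hφc.comp av_trap_cont.continuousOn fun x _ => h0 n x
  have h1 : ∀ x, |φ (Av W K N a b (fun _ _ _ u v => trap u v x) (n + h)) -
      φ (Av W K N a b (fun _ _ _ u v => trap u v x) n)| ≤ Λ * ((K + 2) * h / (n + h)) := fun x =>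
    (hΛ _ (h0 _ x) _ (h0 _ x)).trans
      (mul_le_mul_of_nonneg_left (av_reg hK ha hb hn hN hW x) hΛ0)
  have h2 : Val W K N a b φ (n + h) - Val W K N a b φ n =
      2 * ∫ x in (0 : ℝ)..(1 / 2), (φ (Av W K N a b (fun _ _ _ u v => trap u v x) (n + h)) -
        φ (Av W K N a b (fun _ _ _ u v => trap u v x) n)) := by
    unfold Val
    rw [intervalIntegral.integral_sub (hint _) (hint _)]
    ring
  rw [h2, abs_mul, abs_two]
  have h3 := intervalIntegral.norm_integral_le_of_norm_le_const (a := (0 : ℝ)) (b := 1 / 2)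
    (f := fun x => φ (Av W K N a b (fun _ _ _ u v => trap u v x) (n + h)) -
        φ (Av W K N a b (fun _ _ _ u v => trap u v x) n)) (C := Λ * ((K + 2) * h / (n + h)))
    fun x _ => h1 x
  rw [Real.norm_eq_abs] at h3
  have h4 : |(1 : ℝ) / 2 - 0| = 1 / 2 := by norm_num
  rw [h4] at h3
  linarith

end Pool.Agent.Lib.MP_629a14_nt.Kp.R
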